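import Mathlib

/-!
Gunport configurations on grid boards.
-/

set_option autoImplicit false

namespace Pool.Agent.L5helper11.GP

/-- `d` is a domino on the board with the cells `(i, j)`, `i < m`, `j < n`. -/
def IsDomino (m n : ℕ) (d : Finset (ℕ × ℕ)) : Prop :=
  ∃ i j : ℕ, (i < m ∧ j + 1 < n ∧ d = {(i, j), (i, j + 1)}) ∨ (i + 1 < m ∧ j < n ∧ d = {(i, j), (i + 1, j)})

/-- Two cells share an edge. -/
def ShareEdge (a b : ℕ × ℕ) : Prop :=
  (a.1 = b.1 ∧ (a.2 + 1 = b.2 ∨ b.2 + 1 = a.2)) ∨ (a.2 = b.2 ∧ (a.1 + 1 = b.1 ∨ b.1 + 1 = a.1))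

/-- The holes: the cells of the board that are covered by none of the dominoes in `D`. -/
def holes (m n : ℕ) (D : Finset (Finset (ℕ × ℕ))) : Finset (ℕ × ℕ) :=
  (Finset.range m ×ˢ Finset.range n).filter fun c => ∀ d ∈ D, c ∉ d

/-- Gunport configurations: pairwise disjoint dominoes on the board such that no two holes share an edge. -/
structure IsGunport (m n : ℕ) (D : Finset (Finset (ℕ × ℕ))) : Prop where
  domino : ∀ d ∈ D, IsDomino m n d
  disjoint : ∀ d ∈ D, ∀ e ∈ D, d ≠ e → Disjoint d e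
  isolated : ∀ a ∈ holes m n D, ∀ b ∈ holes m n D, ¬ ShareEdge a b

/-- The largest number of holes of a gunport configuration. -/
noncomputable def G (m n : ℕ) : ℕ := sSup {h : ℕ | ∃ D, IsGunport m n D ∧ (holes m n D).card = h}

end Pool.Agent.L5helper11.GP
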