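import Pool.Agent.L5helper11.GP.Main
import Pool.Agent.L5helper11.GP.Stm

/-!
From gunport configurations on the `16 × 14` board to rows of letters, and an example with `72` holes.
-/

set_option autoImplicit false

namespace Pool.Agent.L5helper11.GP

open Finset

section Grid

variable {m n : ℕ} {g : ℕ → ℕ → C}

/-- The conditions at one cell. -/
def CellOK (m n : ℕ) (g : ℕ → ℕ → C) (i j : ℕ) : Prop :=
    (g i j = C.L → j + 1 < n ∧ g i (j + 1) = C.R) ∧ (g i j = C.T → i + 1 < m ∧ g (i + 1) j = C.B) ∧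
    (g i j = C.R → 1 ≤ j ∧ g i (j - 1) = C.L) ∧ (g i j = C.B → 1 ≤ i ∧ g (i - 1) j = C.T) ∧
    (g i j = C.O → j + 1 < n → g i (j + 1) ≠ C.O) ∧ (g i j = C.O → i + 1 < m → g (i + 1) j ≠ C.O)

instance (m n : ℕ) (g : ℕ → ℕ → C) (i j : ℕ) : Decidable (CellOK m n g i j) := by
  unfold CellOK
  infer_instance

/-- A grid of letters which describes dominoes on the board without adjacent holes. -/
def GridOK (m n : ℕ) (g : ℕ → ℕ → C) : Prop := ∀ i < m, ∀ j < n, CellOK m n g i j

/-- The domino which starts at a cell. -/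
def dom (g : ℕ → ℕ → C) (c : ℕ × ℕ) : Finset (ℕ × ℕ) :=
  if g c.1 c.2 = C.L then {(c.1, c.2), (c.1, c.2 + 1)} else {(c.1, c.2), (c.1 + 1, c.2)}

/-- The first cell of the domino of a cell. -/
def own (g : ℕ → ℕ → C) (c : ℕ × ℕ) : ℕ × ℕ :=
  match g c.1 c.2 with
  | C.R => (c.1, c.2 - 1)
  | C.B => (c.1 - 1, c.2)
  | _ => c

/-- The dominoes of a grid. -/
def doms (m n : ℕ) (g : ℕ → ℕ → C) : Finset (Finset (ℕ × ℕ)) :=
  ((range m ×ˢ range n).filter fun c => g c.1 c.2 = C.L ∨ g c.1 c.2 = C.T).image (dom g)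

theorem own_of_mem (h : GridOK m n g) {c x : ℕ × ℕ} (h1 : c.1 < m) (h2 : c.2 < n)
    (hc : g c.1 c.2 = C.L ∨ g c.1 c.2 = C.T) (hx : x ∈ dom g c) :
    own g x = c ∧ x.1 < m ∧ x.2 < n ∧ g x.1 x.2 ≠ C.O := by
  obtain ⟨i, j⟩ := c
  simp only at h1 h2 hc
  have h3 := h i h1 j h2
  rcases hc with hc | hc
  · have h4 := h3.1 hc
    unfold dom at hx
    simp only [hc, if_true, Finset.mem_insert, Finset.mem_singleton] at hx
    rcases hx with rfl | rfl
    · simp [own, hc, h1, h2]
    · simp [own, h4.2, h1, h4.1]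
  · have h4 := h3.2.1 hc
    unfold dom at hx
    rw [hc, if_neg (by decide)] at hx
    simp only [Finset.mem_insert, Finset.mem_singleton] at hx
    rcases hx with rfl | rfl
    · simp [own, hc, h1, h2]
    · simp [own, h4.2, h2, h4.1]

theorem mem_own (h : GridOK m n g) {x : ℕ × ℕ} (h1 : x.1 < m) (h2 : x.2 < n) (hx : g x.1 x.2 ≠ C.O) :
    ∃ d ∈ doms m n g, x ∈ d := by
  obtain ⟨i, j⟩ := x
  simp only at h1 h2 hx
  have h3 := h i h1 j h2
  unfold doms
  simp only [Finset.mem_image, Finset.mem_filter, Finset.mem_product, Finset.mem_range]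
  cases hc : g i j with
  | O => exact absurd hc hx
  | L => exact ⟨_, ⟨(i, j), ⟨⟨h1, h2⟩, Or.inl hc⟩, rfl⟩, by simp [dom, hc]⟩
  | T => exact ⟨_, ⟨(i, j), ⟨⟨h1, h2⟩, Or.inr hc⟩, rfl⟩, by simp [dom, hc]⟩
  | R =>
    have h4 := h3.2.2.1 hc
    refine ⟨_, ⟨(i, j - 1), ⟨⟨h1, by omega⟩, Or.inl h4.2⟩, rfl⟩, ?_⟩
    have h5 : j - 1 + 1 = j := by omega
    simp [dom, h4.2, h5]
  | B =>
    have h4 := h3.2.2.2.1 hc
    refine ⟨_, ⟨(i - 1, j), ⟨⟨by omega, h2⟩, Or.inr h4.2⟩, rfl⟩, ?_⟩
    have h5 : i - 1 + 1 = i := by omega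
    simp [dom, h4.2, h5]

theorem holes_doms (h : GridOK m n g) :
    holes m n (doms m n g) = (range m ×ˢ range n).filter fun c => g c.1 c.2 = C.O := by
  unfold holes
  refine Finset.filter_congr fun x hx => ?_
  rw [Finset.mem_product, Finset.mem_range, Finset.mem_range] at hx
  constructor
  · intro h1
    by_contra h2
    obtain ⟨d, hd, hxd⟩ := mem_own h hx.1 hx.2 h2
    exact h1 d hd hxd
  · intro h1 d hd hxd
    unfold doms at hd
    simp only [Finset.mem_image, Finset.mem_filter, Finset.mem_product, Finset.mem_range] at hd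
    obtain ⟨c, ⟨⟨h2, h3⟩, h4⟩, rfl⟩ := hd
    exact (own_of_mem h h2 h3 h4 hxd).2.2.2 h1

theorem isGunport_doms (h : GridOK m n g) : IsGunport m n (doms m n g) := by
  refine ⟨?_, ?_, ?_⟩
  · intro d hd
    unfold doms at hd
    simp only [Finset.mem_image, Finset.mem_filter, Finset.mem_product, Finset.mem_range] at hd
    obtain ⟨c, ⟨⟨h2, h3⟩, h4⟩, rfl⟩ := hd
    obtain ⟨i, j⟩ := c
    simp only at h2 h3 h4
    rcases h4 with h4 | h4
    · exact ⟨i, j, Or.inl ⟨h2, ((h i h2 j h3).1 h4).1, by simp [dom, h4]⟩⟩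
    · exact ⟨i, j, Or.inr ⟨((h i h2 j h3).2.1 h4).1, h3, by simp [dom, h4]⟩⟩
  · intro d hd e he hde
    unfold doms at hd he
    simp only [Finset.mem_image, Finset.mem_filter, Finset.mem_product, Finset.mem_range] at hd he
    obtain ⟨c, ⟨⟨h2, h3⟩, h4⟩, rfl⟩ := hd
    obtain ⟨c', ⟨⟨h2', h3'⟩, h4'⟩, rfl⟩ := he
    rw [Finset.disjoint_left]
    intro x hx hx'
    apply hde
    rw [← (own_of_mem h h2 h3 h4 hx).1, ← (own_of_mem h h2' h3' h4' hx').1]
  · rw [holes_doms h]
    intro a ha b hb hab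
    simp only [Finset.mem_filter, Finset.mem_product, Finset.mem_range] at ha hb
    obtain ⟨i, j⟩ := a
    obtain ⟨i', j'⟩ := b
    simp only at ha hb
    rcases hab with ⟨h1, h2⟩ | ⟨h1, h2⟩
    · simp only at h1 h2
      subst h1
      rcases h2 with rfl | rfl
      · exact (h i ha.1.1 j ha.1.2).2.2.2.2.1 ha.2 hb.1.2 hb.2
      · exact (h i hb.1.1 j' hb.1.2).2.2.2.2.1 hb.2 ha.1.2 ha.2
    · simp only at h1 h2
      subst h1
      rcases h2 with rfl | rfl
      · exact (h i ha.1.1 j ha.1.2).2.2.2.2.2 ha.2 hb.1.1 hb.2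
      · exact (h i' hb.1.1 j hb.1.2).2.2.2.2.2 hb.2 ha.1.1 ha.2

end Grid

open C in
/-- A configuration with `72` holes. -/
def ex : List (List C) := [[L, R, L, R, L, R, L, R, O, L, R, O, T, O],
  [O, L, R, O, T, O, T, O, T, O, L, R, B, T],
  [L, R, O, T, B, T, B, T, B, T, O, T, O, B],
  [O, L, R, B, O, B, O, B, O, B, T, B, T, O],
  [T, O, T, O, T, O, T, O, T, O, B, O, B, T],
  [B, T, B, T, B, T, B, T, B, T, O, T, O, B],
  [O, B, O, B, O, B, O, B, O, B, T, B, T, O],
  [T, O, T, O, T, O, T, O, T, O, B, O, B, T],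
  [B, T, B, T, B, T, B, T, B, T, O, T, O, B],
  [O, B, O, B, O, B, O, B, O, B, T, B, T, O],
  [T, O, T, O, T, O, T, O, T, O, B, O, B, T],
  [B, T, B, T, B, T, B, T, B, T, O, T, O, B],
  [O, B, O, B, O, B, O, B, O, B, T, B, T, O],
  [T, O, T, O, T, O, T, O, T, O, B, O, B, T],
  [B, T, B, T, B, T, B, T, B, T, L, R, O, B],
  [O, B, O, B, O, B, O, B, O, B, O, L, R, O]]

/-- The letters of the example. -/
def exg (i j : ℕ) : C := (ex.getD i []).getD j C.O

set_option maxRecDepth 100000 in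
theorem exg_ok : GridOK 16 14 exg := by unfold GridOK; decide +kernel

set_option maxRecDepth 100000 in
theorem exg_card : ((range 16 ×ˢ range 14).filter fun c => exg c.1 c.2 = C.O).card = 72 := by decide +kernel

section Config

variable {D : Finset (Finset (ℕ × ℕ))}

/-- The letters of a configuration, shifted by one column. -/
def tt (D : Finset (Finset (ℕ × ℕ))) (i : ℕ) : ℕ → C
  | 0 => C.R
  | j + 1 =>
    if {(i, j), (i, j + 1)} ∈ D then C.L
    else if 1 ≤ j ∧ {(i, j - 1), (i, j)} ∈ D then C.R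
    else if {(i, j), (i + 1, j)} ∈ D then C.T
    else if 1 ≤ i ∧ {(i - 1, j), (i, j)} ∈ D then C.B
    else C.O

theorem tt_succ (i j : ℕ) : tt D i (j + 1) =
    if {(i, j), (i, j + 1)} ∈ D then C.L
    else if 1 ≤ j ∧ {(i, j - 1), (i, j)} ∈ D then C.R
    else if {(i, j), (i + 1, j)} ∈ D then C.T
    else if 1 ≤ i ∧ {(i - 1, j), (i, j)} ∈ D then C.B
    else C.O := rfl

theorem excl (h : IsGunport 16 14 D) {d e : Finset (ℕ × ℕ)} {c : ℕ × ℕ} (hd : d ∈ D) (he : e ∈ D) (h1 : c ∈ d)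
    (h2 : c ∈ e) {x : ℕ × ℕ} (hx : x ∈ d) : x ∈ e := by
  by_contra hcon
  have h3 : d ≠ e := fun h => hcon (h ▸ hx)
  exact (Finset.disjoint_left.1 (h.disjoint d hd e he h3)) h1 h2

theorem in_board (h : IsGunport 16 14 D) {d : Finset (ℕ × ℕ)} (hd : d ∈ D) {c : ℕ × ℕ} (hc : c ∈ d) :
    c.1 < 16 ∧ c.2 < 14 := by
  obtain ⟨i, j, ⟨h1, h2, rfl⟩ | ⟨h1, h2, rfl⟩⟩ := h.domino d hd
  · simp only [Finset.mem_insert, Finset.mem_singleton] at hc
    rcases hc with rfl | rfl <;> simp only <;> omega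
  · simp only [Finset.mem_insert, Finset.mem_singleton] at hc
    rcases hc with rfl | rfl <;> simp only <;> omega

theorem tt_L (i j : ℕ) : tt D i (j + 1) = C.L ↔ {(i, j), (i, j + 1)} ∈ D := by
  rw [tt_succ]
  split_ifs <;> simp_all

theorem tt_R (h : IsGunport 16 14 D) (i j : ℕ) :
    tt D i (j + 1) = C.R ↔ 1 ≤ j ∧ {(i, j - 1), (i, j)} ∈ D := by
  rw [tt_succ]
  split_ifs with h1 h2 h3 h4
  · refine ⟨fun h => by simp at h, fun h2 => ?_⟩
    have := excl h h1 h2.2 (c := (i, j)) (by simp) (by simp) (x := (i, j + 1)) (by simp)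
    simp at this
    omega
  all_goals simp_all

theorem tt_T (h : IsGunport 16 14 D) (i j : ℕ) :
    tt D i (j + 1) = C.T ↔ {(i, j), (i + 1, j)} ∈ D := by
  rw [tt_succ]
  split_ifs with h1 h2 h3 h4
  · refine ⟨fun h => by simp at h, fun h2 => ?_⟩
    have := excl h h1 h2 (c := (i, j)) (by simp) (by simp) (x := (i, j + 1)) (by simp)
    simp at this
  · refine ⟨fun h => by simp at h, fun h3 => ?_⟩
    have := excl h h3 h2.2 (c := (i, j)) (by simp) (by simp) (x := (i + 1, j)) (by simp)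
    simp at this
  all_goals simp_all

theorem tt_B (h : IsGunport 16 14 D) (i j : ℕ) :
    tt D i (j + 1) = C.B ↔ 1 ≤ i ∧ {(i - 1, j), (i, j)} ∈ D := by
  rw [tt_succ]
  split_ifs with h1 h2 h3 h4
  · refine ⟨fun h => by simp at h, fun h2 => ?_⟩
    have := excl h h1 h2.2 (c := (i, j)) (by simp) (by simp) (x := (i, j + 1)) (by simp)
    simp at this
  · refine ⟨fun h => by simp at h, fun h3 => ?_⟩
    have := excl h h2.2 h3.2 (c := (i, j)) (by simp) (by simp) (x := (i, j - 1)) (by simp)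
    simp at this
    omega
  · refine ⟨fun h => by simp at h, fun h4 => ?_⟩
    have := excl h h3 h4.2 (c := (i, j)) (by simp) (by simp) (x := (i + 1, j)) (by simp)
    simp at this
    omega
  all_goals simp_all

theorem tt_O (h : IsGunport 16 14 D) {i j : ℕ} (hi : i < 16) (hj : j < 14) :
    tt D i (j + 1) = C.O ↔ (i, j) ∈ holes 16 14 D := by
  unfold holes
  simp only [Finset.mem_filter, Finset.mem_product, Finset.mem_range]
  constructor
  · intro h0
    refine ⟨⟨hi, hj⟩, fun d hd hc => ?_⟩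
    obtain ⟨i', j', ⟨h1, h2, rfl⟩ | ⟨h1, h2, rfl⟩⟩ := h.domino d hd
    · simp only [Finset.mem_insert, Finset.mem_singleton, Prod.mk.injEq] at hc
      rcases hc with ⟨rfl, rfl⟩ | ⟨rfl, rfl⟩
      · rw [(tt_L i j).2 hd] at h0; exact absurd h0 (by decide)
      · have := (tt_R h i (j' + 1)).2 ⟨by omega, by simpa using hd⟩
        rw [this] at h0; exact absurd h0 (by decide)
    · simp only [Finset.mem_insert, Finset.mem_singleton, Prod.mk.injEq] at hc
      rcases hc with ⟨rfl, rfl⟩ | ⟨rfl, rfl⟩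
      · rw [(tt_T h i j).2 hd] at h0; exact absurd h0 (by decide)
      · have := (tt_B h (i' + 1) j).2 ⟨by omega, by simpa using hd⟩
        rw [this] at h0; exact absurd h0 (by decide)
  · rintro ⟨_, h1⟩
    cases hc : tt D i (j + 1) with
    | O => rfl
    | L => exact absurd (by simp) (h1 _ ((tt_L i j).1 hc))
    | R => exact absurd (by simp) (h1 _ ((tt_R h i j).1 hc).2)
    | T => exact absurd (by simp) (h1 _ ((tt_T h i j).1 hc))
    | B => exact absurd (by simp) (h1 _ ((tt_B h i j).1 hc).2)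

theorem good_tt (h : IsGunport 16 14 D) : Good (tt D) := by
  refine ⟨?_, ?_, ?_, ?_⟩
  · intro i hi
    refine ⟨rfl, ?_, ?_, ?_⟩
    · intro h1
      have h2 := (tt_L i 13).1 h1
      have h3 := in_board h h2 (c := (i, 13 + 1)) (by simp)
      simp at h3
    · intro j hj
      rcases j with _ | j
      · have h0 : tt D i 0 = C.R := rfl
        rw [h0, tt_R h]
        simp
      · rw [tt_L, tt_R h]
        simp
    · rintro j hj ⟨h1, h2⟩
      rcases j with _ | j
      · have h0 : tt D i 0 = C.R := rfl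
        rw [h0] at h1
        exact absurd h1 (by decide)
      · rw [tt_O h hi (by omega)] at h1 h2
        exact h.isolated _ h1 _ h2 (Or.inl ⟨rfl, Or.inl rfl⟩)
  · intro i hi
    refine ⟨?_, ?_⟩
    · intro j hj
      rcases j with _ | j
      · have h0 : ∀ i, tt D i 0 = C.R := fun _ => rfl
        rw [h0, h0]
        simp
      · rw [tt_T h, tt_B h]
        simp
    · rintro j hj ⟨h1, h2⟩
      rcases j with _ | j
      · have h0 : tt D i 0 = C.R := rfl
        rw [h0] at h1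
        exact absurd h1 (by decide)
      · rw [tt_O h (by omega) (by omega)] at h1 h2
        exact h.isolated _ h1 _ h2 (Or.inr ⟨rfl, Or.inl rfl⟩)
  · intro j _ h1
    rcases j with _ | j
    · have h0 : tt D 0 0 = C.R := rfl
      rw [h0] at h1
      exact absurd h1 (by decide)
    · rw [tt_B h] at h1
      omega
  · intro j _ h1
    rcases j with _ | j
    · have h0 : tt D 15 0 = C.R := rfl
      rw [h0] at h1
      exact absurd h1 (by decide)
    · rw [tt_T h] at h1
      have h3 := in_board h h1 (c := (15 + 1, j)) (by simp)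
      simp at h3

theorem card_holes (h : IsGunport 16 14 D) :
    ((holes 16 14 D).card : ℤ) = ∑ i ∈ range 16, ct C.O (tt D i) 14 := by
  have h1 : holes 16 14 D = (range 16 ×ˢ range 14).filter fun c => tt D c.1 (c.2 + 1) = C.O := by
    ext ⟨i, j⟩
    rw [Finset.mem_filter, Finset.mem_product, Finset.mem_range, Finset.mem_range]
    constructor
    · intro hx
      have hb : i < 16 ∧ j < 14 := by
        unfold holes at hx
        simpa using (Finset.mem_filter.1 hx).1
      exact ⟨hb, (tt_O h hb.1 hb.2).2 hx⟩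
    · rintro ⟨hb, hx⟩
      exact (tt_O h hb.1 hb.2).1 hx
  rw [h1, Finset.card_filter, Finset.sum_product]
  push_cast
  rfl

theorem holes_le (h : IsGunport 16 14 D) : (holes 16 14 D).card ≤ 72 := by
  have h1 := bound (good_tt h)
  rw [← card_holes h] at h1
  exact_mod_cast h1

end Config

/-- The largest number of holes on the `16 × 14` board is `72`. -/
theorem isGreatest : IsGreatest {h : ℕ | ∃ D, IsGunport 16 14 D ∧ (holes 16 14 D).card = h} 72 := by
  refine ⟨⟨doms 16 14 exg, isGunport_doms exg_ok, ?_⟩, ?_⟩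
  · rw [holes_doms exg_ok]
    exact exg_card
  · rintro h ⟨D, hD, rfl⟩
    exact holes_le hD

theorem G_eq : G 16 14 = 72 := isGreatest.csSup_eq

end Pool.Agent.L5helper11.GP
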