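import Mathlib.Data.Nat.Notation
import Mathlib.Tactic.TypeStar

/-!
Row words of gunport configurations, and the search used to check the certificate.
-/

set_option autoImplicit false

namespace Pool.Agent.L5helper11.GP

/-- The state of a cell: hole, left or right half of a horizontal domino, top or bottom half of a vertical domino. -/
inductive C : Type
  | O | L | R | T | B
deriving DecidableEq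

/-- Search trees with keys and values. -/
inductive Tr : Type
  | E : Tr
  | N : Tr → ℕ → ℕ → Tr → Tr

namespace Tr

/-- `look t k v`: the key `k` is found by binary search, with a value `≤ v`. -/
def look : Tr → ℕ → ℕ → Bool
  | E, _, _ => false
  | N l k' v' r, k, v =>
    cond (Nat.beq k k') (Nat.ble v' v) (cond (Nat.ble k k') (look l k v) (look r k v))

/-- All entries satisfy `f`. -/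
def all (f : ℕ → ℕ → Bool) : Tr → Bool
  | E => true
  | N l k v r => cond (f k v) (cond (all f l) (all f r) false) false

end Tr

/-- The letter with a given number. -/
def toC : ℕ → C
  | 0 => C.O
  | 1 => C.L
  | 2 => C.R
  | 3 => C.T
  | _ => C.B

/-- The number of a letter. -/
def num : C → ℕ
  | C.O => nat_lit 0
  | C.L => nat_lit 1
  | C.R => nat_lit 2
  | C.T => nat_lit 3
  | C.B => nat_lit 4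

/-- The number of the letter turned upside down. -/
def numF : C → ℕ
  | C.O => nat_lit 0
  | C.L => nat_lit 1
  | C.R => nat_lit 2
  | C.T => nat_lit 4
  | C.B => nat_lit 3

/-- Memory of the search: `P`, `M`: a horizontal domino was started in the previous column (with, without a hole
above); `H`: a hole in the previous column; `N`: none of these. -/
inductive Q : Type
  | N | H | P | M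
deriving DecidableEq

/-- Budgets. -/
inductive Bd : Type
  | b0 | b1 | b2 | b3 | b4
deriving DecidableEq

/-- Lists of options: new letter, new memory, new budget. -/
inductive Op : Type
  | nil : Op
  | cons : C → Q → Bd → Op → Op

/-- The options for the next row. -/
def tblA : Q → C → Bd → Op
  | Q.N, C.O, Bd.b0 => (Op.cons C.L Q.P Bd.b0 (Op.cons C.T Q.N Bd.b0 Op.nil))
  | Q.N, C.O, Bd.b1 => (Op.cons C.L Q.P Bd.b1 (Op.cons C.T Q.N Bd.b1 Op.nil))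
  | Q.N, C.O, Bd.b2 => (Op.cons C.L Q.P Bd.b2 (Op.cons C.T Q.N Bd.b2 Op.nil))
  | Q.N, C.O, Bd.b3 => (Op.cons C.L Q.P Bd.b3 (Op.cons C.T Q.N Bd.b3 Op.nil))
  | Q.N, C.O, Bd.b4 => (Op.cons C.L Q.P Bd.b4 (Op.cons C.T Q.N Bd.b4 Op.nil))
  | Q.N, C.L, Bd.b0 => (Op.cons C.O Q.H Bd.b0 (Op.cons C.L Q.M Bd.b0 Op.nil))
  | Q.N, C.L, Bd.b1 => (Op.cons C.O Q.H Bd.b1 (Op.cons C.L Q.M Bd.b1 (Op.cons C.T Q.N Bd.b0 Op.nil)))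
  | Q.N, C.L, Bd.b2 => (Op.cons C.O Q.H Bd.b2 (Op.cons C.L Q.M Bd.b2 (Op.cons C.T Q.N Bd.b1 Op.nil)))
  | Q.N, C.L, Bd.b3 => (Op.cons C.O Q.H Bd.b3 (Op.cons C.L Q.M Bd.b3 (Op.cons C.T Q.N Bd.b2 Op.nil)))
  | Q.N, C.L, Bd.b4 => (Op.cons C.O Q.H Bd.b4 (Op.cons C.L Q.M Bd.b4 (Op.cons C.T Q.N Bd.b3 Op.nil)))
  | Q.N, C.R, Bd.b0 => (Op.cons C.O Q.H Bd.b0 Op.nil)
  | Q.N, C.R, Bd.b1 => (Op.cons C.O Q.H Bd.b1 (Op.cons C.L Q.M Bd.b0 Op.nil))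
  | Q.N, C.R, Bd.b2 => (Op.cons C.O Q.H Bd.b2 (Op.cons C.L Q.M Bd.b1 (Op.cons C.T Q.N Bd.b0 Op.nil)))
  | Q.N, C.R, Bd.b3 => (Op.cons C.O Q.H Bd.b3 (Op.cons C.L Q.M Bd.b2 (Op.cons C.T Q.N Bd.b1 Op.nil)))
  | Q.N, C.R, Bd.b4 => (Op.cons C.O Q.H Bd.b4 (Op.cons C.L Q.M Bd.b3 (Op.cons C.T Q.N Bd.b2 Op.nil)))
  | Q.N, C.T, Bd.b0 => (Op.cons C.B Q.N Bd.b0 Op.nil)
  | Q.N, C.T, Bd.b1 => (Op.cons C.B Q.N Bd.b1 Op.nil)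
  | Q.N, C.T, Bd.b2 => (Op.cons C.B Q.N Bd.b2 Op.nil)
  | Q.N, C.T, Bd.b3 => (Op.cons C.B Q.N Bd.b3 Op.nil)
  | Q.N, C.T, Bd.b4 => (Op.cons C.B Q.N Bd.b4 Op.nil)
  | Q.N, C.B, Bd.b0 => (Op.cons C.O Q.H Bd.b0 Op.nil)
  | Q.N, C.B, Bd.b1 => (Op.cons C.O Q.H Bd.b1 (Op.cons C.L Q.M Bd.b0 Op.nil))
  | Q.N, C.B, Bd.b2 => (Op.cons C.O Q.H Bd.b2 (Op.cons C.L Q.M Bd.b1 (Op.cons C.T Q.N Bd.b0 Op.nil)))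
  | Q.N, C.B, Bd.b3 => (Op.cons C.O Q.H Bd.b3 (Op.cons C.L Q.M Bd.b2 (Op.cons C.T Q.N Bd.b1 Op.nil)))
  | Q.N, C.B, Bd.b4 => (Op.cons C.O Q.H Bd.b4 (Op.cons C.L Q.M Bd.b3 (Op.cons C.T Q.N Bd.b2 Op.nil)))
  | Q.H, C.O, Bd.b0 => (Op.cons C.L Q.P Bd.b0 (Op.cons C.T Q.N Bd.b0 Op.nil))
  | Q.H, C.O, Bd.b1 => (Op.cons C.L Q.P Bd.b1 (Op.cons C.T Q.N Bd.b1 Op.nil))
  | Q.H, C.O, Bd.b2 => (Op.cons C.L Q.P Bd.b2 (Op.cons C.T Q.N Bd.b2 Op.nil))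
  | Q.H, C.O, Bd.b3 => (Op.cons C.L Q.P Bd.b3 (Op.cons C.T Q.N Bd.b3 Op.nil))
  | Q.H, C.O, Bd.b4 => (Op.cons C.L Q.P Bd.b4 (Op.cons C.T Q.N Bd.b4 Op.nil))
  | Q.H, C.L, Bd.b0 => (Op.cons C.L Q.M Bd.b0 Op.nil)
  | Q.H, C.L, Bd.b1 => (Op.cons C.L Q.M Bd.b1 (Op.cons C.T Q.N Bd.b0 Op.nil))
  | Q.H, C.L, Bd.b2 => (Op.cons C.L Q.M Bd.b2 (Op.cons C.T Q.N Bd.b1 Op.nil))
  | Q.H, C.L, Bd.b3 => (Op.cons C.L Q.M Bd.b3 (Op.cons C.T Q.N Bd.b2 Op.nil))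
  | Q.H, C.L, Bd.b4 => (Op.cons C.L Q.M Bd.b4 (Op.cons C.T Q.N Bd.b3 Op.nil))
  | Q.H, C.R, Bd.b0 => (Op.cons C.L Q.M Bd.b0 Op.nil)
  | Q.H, C.R, Bd.b1 => (Op.cons C.L Q.M Bd.b1 (Op.cons C.T Q.N Bd.b0 Op.nil))
  | Q.H, C.R, Bd.b2 => (Op.cons C.L Q.M Bd.b2 (Op.cons C.T Q.N Bd.b1 Op.nil))
  | Q.H, C.R, Bd.b3 => (Op.cons C.L Q.M Bd.b3 (Op.cons C.T Q.N Bd.b2 Op.nil))
  | Q.H, C.R, Bd.b4 => (Op.cons C.L Q.M Bd.b4 (Op.cons C.T Q.N Bd.b3 Op.nil))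
  | Q.H, C.T, Bd.b0 => (Op.cons C.B Q.N Bd.b0 Op.nil)
  | Q.H, C.T, Bd.b1 => (Op.cons C.B Q.N Bd.b1 Op.nil)
  | Q.H, C.T, Bd.b2 => (Op.cons C.B Q.N Bd.b2 Op.nil)
  | Q.H, C.T, Bd.b3 => (Op.cons C.B Q.N Bd.b3 Op.nil)
  | Q.H, C.T, Bd.b4 => (Op.cons C.B Q.N Bd.b4 Op.nil)
  | Q.H, C.B, Bd.b0 => Op.nil
  | Q.H, C.B, Bd.b1 => (Op.cons C.L Q.M Bd.b0 Op.nil)
  | Q.H, C.B, Bd.b2 => (Op.cons C.L Q.M Bd.b1 (Op.cons C.T Q.N Bd.b0 Op.nil))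
  | Q.H, C.B, Bd.b3 => (Op.cons C.L Q.M Bd.b2 (Op.cons C.T Q.N Bd.b1 Op.nil))
  | Q.H, C.B, Bd.b4 => (Op.cons C.L Q.M Bd.b3 (Op.cons C.T Q.N Bd.b2 Op.nil))
  | Q.P, C.O, Bd.b0 => (Op.cons C.R Q.N Bd.b0 Op.nil)
  | Q.P, C.O, Bd.b1 => (Op.cons C.R Q.N Bd.b1 Op.nil)
  | Q.P, C.O, Bd.b2 => (Op.cons C.R Q.N Bd.b2 Op.nil)
  | Q.P, C.O, Bd.b3 => (Op.cons C.R Q.N Bd.b3 Op.nil)
  | Q.P, C.O, Bd.b4 => (Op.cons C.R Q.N Bd.b4 Op.nil)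
  | Q.P, C.L, Bd.b0 => (Op.cons C.R Q.N Bd.b0 Op.nil)
  | Q.P, C.L, Bd.b1 => (Op.cons C.R Q.N Bd.b1 Op.nil)
  | Q.P, C.L, Bd.b2 => (Op.cons C.R Q.N Bd.b2 Op.nil)
  | Q.P, C.L, Bd.b3 => (Op.cons C.R Q.N Bd.b3 Op.nil)
  | Q.P, C.L, Bd.b4 => (Op.cons C.R Q.N Bd.b4 Op.nil)
  | Q.P, C.R, Bd.b0 => Op.nil
  | Q.P, C.R, Bd.b1 => (Op.cons C.R Q.N Bd.b0 Op.nil)
  | Q.P, C.R, Bd.b2 => (Op.cons C.R Q.N Bd.b1 Op.nil)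
  | Q.P, C.R, Bd.b3 => (Op.cons C.R Q.N Bd.b2 Op.nil)
  | Q.P, C.R, Bd.b4 => (Op.cons C.R Q.N Bd.b3 Op.nil)
  | Q.P, C.T, Bd.b0 => Op.nil
  | Q.P, C.T, Bd.b1 => Op.nil
  | Q.P, C.T, Bd.b2 => Op.nil
  | Q.P, C.T, Bd.b3 => Op.nil
  | Q.P, C.T, Bd.b4 => Op.nil
  | Q.P, C.B, Bd.b0 => Op.nil
  | Q.P, C.B, Bd.b1 => (Op.cons C.R Q.N Bd.b0 Op.nil)
  | Q.P, C.B, Bd.b2 => (Op.cons C.R Q.N Bd.b1 Op.nil)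
  | Q.P, C.B, Bd.b3 => (Op.cons C.R Q.N Bd.b2 Op.nil)
  | Q.P, C.B, Bd.b4 => (Op.cons C.R Q.N Bd.b3 Op.nil)
  | Q.M, C.O, Bd.b0 => (Op.cons C.R Q.N Bd.b0 Op.nil)
  | Q.M, C.O, Bd.b1 => (Op.cons C.R Q.N Bd.b1 Op.nil)
  | Q.M, C.O, Bd.b2 => (Op.cons C.R Q.N Bd.b2 Op.nil)
  | Q.M, C.O, Bd.b3 => (Op.cons C.R Q.N Bd.b3 Op.nil)
  | Q.M, C.O, Bd.b4 => (Op.cons C.R Q.N Bd.b4 Op.nil)
  | Q.M, C.L, Bd.b0 => Op.nil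
  | Q.M, C.L, Bd.b1 => (Op.cons C.R Q.N Bd.b0 Op.nil)
  | Q.M, C.L, Bd.b2 => (Op.cons C.R Q.N Bd.b1 Op.nil)
  | Q.M, C.L, Bd.b3 => (Op.cons C.R Q.N Bd.b2 Op.nil)
  | Q.M, C.L, Bd.b4 => (Op.cons C.R Q.N Bd.b3 Op.nil)
  | Q.M, C.R, Bd.b0 => Op.nil
  | Q.M, C.R, Bd.b1 => Op.nil
  | Q.M, C.R, Bd.b2 => (Op.cons C.R Q.N Bd.b0 Op.nil)
  | Q.M, C.R, Bd.b3 => (Op.cons C.R Q.N Bd.b1 Op.nil)
  | Q.M, C.R, Bd.b4 => (Op.cons C.R Q.N Bd.b2 Op.nil)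
  | Q.M, C.T, Bd.b0 => Op.nil
  | Q.M, C.T, Bd.b1 => Op.nil
  | Q.M, C.T, Bd.b2 => Op.nil
  | Q.M, C.T, Bd.b3 => Op.nil
  | Q.M, C.T, Bd.b4 => Op.nil
  | Q.M, C.B, Bd.b0 => Op.nil
  | Q.M, C.B, Bd.b1 => Op.nil
  | Q.M, C.B, Bd.b2 => (Op.cons C.R Q.N Bd.b0 Op.nil)
  | Q.M, C.B, Bd.b3 => (Op.cons C.R Q.N Bd.b1 Op.nil)
  | Q.M, C.B, Bd.b4 => (Op.cons C.R Q.N Bd.b2 Op.nil)

/-- The options for the last row. -/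
def tblE : Q → C → Bd → Op
  | Q.N, C.O, Bd.b0 => Op.nil
  | Q.N, C.O, Bd.b1 => (Op.cons C.L Q.P Bd.b0 Op.nil)
  | Q.N, C.O, Bd.b2 => (Op.cons C.L Q.P Bd.b1 Op.nil)
  | Q.N, C.O, Bd.b3 => (Op.cons C.L Q.P Bd.b2 Op.nil)
  | Q.N, C.O, Bd.b4 => (Op.cons C.L Q.P Bd.b3 Op.nil)
  | Q.N, C.L, Bd.b0 => (Op.cons C.O Q.H Bd.b0 Op.nil)
  | Q.N, C.L, Bd.b1 => (Op.cons C.O Q.H Bd.b1 (Op.cons C.L Q.M Bd.b0 Op.nil))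
  | Q.N, C.L, Bd.b2 => (Op.cons C.O Q.H Bd.b2 (Op.cons C.L Q.M Bd.b1 Op.nil))
  | Q.N, C.L, Bd.b3 => (Op.cons C.O Q.H Bd.b3 (Op.cons C.L Q.M Bd.b2 Op.nil))
  | Q.N, C.L, Bd.b4 => (Op.cons C.O Q.H Bd.b4 (Op.cons C.L Q.M Bd.b3 Op.nil))
  | Q.N, C.R, Bd.b0 => (Op.cons C.O Q.H Bd.b0 Op.nil)
  | Q.N, C.R, Bd.b1 => (Op.cons C.O Q.H Bd.b1 Op.nil)
  | Q.N, C.R, Bd.b2 => (Op.cons C.O Q.H Bd.b2 (Op.cons C.L Q.M Bd.b0 Op.nil))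
  | Q.N, C.R, Bd.b3 => (Op.cons C.O Q.H Bd.b3 (Op.cons C.L Q.M Bd.b1 Op.nil))
  | Q.N, C.R, Bd.b4 => (Op.cons C.O Q.H Bd.b4 (Op.cons C.L Q.M Bd.b2 Op.nil))
  | Q.N, C.T, Bd.b0 => Op.nil
  | Q.N, C.T, Bd.b1 => (Op.cons C.B Q.N Bd.b0 Op.nil)
  | Q.N, C.T, Bd.b2 => (Op.cons C.B Q.N Bd.b1 Op.nil)
  | Q.N, C.T, Bd.b3 => (Op.cons C.B Q.N Bd.b2 Op.nil)
  | Q.N, C.T, Bd.b4 => (Op.cons C.B Q.N Bd.b3 Op.nil)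
  | Q.N, C.B, Bd.b0 => (Op.cons C.O Q.H Bd.b0 Op.nil)
  | Q.N, C.B, Bd.b1 => (Op.cons C.O Q.H Bd.b1 Op.nil)
  | Q.N, C.B, Bd.b2 => (Op.cons C.O Q.H Bd.b2 (Op.cons C.L Q.M Bd.b0 Op.nil))
  | Q.N, C.B, Bd.b3 => (Op.cons C.O Q.H Bd.b3 (Op.cons C.L Q.M Bd.b1 Op.nil))
  | Q.N, C.B, Bd.b4 => (Op.cons C.O Q.H Bd.b4 (Op.cons C.L Q.M Bd.b2 Op.nil))
  | Q.H, C.O, Bd.b0 => (Op.cons C.L Q.P Bd.b0 Op.nil)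
  | Q.H, C.O, Bd.b1 => (Op.cons C.L Q.P Bd.b1 Op.nil)
  | Q.H, C.O, Bd.b2 => (Op.cons C.L Q.P Bd.b2 Op.nil)
  | Q.H, C.O, Bd.b3 => (Op.cons C.L Q.P Bd.b3 Op.nil)
  | Q.H, C.O, Bd.b4 => (Op.cons C.L Q.P Bd.b4 Op.nil)
  | Q.H, C.L, Bd.b0 => (Op.cons C.L Q.M Bd.b0 Op.nil)
  | Q.H, C.L, Bd.b1 => (Op.cons C.L Q.M Bd.b1 Op.nil)
  | Q.H, C.L, Bd.b2 => (Op.cons C.L Q.M Bd.b2 Op.nil)
  | Q.H, C.L, Bd.b3 => (Op.cons C.L Q.M Bd.b3 Op.nil)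
  | Q.H, C.L, Bd.b4 => (Op.cons C.L Q.M Bd.b4 Op.nil)
  | Q.H, C.R, Bd.b0 => (Op.cons C.L Q.M Bd.b0 Op.nil)
  | Q.H, C.R, Bd.b1 => (Op.cons C.L Q.M Bd.b1 Op.nil)
  | Q.H, C.R, Bd.b2 => (Op.cons C.L Q.M Bd.b2 Op.nil)
  | Q.H, C.R, Bd.b3 => (Op.cons C.L Q.M Bd.b3 Op.nil)
  | Q.H, C.R, Bd.b4 => (Op.cons C.L Q.M Bd.b4 Op.nil)
  | Q.H, C.T, Bd.b0 => (Op.cons C.B Q.N Bd.b0 Op.nil)
  | Q.H, C.T, Bd.b1 => (Op.cons C.B Q.N Bd.b1 Op.nil)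
  | Q.H, C.T, Bd.b2 => (Op.cons C.B Q.N Bd.b2 Op.nil)
  | Q.H, C.T, Bd.b3 => (Op.cons C.B Q.N Bd.b3 Op.nil)
  | Q.H, C.T, Bd.b4 => (Op.cons C.B Q.N Bd.b4 Op.nil)
  | Q.H, C.B, Bd.b0 => Op.nil
  | Q.H, C.B, Bd.b1 => (Op.cons C.L Q.M Bd.b0 Op.nil)
  | Q.H, C.B, Bd.b2 => (Op.cons C.L Q.M Bd.b1 Op.nil)
  | Q.H, C.B, Bd.b3 => (Op.cons C.L Q.M Bd.b2 Op.nil)
  | Q.H, C.B, Bd.b4 => (Op.cons C.L Q.M Bd.b3 Op.nil)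
  | Q.P, C.O, Bd.b0 => (Op.cons C.R Q.N Bd.b0 Op.nil)
  | Q.P, C.O, Bd.b1 => (Op.cons C.R Q.N Bd.b1 Op.nil)
  | Q.P, C.O, Bd.b2 => (Op.cons C.R Q.N Bd.b2 Op.nil)
  | Q.P, C.O, Bd.b3 => (Op.cons C.R Q.N Bd.b3 Op.nil)
  | Q.P, C.O, Bd.b4 => (Op.cons C.R Q.N Bd.b4 Op.nil)
  | Q.P, C.L, Bd.b0 => (Op.cons C.R Q.N Bd.b0 Op.nil)
  | Q.P, C.L, Bd.b1 => (Op.cons C.R Q.N Bd.b1 Op.nil)
  | Q.P, C.L, Bd.b2 => (Op.cons C.R Q.N Bd.b2 Op.nil)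
  | Q.P, C.L, Bd.b3 => (Op.cons C.R Q.N Bd.b3 Op.nil)
  | Q.P, C.L, Bd.b4 => (Op.cons C.R Q.N Bd.b4 Op.nil)
  | Q.P, C.R, Bd.b0 => Op.nil
  | Q.P, C.R, Bd.b1 => (Op.cons C.R Q.N Bd.b0 Op.nil)
  | Q.P, C.R, Bd.b2 => (Op.cons C.R Q.N Bd.b1 Op.nil)
  | Q.P, C.R, Bd.b3 => (Op.cons C.R Q.N Bd.b2 Op.nil)
  | Q.P, C.R, Bd.b4 => (Op.cons C.R Q.N Bd.b3 Op.nil)
  | Q.P, C.T, Bd.b0 => Op.nil
  | Q.P, C.T, Bd.b1 => Op.nil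
  | Q.P, C.T, Bd.b2 => Op.nil
  | Q.P, C.T, Bd.b3 => Op.nil
  | Q.P, C.T, Bd.b4 => Op.nil
  | Q.P, C.B, Bd.b0 => Op.nil
  | Q.P, C.B, Bd.b1 => (Op.cons C.R Q.N Bd.b0 Op.nil)
  | Q.P, C.B, Bd.b2 => (Op.cons C.R Q.N Bd.b1 Op.nil)
  | Q.P, C.B, Bd.b3 => (Op.cons C.R Q.N Bd.b2 Op.nil)
  | Q.P, C.B, Bd.b4 => (Op.cons C.R Q.N Bd.b3 Op.nil)
  | Q.M, C.O, Bd.b0 => (Op.cons C.R Q.N Bd.b0 Op.nil)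
  | Q.M, C.O, Bd.b1 => (Op.cons C.R Q.N Bd.b1 Op.nil)
  | Q.M, C.O, Bd.b2 => (Op.cons C.R Q.N Bd.b2 Op.nil)
  | Q.M, C.O, Bd.b3 => (Op.cons C.R Q.N Bd.b3 Op.nil)
  | Q.M, C.O, Bd.b4 => (Op.cons C.R Q.N Bd.b4 Op.nil)
  | Q.M, C.L, Bd.b0 => Op.nil
  | Q.M, C.L, Bd.b1 => (Op.cons C.R Q.N Bd.b0 Op.nil)
  | Q.M, C.L, Bd.b2 => (Op.cons C.R Q.N Bd.b1 Op.nil)
  | Q.M, C.L, Bd.b3 => (Op.cons C.R Q.N Bd.b2 Op.nil)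
  | Q.M, C.L, Bd.b4 => (Op.cons C.R Q.N Bd.b3 Op.nil)
  | Q.M, C.R, Bd.b0 => Op.nil
  | Q.M, C.R, Bd.b1 => Op.nil
  | Q.M, C.R, Bd.b2 => (Op.cons C.R Q.N Bd.b0 Op.nil)
  | Q.M, C.R, Bd.b3 => (Op.cons C.R Q.N Bd.b1 Op.nil)
  | Q.M, C.R, Bd.b4 => (Op.cons C.R Q.N Bd.b2 Op.nil)
  | Q.M, C.T, Bd.b0 => Op.nil
  | Q.M, C.T, Bd.b1 => Op.nil
  | Q.M, C.T, Bd.b2 => Op.nil
  | Q.M, C.T, Bd.b3 => Op.nil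
  | Q.M, C.T, Bd.b4 => Op.nil
  | Q.M, C.B, Bd.b0 => Op.nil
  | Q.M, C.B, Bd.b1 => Op.nil
  | Q.M, C.B, Bd.b2 => (Op.cons C.R Q.N Bd.b0 Op.nil)
  | Q.M, C.B, Bd.b3 => (Op.cons C.R Q.N Bd.b1 Op.nil)
  | Q.M, C.B, Bd.b4 => (Op.cons C.R Q.N Bd.b2 Op.nil)

/-- The options for the first row. -/
def tblF : Q → C → Bd → Op
  | Q.N, C.O, Bd.b0 => (Op.cons C.O Q.H Bd.b0 Op.nil)
  | Q.N, C.O, Bd.b1 => (Op.cons C.O Q.H Bd.b1 (Op.cons C.L Q.P Bd.b0 (Op.cons C.T Q.N Bd.b0 Op.nil)))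
  | Q.N, C.O, Bd.b2 => (Op.cons C.O Q.H Bd.b2 (Op.cons C.L Q.P Bd.b1 (Op.cons C.T Q.N Bd.b1 Op.nil)))
  | Q.N, C.O, Bd.b3 => (Op.cons C.O Q.H Bd.b3 (Op.cons C.L Q.P Bd.b2 (Op.cons C.T Q.N Bd.b2 Op.nil)))
  | Q.N, C.O, Bd.b4 => (Op.cons C.O Q.H Bd.b4 (Op.cons C.L Q.P Bd.b3 (Op.cons C.T Q.N Bd.b3 Op.nil)))
  | Q.N, C.L, Bd.b0 => (Op.cons C.O Q.H Bd.b0 Op.nil)
  | Q.N, C.L, Bd.b1 => (Op.cons C.O Q.H Bd.b1 (Op.cons C.L Q.M Bd.b0 (Op.cons C.T Q.N Bd.b0 Op.nil)))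
  | Q.N, C.L, Bd.b2 => (Op.cons C.O Q.H Bd.b2 (Op.cons C.L Q.M Bd.b1 (Op.cons C.T Q.N Bd.b1 Op.nil)))
  | Q.N, C.L, Bd.b3 => (Op.cons C.O Q.H Bd.b3 (Op.cons C.L Q.M Bd.b2 (Op.cons C.T Q.N Bd.b2 Op.nil)))
  | Q.N, C.L, Bd.b4 => (Op.cons C.O Q.H Bd.b4 (Op.cons C.L Q.M Bd.b3 (Op.cons C.T Q.N Bd.b3 Op.nil)))
  | Q.N, C.R, Bd.b0 => (Op.cons C.O Q.H Bd.b0 Op.nil)
  | Q.N, C.R, Bd.b1 => (Op.cons C.O Q.H Bd.b1 (Op.cons C.L Q.M Bd.b0 (Op.cons C.T Q.N Bd.b0 Op.nil)))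
  | Q.N, C.R, Bd.b2 => (Op.cons C.O Q.H Bd.b2 (Op.cons C.L Q.M Bd.b1 (Op.cons C.T Q.N Bd.b1 Op.nil)))
  | Q.N, C.R, Bd.b3 => (Op.cons C.O Q.H Bd.b3 (Op.cons C.L Q.M Bd.b2 (Op.cons C.T Q.N Bd.b2 Op.nil)))
  | Q.N, C.R, Bd.b4 => (Op.cons C.O Q.H Bd.b4 (Op.cons C.L Q.M Bd.b3 (Op.cons C.T Q.N Bd.b3 Op.nil)))
  | Q.N, C.T, Bd.b0 => (Op.cons C.O Q.H Bd.b0 Op.nil)
  | Q.N, C.T, Bd.b1 => (Op.cons C.O Q.H Bd.b1 (Op.cons C.L Q.M Bd.b0 (Op.cons C.T Q.N Bd.b0 Op.nil)))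
  | Q.N, C.T, Bd.b2 => (Op.cons C.O Q.H Bd.b2 (Op.cons C.L Q.M Bd.b1 (Op.cons C.T Q.N Bd.b1 Op.nil)))
  | Q.N, C.T, Bd.b3 => (Op.cons C.O Q.H Bd.b3 (Op.cons C.L Q.M Bd.b2 (Op.cons C.T Q.N Bd.b2 Op.nil)))
  | Q.N, C.T, Bd.b4 => (Op.cons C.O Q.H Bd.b4 (Op.cons C.L Q.M Bd.b3 (Op.cons C.T Q.N Bd.b3 Op.nil)))
  | Q.N, C.B, Bd.b0 => (Op.cons C.O Q.H Bd.b0 Op.nil)
  | Q.N, C.B, Bd.b1 => (Op.cons C.O Q.H Bd.b1 (Op.cons C.L Q.M Bd.b0 (Op.cons C.T Q.N Bd.b0 Op.nil)))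
  | Q.N, C.B, Bd.b2 => (Op.cons C.O Q.H Bd.b2 (Op.cons C.L Q.M Bd.b1 (Op.cons C.T Q.N Bd.b1 Op.nil)))
  | Q.N, C.B, Bd.b3 => (Op.cons C.O Q.H Bd.b3 (Op.cons C.L Q.M Bd.b2 (Op.cons C.T Q.N Bd.b2 Op.nil)))
  | Q.N, C.B, Bd.b4 => (Op.cons C.O Q.H Bd.b4 (Op.cons C.L Q.M Bd.b3 (Op.cons C.T Q.N Bd.b3 Op.nil)))
  | Q.H, C.O, Bd.b0 => (Op.cons C.L Q.P Bd.b0 (Op.cons C.T Q.N Bd.b0 Op.nil))
  | Q.H, C.O, Bd.b1 => (Op.cons C.L Q.P Bd.b1 (Op.cons C.T Q.N Bd.b1 Op.nil))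
  | Q.H, C.O, Bd.b2 => (Op.cons C.L Q.P Bd.b2 (Op.cons C.T Q.N Bd.b2 Op.nil))
  | Q.H, C.O, Bd.b3 => (Op.cons C.L Q.P Bd.b3 (Op.cons C.T Q.N Bd.b3 Op.nil))
  | Q.H, C.O, Bd.b4 => (Op.cons C.L Q.P Bd.b4 (Op.cons C.T Q.N Bd.b4 Op.nil))
  | Q.H, C.L, Bd.b0 => (Op.cons C.L Q.M Bd.b0 (Op.cons C.T Q.N Bd.b0 Op.nil))
  | Q.H, C.L, Bd.b1 => (Op.cons C.L Q.M Bd.b1 (Op.cons C.T Q.N Bd.b1 Op.nil))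
  | Q.H, C.L, Bd.b2 => (Op.cons C.L Q.M Bd.b2 (Op.cons C.T Q.N Bd.b2 Op.nil))
  | Q.H, C.L, Bd.b3 => (Op.cons C.L Q.M Bd.b3 (Op.cons C.T Q.N Bd.b3 Op.nil))
  | Q.H, C.L, Bd.b4 => (Op.cons C.L Q.M Bd.b4 (Op.cons C.T Q.N Bd.b4 Op.nil))
  | Q.H, C.R, Bd.b0 => (Op.cons C.L Q.M Bd.b0 (Op.cons C.T Q.N Bd.b0 Op.nil))
  | Q.H, C.R, Bd.b1 => (Op.cons C.L Q.M Bd.b1 (Op.cons C.T Q.N Bd.b1 Op.nil))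
  | Q.H, C.R, Bd.b2 => (Op.cons C.L Q.M Bd.b2 (Op.cons C.T Q.N Bd.b2 Op.nil))
  | Q.H, C.R, Bd.b3 => (Op.cons C.L Q.M Bd.b3 (Op.cons C.T Q.N Bd.b3 Op.nil))
  | Q.H, C.R, Bd.b4 => (Op.cons C.L Q.M Bd.b4 (Op.cons C.T Q.N Bd.b4 Op.nil))
  | Q.H, C.T, Bd.b0 => (Op.cons C.L Q.M Bd.b0 (Op.cons C.T Q.N Bd.b0 Op.nil))
  | Q.H, C.T, Bd.b1 => (Op.cons C.L Q.M Bd.b1 (Op.cons C.T Q.N Bd.b1 Op.nil))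
  | Q.H, C.T, Bd.b2 => (Op.cons C.L Q.M Bd.b2 (Op.cons C.T Q.N Bd.b2 Op.nil))
  | Q.H, C.T, Bd.b3 => (Op.cons C.L Q.M Bd.b3 (Op.cons C.T Q.N Bd.b3 Op.nil))
  | Q.H, C.T, Bd.b4 => (Op.cons C.L Q.M Bd.b4 (Op.cons C.T Q.N Bd.b4 Op.nil))
  | Q.H, C.B, Bd.b0 => (Op.cons C.L Q.M Bd.b0 (Op.cons C.T Q.N Bd.b0 Op.nil))
  | Q.H, C.B, Bd.b1 => (Op.cons C.L Q.M Bd.b1 (Op.cons C.T Q.N Bd.b1 Op.nil))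
  | Q.H, C.B, Bd.b2 => (Op.cons C.L Q.M Bd.b2 (Op.cons C.T Q.N Bd.b2 Op.nil))
  | Q.H, C.B, Bd.b3 => (Op.cons C.L Q.M Bd.b3 (Op.cons C.T Q.N Bd.b3 Op.nil))
  | Q.H, C.B, Bd.b4 => (Op.cons C.L Q.M Bd.b4 (Op.cons C.T Q.N Bd.b4 Op.nil))
  | Q.P, C.O, Bd.b0 => (Op.cons C.R Q.N Bd.b0 Op.nil)
  | Q.P, C.O, Bd.b1 => (Op.cons C.R Q.N Bd.b1 Op.nil)
  | Q.P, C.O, Bd.b2 => (Op.cons C.R Q.N Bd.b2 Op.nil)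
  | Q.P, C.O, Bd.b3 => (Op.cons C.R Q.N Bd.b3 Op.nil)
  | Q.P, C.O, Bd.b4 => (Op.cons C.R Q.N Bd.b4 Op.nil)
  | Q.P, C.L, Bd.b0 => (Op.cons C.R Q.N Bd.b0 Op.nil)
  | Q.P, C.L, Bd.b1 => (Op.cons C.R Q.N Bd.b1 Op.nil)
  | Q.P, C.L, Bd.b2 => (Op.cons C.R Q.N Bd.b2 Op.nil)
  | Q.P, C.L, Bd.b3 => (Op.cons C.R Q.N Bd.b3 Op.nil)
  | Q.P, C.L, Bd.b4 => (Op.cons C.R Q.N Bd.b4 Op.nil)
  | Q.P, C.R, Bd.b0 => (Op.cons C.R Q.N Bd.b0 Op.nil)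
  | Q.P, C.R, Bd.b1 => (Op.cons C.R Q.N Bd.b1 Op.nil)
  | Q.P, C.R, Bd.b2 => (Op.cons C.R Q.N Bd.b2 Op.nil)
  | Q.P, C.R, Bd.b3 => (Op.cons C.R Q.N Bd.b3 Op.nil)
  | Q.P, C.R, Bd.b4 => (Op.cons C.R Q.N Bd.b4 Op.nil)
  | Q.P, C.T, Bd.b0 => (Op.cons C.R Q.N Bd.b0 Op.nil)
  | Q.P, C.T, Bd.b1 => (Op.cons C.R Q.N Bd.b1 Op.nil)
  | Q.P, C.T, Bd.b2 => (Op.cons C.R Q.N Bd.b2 Op.nil)
  | Q.P, C.T, Bd.b3 => (Op.cons C.R Q.N Bd.b3 Op.nil)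
  | Q.P, C.T, Bd.b4 => (Op.cons C.R Q.N Bd.b4 Op.nil)
  | Q.P, C.B, Bd.b0 => (Op.cons C.R Q.N Bd.b0 Op.nil)
  | Q.P, C.B, Bd.b1 => (Op.cons C.R Q.N Bd.b1 Op.nil)
  | Q.P, C.B, Bd.b2 => (Op.cons C.R Q.N Bd.b2 Op.nil)
  | Q.P, C.B, Bd.b3 => (Op.cons C.R Q.N Bd.b3 Op.nil)
  | Q.P, C.B, Bd.b4 => (Op.cons C.R Q.N Bd.b4 Op.nil)
  | Q.M, C.O, Bd.b0 => (Op.cons C.R Q.N Bd.b0 Op.nil)
  | Q.M, C.O, Bd.b1 => (Op.cons C.R Q.N Bd.b1 Op.nil)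
  | Q.M, C.O, Bd.b2 => (Op.cons C.R Q.N Bd.b2 Op.nil)
  | Q.M, C.O, Bd.b3 => (Op.cons C.R Q.N Bd.b3 Op.nil)
  | Q.M, C.O, Bd.b4 => (Op.cons C.R Q.N Bd.b4 Op.nil)
  | Q.M, C.L, Bd.b0 => (Op.cons C.R Q.N Bd.b0 Op.nil)
  | Q.M, C.L, Bd.b1 => (Op.cons C.R Q.N Bd.b1 Op.nil)
  | Q.M, C.L, Bd.b2 => (Op.cons C.R Q.N Bd.b2 Op.nil)
  | Q.M, C.L, Bd.b3 => (Op.cons C.R Q.N Bd.b3 Op.nil)
  | Q.M, C.L, Bd.b4 => (Op.cons C.R Q.N Bd.b4 Op.nil)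
  | Q.M, C.R, Bd.b0 => (Op.cons C.R Q.N Bd.b0 Op.nil)
  | Q.M, C.R, Bd.b1 => (Op.cons C.R Q.N Bd.b1 Op.nil)
  | Q.M, C.R, Bd.b2 => (Op.cons C.R Q.N Bd.b2 Op.nil)
  | Q.M, C.R, Bd.b3 => (Op.cons C.R Q.N Bd.b3 Op.nil)
  | Q.M, C.R, Bd.b4 => (Op.cons C.R Q.N Bd.b4 Op.nil)
  | Q.M, C.T, Bd.b0 => (Op.cons C.R Q.N Bd.b0 Op.nil)
  | Q.M, C.T, Bd.b1 => (Op.cons C.R Q.N Bd.b1 Op.nil)
  | Q.M, C.T, Bd.b2 => (Op.cons C.R Q.N Bd.b2 Op.nil)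
  | Q.M, C.T, Bd.b3 => (Op.cons C.R Q.N Bd.b3 Op.nil)
  | Q.M, C.T, Bd.b4 => (Op.cons C.R Q.N Bd.b4 Op.nil)
  | Q.M, C.B, Bd.b0 => (Op.cons C.R Q.N Bd.b0 Op.nil)
  | Q.M, C.B, Bd.b1 => (Op.cons C.R Q.N Bd.b1 Op.nil)
  | Q.M, C.B, Bd.b2 => (Op.cons C.R Q.N Bd.b2 Op.nil)
  | Q.M, C.B, Bd.b3 => (Op.cons C.R Q.N Bd.b3 Op.nil)
  | Q.M, C.B, Bd.b4 => (Op.cons C.R Q.N Bd.b4 Op.nil)

/-- All options satisfy `f`. -/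
def Op.run (nm : C → ℕ) (f : Q → Bd → ℕ → Bool) (acc : ℕ) : Op → Bool
  | Op.nil => true
  | Op.cons c q b r => cond (f q b (Nat.add (Nat.mul acc (nat_lit 8)) (nm c))) (Op.run nm f acc r) false

/-- The search for the next row. -/
noncomputable def go (tb : Q → C → Bd → Op) (nm : C → ℕ) (leaf : Q → Bd → ℕ → Bool) (ps : List C) :
    Q → Bd → ℕ → Bool :=
  List.rec (motive := fun _ => Q → Bd → ℕ → Bool) leaf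
    (fun x _ f q b acc => Op.run nm f acc (tb q x b)) ps

/-- Decode and continue. -/
noncomputable def wd (k : ℕ) (f : List C → Bool) (n : ℕ) : ℕ → List C → Bool :=
  Nat.rec (motive := fun _ => ℕ → List C → Bool) (fun _ a => f a)
    (fun _ g i a => C.rec (motive := fun _ => Bool) (g (Nat.succ i) (C.O :: a)) (g (Nat.succ i) (C.L :: a))
      (g (Nat.succ i) (C.R :: a)) (g (Nat.succ i) (C.T :: a)) (g (Nat.succ i) (C.B :: a))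
      (toC (Nat.mod (Nat.div k (Nat.pow (nat_lit 8) i)) (nat_lit 8)))) n

/-- Force the evaluation of a number. -/
def force (k : ℕ) (f : ℕ → Bool) : Bool :=
  match k with
  | 0 => f 0
  | k + 1 => f (Nat.succ k)

/-- The budget `2 - v`. -/
def bud2 : ℕ → Bd
  | 0 => Bd.b2
  | 1 => Bd.b1
  | _ => Bd.b0

/-- The budget `3 - v`. -/
def bud3 : ℕ → Bd
  | 0 => Bd.b3
  | 1 => Bd.b2
  | 2 => Bd.b1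
  | _ => Bd.b0

/-- The budget `4 - v`. -/
def bud4 : ℕ → Bd
  | 0 => Bd.b4
  | 1 => Bd.b3
  | 2 => Bd.b2
  | 3 => Bd.b1
  | _ => Bd.b0

/-- The size of a budget. -/
def Bd.val : Bd → ℕ
  | Bd.b0 => 0
  | Bd.b1 => 1
  | Bd.b2 => 2
  | Bd.b3 => 3
  | Bd.b4 => 4

/-- End of a row in the closure check. -/
def leafA (S' : Tr) (q : Q) (b : Bd) (acc : ℕ) : Bool :=
  match q with
  | Q.N => force acc fun acc => S'.look acc (Nat.sub (nat_lit 2) b.val)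
  | Q.H => force acc fun acc => S'.look acc (Nat.sub (nat_lit 2) b.val)
  | Q.P => true
  | Q.M => true

/-- The closure check for one step. -/
noncomputable def chk (S S' : Tr) : Bool :=
  S.all fun k v => wd k (fun p => go tblA num (leafA S') p Q.N (bud2 v) (nat_lit 0)) 14 (nat_lit 0) []

/-- End of the first row. -/
def leafF (S' : Tr) (q : Q) (b : Bd) (acc : ℕ) : Bool :=
  match q with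
  | Q.N =>
    match b with
    | Bd.b0 => true
    | b => force acc fun acc => S'.look acc (Nat.sub (nat_lit 3) b.val)
  | Q.H => force acc fun acc => S'.look acc (Nat.sub (nat_lit 2) b.val)
  | Q.P => true
  | Q.M => true

/-- The check of the first level. -/
noncomputable def chkF (S' : Tr) : Bool :=
  go tblF num (leafF S') [C.O, C.O, C.O, C.O, C.O, C.O, C.O, C.O, C.O, C.O, C.O, C.O, C.O, C.O] Q.N Bd.b2 (nat_lit 0)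

/-- End of the last row. -/
def leafE (q : Q) (b : Bd) (_ : ℕ) : Bool :=
  match q with
  | Q.N =>
    match b with
    | Bd.b0 => true
    | _ => false
  | Q.H => false
  | Q.P => true
  | Q.M => true

/-- The check of the last level. -/
noncomputable def chkE (S : Tr) : Bool :=
  S.all fun k v => wd k (fun p => go tblE num leafE p Q.N (bud4 v) (nat_lit 0)) 14 (nat_lit 0) []

/-- End of a row in the check of pairs, total `3`. -/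
def leafP (S' : Tr) (q : Q) (_ : Bd) (acc : ℕ) : Bool :=
  match q with
  | Q.N => force acc fun acc => not (S'.look acc (nat_lit 1))
  | Q.H => force acc fun acc => not (S'.look acc (nat_lit 1))
  | Q.P => true
  | Q.M => true

/-- The check of pairs, all values of `S'` being positive. -/
noncomputable def chkP (S S' : Tr) : Bool :=
  cond (S'.all fun _ v => Nat.ble (nat_lit 1) v)
    (S.all fun k v => wd k (fun p => go tblA numF (leafP S') p Q.N (bud3 v) (nat_lit 0)) 14 (nat_lit 0) []) false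

/-- End of a row in the check of pairs, total `4`. -/
def leafR (S' : Tr) (q : Q) (b : Bd) (acc : ℕ) : Bool :=
  match q with
  | Q.N =>
    match b with
    | Bd.b0 => force acc fun acc => not (S'.look acc (nat_lit 0))
    | _ => force acc fun acc => not (S'.look acc (nat_lit 1))
  | Q.H =>
    match b with
    | Bd.b0 => force acc fun acc => not (S'.look acc (nat_lit 0))
    | _ => force acc fun acc => not (S'.look acc (nat_lit 1))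
  | Q.P => true
  | Q.M => true

/-- The check of pairs, general form. -/
noncomputable def chkR (S S' : Tr) : Bool :=
  S.all fun k v => wd k (fun p => go tblA numF (leafR S') p Q.N (bud4 v) (nat_lit 0)) 14 (nat_lit 0) []

end Pool.Agent.L5helper11.GP
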