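import Pool.Agent.L5helper11.GP.Def

/-! Certificate, level 2. -/

set_option autoImplicit false

namespace Pool.Agent.L5helper11.GP

open Tr in
/-- The words at level 2 with their values. -/
def S2 : Tr := (N (N (N (N (N (N (N (N (N (N (N (N E (nat_lit 86067446435) (nat_lit 1) E) (nat_lit 86067447523) (nat_lit 2) (N E (nat_lit 86067458275) (nat_lit 2) E)) (nat_lit 86067462787) (nat_lit 1) (N (N E (nat_lit 86067462794) (nat_lit 2) E) (nat_lit 86067463690) (nat_lit 1) (N E (nat_lit 86067463707) (nat_lit 2) E))) (nat_lit 86067463875) (nat_lit 2) (N (N (N E (nat_lit 86067463964) (nat_lit 2) E) (nat_lit 86067463971) (nat_lit 2) (N E (nat_lit 86067464419) (nat_lit 2) E)) (nat_lit 86067945699) (nat_lit 2) (N (N E (nat_lit 86068003491) (nat_lit 2) E) (nat_lit 86068019843) (nat_lit 2) E))) (nat_lit 86068020746) (nat_lit 2) (N (N (N (N E (nat_lit 86073450723) (nat_lit 2) E) (nat_lit 86073508515) (nat_lit 2) (N E (nat_lit 86073524867) (nat_lit 2) E)) (nat_lit 86073525770)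 (nat_lit 2) (N (N E (nat_lit 86075549923) (nat_lit 2) E) (nat_lit 86075835011) (nat_lit 1) (N E (nat_lit 86075835018) (nat_lit 2) E))) (nat_lit 86075835914) (nat_lit 1) (N (N (N E (nat_lit 86075835931) (nat_lit 2) E) (nat_lit 86075836099) (nat_lit 2) (N E (nat_lit 86075836188) (nat_lit 2) E)) (nat_lit 86075836195) (nat_lit 2) (N (N E (nat_lit 86075836643) (nat_lit 2) E) (nat_lit 86075839498) (nat_lit 2) E)))) (nat_lit 86076298250) (nat_lit 1) (N (N (N (N (N E (nat_lit 86076298267) (nat_lit 2) E) (nat_lit 86076298435) (nat_lit 2) (N E (nat_lit 86076298524) (nat_lit 2) E)) (nat_lit 86076298531) (nat_lit 2) (N (N E (nat_lit 86076306051) (nat_lit 2) E) (nat_lit 86076306954) (nat_lit 2) (N E (nat_lit 86076392067) (nat_lit 2) E))) (nat_lit 86076392970) (nat_lit 2) (N (N (N E (nat_lit 86076424867) (nat_lit 2) E) (nat_lit 86076429340) (nat_lit 2) (N E (nat_lit 86076429347) (nat_lit 2) E)) (nat_lit 86076436564) (nat_lit 2) (N (N E (nat_lit 86076438538) (nat_lit 2) E) (nat_lit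 86076438608) (nat_lit 2) E))) (nat_lit 86076438755) (nat_lit 1) (N (N (N (N E (nat_lit 86076441219) (nat_lit 2) E) (nat_lit 86076442122) (nat_lit 2) (N E (nat_lit 86076596451) (nat_lit 2) E)) (nat_lit 86076654243) (nat_lit 2) (N (N E (nat_lit 86076670595) (nat_lit 2) E) (nat_lit 86076671498) (nat_lit 2) E)) (nat_lit 86323011811) (nat_lit 2) (N (N (N E (nat_lit 86323069603) (nat_lit 2) E) (nat_lit 86323085955) (nat_lit 2) (N E (nat_lit 86323086858) (nat_lit 2) E)) (nat_lit 86352659107) (nat_lit 2) (N (N E (nat_lit 86352675459) (nat_lit 2) E) (nat_lit 86352676362) (nat_lit 2) E)))))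
 (nat_lit 86361047683) (nat_lit 2) (N (N (N (N (N (N E (nat_lit 86361048586) (nat_lit 2) E) (nat_lit 86361510922) (nat_lit 2) (N E (nat_lit 86361651427) (nat_lit 2) E)) (nat_lit 89141584099) (nat_lit 2) (N (N E (nat_lit 89141641891) (nat_lit 2) E) (nat_lit 89141658243) (nat_lit 2) (N E (nat_lit 89141659146) (nat_lit 2) E))) (nat_lit 89171231395) (nat_lit 2) (N (N (N E (nat_lit 89171247747) (nat_lit 2) E) (nat_lit 89171248650) (nat_lit 2) (N E (nat_lit 89179619971) (nat_lit 2) E)) (nat_lit 89179620874) (nat_lit 2) (N (N E (nat_lit 89180083210) (nat_lit 2) E) (nat_lit 89180223715) (nat_lit 2) E))) (nat_lit 90215327971) (nat_lit 2) (N (N (N (N E (nat_lit 90216374499) (nat_lit 2) E) (nat_lit 90216432291) (nat_lit 2) (N E (nat_lit 90216448643) (nat_lit 2) E)) (nat_lit 90216449546) (nat_lit 2) (N (N E (nat_lit 90362413699) (nat_lit 1) E) (nat_lit 90362413706) (nat_lit 2) E)) (nat_lit 90362414602) (nat_lit 1) (N (N (N E (nat_lit 90362414619) (nat_lit 2) E) (nat_lit 90362414787)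 (nat_lit 2) (N E (nat_lit 90362414876) (nat_lit 2) E)) (nat_lit 90362414883) (nat_lit 2) (N (N E (nat_lit 90362415331) (nat_lit 2) E) (nat_lit 90362418186) (nat_lit 2) E)))) (nat_lit 90362876938) (nat_lit 1) (N (N (N (N (N E (nat_lit 90362876955) (nat_lit 2) E) (nat_lit 90362877123) (nat_lit 2) (N E (nat_lit 90362877212) (nat_lit 2) E)) (nat_lit 90362877219) (nat_lit 2) (N (N E (nat_lit 90362884739) (nat_lit 2) E) (nat_lit 90362885642) (nat_lit 2) (N E (nat_lit 90362970755) (nat_lit 2) E))) (nat_lit 90362971658) (nat_lit 2) (N (N (N E (nat_lit 90363003555) (nat_lit 2) E) (nat_lit 90363008028) (nat_lit 2) (N E (nat_lit 90363008035) (nat_lit 2) E)) (nat_lit 90363015252) (nat_lit 2) (N (N E (nat_lit 90363017226) (nat_lit 2) E) (nat_lit 90363017296) (nat_lit 2) E))) (nat_lit 90363017443) (nat_lit 1) (N (N (N (N E (nat_lit 90363019907) (nat_lit 2) E) (nat_lit 90363020810) (nat_lit 2) (N E (nat_lit 90363175139) (nat_lit 2) E)) (nat_lit 90363232931) (nat_lit 2) (N (N E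 (nat_lit 90363249283) (nat_lit 2) E) (nat_lit 90363250186) (nat_lit 2) E)) (nat_lit 90364711946) (nat_lit 2) (N (N (N E (nat_lit 90364852451) (nat_lit 2) E) (nat_lit 90599592970) (nat_lit 1) (N E (nat_lit 90599592987) (nat_lit 2) E)) (nat_lit 90599593155) (nat_lit 2) (N (N E (nat_lit 90599593244) (nat_lit 2) E) (nat_lit 90599593251) (nat_lit 2) E)))))
)
 (nat_lit 90599600771) (nat_lit 2) (N (N (N (N (N (N (N E (nat_lit 90599601674) (nat_lit 2) E) (nat_lit 90599686787) (nat_lit 2) (N E (nat_lit 90599687690) (nat_lit 2) E)) (nat_lit 90599719587) (nat_lit 2) (N (N E (nat_lit 90599724060) (nat_lit 2) E) (nat_lit 90599724067) (nat_lit 2) (N E (nat_lit 90599731284) (nat_lit 2) E))) (nat_lit 90599733258) (nat_lit 2) (N (N (N E (nat_lit 90599733328) (nat_lit 2) E) (nat_lit 90599733475) (nat_lit 1) (N E (nat_lit 90599735939) (nat_lit 2) E)) (nat_lit 90599736842) (nat_lit 2) (N (N E (nat_lit 90603586179) (nat_lit 2) E) (nat_lit 90603587082) (nat_lit 2) E))) (nat_lit 90604049418)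 (nat_lit 2) (N (N (N (N E (nat_lit 90604189923) (nat_lit 2) E) (nat_lit 90647626371) (nat_lit 2) (N E (nat_lit 90647627274) (nat_lit 2) E)) (nat_lit 90648089610) (nat_lit 2) (N (N E (nat_lit 90648230115) (nat_lit 2) E) (nat_lit 90664403619) (nat_lit 2) E)) (nat_lit 90664419971) (nat_lit 2) (N (N (N E (nat_lit 90664420874) (nat_lit 2) E) (nat_lit 90666701852) (nat_lit 2) (N E (nat_lit 90666701859) (nat_lit 2) E)) (nat_lit 90666709076) (nat_lit 2) (N (N E (nat_lit 90666711050) (nat_lit 2) E) (nat_lit 90666711120) (nat_lit 2) E)))) (nat_lit 90666711267) (nat_lit 1) (N (N (N (N (N E (nat_lit 90666713731) (nat_lit 2) E) (nat_lit 90666714634) (nat_lit 2) (N E (nat_lit 90666739939) (nat_lit 2) E)) (nat_lit 90670407764) (nat_lit 2) (N (N E (nat_lit 90670409738) (nat_lit 2) E) (nat_lit 90670409808) (nat_lit 2) (N E (nat_lit 90670409955) (nat_lit 1) E))) (nat_lit 90670479587) (nat_lit 2) (N (N (N E (nat_lit 90671167715) (nat_lit 2) E) (nat_lit 90671420426) (nat_lit 2) (N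 E (nat_lit 90671456336) (nat_lit 2) E)) (nat_lit 90671456483) (nat_lit 1) (N (N E (nat_lit 90671456931) (nat_lit 2) E) (nat_lit 90671514275) (nat_lit 1) E))) (nat_lit 90671515363) (nat_lit 2) (N (N (N (N E (nat_lit 90671526115) (nat_lit 2) E) (nat_lit 90671530627) (nat_lit 1) (N E (nat_lit 90671530634) (nat_lit 2) E)) (nat_lit 90671531530) (nat_lit 1) (N (N E (nat_lit 90671531547) (nat_lit 2) E) (nat_lit 90671531715) (nat_lit 2) E)) (nat_lit 90671531804) (nat_lit 2) (N (N (N E (nat_lit 90671531811) (nat_lit 2) E) (nat_lit 90671532259) (nat_lit 2) (N E (nat_lit 90671560931) (nat_lit 2) E)) (nat_lit 90672792195) (nat_lit 2) (N (N E (nat_lit 90672793098) (nat_lit 2) E) (nat_lit 90673255434) (nat_lit 2) E)))))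
 (nat_lit 90673395939) (nat_lit 2) (N (N (N (N (N (N E (nat_lit 90752196835) (nat_lit 2) E) (nat_lit 90752254627) (nat_lit 2) (N E (nat_lit 90752270979) (nat_lit 2) E)) (nat_lit 90752271882) (nat_lit 2) (N (N E (nat_lit 90781844131) (nat_lit 2) E) (nat_lit 90781860483) (nat_lit 2) (N E (nat_lit 90781861386) (nat_lit 2) E))) (nat_lit 90790232707) (nat_lit 2) (N (N (N E (nat_lit 90790233610) (nat_lit 2) E) (nat_lit 90790695946) (nat_lit 2) (N E (nat_lit 90790836451) (nat_lit 2) E)) (nat_lit 216916861155) (nat_lit 2) (N (N E (nat_lit 216916918947) (nat_lit 2) E) (nat_lit 216916935299) (nat_lit 2) E))) (nat_lit 216916936202) (nat_lit 2) (N (N (N (N E (nat_lit 216946508451) (nat_lit 2) E) (nat_lit 216946524803) (nat_lit 2) (N E (nat_lit 216946525706) (nat_lit 2) E)) (nat_lit 216954897027) (nat_lit 2) (N (N E (nat_lit 216954897930) (nat_lit 2) E) (nat_lit 216955360266) (nat_lit 2) E)) (nat_lit 216955500771) (nat_lit 2) (N (N (N E (nat_lit 232096334499) (nat_lit 2) E)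 (nat_lit 232096350851) (nat_lit 2) (N E (nat_lit 232096351754) (nat_lit 2) E)) (nat_lit 232104723075) (nat_lit 2) (N (N E (nat_lit 232104723978) (nat_lit 2) E) (nat_lit 232105186314) (nat_lit 2) E)))) (nat_lit 232105326819) (nat_lit 2) (N (N (N (N (N E (nat_lit 236391301763) (nat_lit 2) E) (nat_lit 236391302666) (nat_lit 2) (N E (nat_lit 236391765002) (nat_lit 2) E)) (nat_lit 236391905507) (nat_lit 2) (N (N E (nat_lit 236628481034) (nat_lit 2) E) (nat_lit 236628621539) (nat_lit 2) (N E (nat_lit 236695599331) (nat_lit 2) E))) (nat_lit 236699298019) (nat_lit 2) (N (N (N E (nat_lit 236700344547) (nat_lit 2) E) (nat_lit 236700402339) (nat_lit 2) (N E (nat_lit 236700418691) (nat_lit 2) E)) (nat_lit 236700419594) (nat_lit 2) (N (N E (nat_lit 688539571228) (nat_lit 1) E) (nat_lit 688539571235) (nat_lit 1) E))) (nat_lit 688539571284) (nat_lit 2) (N (N (N (N E (nat_lit 688539578452) (nat_lit 1) E) (nat_lit 688539578588) (nat_lit 2) (N E (nat_lit 688539578595) (nat_lit 2)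 E)) (nat_lit 688539579932) (nat_lit 2) (N (N E (nat_lit 688539579939) (nat_lit 2) E) (nat_lit 688539580426) (nat_lit 1) E)) (nat_lit 688539580443) (nat_lit 2) (N (N (N E (nat_lit 688539580496) (nat_lit 1) E) (nat_lit 688539580611) (nat_lit 2) (N E (nat_lit 688539580632) (nat_lit 2) E)) (nat_lit 688539580643) (nat_lit 0) (N (N E (nat_lit 688539580644) (nat_lit 2) E) (nat_lit 688539580700) (nat_lit 2) E)))))
)
)
 (nat_lit 688539580707) (nat_lit 2) (N (N (N (N (N (N (N (N E (nat_lit 688539583107) (nat_lit 1) E) (nat_lit 688539583114) (nat_lit 2) (N E (nat_lit 688539584010) (nat_lit 1) E)) (nat_lit 688539584027) (nat_lit 2) (N (N E (nat_lit 688539584195) (nat_lit 2) E) (nat_lit 688539584284) (nat_lit 2) (N E (nat_lit 688539584291) (nat_lit 2) E))) (nat_lit 688539584739) (nat_lit 2) (N (N (N E (nat_lit 688539607124) (nat_lit 2) E) (nat_lit 688539609098) (nat_lit 2) (N E (nat_lit 688539609168) (nat_lit 2) E)) (nat_lit 688539609315) (nat_lit 1) (N (N E (nat_lit 688539678947)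 (nat_lit 2) E) (nat_lit 688543277140) (nat_lit 1) E))) (nat_lit 688543277276) (nat_lit 2) (N (N (N (N E (nat_lit 688543277283) (nat_lit 2) E) (nat_lit 688543278620) (nat_lit 2) (N E (nat_lit 688543278627) (nat_lit 2) E)) (nat_lit 688543279114) (nat_lit 1) (N (N E (nat_lit 688543279131) (nat_lit 2) E) (nat_lit 688543279184) (nat_lit 1) E)) (nat_lit 688543279299) (nat_lit 2) (N (N (N E (nat_lit 688543279320) (nat_lit 2) E) (nat_lit 688543279331) (nat_lit 0) (N E (nat_lit 688543279332) (nat_lit 2) E)) (nat_lit 688543279388) (nat_lit 2) (N (N E (nat_lit 688543279395) (nat_lit 2) E) (nat_lit 688543335075) (nat_lit 2) E)))) (nat_lit 688543339548) (nat_lit 2) (N (N (N (N (N E (nat_lit 688543339555) (nat_lit 2) E) (nat_lit 688543346772) (nat_lit 2) (N E (nat_lit 688543348746) (nat_lit 2) E)) (nat_lit 688543348816) (nat_lit 2) (N (N E (nat_lit 688543348963) (nat_lit 1) E) (nat_lit 688543351427) (nat_lit 2) (N E (nat_lit 688543352330) (nat_lit 2) E))) (nat_lit 688543578339)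 (nat_lit 2) (N (N (N E (nat_lit 688544027676) (nat_lit 2) E) (nat_lit 688544027683) (nat_lit 2) (N E (nat_lit 688544034900) (nat_lit 2) E)) (nat_lit 688544036874) (nat_lit 2) (N (N E (nat_lit 688544036944) (nat_lit 2) E) (nat_lit 688544037091) (nat_lit 1) E))) (nat_lit 688544039555) (nat_lit 2) (N (N (N (N E (nat_lit 688544040458) (nat_lit 2) E) (nat_lit 688544065763) (nat_lit 2) (N E (nat_lit 688544289802) (nat_lit 1) E)) (nat_lit 688544289819) (nat_lit 2) (N (N E (nat_lit 688544289987) (nat_lit 2) E) (nat_lit 688544290076) (nat_lit 2) E)) (nat_lit 688544290083) (nat_lit 2) (N (N (N E (nat_lit 688544297603) (nat_lit 2) E) (nat_lit 688544298506) (nat_lit 2) (N E (nat_lit 688544325712) (nat_lit 1) E)) (nat_lit 688544325827) (nat_lit 2) (N (N E (nat_lit 688544325848) (nat_lit 2) E) (nat_lit 688544325859) (nat_lit 0) E)))))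
 (nat_lit 688544325860) (nat_lit 2) (N (N (N (N (N (N E (nat_lit 688544325916) (nat_lit 2) E) (nat_lit 688544325923) (nat_lit 2) (N E (nat_lit 688544326307) (nat_lit 1) E)) (nat_lit 688544327395) (nat_lit 2) (N (N E (nat_lit 688544383619) (nat_lit 2) E) (nat_lit 688544383640) (nat_lit 2) (N E (nat_lit 688544383651) (nat_lit 0) E))) (nat_lit 688544383652) (nat_lit 2) (N (N (N E (nat_lit 688544384522) (nat_lit 2) E) (nat_lit 688544384592) (nat_lit 2) (N E (nat_lit 688544384739) (nat_lit 1) E)) (nat_lit 688544388323) (nat_lit 2) (N (N E (nat_lit 688544395344) (nat_lit 2) E) (nat_lit 688544395491) (nat_lit 1) E))) (nat_lit 688544395939) (nat_lit 2) (N (N (N (N E (nat_lit 688544399444) (nat_lit 2) E) (nat_lit 688544400003) (nat_lit 0) (N E (nat_lit 688544400004) (nat_lit 2) E)) (nat_lit 688544400010) (nat_lit 1) (N (N E (nat_lit 688544400027) (nat_lit 2) E) (nat_lit 688544400906) (nat_lit 0) E)) (nat_lit 688544400923) (nat_lit 1) (N (N (N E (nat_lit 688544400979) (nat_lit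 2) E) (nat_lit 688544401091) (nat_lit 1) (N E (nat_lit 688544401098) (nat_lit 2) E)) (nat_lit 688544401180) (nat_lit 1) (N (N E (nat_lit 688544401187) (nat_lit 1) E) (nat_lit 688544401418) (nat_lit 2) E)))) (nat_lit 688544401488) (nat_lit 2) (N (N (N (N (N E (nat_lit 688544401635) (nat_lit 1) E) (nat_lit 688544416419) (nat_lit 2) (N E (nat_lit 688544420892) (nat_lit 2) E)) (nat_lit 688544420899) (nat_lit 2) (N (N E (nat_lit 688544428116) (nat_lit 2) E) (nat_lit 688544430090) (nat_lit 2) (N E (nat_lit 688544430160) (nat_lit 2) E))) (nat_lit 688544430307) (nat_lit 1) (N (N (N E (nat_lit 688544432771) (nat_lit 2) E) (nat_lit 688544433674) (nat_lit 2) (N E (nat_lit 688545376483) (nat_lit 2) E)) (nat_lit 688545661571) (nat_lit 1) (N (N E (nat_lit 688545661578) (nat_lit 2) E) (nat_lit 688545662474) (nat_lit 1) E))) (nat_lit 688545662491) (nat_lit 2) (N (N (N (N E (nat_lit 688545662659) (nat_lit 2) E) (nat_lit 688545662748) (nat_lit 2) (N E (nat_lit 688545662755) (nat_lit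 2) E)) (nat_lit 688545663203) (nat_lit 2) (N (N E (nat_lit 688545666058) (nat_lit 2) E) (nat_lit 688546124810) (nat_lit 1) E)) (nat_lit 688546124827) (nat_lit 2) (N (N (N E (nat_lit 688546124995) (nat_lit 2) E) (nat_lit 688546125084) (nat_lit 2) (N E (nat_lit 688546125091) (nat_lit 2) E)) (nat_lit 688546132611) (nat_lit 2) (N (N E (nat_lit 688546133514) (nat_lit 2) E) (nat_lit 688546218627) (nat_lit 2) E)))))
)
 (nat_lit 688546219530) (nat_lit 2) (N (N (N (N (N (N (N E (nat_lit 688546251427) (nat_lit 2) E) (nat_lit 688546255900) (nat_lit 2) (N E (nat_lit 688546255907) (nat_lit 2) E)) (nat_lit 688546263124) (nat_lit 2) (N (N E (nat_lit 688546265098) (nat_lit 2) E) (nat_lit 688546265168) (nat_lit 2) (N E (nat_lit 688546265315) (nat_lit 1) E))) (nat_lit 688546267779) (nat_lit 2) (N (N (N E (nat_lit 688546268682) (nat_lit 2) E) (nat_lit 688546423011) (nat_lit 2) (N E (nat_lit 688546480803) (nat_lit 2) E)) (nat_lit 688546497155) (nat_lit 2) (N (N E (nat_lit 688546498058)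 (nat_lit 2) E) (nat_lit 688557957204) (nat_lit 2) E))) (nat_lit 688557959178) (nat_lit 2) (N (N (N (N E (nat_lit 688557959248) (nat_lit 2) E) (nat_lit 688557959395) (nat_lit 1) (N E (nat_lit 688558029027) (nat_lit 2) E)) (nat_lit 688558717155) (nat_lit 2) (N (N E (nat_lit 688558969866) (nat_lit 2) E) (nat_lit 688559005776) (nat_lit 2) E)) (nat_lit 688559005923) (nat_lit 1) (N (N (N E (nat_lit 688559006371) (nat_lit 2) E) (nat_lit 688559063715) (nat_lit 1) (N E (nat_lit 688559064803) (nat_lit 2) E)) (nat_lit 688559075555) (nat_lit 2) (N (N E (nat_lit 688559080067) (nat_lit 1) E) (nat_lit 688559080074) (nat_lit 2) E)))) (nat_lit 688559080970) (nat_lit 1) (N (N (N (N (N E (nat_lit 688559080987) (nat_lit 2) E) (nat_lit 688559081155) (nat_lit 2) (N E (nat_lit 688559081244) (nat_lit 2) E)) (nat_lit 688559081251) (nat_lit 2) (N (N E (nat_lit 688559081699) (nat_lit 2) E) (nat_lit 688559110371) (nat_lit 2) (N E (nat_lit 688589912291) (nat_lit 2) E))) (nat_lit 688593610979)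 (nat_lit 2) (N (N (N E (nat_lit 688594657507) (nat_lit 2) E) (nat_lit 688594715299) (nat_lit 2) (N E (nat_lit 688594731651) (nat_lit 2) E)) (nat_lit 688594732554) (nat_lit 2) (N (N E (nat_lit 690437005396) (nat_lit 1) E) (nat_lit 690437005532) (nat_lit 2) E))) (nat_lit 690437005539) (nat_lit 2) (N (N (N (N E (nat_lit 690437006876) (nat_lit 2) E) (nat_lit 690437006883) (nat_lit 2) (N E (nat_lit 690437007370) (nat_lit 1) E)) (nat_lit 690437007387) (nat_lit 2) (N (N E (nat_lit 690437007440) (nat_lit 1) E) (nat_lit 690437007555) (nat_lit 2) E)) (nat_lit 690437007576) (nat_lit 2) (N (N (N E (nat_lit 690437007587) (nat_lit 0) E) (nat_lit 690437007588) (nat_lit 2) (N E (nat_lit 690437007644) (nat_lit 2) E)) (nat_lit 690437007651) (nat_lit 2) (N (N E (nat_lit 690437063331) (nat_lit 2) E) (nat_lit 690437067804) (nat_lit 2) E)))))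
 (nat_lit 690437067811) (nat_lit 2) (N (N (N (N (N (N E (nat_lit 690437075028) (nat_lit 2) E) (nat_lit 690437077002) (nat_lit 2) (N E (nat_lit 690437077072) (nat_lit 2) E)) (nat_lit 690437077219) (nat_lit 1) (N (N E (nat_lit 690437079683) (nat_lit 2) E) (nat_lit 690437080586) (nat_lit 2) (N E (nat_lit 690437306595) (nat_lit 2) E))) (nat_lit 690437755932) (nat_lit 2) (N (N (N E (nat_lit 690437755939) (nat_lit 2) E) (nat_lit 690437763156) (nat_lit 2) (N E (nat_lit 690437765130) (nat_lit 2) E)) (nat_lit 690437765200) (nat_lit 2) (N (N E (nat_lit 690437765347) (nat_lit 1) E) (nat_lit 690437767811) (nat_lit 2) E))) (nat_lit 690437768714) (nat_lit 2) (N (N (N (N E (nat_lit 690437794019) (nat_lit 2) E) (nat_lit 690438018058) (nat_lit 1) (N E (nat_lit 690438018075) (nat_lit 2) E)) (nat_lit 690438018243) (nat_lit 2) (N (N E (nat_lit 690438018332) (nat_lit 2) E) (nat_lit 690438018339) (nat_lit 2) E)) (nat_lit 690438025859) (nat_lit 2) (N (N (N E (nat_lit 690438026762) (nat_lit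 2) E) (nat_lit 690438053968) (nat_lit 1) (N E (nat_lit 690438054083) (nat_lit 2) E)) (nat_lit 690438054104) (nat_lit 2) (N (N E (nat_lit 690438054115) (nat_lit 0) E) (nat_lit 690438054116) (nat_lit 2) E)))) (nat_lit 690438054172) (nat_lit 2) (N (N (N (N (N E (nat_lit 690438054179) (nat_lit 2) E) (nat_lit 690438054563) (nat_lit 1) (N E (nat_lit 690438055651) (nat_lit 2) E)) (nat_lit 690438111875) (nat_lit 2) (N (N E (nat_lit 690438111896) (nat_lit 2) E) (nat_lit 690438111907) (nat_lit 0) (N E (nat_lit 690438111908) (nat_lit 2) E))) (nat_lit 690438112778) (nat_lit 2) (N (N (N E (nat_lit 690438112848) (nat_lit 2) E) (nat_lit 690438112995) (nat_lit 1) (N E (nat_lit 690438116579) (nat_lit 2) E)) (nat_lit 690438123600) (nat_lit 2) (N (N E (nat_lit 690438123747) (nat_lit 1) E) (nat_lit 690438124195) (nat_lit 2) E))) (nat_lit 690438127700) (nat_lit 2) (N (N (N (N E (nat_lit 690438128259) (nat_lit 0) E) (nat_lit 690438128260) (nat_lit 2) (N E (nat_lit 690438128266) (nat_lit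 1) E)) (nat_lit 690438128283) (nat_lit 2) (N (N E (nat_lit 690438129162) (nat_lit 0) E) (nat_lit 690438129179) (nat_lit 1) E)) (nat_lit 690438129235) (nat_lit 2) (N (N (N E (nat_lit 690438129347) (nat_lit 1) E) (nat_lit 690438129354) (nat_lit 2) (N E (nat_lit 690438129436) (nat_lit 1) E)) (nat_lit 690438129443) (nat_lit 1) (N (N E (nat_lit 690438129674) (nat_lit 2) E) (nat_lit 690438129744) (nat_lit 2) E)))))
)
)
)
 (nat_lit 690438129891) (nat_lit 1) (N (N (N (N (N (N (N (N (N E (nat_lit 690438144675) (nat_lit 2) E) (nat_lit 690438149148) (nat_lit 2) (N E (nat_lit 690438149155) (nat_lit 2) E)) (nat_lit 690438156372) (nat_lit 2) (N (N E (nat_lit 690438158346) (nat_lit 2) E) (nat_lit 690438158416) (nat_lit 2) (N E (nat_lit 690438158563) (nat_lit 1) E))) (nat_lit 690438161027) (nat_lit 2) (N (N (N E (nat_lit 690438161930) (nat_lit 2) E) (nat_lit 690466652835) (nat_lit 2) (N E (nat_lit 690466669187) (nat_lit 2) E)) (nat_lit 690466670090) (nat_lit 2) (N (N E (nat_lit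 690468951068) (nat_lit 2) E) (nat_lit 690468951075) (nat_lit 2) E))) (nat_lit 690468958292) (nat_lit 2) (N (N (N (N E (nat_lit 690468960266) (nat_lit 2) E) (nat_lit 690468960336) (nat_lit 2) (N E (nat_lit 690468960483) (nat_lit 1) E)) (nat_lit 690468962947) (nat_lit 2) (N (N E (nat_lit 690468963850) (nat_lit 2) E) (nat_lit 690468989155) (nat_lit 2) E)) (nat_lit 690472656980) (nat_lit 2) (N (N (N E (nat_lit 690472658954) (nat_lit 2) E) (nat_lit 690472659024) (nat_lit 2) (N E (nat_lit 690472659171) (nat_lit 1) E)) (nat_lit 690472728803) (nat_lit 2) (N (N E (nat_lit 690473416931) (nat_lit 2) E) (nat_lit 690473669642) (nat_lit 2) E)))) (nat_lit 690473705552) (nat_lit 2) (N (N (N (N (N E (nat_lit 690473705699) (nat_lit 1) E) (nat_lit 690473706147) (nat_lit 2) (N E (nat_lit 690473763491) (nat_lit 1) E)) (nat_lit 690473764579) (nat_lit 2) (N (N E (nat_lit 690473775331) (nat_lit 2) E) (nat_lit 690473779843) (nat_lit 1) (N E (nat_lit 690473779850) (nat_lit 2) E))) (nat_lit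 690473780746) (nat_lit 1) (N (N (N E (nat_lit 690473780763) (nat_lit 2) E) (nat_lit 690473780931) (nat_lit 2) (N E (nat_lit 690473781020) (nat_lit 2) E)) (nat_lit 690473781027) (nat_lit 2) (N (N E (nat_lit 690473781475) (nat_lit 2) E) (nat_lit 690473810147) (nat_lit 2) E))) (nat_lit 690475041411) (nat_lit 2) (N (N (N (N E (nat_lit 690475042314) (nat_lit 2) E) (nat_lit 690475504650) (nat_lit 2) (N E (nat_lit 690475645155) (nat_lit 2) E)) (nat_lit 690586400995) (nat_lit 2) (N (N E (nat_lit 690590099683) (nat_lit 2) E) (nat_lit 690591146211) (nat_lit 2) E)) (nat_lit 690591204003) (nat_lit 2) (N (N (N E (nat_lit 690591220355) (nat_lit 2) E) (nat_lit 690591221258) (nat_lit 2) (N E (nat_lit 690821272604) (nat_lit 2) E)) (nat_lit 690821272611) (nat_lit 2) (N (N E (nat_lit 690821279828) (nat_lit 2) E) (nat_lit 690821281802) (nat_lit 2) E)))))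
 (nat_lit 690821281872) (nat_lit 2) (N (N (N (N (N (N E (nat_lit 690821282019) (nat_lit 1) E) (nat_lit 690821284483) (nat_lit 2) (N E (nat_lit 690821285386) (nat_lit 2) E)) (nat_lit 690821310691) (nat_lit 2) (N (N E (nat_lit 690824978516) (nat_lit 2) E) (nat_lit 690824980490) (nat_lit 2) (N E (nat_lit 690824980560) (nat_lit 2) E))) (nat_lit 690824980707) (nat_lit 1) (N (N (N E (nat_lit 690825050339) (nat_lit 2) E) (nat_lit 690825738467) (nat_lit 2) (N E (nat_lit 690825991178) (nat_lit 2) E)) (nat_lit 690826027088) (nat_lit 2) (N (N E (nat_lit 690826027235) (nat_lit 1) E) (nat_lit 690826027683) (nat_lit 2) E))) (nat_lit 690826085027) (nat_lit 1) (N (N (N (N E (nat_lit 690826086115) (nat_lit 2) E) (nat_lit 690826096867) (nat_lit 2) (N E (nat_lit 690826101379) (nat_lit 1) E)) (nat_lit 690826101386) (nat_lit 2) (N (N E (nat_lit 690826102282) (nat_lit 1) E) (nat_lit 690826102299) (nat_lit 2) E)) (nat_lit 690826102467) (nat_lit 2) (N (N (N E (nat_lit 690826102556) (nat_lit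 2) E) (nat_lit 690826102563) (nat_lit 2) (N E (nat_lit 690826103011) (nat_lit 2) E)) (nat_lit 690826131683) (nat_lit 2) (N (N E (nat_lit 690827362947) (nat_lit 2) E) (nat_lit 690827363850) (nat_lit 2) E)))) (nat_lit 690827826186) (nat_lit 2) (N (N (N (N (N E (nat_lit 690827966691) (nat_lit 2) E) (nat_lit 690839660771) (nat_lit 2) (N E (nat_lit 690840707299) (nat_lit 2) E)) (nat_lit 690840765091) (nat_lit 2) (N (N E (nat_lit 690840781443) (nat_lit 2) E) (nat_lit 690840782346) (nat_lit 2) (N E (nat_lit 690955490314) (nat_lit 1) E))) (nat_lit 690955490331) (nat_lit 2) (N (N (N E (nat_lit 690955490499) (nat_lit 2) E) (nat_lit 690955490588) (nat_lit 2) (N E (nat_lit 690955490595) (nat_lit 2) E)) (nat_lit 690955498115) (nat_lit 2) (N (N E (nat_lit 690955499018) (nat_lit 2) E) (nat_lit 690955584131) (nat_lit 2) E))) (nat_lit 690955585034) (nat_lit 2) (N (N (N (N E (nat_lit 690955616931) (nat_lit 2) E) (nat_lit 690955621404) (nat_lit 2) (N E (nat_lit 690955621411) (nat_lit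 2) E)) (nat_lit 690955628628) (nat_lit 2) (N (N E (nat_lit 690955630602) (nat_lit 2) E) (nat_lit 690955630672) (nat_lit 2) E)) (nat_lit 690955630819) (nat_lit 1) (N (N (N E (nat_lit 690955633283) (nat_lit 2) E) (nat_lit 690955634186) (nat_lit 2) (N E (nat_lit 690959483523) (nat_lit 2) E)) (nat_lit 690959484426) (nat_lit 2) (N (N E (nat_lit 690959946762) (nat_lit 2) E) (nat_lit 690960087267) (nat_lit 2) E)))))
)
 (nat_lit 690973876304) (nat_lit 1) (N (N (N (N (N (N (N E (nat_lit 690973876419) (nat_lit 2) E) (nat_lit 690973876440) (nat_lit 2) (N E (nat_lit 690973876451) (nat_lit 0) E)) (nat_lit 690973876452) (nat_lit 2) (N (N E (nat_lit 690973876508) (nat_lit 2) E) (nat_lit 690973876515) (nat_lit 2) (N E (nat_lit 690973876899) (nat_lit 1) E))) (nat_lit 690973877987) (nat_lit 2) (N (N (N E (nat_lit 690973934211) (nat_lit 2) E) (nat_lit 690973934232) (nat_lit 2) (N E (nat_lit 690973934243) (nat_lit 0) E)) (nat_lit 690973934244) (nat_lit 2) (N (N E (nat_lit 690973935114)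 (nat_lit 2) E) (nat_lit 690973935184) (nat_lit 2) E))) (nat_lit 690973935331) (nat_lit 1) (N (N (N (N E (nat_lit 690973938915) (nat_lit 2) E) (nat_lit 690973945936) (nat_lit 2) (N E (nat_lit 690973946083) (nat_lit 1) E)) (nat_lit 690973946531) (nat_lit 2) (N (N E (nat_lit 690973950036) (nat_lit 2) E) (nat_lit 690973950595) (nat_lit 0) E)) (nat_lit 690973950596) (nat_lit 2) (N (N (N E (nat_lit 690973950602) (nat_lit 1) E) (nat_lit 690973950619) (nat_lit 2) (N E (nat_lit 690973951498) (nat_lit 0) E)) (nat_lit 690973951515) (nat_lit 1) (N (N E (nat_lit 690973951571) (nat_lit 2) E) (nat_lit 690973951683) (nat_lit 1) E)))) (nat_lit 690973951690) (nat_lit 2) (N (N (N (N (N E (nat_lit 690973951772) (nat_lit 1) E) (nat_lit 690973951779) (nat_lit 1) (N E (nat_lit 690973952010) (nat_lit 2) E)) (nat_lit 690973952080) (nat_lit 2) (N (N E (nat_lit 690973952227) (nat_lit 1) E) (nat_lit 690973967011) (nat_lit 2) (N E (nat_lit 690973971484) (nat_lit 2) E))) (nat_lit 690973971491)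 (nat_lit 2) (N (N (N E (nat_lit 690973978708) (nat_lit 2) E) (nat_lit 690973980682) (nat_lit 2) (N E (nat_lit 690973980752) (nat_lit 2) E)) (nat_lit 690973980899) (nat_lit 1) (N (N E (nat_lit 690973983363) (nat_lit 2) E) (nat_lit 690973984266) (nat_lit 2) E))) (nat_lit 690974163619) (nat_lit 1) (N (N (N (N E (nat_lit 690974164707) (nat_lit 2) E) (nat_lit 690974175459) (nat_lit 2) (N E (nat_lit 690974179971) (nat_lit 1) E)) (nat_lit 690974179978) (nat_lit 2) (N (N E (nat_lit 690974180874) (nat_lit 1) E) (nat_lit 690974180891) (nat_lit 2) E)) (nat_lit 690974181059) (nat_lit 2) (N (N (N E (nat_lit 690974181148) (nat_lit 2) E) (nat_lit 690974181155) (nat_lit 2) (N E (nat_lit 690974181603) (nat_lit 2) E)) (nat_lit 690974662883) (nat_lit 2) (N (N E (nat_lit 690974720675) (nat_lit 2) E) (nat_lit 690974737027) (nat_lit 2) E)))))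
 (nat_lit 690974737930) (nat_lit 2) (N (N (N (N (N (N E (nat_lit 691003523715) (nat_lit 2) E) (nat_lit 691003523736) (nat_lit 2) (N E (nat_lit 691003523747) (nat_lit 0) E)) (nat_lit 691003523748) (nat_lit 2) (N (N E (nat_lit 691003524618) (nat_lit 2) E) (nat_lit 691003524688) (nat_lit 2) (N E (nat_lit 691003524835) (nat_lit 1) E))) (nat_lit 691003528419) (nat_lit 2) (N (N (N E (nat_lit 691003535440) (nat_lit 2) E) (nat_lit 691003535587) (nat_lit 1) (N E (nat_lit 691003536035) (nat_lit 2) E)) (nat_lit 691003539540) (nat_lit 2) (N (N E (nat_lit 691003540099) (nat_lit 0) E) (nat_lit 691003540100) (nat_lit 2) E))) (nat_lit 691003540106) (nat_lit 1) (N (N (N (N E (nat_lit 691003540123) (nat_lit 2) E) (nat_lit 691003541002) (nat_lit 0) (N E (nat_lit 691003541019) (nat_lit 1) E)) (nat_lit 691003541075) (nat_lit 2) (N (N E (nat_lit 691003541187) (nat_lit 1) E) (nat_lit 691003541194) (nat_lit 2) E)) (nat_lit 691003541276) (nat_lit 1) (N (N (N E (nat_lit 691003541283) (nat_lit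 1) E) (nat_lit 691003541514) (nat_lit 2) (N E (nat_lit 691003541584) (nat_lit 2) E)) (nat_lit 691003541731) (nat_lit 1) (N (N E (nat_lit 691003986954) (nat_lit 2) E) (nat_lit 691004022864) (nat_lit 2) E)))) (nat_lit 691004023011) (nat_lit 1) (N (N (N (N (N E (nat_lit 691004023459) (nat_lit 2) E) (nat_lit 691004080803) (nat_lit 1) (N E (nat_lit 691004081891) (nat_lit 2) E)) (nat_lit 691004092643) (nat_lit 2) (N (N E (nat_lit 691004097155) (nat_lit 1) E) (nat_lit 691004097162) (nat_lit 2) (N E (nat_lit 691004098058) (nat_lit 1) E))) (nat_lit 691004098075) (nat_lit 2) (N (N (N E (nat_lit 691004098243) (nat_lit 2) E) (nat_lit 691004098332) (nat_lit 2) (N E (nat_lit 691004098339) (nat_lit 2) E)) (nat_lit 691004098787) (nat_lit 2) (N (N E (nat_lit 691004127459) (nat_lit 2) E) (nat_lit 691005858019) (nat_lit 2) E))) (nat_lit 691005915811) (nat_lit 2) (N (N (N (N E (nat_lit 691005932163) (nat_lit 2) E) (nat_lit 691005933066) (nat_lit 2) (N E (nat_lit 691009527888) (nat_lit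 2) E)) (nat_lit 691009528035) (nat_lit 1) (N (N E (nat_lit 691009528483) (nat_lit 2) E) (nat_lit 691009585827) (nat_lit 1) E)) (nat_lit 691009586915) (nat_lit 2) (N (N (N E (nat_lit 691009597667) (nat_lit 2) E) (nat_lit 691009602179) (nat_lit 1) (N E (nat_lit 691009602186) (nat_lit 2) E)) (nat_lit 691009603082) (nat_lit 1) (N (N E (nat_lit 691009603099) (nat_lit 2) E) (nat_lit 691009603267) (nat_lit 2) E)))))
)
)
 (nat_lit 691009603356) (nat_lit 2) (N (N (N (N (N (N (N (N E (nat_lit 691009603363) (nat_lit 2) E) (nat_lit 691009603811) (nat_lit 2) (N E (nat_lit 691009632483) (nat_lit 2) E)) (nat_lit 691009815203) (nat_lit 2) (N (N E (nat_lit 691009831555) (nat_lit 2) E) (nat_lit 691009832458) (nat_lit 2) (N E (nat_lit 691011625044) (nat_lit 2) E))) (nat_lit 691011627018) (nat_lit 2) (N (N (N E (nat_lit 691011627088) (nat_lit 2) E) (nat_lit 691011627235) (nat_lit 1) (N E (nat_lit 691011696867) (nat_lit 2) E)) (nat_lit 691011912323) (nat_lit 0) (N (N E (nat_lit 691011912324)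 (nat_lit 2) E) (nat_lit 691011912330) (nat_lit 1) E))) (nat_lit 691011912347) (nat_lit 2) (N (N (N (N E (nat_lit 691011913226) (nat_lit 0) E) (nat_lit 691011913243) (nat_lit 1) (N E (nat_lit 691011913299) (nat_lit 2) E)) (nat_lit 691011913411) (nat_lit 1) (N (N E (nat_lit 691011913418) (nat_lit 2) E) (nat_lit 691011913500) (nat_lit 1) E)) (nat_lit 691011913507) (nat_lit 1) (N (N (N E (nat_lit 691011913738) (nat_lit 2) E) (nat_lit 691011913808) (nat_lit 2) (N E (nat_lit 691011913955) (nat_lit 1) E)) (nat_lit 691011916810) (nat_lit 1) (N (N E (nat_lit 691011916827) (nat_lit 2) E) (nat_lit 691011916995) (nat_lit 2) E)))) (nat_lit 691011917084) (nat_lit 2) (N (N (N (N (N E (nat_lit 691011917091) (nat_lit 2) E) (nat_lit 691011924611) (nat_lit 2) (N E (nat_lit 691011925514) (nat_lit 2) E)) (nat_lit 691012375562) (nat_lit 0) (N (N E (nat_lit 691012375579) (nat_lit 1) E) (nat_lit 691012375635) (nat_lit 2) (N E (nat_lit 691012375747) (nat_lit 1) E))) (nat_lit 691012375754)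 (nat_lit 2) (N (N (N E (nat_lit 691012375836) (nat_lit 1) E) (nat_lit 691012375843) (nat_lit 1) (N E (nat_lit 691012383363) (nat_lit 1) E)) (nat_lit 691012383370) (nat_lit 2) (N (N E (nat_lit 691012384266) (nat_lit 1) E) (nat_lit 691012384283) (nat_lit 2) E))) (nat_lit 691012384451) (nat_lit 2) (N (N (N (N E (nat_lit 691012384540) (nat_lit 2) E) (nat_lit 691012384547) (nat_lit 2) (N E (nat_lit 691012384995) (nat_lit 2) E)) (nat_lit 691012412035) (nat_lit 2) (N (N E (nat_lit 691012412938) (nat_lit 2) E) (nat_lit 691012469379) (nat_lit 1) E)) (nat_lit 691012469386) (nat_lit 2) (N (N (N E (nat_lit 691012470282) (nat_lit 1) E) (nat_lit 691012470299) (nat_lit 2) (N E (nat_lit 691012470467) (nat_lit 2) E)) (nat_lit 691012470556) (nat_lit 2) (N (N E (nat_lit 691012470563) (nat_lit 2) E) (nat_lit 691012471011) (nat_lit 2) E)))))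
 (nat_lit 691012473866) (nat_lit 2) (N (N (N (N (N (N E (nat_lit 691012502179) (nat_lit 1) E) (nat_lit 691012503267) (nat_lit 2) (N E (nat_lit 691012506652) (nat_lit 1) E)) (nat_lit 691012506659) (nat_lit 1) (N (N E (nat_lit 691012506708) (nat_lit 2) E) (nat_lit 691012513876) (nat_lit 1) (N E (nat_lit 691012514012) (nat_lit 2) E))) (nat_lit 691012514019) (nat_lit 2) (N (N (N E (nat_lit 691012515356) (nat_lit 2) E) (nat_lit 691012515363) (nat_lit 2) (N E (nat_lit 691012515850) (nat_lit 1) E)) (nat_lit 691012515867) (nat_lit 2) (N (N E (nat_lit 691012515920) (nat_lit 1) E) (nat_lit 691012516035) (nat_lit 2) E))) (nat_lit 691012516056) (nat_lit 2) (N (N (N (N E (nat_lit 691012516067) (nat_lit 0) E) (nat_lit 691012516068) (nat_lit 2) (N E (nat_lit 691012516124) (nat_lit 2) E)) (nat_lit 691012516131) (nat_lit 2) (N (N E (nat_lit 691012518531) (nat_lit 1) E) (nat_lit 691012518538) (nat_lit 2) E)) (nat_lit 691012519434) (nat_lit 1) (N (N (N E (nat_lit 691012519451) (nat_lit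 2) E) (nat_lit 691012519619) (nat_lit 2) (N E (nat_lit 691012519708) (nat_lit 2) E)) (nat_lit 691012519715) (nat_lit 2) (N (N E (nat_lit 691012520163) (nat_lit 2) E) (nat_lit 691012637706) (nat_lit 2) E)))) (nat_lit 691012673616) (nat_lit 2) (N (N (N (N (N E (nat_lit 691012673763) (nat_lit 1) E) (nat_lit 691012674211) (nat_lit 2) (N E (nat_lit 691012731555) (nat_lit 1) E)) (nat_lit 691012732643) (nat_lit 2) (N (N E (nat_lit 691012743395) (nat_lit 2) E) (nat_lit 691012747907) (nat_lit 1) (N E (nat_lit 691012747914) (nat_lit 2) E))) (nat_lit 691012748810) (nat_lit 1) (N (N (N E (nat_lit 691012748827) (nat_lit 2) E) (nat_lit 691012748995) (nat_lit 2) (N E (nat_lit 691012749084) (nat_lit 2) E)) (nat_lit 691012749091) (nat_lit 2) (N (N E (nat_lit 691012749539) (nat_lit 2) E) (nat_lit 691012778211) (nat_lit 2) E))) (nat_lit 691020300963) (nat_lit 2) (N (N (N (N E (nat_lit 691020317315) (nat_lit 2) E) (nat_lit 691020318218) (nat_lit 2) (N E (nat_lit 691022599196) (nat_lit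 2) E)) (nat_lit 691022599203) (nat_lit 2) (N (N E (nat_lit 691022606420) (nat_lit 2) E) (nat_lit 691022608394) (nat_lit 2) E)) (nat_lit 691022608464) (nat_lit 2) (N (N (N E (nat_lit 691022608611) (nat_lit 1) E) (nat_lit 691022611075) (nat_lit 2) (N E (nat_lit 691022611978) (nat_lit 2) E)) (nat_lit 691022637283) (nat_lit 2) (N (N E (nat_lit 691026305108) (nat_lit 2) E) (nat_lit 691026307082) (nat_lit 2) E)))))
)
 (nat_lit 691026307152) (nat_lit 2) (N (N (N (N (N (N (N E (nat_lit 691026307299) (nat_lit 1) E) (nat_lit 691026376931) (nat_lit 2) (N E (nat_lit 691027065059) (nat_lit 2) E)) (nat_lit 691027317770) (nat_lit 2) (N (N E (nat_lit 691027353680) (nat_lit 2) E) (nat_lit 691027353827) (nat_lit 1) (N E (nat_lit 691027354275) (nat_lit 2) E))) (nat_lit 691027411619) (nat_lit 1) (N (N (N E (nat_lit 691027412707) (nat_lit 2) E) (nat_lit 691027423459) (nat_lit 2) (N E (nat_lit 691027427971) (nat_lit 1) E)) (nat_lit 691027427978) (nat_lit 2) (N (N E (nat_lit 691027428874)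 (nat_lit 1) E) (nat_lit 691027428891) (nat_lit 2) E))) (nat_lit 691027429059) (nat_lit 2) (N (N (N (N E (nat_lit 691027429148) (nat_lit 2) E) (nat_lit 691027429155) (nat_lit 2) (N E (nat_lit 691027429603) (nat_lit 2) E)) (nat_lit 691027458275) (nat_lit 2) (N (N E (nat_lit 691028689539) (nat_lit 2) E) (nat_lit 691028690442) (nat_lit 2) E)) (nat_lit 691029152778) (nat_lit 2) (N (N (N E (nat_lit 691029293283) (nat_lit 2) E) (nat_lit 691510749411) (nat_lit 2) (N E (nat_lit 691511795939) (nat_lit 2) E)) (nat_lit 691511853731) (nat_lit 2) (N (N E (nat_lit 691511870083) (nat_lit 2) E) (nat_lit 691511870986) (nat_lit 2) E)))) (nat_lit 691657835139) (nat_lit 1) (N (N (N (N (N E (nat_lit 691657835146) (nat_lit 2) E) (nat_lit 691657836042) (nat_lit 1) (N E (nat_lit 691657836059) (nat_lit 2) E)) (nat_lit 691657836227) (nat_lit 2) (N (N E (nat_lit 691657836316) (nat_lit 2) E) (nat_lit 691657836323) (nat_lit 2) (N E (nat_lit 691657836771) (nat_lit 2) E))) (nat_lit 691657839626)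 (nat_lit 2) (N (N (N E (nat_lit 691658298378) (nat_lit 1) E) (nat_lit 691658298395) (nat_lit 2) (N E (nat_lit 691658298563) (nat_lit 2) E)) (nat_lit 691658298652) (nat_lit 2) (N (N E (nat_lit 691658298659) (nat_lit 2) E) (nat_lit 691658306179) (nat_lit 2) E))) (nat_lit 691658307082) (nat_lit 2) (N (N (N (N E (nat_lit 691658392195) (nat_lit 2) E) (nat_lit 691658393098) (nat_lit 2) (N E (nat_lit 691658424995) (nat_lit 2) E)) (nat_lit 691658429468) (nat_lit 2) (N (N E (nat_lit 691658429475) (nat_lit 2) E) (nat_lit 691658436692) (nat_lit 2) E)) (nat_lit 691658438666) (nat_lit 2) (N (N (N E (nat_lit 691658438736) (nat_lit 2) E) (nat_lit 691658438883) (nat_lit 1) (N E (nat_lit 691658441347) (nat_lit 2) E)) (nat_lit 691658442250) (nat_lit 2) (N (N E (nat_lit 691658596579) (nat_lit 2) E) (nat_lit 691658654371) (nat_lit 2) E)))))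
 (nat_lit 691658670723) (nat_lit 2) (N (N (N (N (N (N E (nat_lit 691658671626) (nat_lit 2) E) (nat_lit 691660133386) (nat_lit 2) (N E (nat_lit 691660273891) (nat_lit 2) E)) (nat_lit 691895014410) (nat_lit 1) (N (N E (nat_lit 691895014427) (nat_lit 2) E) (nat_lit 691895014595) (nat_lit 2) (N E (nat_lit 691895014684) (nat_lit 2) E))) (nat_lit 691895014691) (nat_lit 2) (N (N (N E (nat_lit 691895022211) (nat_lit 2) E) (nat_lit 691895023114) (nat_lit 2) (N E (nat_lit 691895108227) (nat_lit 2) E)) (nat_lit 691895109130) (nat_lit 2) (N (N E (nat_lit 691895141027) (nat_lit 2) E) (nat_lit 691895145500) (nat_lit 2) E))) (nat_lit 691895145507) (nat_lit 2) (N (N (N (N E (nat_lit 691895152724) (nat_lit 2) E) (nat_lit 691895154698) (nat_lit 2) (N E (nat_lit 691895154768) (nat_lit 2) E)) (nat_lit 691895154915) (nat_lit 1) (N (N E (nat_lit 691895157379) (nat_lit 2) E) (nat_lit 691895158282) (nat_lit 2) E)) (nat_lit 691899007619) (nat_lit 2) (N (N (N E (nat_lit 691899008522) (nat_lit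 2) E) (nat_lit 691899470858) (nat_lit 2) (N E (nat_lit 691899611363) (nat_lit 2) E)) (nat_lit 691943047811) (nat_lit 2) (N (N E (nat_lit 691943048714) (nat_lit 2) E) (nat_lit 691943511050) (nat_lit 2) E)))) (nat_lit 691943651555) (nat_lit 2) (N (N (N (N (N E (nat_lit 691959825059) (nat_lit 2) E) (nat_lit 691959841411) (nat_lit 2) (N E (nat_lit 691959842314) (nat_lit 2) E)) (nat_lit 691962123292) (nat_lit 2) (N (N E (nat_lit 691962123299) (nat_lit 2) E) (nat_lit 691962130516) (nat_lit 2) (N E (nat_lit 691962132490) (nat_lit 2) E))) (nat_lit 691962132560) (nat_lit 2) (N (N (N E (nat_lit 691962132707) (nat_lit 1) E) (nat_lit 691962135171) (nat_lit 2) (N E (nat_lit 691962136074) (nat_lit 2) E)) (nat_lit 691962161379) (nat_lit 2) (N (N E (nat_lit 691965829204) (nat_lit 2) E) (nat_lit 691965831178) (nat_lit 2) E))) (nat_lit 691965831248) (nat_lit 2) (N (N (N (N E (nat_lit 691965831395) (nat_lit 1) E) (nat_lit 691965901027) (nat_lit 2) (N E (nat_lit 691966589155) (nat_lit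 2) E)) (nat_lit 691966841866) (nat_lit 2) (N (N E (nat_lit 691966877776) (nat_lit 2) E) (nat_lit 691966877923) (nat_lit 1) E)) (nat_lit 691966878371) (nat_lit 2) (N (N (N E (nat_lit 691966935715) (nat_lit 1) E) (nat_lit 691966936803) (nat_lit 2) (N E (nat_lit 691966947555) (nat_lit 2) E)) (nat_lit 691966952067) (nat_lit 1) (N (N E (nat_lit 691966952074) (nat_lit 2) E) (nat_lit 691966952970) (nat_lit 1) E)))))
)
)
)
)
 (nat_lit 691966952987) (nat_lit 2) (N (N (N (N (N (N (N (N (N (N E (nat_lit 691966953155) (nat_lit 2) E) (nat_lit 691966953244) (nat_lit 2) (N E (nat_lit 691966953251) (nat_lit 2) E)) (nat_lit 691966953699) (nat_lit 2) (N (N E (nat_lit 691966982371) (nat_lit 2) E) (nat_lit 691968213635) (nat_lit 2) (N E (nat_lit 691968214538) (nat_lit 2) E))) (nat_lit 691968676874) (nat_lit 2) (N (N (N E (nat_lit 691968817379) (nat_lit 2) E) (nat_lit 692047618275) (nat_lit 2) (N E (nat_lit 692047676067) (nat_lit 2) E)) (nat_lit 692047692419) (nat_lit 2) (N (N E (nat_lit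 692047693322) (nat_lit 2) E) (nat_lit 692077265571) (nat_lit 2) E))) (nat_lit 692077281923) (nat_lit 2) (N (N (N (N E (nat_lit 692077282826) (nat_lit 2) E) (nat_lit 692085654147) (nat_lit 2) (N E (nat_lit 692085655050) (nat_lit 2) E)) (nat_lit 692086117386) (nat_lit 2) (N (N E (nat_lit 692086257891) (nat_lit 2) E) (nat_lit 697953198164) (nat_lit 2) E)) (nat_lit 697953200138) (nat_lit 2) (N (N (N E (nat_lit 697953200208) (nat_lit 2) E) (nat_lit 697953200355) (nat_lit 1) (N E (nat_lit 697953269987) (nat_lit 2) E)) (nat_lit 697953958115) (nat_lit 2) (N (N E (nat_lit 697954210826) (nat_lit 2) E) (nat_lit 697954246736) (nat_lit 2) E)))) (nat_lit 697954246883) (nat_lit 1) (N (N (N (N (N E (nat_lit 697954247331) (nat_lit 2) E) (nat_lit 697954304675) (nat_lit 1) (N E (nat_lit 697954305763) (nat_lit 2) E)) (nat_lit 697954316515) (nat_lit 2) (N (N E (nat_lit 697954321027) (nat_lit 1) E) (nat_lit 697954321034) (nat_lit 2) (N E (nat_lit 697954321930) (nat_lit 1) E))) (nat_lit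 697954321947) (nat_lit 2) (N (N (N E (nat_lit 697954322115) (nat_lit 2) E) (nat_lit 697954322204) (nat_lit 2) (N E (nat_lit 697954322211) (nat_lit 2) E)) (nat_lit 697954322659) (nat_lit 2) (N (N E (nat_lit 697954351331) (nat_lit 2) E) (nat_lit 697985153251) (nat_lit 2) E))) (nat_lit 697988851939) (nat_lit 2) (N (N (N (N E (nat_lit 697989898467) (nat_lit 2) E) (nat_lit 697989956259) (nat_lit 2) (N E (nat_lit 697989972611) (nat_lit 2) E)) (nat_lit 697989973514) (nat_lit 2) (N (N E (nat_lit 698337474787) (nat_lit 2) E) (nat_lit 698341173475) (nat_lit 2) E)) (nat_lit 698342220003) (nat_lit 2) (N (N (N E (nat_lit 698342277795) (nat_lit 2) E) (nat_lit 698342294147) (nat_lit 2) (N E (nat_lit 698342295050) (nat_lit 2) E)) (nat_lit 698471683082) (nat_lit 2) (N (N E (nat_lit 698471823587) (nat_lit 2) E) (nat_lit 698490069072) (nat_lit 2) E)))))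
 (nat_lit 698490069219) (nat_lit 1) (N (N (N (N (N (N E (nat_lit 698490069667) (nat_lit 2) E) (nat_lit 698490127011) (nat_lit 1) (N E (nat_lit 698490128099) (nat_lit 2) E)) (nat_lit 698490138851) (nat_lit 2) (N (N E (nat_lit 698490143363) (nat_lit 1) E) (nat_lit 698490143370) (nat_lit 2) (N E (nat_lit 698490144266) (nat_lit 1) E))) (nat_lit 698490144283) (nat_lit 2) (N (N (N E (nat_lit 698490144451) (nat_lit 2) E) (nat_lit 698490144540) (nat_lit 2) (N E (nat_lit 698490144547) (nat_lit 2) E)) (nat_lit 698490144995) (nat_lit 2) (N (N E (nat_lit 698490173667) (nat_lit 2) E) (nat_lit 698490356387) (nat_lit 2) E))) (nat_lit 698490372739) (nat_lit 2) (N (N (N (N E (nat_lit 698490373642) (nat_lit 2) E) (nat_lit 698519716515) (nat_lit 1) (N E (nat_lit 698519717603) (nat_lit 2) E)) (nat_lit 698519728355) (nat_lit 2) (N (N E (nat_lit 698519732867) (nat_lit 1) E) (nat_lit 698519732874) (nat_lit 2) E)) (nat_lit 698519733770) (nat_lit 1) (N (N (N E (nat_lit 698519733787) (nat_lit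 2) E) (nat_lit 698519733955) (nat_lit 2) (N E (nat_lit 698519734044) (nat_lit 2) E)) (nat_lit 698519734051) (nat_lit 2) (N (N E (nat_lit 698519734499) (nat_lit 2) E) (nat_lit 698520215779) (nat_lit 2) E)))) (nat_lit 698520273571) (nat_lit 2) (N (N (N (N (N E (nat_lit 698520289923) (nat_lit 2) E) (nat_lit 698520290826) (nat_lit 2) (N E (nat_lit 698525720803) (nat_lit 2) E)) (nat_lit 698525778595) (nat_lit 2) (N (N E (nat_lit 698525794947) (nat_lit 2) E) (nat_lit 698525795850) (nat_lit 2) (N E (nat_lit 698527820003) (nat_lit 2) E))) (nat_lit 698528105091) (nat_lit 1) (N (N (N E (nat_lit 698528105098) (nat_lit 2) E) (nat_lit 698528105994) (nat_lit 1) (N E (nat_lit 698528106011) (nat_lit 2) E)) (nat_lit 698528106179) (nat_lit 2) (N (N E (nat_lit 698528106268) (nat_lit 2) E) (nat_lit 698528106275) (nat_lit 2) E))) (nat_lit 698528106723) (nat_lit 2) (N (N (N (N E (nat_lit 698528109578) (nat_lit 2) E) (nat_lit 698528568330) (nat_lit 1) (N E (nat_lit 698528568347) (nat_lit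 2) E)) (nat_lit 698528568515) (nat_lit 2) (N (N E (nat_lit 698528568604) (nat_lit 2) E) (nat_lit 698528568611) (nat_lit 2) E)) (nat_lit 698528576131) (nat_lit 2) (N (N (N E (nat_lit 698528577034) (nat_lit 2) E) (nat_lit 698528662147) (nat_lit 2) (N E (nat_lit 698528663050) (nat_lit 2) E)) (nat_lit 698528694947) (nat_lit 2) (N (N E (nat_lit 698528699420) (nat_lit 2) E) (nat_lit 698528699427) (nat_lit 2) E)))))
)
 (nat_lit 698528706644) (nat_lit 2) (N (N (N (N (N (N (N E (nat_lit 698528708618) (nat_lit 2) E) (nat_lit 698528708688) (nat_lit 2) (N E (nat_lit 698528708835) (nat_lit 1) E)) (nat_lit 698528711299) (nat_lit 2) (N (N E (nat_lit 698528712202) (nat_lit 2) E) (nat_lit 698528866531) (nat_lit 2) (N E (nat_lit 698528924323) (nat_lit 2) E))) (nat_lit 698528940675) (nat_lit 2) (N (N (N E (nat_lit 698528941578) (nat_lit 2) E) (nat_lit 698538801379) (nat_lit 2) (N E (nat_lit 698542500067) (nat_lit 2) E)) (nat_lit 698543546595) (nat_lit 2) (N (N E (nat_lit 698543604387)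 (nat_lit 2) E) (nat_lit 698543620739) (nat_lit 2) E))) (nat_lit 698543621642) (nat_lit 2) (N (N (N (N E (nat_lit 714309384419) (nat_lit 2) E) (nat_lit 714313083107) (nat_lit 2) (N E (nat_lit 714314129635) (nat_lit 2) E)) (nat_lit 714314187427) (nat_lit 2) (N (N E (nat_lit 714314203779) (nat_lit 2) E) (nat_lit 714314204682) (nat_lit 2) E)) (nat_lit 716206811363) (nat_lit 2) (N (N (N E (nat_lit 716207857891) (nat_lit 2) E) (nat_lit 716207915683) (nat_lit 2) (N E (nat_lit 716207932035) (nat_lit 2) E)) (nat_lit 716207932938) (nat_lit 2) (N (N E (nat_lit 716743680227) (nat_lit 2) E) (nat_lit 716743738019) (nat_lit 2) E)))) (nat_lit 716743754371) (nat_lit 2) (N (N (N (N (N E (nat_lit 716743755274) (nat_lit 2) E) (nat_lit 716773327523) (nat_lit 2) (N E (nat_lit 716773343875) (nat_lit 2) E)) (nat_lit 716773344778) (nat_lit 2) (N (N E (nat_lit 716781716099) (nat_lit 2) E) (nat_lit 716781717002) (nat_lit 2) (N E (nat_lit 716782179338) (nat_lit 2) E))) (nat_lit 716782319843)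 (nat_lit 2) (N (N (N E (nat_lit 1660025872468) (nat_lit 1) E) (nat_lit 1660025872604) (nat_lit 2) (N E (nat_lit 1660025872611) (nat_lit 2) E)) (nat_lit 1660025873948) (nat_lit 2) (N (N E (nat_lit 1660025873955) (nat_lit 2) E) (nat_lit 1660025874442) (nat_lit 1) E))) (nat_lit 1660025874459) (nat_lit 2) (N (N (N (N E (nat_lit 1660025874512) (nat_lit 1) E) (nat_lit 1660025874627) (nat_lit 2) (N E (nat_lit 1660025874648) (nat_lit 2) E)) (nat_lit 1660025874659) (nat_lit 0) (N (N E (nat_lit 1660025874660) (nat_lit 2) E) (nat_lit 1660025874716) (nat_lit 2) E)) (nat_lit 1660025874723) (nat_lit 2) (N (N (N E (nat_lit 1660025930403) (nat_lit 2) E) (nat_lit 1660025934876) (nat_lit 2) (N E (nat_lit 1660025934883) (nat_lit 2) E)) (nat_lit 1660025942100) (nat_lit 2) (N (N E (nat_lit 1660025944074) (nat_lit 2) E) (nat_lit 1660025944144) (nat_lit 2) E)))))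
 (nat_lit 1660025944291) (nat_lit 1) (N (N (N (N (N (N E (nat_lit 1660025946755) (nat_lit 2) E) (nat_lit 1660025947658) (nat_lit 2) (N E (nat_lit 1660026173667) (nat_lit 2) E)) (nat_lit 1660026623004) (nat_lit 2) (N (N E (nat_lit 1660026623011) (nat_lit 2) E) (nat_lit 1660026630228) (nat_lit 2) (N E (nat_lit 1660026632202) (nat_lit 2) E))) (nat_lit 1660026632272) (nat_lit 2) (N (N (N E (nat_lit 1660026632419) (nat_lit 1) E) (nat_lit 1660026634883) (nat_lit 2) (N E (nat_lit 1660026635786) (nat_lit 2) E)) (nat_lit 1660026661091) (nat_lit 2) (N (N E (nat_lit 1660026885130) (nat_lit 1) E) (nat_lit 1660026885147) (nat_lit 2) E))) (nat_lit 1660026885315) (nat_lit 2) (N (N (N (N E (nat_lit 1660026885404) (nat_lit 2) E) (nat_lit 1660026885411) (nat_lit 2) (N E (nat_lit 1660026892931) (nat_lit 2) E)) (nat_lit 1660026893834) (nat_lit 2) (N (N E (nat_lit 1660026921040) (nat_lit 1) E) (nat_lit 1660026921155) (nat_lit 2) E)) (nat_lit 1660026921176) (nat_lit 2) (N (N (N E (nat_lit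 1660026921187) (nat_lit 0) E) (nat_lit 1660026921188) (nat_lit 2) (N E (nat_lit 1660026921244) (nat_lit 2) E)) (nat_lit 1660026921251) (nat_lit 2) (N (N E (nat_lit 1660026921635) (nat_lit 1) E) (nat_lit 1660026922723) (nat_lit 2) E)))) (nat_lit 1660026978947) (nat_lit 2) (N (N (N (N (N E (nat_lit 1660026978968) (nat_lit 2) E) (nat_lit 1660026978979) (nat_lit 0) (N E (nat_lit 1660026978980) (nat_lit 2) E)) (nat_lit 1660026979850) (nat_lit 2) (N (N E (nat_lit 1660026979920) (nat_lit 2) E) (nat_lit 1660026980067) (nat_lit 1) (N E (nat_lit 1660026983651) (nat_lit 2) E))) (nat_lit 1660026990672) (nat_lit 2) (N (N (N E (nat_lit 1660026990819) (nat_lit 1) E) (nat_lit 1660026991267) (nat_lit 2) (N E (nat_lit 1660026994772) (nat_lit 2) E)) (nat_lit 1660026995331) (nat_lit 0) (N (N E (nat_lit 1660026995332) (nat_lit 2) E) (nat_lit 1660026995338) (nat_lit 1) E))) (nat_lit 1660026995355) (nat_lit 2) (N (N (N (N E (nat_lit 1660026996234) (nat_lit 0) E) (nat_lit 1660026996251)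 (nat_lit 1) (N E (nat_lit 1660026996307) (nat_lit 2) E)) (nat_lit 1660026996419) (nat_lit 1) (N (N E (nat_lit 1660026996426) (nat_lit 2) E) (nat_lit 1660026996508) (nat_lit 1) E)) (nat_lit 1660026996515) (nat_lit 1) (N (N (N E (nat_lit 1660026996746) (nat_lit 2) E) (nat_lit 1660026996816) (nat_lit 2) (N E (nat_lit 1660026996963) (nat_lit 1) E)) (nat_lit 1660027011747) (nat_lit 2) (N (N E (nat_lit 1660027016220) (nat_lit 2) E) (nat_lit 1660027016227) (nat_lit 2) E)))))
)
)
 (nat_lit 1660027023444) (nat_lit 2) (N (N (N (N (N (N (N (N E (nat_lit 1660027025418) (nat_lit 2) E) (nat_lit 1660027025488) (nat_lit 2) (N E (nat_lit 1660027025635) (nat_lit 1) E)) (nat_lit 1660027028099) (nat_lit 2) (N (N E (nat_lit 1660027029002) (nat_lit 2) E) (nat_lit 1660055519907) (nat_lit 2) (N E (nat_lit 1660055536259) (nat_lit 2) E))) (nat_lit 1660055537162) (nat_lit 2) (N (N (N E (nat_lit 1660057818140) (nat_lit 2) E) (nat_lit 1660057818147) (nat_lit 2) (N E (nat_lit 1660057825364)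 (nat_lit 2) E)) (nat_lit 1660057827338) (nat_lit 2) (N (N E (nat_lit 1660057827408) (nat_lit 2) E) (nat_lit 1660057827555) (nat_lit 1) E))) (nat_lit 1660057830019) (nat_lit 2) (N (N (N (N E (nat_lit 1660057830922) (nat_lit 2) E) (nat_lit 1660057856227) (nat_lit 2) (N E (nat_lit 1660061524052) (nat_lit 2) E)) (nat_lit 1660061526026) (nat_lit 2) (N (N E (nat_lit 1660061526096) (nat_lit 2) E) (nat_lit 1660061526243) (nat_lit 1) E)) (nat_lit 1660061595875) (nat_lit 2) (N (N (N E (nat_lit 1660062284003) (nat_lit 2) E) (nat_lit 1660062536714) (nat_lit 2) (N E (nat_lit 1660062572624) (nat_lit 2) E)) (nat_lit 1660062572771) (nat_lit 1) (N (N E (nat_lit 1660062573219) (nat_lit 2) E) (nat_lit 1660062630563) (nat_lit 1) E)))) (nat_lit 1660062631651) (nat_lit 2) (N (N (N (N (N E (nat_lit 1660062642403) (nat_lit 2) E) (nat_lit 1660062646915) (nat_lit 1) (N E (nat_lit 1660062646922) (nat_lit 2) E)) (nat_lit 1660062647818) (nat_lit 1) (N (N E (nat_lit 1660062647835) (nat_lit 2)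 E) (nat_lit 1660062648003) (nat_lit 2) (N E (nat_lit 1660062648092) (nat_lit 2) E))) (nat_lit 1660062648099) (nat_lit 2) (N (N (N E (nat_lit 1660062648547) (nat_lit 2) E) (nat_lit 1660062677219) (nat_lit 2) (N E (nat_lit 1660063908483) (nat_lit 2) E)) (nat_lit 1660063909386) (nat_lit 2) (N (N E (nat_lit 1660064371722) (nat_lit 2) E) (nat_lit 1660064512227) (nat_lit 2) E))) (nat_lit 1660175268067) (nat_lit 2) (N (N (N (N E (nat_lit 1660178966755) (nat_lit 2) E) (nat_lit 1660180013283) (nat_lit 2) (N E (nat_lit 1660180071075) (nat_lit 2) E)) (nat_lit 1660180087427) (nat_lit 2) (N (N E (nat_lit 1660180088330) (nat_lit 2) E) (nat_lit 1660410139676) (nat_lit 2) E)) (nat_lit 1660410139683) (nat_lit 2) (N (N (N E (nat_lit 1660410146900) (nat_lit 2) E) (nat_lit 1660410148874) (nat_lit 2) (N E (nat_lit 1660410148944) (nat_lit 2) E)) (nat_lit 1660410149091) (nat_lit 1) (N (N E (nat_lit 1660410151555) (nat_lit 2) E) (nat_lit 1660410152458) (nat_lit 2) E)))))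
 (nat_lit 1660410177763) (nat_lit 2) (N (N (N (N (N (N E (nat_lit 1660413845588) (nat_lit 2) E) (nat_lit 1660413847562) (nat_lit 2) (N E (nat_lit 1660413847632) (nat_lit 2) E)) (nat_lit 1660413847779) (nat_lit 1) (N (N E (nat_lit 1660413917411) (nat_lit 2) E) (nat_lit 1660414605539) (nat_lit 2) (N E (nat_lit 1660414858250) (nat_lit 2) E))) (nat_lit 1660414894160) (nat_lit 2) (N (N (N E (nat_lit 1660414894307) (nat_lit 1) E) (nat_lit 1660414894755) (nat_lit 2) (N E (nat_lit 1660414952099) (nat_lit 1) E)) (nat_lit 1660414953187) (nat_lit 2) (N (N E (nat_lit 1660414963939) (nat_lit 2) E) (nat_lit 1660414968451) (nat_lit 1) E))) (nat_lit 1660414968458) (nat_lit 2) (N (N (N (N E (nat_lit 1660414969354) (nat_lit 1) E) (nat_lit 1660414969371) (nat_lit 2) (N E (nat_lit 1660414969539) (nat_lit 2) E)) (nat_lit 1660414969628) (nat_lit 2) (N (N E (nat_lit 1660414969635) (nat_lit 2) E) (nat_lit 1660414970083) (nat_lit 2) E)) (nat_lit 1660414998755) (nat_lit 2) (N (N (N E (nat_lit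 1660416230019) (nat_lit 2) E) (nat_lit 1660416230922) (nat_lit 2) (N E (nat_lit 1660416693258) (nat_lit 2) E)) (nat_lit 1660416833763) (nat_lit 2) (N (N E (nat_lit 1660428527843) (nat_lit 2) E) (nat_lit 1660429574371) (nat_lit 2) E)))) (nat_lit 1660429632163) (nat_lit 2) (N (N (N (N (N E (nat_lit 1660429648515) (nat_lit 2) E) (nat_lit 1660429649418) (nat_lit 2) (N E (nat_lit 1660544357386) (nat_lit 1) E)) (nat_lit 1660544357403) (nat_lit 2) (N (N E (nat_lit 1660544357571) (nat_lit 2) E) (nat_lit 1660544357660) (nat_lit 2) (N E (nat_lit 1660544357667) (nat_lit 2) E))) (nat_lit 1660544365187) (nat_lit 2) (N (N (N E (nat_lit 1660544366090) (nat_lit 2) E) (nat_lit 1660544451203) (nat_lit 2) (N E (nat_lit 1660544452106) (nat_lit 2) E)) (nat_lit 1660544484003) (nat_lit 2) (N (N E (nat_lit 1660544488476) (nat_lit 2) E) (nat_lit 1660544488483) (nat_lit 2) E))) (nat_lit 1660544495700) (nat_lit 2) (N (N (N (N E (nat_lit 1660544497674) (nat_lit 2) E) (nat_lit 1660544497744)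 (nat_lit 2) (N E (nat_lit 1660544497891) (nat_lit 1) E)) (nat_lit 1660544500355) (nat_lit 2) (N (N E (nat_lit 1660544501258) (nat_lit 2) E) (nat_lit 1660548350595) (nat_lit 2) E)) (nat_lit 1660548351498) (nat_lit 2) (N (N (N E (nat_lit 1660548813834) (nat_lit 2) E) (nat_lit 1660548954339) (nat_lit 2) (N E (nat_lit 1660562743376) (nat_lit 1) E)) (nat_lit 1660562743491) (nat_lit 2) (N (N E (nat_lit 1660562743512) (nat_lit 2) E) (nat_lit 1660562743523) (nat_lit 0) E)))))
)
 (nat_lit 1660562743524) (nat_lit 2) (N (N (N (N (N (N (N E (nat_lit 1660562743580) (nat_lit 2) E) (nat_lit 1660562743587) (nat_lit 2) (N E (nat_lit 1660562743971) (nat_lit 1) E)) (nat_lit 1660562745059) (nat_lit 2) (N (N E (nat_lit 1660562801283) (nat_lit 2) E) (nat_lit 1660562801304) (nat_lit 2) (N E (nat_lit 1660562801315) (nat_lit 0) E))) (nat_lit 1660562801316) (nat_lit 2) (N (N (N E (nat_lit 1660562802186) (nat_lit 2) E) (nat_lit 1660562802256) (nat_lit 2) (N E (nat_lit 1660562802403) (nat_lit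 1) E)) (nat_lit 1660562805987) (nat_lit 2) (N (N E (nat_lit 1660562813008) (nat_lit 2) E) (nat_lit 1660562813155) (nat_lit 1) E))) (nat_lit 1660562813603) (nat_lit 2) (N (N (N (N E (nat_lit 1660562817108) (nat_lit 2) E) (nat_lit 1660562817667) (nat_lit 0) (N E (nat_lit 1660562817668) (nat_lit 2) E)) (nat_lit 1660562817674) (nat_lit 1) (N (N E (nat_lit 1660562817691) (nat_lit 2) E) (nat_lit 1660562818570) (nat_lit 0) E)) (nat_lit 1660562818587) (nat_lit 1) (N (N (N E (nat_lit 1660562818643) (nat_lit 2) E) (nat_lit 1660562818755) (nat_lit 1) (N E (nat_lit 1660562818762) (nat_lit 2) E)) (nat_lit 1660562818844) (nat_lit 1) (N (N E (nat_lit 1660562818851) (nat_lit 1) E) (nat_lit 1660562819082) (nat_lit 2) E)))) (nat_lit 1660562819152) (nat_lit 2) (N (N (N (N (N E (nat_lit 1660562819299) (nat_lit 1) E) (nat_lit 1660562834083) (nat_lit 2) (N E (nat_lit 1660562838556) (nat_lit 2) E)) (nat_lit 1660562838563) (nat_lit 2) (N (N E (nat_lit 1660562845780) (nat_lit 2) E) (nat_lit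 1660562847754) (nat_lit 2) (N E (nat_lit 1660562847824) (nat_lit 2) E))) (nat_lit 1660562847971) (nat_lit 1) (N (N (N E (nat_lit 1660562850435) (nat_lit 2) E) (nat_lit 1660562851338) (nat_lit 2) (N E (nat_lit 1660563030691) (nat_lit 1) E)) (nat_lit 1660563031779) (nat_lit 2) (N (N E (nat_lit 1660563042531) (nat_lit 2) E) (nat_lit 1660563047043) (nat_lit 1) E))) (nat_lit 1660563047050) (nat_lit 2) (N (N (N (N E (nat_lit 1660563047946) (nat_lit 1) E) (nat_lit 1660563047963) (nat_lit 2) (N E (nat_lit 1660563048131) (nat_lit 2) E)) (nat_lit 1660563048220) (nat_lit 2) (N (N E (nat_lit 1660563048227) (nat_lit 2) E) (nat_lit 1660563048675) (nat_lit 2) E)) (nat_lit 1660563529955) (nat_lit 2) (N (N (N E (nat_lit 1660563587747) (nat_lit 2) E) (nat_lit 1660563604099) (nat_lit 2) (N E (nat_lit 1660563605002) (nat_lit 2) E)) (nat_lit 1660592390787) (nat_lit 2) (N (N E (nat_lit 1660592390808) (nat_lit 2) E) (nat_lit 1660592390819) (nat_lit 0) E)))))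
 (nat_lit 1660592390820) (nat_lit 2) (N (N (N (N (N (N E (nat_lit 1660592391690) (nat_lit 2) E) (nat_lit 1660592391760) (nat_lit 2) (N E (nat_lit 1660592391907) (nat_lit 1) E)) (nat_lit 1660592395491) (nat_lit 2) (N (N E (nat_lit 1660592402512) (nat_lit 2) E) (nat_lit 1660592402659) (nat_lit 1) (N E (nat_lit 1660592403107) (nat_lit 2) E))) (nat_lit 1660592406612) (nat_lit 2) (N (N (N E (nat_lit 1660592407171) (nat_lit 0) E) (nat_lit 1660592407172) (nat_lit 2) (N E (nat_lit 1660592407178) (nat_lit 1) E)) (nat_lit 1660592407195) (nat_lit 2) (N (N E (nat_lit 1660592408074) (nat_lit 0) E) (nat_lit 1660592408091) (nat_lit 1) E))) (nat_lit 1660592408147) (nat_lit 2) (N (N (N (N E (nat_lit 1660592408259) (nat_lit 1) E) (nat_lit 1660592408266) (nat_lit 2) (N E (nat_lit 1660592408348) (nat_lit 1) E)) (nat_lit 1660592408355) (nat_lit 1) (N (N E (nat_lit 1660592408586) (nat_lit 2) E) (nat_lit 1660592408656) (nat_lit 2) E)) (nat_lit 1660592408803) (nat_lit 1) (N (N (N E (nat_lit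 1660592854026) (nat_lit 2) E) (nat_lit 1660592889936) (nat_lit 2) (N E (nat_lit 1660592890083) (nat_lit 1) E)) (nat_lit 1660592890531) (nat_lit 2) (N (N E (nat_lit 1660592947875) (nat_lit 1) E) (nat_lit 1660592948963) (nat_lit 2) E)))) (nat_lit 1660592959715) (nat_lit 2) (N (N (N (N (N E (nat_lit 1660592964227) (nat_lit 1) E) (nat_lit 1660592964234) (nat_lit 2) (N E (nat_lit 1660592965130) (nat_lit 1) E)) (nat_lit 1660592965147) (nat_lit 2) (N (N E (nat_lit 1660592965315) (nat_lit 2) E) (nat_lit 1660592965404) (nat_lit 2) (N E (nat_lit 1660592965411) (nat_lit 2) E))) (nat_lit 1660592965859) (nat_lit 2) (N (N (N E (nat_lit 1660592994531) (nat_lit 2) E) (nat_lit 1660594725091) (nat_lit 2) (N E (nat_lit 1660594782883) (nat_lit 2) E)) (nat_lit 1660594799235) (nat_lit 2) (N (N E (nat_lit 1660594800138) (nat_lit 2) E) (nat_lit 1660598394960) (nat_lit 2) E))) (nat_lit 1660598395107) (nat_lit 1) (N (N (N (N E (nat_lit 1660598395555) (nat_lit 2) E) (nat_lit 1660598452899)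 (nat_lit 1) (N E (nat_lit 1660598453987) (nat_lit 2) E)) (nat_lit 1660598464739) (nat_lit 2) (N (N E (nat_lit 1660598469251) (nat_lit 1) E) (nat_lit 1660598469258) (nat_lit 2) E)) (nat_lit 1660598470154) (nat_lit 1) (N (N (N E (nat_lit 1660598470171) (nat_lit 2) E) (nat_lit 1660598470339) (nat_lit 2) (N E (nat_lit 1660598470428) (nat_lit 2) E)) (nat_lit 1660598470435) (nat_lit 2) (N (N E (nat_lit 1660598470883) (nat_lit 2) E) (nat_lit 1660598499555) (nat_lit 2) E)))))
)
)
)
 (nat_lit 1660598682275) (nat_lit 2) (N (N (N (N (N (N (N (N (N E (nat_lit 1660598698627) (nat_lit 2) E) (nat_lit 1660598699530) (nat_lit 2) (N E (nat_lit 1660600492116) (nat_lit 2) E)) (nat_lit 1660600494090) (nat_lit 2) (N (N E (nat_lit 1660600494160) (nat_lit 2) E) (nat_lit 1660600494307) (nat_lit 1) (N E (nat_lit 1660600563939) (nat_lit 2) E))) (nat_lit 1660600779395) (nat_lit 0) (N (N (N E (nat_lit 1660600779396) (nat_lit 2) E) (nat_lit 1660600779402) (nat_lit 1) (N E (nat_lit 1660600779419)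 (nat_lit 2) E)) (nat_lit 1660600780298) (nat_lit 0) (N (N E (nat_lit 1660600780315) (nat_lit 1) E) (nat_lit 1660600780371) (nat_lit 2) E))) (nat_lit 1660600780483) (nat_lit 1) (N (N (N (N E (nat_lit 1660600780490) (nat_lit 2) E) (nat_lit 1660600780572) (nat_lit 1) (N E (nat_lit 1660600780579) (nat_lit 1) E)) (nat_lit 1660600780810) (nat_lit 2) (N (N E (nat_lit 1660600780880) (nat_lit 2) E) (nat_lit 1660600781027) (nat_lit 1) E)) (nat_lit 1660600783882) (nat_lit 1) (N (N (N E (nat_lit 1660600783899) (nat_lit 2) E) (nat_lit 1660600784067) (nat_lit 2) (N E (nat_lit 1660600784156) (nat_lit 2) E)) (nat_lit 1660600784163) (nat_lit 2) (N (N E (nat_lit 1660600791683) (nat_lit 2) E) (nat_lit 1660600792586) (nat_lit 2) E)))) (nat_lit 1660601242634) (nat_lit 0) (N (N (N (N (N E (nat_lit 1660601242651) (nat_lit 1) E) (nat_lit 1660601242707) (nat_lit 2) (N E (nat_lit 1660601242819) (nat_lit 1) E)) (nat_lit 1660601242826) (nat_lit 2) (N (N E (nat_lit 1660601242908) (nat_lit 1)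 E) (nat_lit 1660601242915) (nat_lit 1) (N E (nat_lit 1660601250435) (nat_lit 1) E))) (nat_lit 1660601250442) (nat_lit 2) (N (N (N E (nat_lit 1660601251338) (nat_lit 1) E) (nat_lit 1660601251355) (nat_lit 2) (N E (nat_lit 1660601251523) (nat_lit 2) E)) (nat_lit 1660601251612) (nat_lit 2) (N (N E (nat_lit 1660601251619) (nat_lit 2) E) (nat_lit 1660601252067) (nat_lit 2) E))) (nat_lit 1660601279107) (nat_lit 2) (N (N (N (N E (nat_lit 1660601280010) (nat_lit 2) E) (nat_lit 1660601336451) (nat_lit 1) (N E (nat_lit 1660601336458) (nat_lit 2) E)) (nat_lit 1660601337354) (nat_lit 1) (N (N E (nat_lit 1660601337371) (nat_lit 2) E) (nat_lit 1660601337539) (nat_lit 2) E)) (nat_lit 1660601337628) (nat_lit 2) (N (N (N E (nat_lit 1660601337635) (nat_lit 2) E) (nat_lit 1660601338083) (nat_lit 2) (N E (nat_lit 1660601340938) (nat_lit 2) E)) (nat_lit 1660601369251) (nat_lit 1) (N (N E (nat_lit 1660601370339) (nat_lit 2) E) (nat_lit 1660601373724) (nat_lit 1) E)))))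
 (nat_lit 1660601373731) (nat_lit 1) (N (N (N (N (N (N E (nat_lit 1660601373780) (nat_lit 2) E) (nat_lit 1660601380948) (nat_lit 1) (N E (nat_lit 1660601381084) (nat_lit 2) E)) (nat_lit 1660601381091) (nat_lit 2) (N (N E (nat_lit 1660601382428) (nat_lit 2) E) (nat_lit 1660601382435) (nat_lit 2) (N E (nat_lit 1660601382922) (nat_lit 1) E))) (nat_lit 1660601382939) (nat_lit 2) (N (N (N E (nat_lit 1660601382992) (nat_lit 1) E) (nat_lit 1660601383107) (nat_lit 2) (N E (nat_lit 1660601383128) (nat_lit 2) E)) (nat_lit 1660601383139) (nat_lit 0) (N (N E (nat_lit 1660601383140) (nat_lit 2) E) (nat_lit 1660601383196) (nat_lit 2) E))) (nat_lit 1660601383203) (nat_lit 2) (N (N (N (N E (nat_lit 1660601385603) (nat_lit 1) E) (nat_lit 1660601385610) (nat_lit 2) (N E (nat_lit 1660601386506) (nat_lit 1) E)) (nat_lit 1660601386523) (nat_lit 2) (N (N E (nat_lit 1660601386691) (nat_lit 2) E) (nat_lit 1660601386780) (nat_lit 2) E)) (nat_lit 1660601386787) (nat_lit 2) (N (N (N E (nat_lit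 1660601387235) (nat_lit 2) E) (nat_lit 1660601504778) (nat_lit 2) (N E (nat_lit 1660601540688) (nat_lit 2) E)) (nat_lit 1660601540835) (nat_lit 1) (N (N E (nat_lit 1660601541283) (nat_lit 2) E) (nat_lit 1660601598627) (nat_lit 1) E)))) (nat_lit 1660601599715) (nat_lit 2) (N (N (N (N (N E (nat_lit 1660601610467) (nat_lit 2) E) (nat_lit 1660601614979) (nat_lit 1) (N E (nat_lit 1660601614986) (nat_lit 2) E)) (nat_lit 1660601615882) (nat_lit 1) (N (N E (nat_lit 1660601615899) (nat_lit 2) E) (nat_lit 1660601616067) (nat_lit 2) (N E (nat_lit 1660601616156) (nat_lit 2) E))) (nat_lit 1660601616163) (nat_lit 2) (N (N (N E (nat_lit 1660601616611) (nat_lit 2) E) (nat_lit 1660601645283) (nat_lit 2) (N E (nat_lit 1660609168035) (nat_lit 2) E)) (nat_lit 1660609184387) (nat_lit 2) (N (N E (nat_lit 1660609185290) (nat_lit 2) E) (nat_lit 1660611466268) (nat_lit 2) E))) (nat_lit 1660611466275) (nat_lit 2) (N (N (N (N E (nat_lit 1660611473492) (nat_lit 2) E) (nat_lit 1660611475466)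 (nat_lit 2) (N E (nat_lit 1660611475536) (nat_lit 2) E)) (nat_lit 1660611475683) (nat_lit 1) (N (N E (nat_lit 1660611478147) (nat_lit 2) E) (nat_lit 1660611479050) (nat_lit 2) E)) (nat_lit 1660611504355) (nat_lit 2) (N (N (N E (nat_lit 1660615172180) (nat_lit 2) E) (nat_lit 1660615174154) (nat_lit 2) (N E (nat_lit 1660615174224) (nat_lit 2) E)) (nat_lit 1660615174371) (nat_lit 1) (N (N E (nat_lit 1660615244003) (nat_lit 2) E) (nat_lit 1660615932131) (nat_lit 2) E)))))
)
 (nat_lit 1660616184842) (nat_lit 2) (N (N (N (N (N (N (N E (nat_lit 1660616220752) (nat_lit 2) E) (nat_lit 1660616220899) (nat_lit 1) (N E (nat_lit 1660616221347) (nat_lit 2) E)) (nat_lit 1660616278691) (nat_lit 1) (N (N E (nat_lit 1660616279779) (nat_lit 2) E) (nat_lit 1660616290531) (nat_lit 2) (N E (nat_lit 1660616295043) (nat_lit 1) E))) (nat_lit 1660616295050) (nat_lit 2) (N (N (N E (nat_lit 1660616295946) (nat_lit 1) E) (nat_lit 1660616295963) (nat_lit 2) (N E (nat_lit 1660616296131) (nat_lit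 2) E)) (nat_lit 1660616296220) (nat_lit 2) (N (N E (nat_lit 1660616296227) (nat_lit 2) E) (nat_lit 1660616296675) (nat_lit 2) E))) (nat_lit 1660616325347) (nat_lit 2) (N (N (N (N E (nat_lit 1660617556611) (nat_lit 2) E) (nat_lit 1660617557514) (nat_lit 2) (N E (nat_lit 1660618019850) (nat_lit 2) E)) (nat_lit 1660618160355) (nat_lit 2) (N (N E (nat_lit 1675205345955) (nat_lit 2) E) (nat_lit 1675205362307) (nat_lit 2) E)) (nat_lit 1675205363210) (nat_lit 2) (N (N (N E (nat_lit 1675213734531) (nat_lit 2) E) (nat_lit 1675213735434) (nat_lit 2) (N E (nat_lit 1675214197770) (nat_lit 2) E)) (nat_lit 1675214338275) (nat_lit 2) (N (N E (nat_lit 1676382049308) (nat_lit 2) E) (nat_lit 1676382049315) (nat_lit 2) E)))) (nat_lit 1676382056532) (nat_lit 2) (N (N (N (N (N E (nat_lit 1676382058506) (nat_lit 2) E) (nat_lit 1676382058576) (nat_lit 2) (N E (nat_lit 1676382058723) (nat_lit 1) E)) (nat_lit 1676382061187) (nat_lit 2) (N (N E (nat_lit 1676382062090) (nat_lit 2) E) (nat_lit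 1676382087395) (nat_lit 2) (N E (nat_lit 1676385755220) (nat_lit 2) E))) (nat_lit 1676385757194) (nat_lit 2) (N (N (N E (nat_lit 1676385757264) (nat_lit 2) E) (nat_lit 1676385757411) (nat_lit 1) (N E (nat_lit 1676385827043) (nat_lit 2) E)) (nat_lit 1676386515171) (nat_lit 2) (N (N E (nat_lit 1676386767882) (nat_lit 2) E) (nat_lit 1676386803792) (nat_lit 2) E))) (nat_lit 1676386803939) (nat_lit 1) (N (N (N (N E (nat_lit 1676386804387) (nat_lit 2) E) (nat_lit 1676386861731) (nat_lit 1) (N E (nat_lit 1676386862819) (nat_lit 2) E)) (nat_lit 1676386873571) (nat_lit 2) (N (N E (nat_lit 1676386878083) (nat_lit 1) E) (nat_lit 1676386878090) (nat_lit 2) E)) (nat_lit 1676386878986) (nat_lit 1) (N (N (N E (nat_lit 1676386879003) (nat_lit 2) E) (nat_lit 1676386879171) (nat_lit 2) (N E (nat_lit 1676386879260) (nat_lit 2) E)) (nat_lit 1676386879267) (nat_lit 2) (N (N E (nat_lit 1676386879715) (nat_lit 2) E) (nat_lit 1676386908387) (nat_lit 2) E)))))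
 (nat_lit 1676388139651) (nat_lit 2) (N (N (N (N (N (N E (nat_lit 1676388140554) (nat_lit 2) E) (nat_lit 1676388602890) (nat_lit 2) (N E (nat_lit 1676388743395) (nat_lit 2) E)) (nat_lit 1676400437475) (nat_lit 2) (N (N E (nat_lit 1676401484003) (nat_lit 2) E) (nat_lit 1676401541795) (nat_lit 2) (N E (nat_lit 1676401558147) (nat_lit 2) E))) (nat_lit 1676401559050) (nat_lit 2) (N (N (N E (nat_lit 1678279483476) (nat_lit 2) E) (nat_lit 1678279485450) (nat_lit 2) (N E (nat_lit 1678279485520) (nat_lit 2) E)) (nat_lit 1678279485667) (nat_lit 1) (N (N E (nat_lit 1678279555299) (nat_lit 2) E) (nat_lit 1678280243427) (nat_lit 2) E))) (nat_lit 1678280496138) (nat_lit 2) (N (N (N (N E (nat_lit 1678280532048) (nat_lit 2) E) (nat_lit 1678280532195) (nat_lit 1) (N E (nat_lit 1678280532643) (nat_lit 2) E)) (nat_lit 1678280589987) (nat_lit 1) (N (N E (nat_lit 1678280591075) (nat_lit 2) E) (nat_lit 1678280601827) (nat_lit 2) E)) (nat_lit 1678280606339) (nat_lit 1) (N (N (N E (nat_lit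 1678280606346) (nat_lit 2) E) (nat_lit 1678280607242) (nat_lit 1) (N E (nat_lit 1678280607259) (nat_lit 2) E)) (nat_lit 1678280607427) (nat_lit 2) (N (N E (nat_lit 1678280607516) (nat_lit 2) E) (nat_lit 1678280607523) (nat_lit 2) E)))) (nat_lit 1678280607971) (nat_lit 2) (N (N (N (N (N E (nat_lit 1678280636643) (nat_lit 2) E) (nat_lit 1678311438563) (nat_lit 2) (N E (nat_lit 1678315137251) (nat_lit 2) E)) (nat_lit 1678316183779) (nat_lit 2) (N (N E (nat_lit 1678316241571) (nat_lit 2) E) (nat_lit 1678316257923) (nat_lit 2) (N E (nat_lit 1678316258826) (nat_lit 2) E))) (nat_lit 1678663760099) (nat_lit 2) (N (N (N E (nat_lit 1678667458787) (nat_lit 2) E) (nat_lit 1678668505315) (nat_lit 2) (N E (nat_lit 1678668563107) (nat_lit 2) E)) (nat_lit 1678668579459) (nat_lit 2) (N (N E (nat_lit 1678668580362) (nat_lit 2) E) (nat_lit 1678797968394) (nat_lit 2) E))) (nat_lit 1678798108899) (nat_lit 2) (N (N (N (N E (nat_lit 1678816354384) (nat_lit 2) E) (nat_lit 1678816354531)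 (nat_lit 1) (N E (nat_lit 1678816354979) (nat_lit 2) E)) (nat_lit 1678816412323) (nat_lit 1) (N (N E (nat_lit 1678816413411) (nat_lit 2) E) (nat_lit 1678816424163) (nat_lit 2) E)) (nat_lit 1678816428675) (nat_lit 1) (N (N (N E (nat_lit 1678816428682) (nat_lit 2) E) (nat_lit 1678816429578) (nat_lit 1) (N E (nat_lit 1678816429595) (nat_lit 2) E)) (nat_lit 1678816429763) (nat_lit 2) (N (N E (nat_lit 1678816429852) (nat_lit 2) E) (nat_lit 1678816429859) (nat_lit 2) E)))))
)
)
 (nat_lit 1678816430307) (nat_lit 2) (N (N (N (N (N (N (N (N E (nat_lit 1678816458979) (nat_lit 2) E) (nat_lit 1678816641699) (nat_lit 2) (N E (nat_lit 1678816658051) (nat_lit 2) E)) (nat_lit 1678816658954) (nat_lit 2) (N (N E (nat_lit 1678846001827) (nat_lit 1) E) (nat_lit 1678846002915) (nat_lit 2) (N E (nat_lit 1678846013667) (nat_lit 2) E))) (nat_lit 1678846018179) (nat_lit 1) (N (N (N E (nat_lit 1678846018186) (nat_lit 2) E) (nat_lit 1678846019082) (nat_lit 1) (N E (nat_lit 1678846019099)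 (nat_lit 2) E)) (nat_lit 1678846019267) (nat_lit 2) (N (N E (nat_lit 1678846019356) (nat_lit 2) E) (nat_lit 1678846019363) (nat_lit 2) E))) (nat_lit 1678846019811) (nat_lit 2) (N (N (N (N E (nat_lit 1678846501091) (nat_lit 2) E) (nat_lit 1678846558883) (nat_lit 2) (N E (nat_lit 1678846575235) (nat_lit 2) E)) (nat_lit 1678846576138) (nat_lit 2) (N (N E (nat_lit 1678852006115) (nat_lit 2) E) (nat_lit 1678852063907) (nat_lit 2) E)) (nat_lit 1678852080259) (nat_lit 2) (N (N (N E (nat_lit 1678852081162) (nat_lit 2) E) (nat_lit 1678854105315) (nat_lit 2) (N E (nat_lit 1678854390403) (nat_lit 1) E)) (nat_lit 1678854390410) (nat_lit 2) (N (N E (nat_lit 1678854391306) (nat_lit 1) E) (nat_lit 1678854391323) (nat_lit 2) E)))) (nat_lit 1678854391491) (nat_lit 2) (N (N (N (N (N E (nat_lit 1678854391580) (nat_lit 2) E) (nat_lit 1678854391587) (nat_lit 2) (N E (nat_lit 1678854392035) (nat_lit 2) E)) (nat_lit 1678854394890) (nat_lit 2) (N (N E (nat_lit 1678854853642) (nat_lit 1)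 E) (nat_lit 1678854853659) (nat_lit 2) (N E (nat_lit 1678854853827) (nat_lit 2) E))) (nat_lit 1678854853916) (nat_lit 2) (N (N (N E (nat_lit 1678854853923) (nat_lit 2) E) (nat_lit 1678854861443) (nat_lit 2) (N E (nat_lit 1678854862346) (nat_lit 2) E)) (nat_lit 1678854947459) (nat_lit 2) (N (N E (nat_lit 1678854948362) (nat_lit 2) E) (nat_lit 1678854980259) (nat_lit 2) E))) (nat_lit 1678854984732) (nat_lit 2) (N (N (N (N E (nat_lit 1678854984739) (nat_lit 2) E) (nat_lit 1678854991956) (nat_lit 2) (N E (nat_lit 1678854993930) (nat_lit 2) E)) (nat_lit 1678854994000) (nat_lit 2) (N (N E (nat_lit 1678854994147) (nat_lit 1) E) (nat_lit 1678854996611) (nat_lit 2) E)) (nat_lit 1678854997514) (nat_lit 2) (N (N (N E (nat_lit 1678855151843) (nat_lit 2) E) (nat_lit 1678855209635) (nat_lit 2) (N E (nat_lit 1678855225987) (nat_lit 2) E)) (nat_lit 1678855226890) (nat_lit 2) (N (N E (nat_lit 1678865086691) (nat_lit 2) E) (nat_lit 1678868785379) (nat_lit 2) E)))))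
 (nat_lit 1678869831907) (nat_lit 2) (N (N (N (N (N (N E (nat_lit 1678869889699) (nat_lit 2) E) (nat_lit 1678869906051) (nat_lit 2) (N E (nat_lit 1678869906954) (nat_lit 2) E)) (nat_lit 1679500313219) (nat_lit 2) (N (N E (nat_lit 1679500314122) (nat_lit 2) E) (nat_lit 1679500776458) (nat_lit 2) (N E (nat_lit 1679500916963) (nat_lit 2) E))) (nat_lit 1679737492490) (nat_lit 2) (N (N (N E (nat_lit 1679737632995) (nat_lit 2) E) (nat_lit 1679804610787) (nat_lit 2) (N E (nat_lit 1679808309475) (nat_lit 2) E)) (nat_lit 1679809356003) (nat_lit 2) (N (N E (nat_lit 1679809413795) (nat_lit 2) E) (nat_lit 1679809430147) (nat_lit 2) E))) (nat_lit 1679809431050) (nat_lit 2) (N (N (N (N E (nat_lit 1736511600867) (nat_lit 2) E) (nat_lit 1736515299555) (nat_lit 2) (N E (nat_lit 1736516346083) (nat_lit 2) E)) (nat_lit 1736516403875) (nat_lit 2) (N (N E (nat_lit 1736516420227) (nat_lit 2) E) (nat_lit 1736516421130) (nat_lit 2) E)) (nat_lit 1738409027811) (nat_lit 2) (N (N (N E (nat_lit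 1738410074339) (nat_lit 2) E) (nat_lit 1738410132131) (nat_lit 2) (N E (nat_lit 1738410148483) (nat_lit 2) E)) (nat_lit 1738410149386) (nat_lit 2) (N (N E (nat_lit 1738945896675) (nat_lit 2) E) (nat_lit 1738945954467) (nat_lit 2) E)))) (nat_lit 1738945970819) (nat_lit 2) (N (N (N (N (N E (nat_lit 1738945971722) (nat_lit 2) E) (nat_lit 1738975543971) (nat_lit 2) (N E (nat_lit 1738975560323) (nat_lit 2) E)) (nat_lit 1738975561226) (nat_lit 2) (N (N E (nat_lit 1738983932547) (nat_lit 2) E) (nat_lit 1738983933450) (nat_lit 2) (N E (nat_lit 1738984395786) (nat_lit 2) E))) (nat_lit 1738984536291) (nat_lit 2) (N (N (N E (nat_lit 1856770675740) (nat_lit 2) E) (nat_lit 1856770675747) (nat_lit 2) (N E (nat_lit 1856770682964) (nat_lit 2) E)) (nat_lit 1856770684938) (nat_lit 2) (N (N E (nat_lit 1856770685008) (nat_lit 2) E) (nat_lit 1856770685155) (nat_lit 1) E))) (nat_lit 1856770687619) (nat_lit 2) (N (N (N (N E (nat_lit 1856770688522) (nat_lit 2) E) (nat_lit 1856770713827)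 (nat_lit 2) (N E (nat_lit 1856774381652) (nat_lit 2) E)) (nat_lit 1856774383626) (nat_lit 2) (N (N E (nat_lit 1856774383696) (nat_lit 2) E) (nat_lit 1856774383843) (nat_lit 1) E)) (nat_lit 1856774453475) (nat_lit 2) (N (N (N E (nat_lit 1856775141603) (nat_lit 2) E) (nat_lit 1856775394314) (nat_lit 2) (N E (nat_lit 1856775430224) (nat_lit 2) E)) (nat_lit 1856775430371) (nat_lit 1) (N (N E (nat_lit 1856775430819) (nat_lit 2) E) (nat_lit 1856775488163) (nat_lit 1) E)))))
)
 (nat_lit 1856775489251) (nat_lit 2) (N (N (N (N (N (N (N E (nat_lit 1856775500003) (nat_lit 2) E) (nat_lit 1856775504515) (nat_lit 1) (N E (nat_lit 1856775504522) (nat_lit 2) E)) (nat_lit 1856775505418) (nat_lit 1) (N (N E (nat_lit 1856775505435) (nat_lit 2) E) (nat_lit 1856775505603) (nat_lit 2) (N E (nat_lit 1856775505692) (nat_lit 2) E))) (nat_lit 1856775505699) (nat_lit 2) (N (N (N E (nat_lit 1856775506147) (nat_lit 2) E) (nat_lit 1856775534819) (nat_lit 2) (N E (nat_lit 1856776766083) (nat_lit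 2) E)) (nat_lit 1856776766986) (nat_lit 2) (N (N E (nat_lit 1856777229322) (nat_lit 2) E) (nat_lit 1856777369827) (nat_lit 2) E))) (nat_lit 1856789063907) (nat_lit 2) (N (N (N (N E (nat_lit 1856790110435) (nat_lit 2) E) (nat_lit 1856790168227) (nat_lit 2) (N E (nat_lit 1856790184579) (nat_lit 2) E)) (nat_lit 1856790185482) (nat_lit 2) (N (N E (nat_lit 1858668109908) (nat_lit 2) E) (nat_lit 1858668111882) (nat_lit 2) E)) (nat_lit 1858668111952) (nat_lit 2) (N (N (N E (nat_lit 1858668112099) (nat_lit 1) E) (nat_lit 1858668181731) (nat_lit 2) (N E (nat_lit 1858668869859) (nat_lit 2) E)) (nat_lit 1858669122570) (nat_lit 2) (N (N E (nat_lit 1858669158480) (nat_lit 2) E) (nat_lit 1858669158627) (nat_lit 1) E)))) (nat_lit 1858669159075) (nat_lit 2) (N (N (N (N (N E (nat_lit 1858669216419) (nat_lit 1) E) (nat_lit 1858669217507) (nat_lit 2) (N E (nat_lit 1858669228259) (nat_lit 2) E)) (nat_lit 1858669232771) (nat_lit 1) (N (N E (nat_lit 1858669232778) (nat_lit 2) E) (nat_lit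 1858669233674) (nat_lit 1) (N E (nat_lit 1858669233691) (nat_lit 2) E))) (nat_lit 1858669233859) (nat_lit 2) (N (N (N E (nat_lit 1858669233948) (nat_lit 2) E) (nat_lit 1858669233955) (nat_lit 2) (N E (nat_lit 1858669234403) (nat_lit 2) E)) (nat_lit 1858669263075) (nat_lit 2) (N (N E (nat_lit 1858700064995) (nat_lit 2) E) (nat_lit 1858703763683) (nat_lit 2) E))) (nat_lit 1858704810211) (nat_lit 2) (N (N (N (N E (nat_lit 1858704868003) (nat_lit 2) E) (nat_lit 1858704884355) (nat_lit 2) (N E (nat_lit 1858704885258) (nat_lit 2) E)) (nat_lit 1859052386531) (nat_lit 2) (N (N E (nat_lit 1859056085219) (nat_lit 2) E) (nat_lit 1859057131747) (nat_lit 2) E)) (nat_lit 1859057189539) (nat_lit 2) (N (N (N E (nat_lit 1859057205891) (nat_lit 2) E) (nat_lit 1859057206794) (nat_lit 2) (N E (nat_lit 1859186594826) (nat_lit 2) E)) (nat_lit 1859186735331) (nat_lit 2) (N (N E (nat_lit 1859204980816) (nat_lit 2) E) (nat_lit 1859204980963) (nat_lit 1) E)))))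
 (nat_lit 1859204981411) (nat_lit 2) (N (N (N (N (N (N E (nat_lit 1859205038755) (nat_lit 1) E) (nat_lit 1859205039843) (nat_lit 2) (N E (nat_lit 1859205050595) (nat_lit 2) E)) (nat_lit 1859205055107) (nat_lit 1) (N (N E (nat_lit 1859205055114) (nat_lit 2) E) (nat_lit 1859205056010) (nat_lit 1) (N E (nat_lit 1859205056027) (nat_lit 2) E))) (nat_lit 1859205056195) (nat_lit 2) (N (N (N E (nat_lit 1859205056284) (nat_lit 2) E) (nat_lit 1859205056291) (nat_lit 2) (N E (nat_lit 1859205056739) (nat_lit 2) E)) (nat_lit 1859205085411) (nat_lit 2) (N (N E (nat_lit 1859205268131) (nat_lit 2) E) (nat_lit 1859205284483) (nat_lit 2) E))) (nat_lit 1859205285386) (nat_lit 2) (N (N (N (N E (nat_lit 1859234628259) (nat_lit 1) E) (nat_lit 1859234629347) (nat_lit 2) (N E (nat_lit 1859234640099) (nat_lit 2) E)) (nat_lit 1859234644611) (nat_lit 1) (N (N E (nat_lit 1859234644618) (nat_lit 2) E) (nat_lit 1859234645514) (nat_lit 1) E)) (nat_lit 1859234645531) (nat_lit 2) (N (N (N E (nat_lit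 1859234645699) (nat_lit 2) E) (nat_lit 1859234645788) (nat_lit 2) (N E (nat_lit 1859234645795) (nat_lit 2) E)) (nat_lit 1859234646243) (nat_lit 2) (N (N E (nat_lit 1859235127523) (nat_lit 2) E) (nat_lit 1859235185315) (nat_lit 2) E)))) (nat_lit 1859235201667) (nat_lit 2) (N (N (N (N (N E (nat_lit 1859235202570) (nat_lit 2) E) (nat_lit 1859240632547) (nat_lit 2) (N E (nat_lit 1859240690339) (nat_lit 2) E)) (nat_lit 1859240706691) (nat_lit 2) (N (N E (nat_lit 1859240707594) (nat_lit 2) E) (nat_lit 1859242731747) (nat_lit 2) (N E (nat_lit 1859243016835) (nat_lit 1) E))) (nat_lit 1859243016842) (nat_lit 2) (N (N (N E (nat_lit 1859243017738) (nat_lit 1) E) (nat_lit 1859243017755) (nat_lit 2) (N E (nat_lit 1859243017923) (nat_lit 2) E)) (nat_lit 1859243018012) (nat_lit 2) (N (N E (nat_lit 1859243018019) (nat_lit 2) E) (nat_lit 1859243018467) (nat_lit 2) E))) (nat_lit 1859243021322) (nat_lit 2) (N (N (N (N E (nat_lit 1859243480074) (nat_lit 1) E) (nat_lit 1859243480091)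 (nat_lit 2) (N E (nat_lit 1859243480259) (nat_lit 2) E)) (nat_lit 1859243480348) (nat_lit 2) (N (N E (nat_lit 1859243480355) (nat_lit 2) E) (nat_lit 1859243487875) (nat_lit 2) E)) (nat_lit 1859243488778) (nat_lit 2) (N (N (N E (nat_lit 1859243573891) (nat_lit 2) E) (nat_lit 1859243574794) (nat_lit 2) (N E (nat_lit 1859243606691) (nat_lit 2) E)) (nat_lit 1859243611164) (nat_lit 2) (N (N E (nat_lit 1859243611171) (nat_lit 2) E) (nat_lit 1859243618388) (nat_lit 2) E)))))
)
)
)
)
)
 (nat_lit 1859243620362) (nat_lit 2) (N (N (N (N (N (N (N (N (N (N (N E (nat_lit 1859243620432) (nat_lit 2) E) (nat_lit 1859243620579) (nat_lit 1) (N E (nat_lit 1859243623043) (nat_lit 2) E)) (nat_lit 1859243623946) (nat_lit 2) (N (N E (nat_lit 1859243778275) (nat_lit 2) E) (nat_lit 1859243836067) (nat_lit 2) (N E (nat_lit 1859243852419) (nat_lit 2) E))) (nat_lit 1859243853322) (nat_lit 2) (N (N (N E (nat_lit 1859253713123) (nat_lit 2) E) (nat_lit 1859257411811) (nat_lit 2) (N E (nat_lit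 1859258458339) (nat_lit 2) E)) (nat_lit 1859258516131) (nat_lit 2) (N (N E (nat_lit 1859258532483) (nat_lit 2) E) (nat_lit 1859258533386) (nat_lit 2) E))) (nat_lit 1859888939651) (nat_lit 2) (N (N (N (N E (nat_lit 1859888940554) (nat_lit 2) E) (nat_lit 1859889402890) (nat_lit 2) (N E (nat_lit 1859889543395) (nat_lit 2) E)) (nat_lit 1860126118922) (nat_lit 2) (N (N E (nat_lit 1860126259427) (nat_lit 2) E) (nat_lit 1860193237219) (nat_lit 2) E)) (nat_lit 1860196935907) (nat_lit 2) (N (N (N E (nat_lit 1860197982435) (nat_lit 2) E) (nat_lit 1860198040227) (nat_lit 2) (N E (nat_lit 1860198056579) (nat_lit 2) E)) (nat_lit 1860198057482) (nat_lit 2) (N (N E (nat_lit 1866184304867) (nat_lit 2) E) (nat_lit 1866185351395) (nat_lit 2) E)))) (nat_lit 1866185409187) (nat_lit 2) (N (N (N (N (N E (nat_lit 1866185425539) (nat_lit 2) E) (nat_lit 1866185426442) (nat_lit 2) (N E (nat_lit 1866721173731) (nat_lit 2) E)) (nat_lit 1866721231523) (nat_lit 2) (N (N E (nat_lit 1866721247875)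 (nat_lit 2) E) (nat_lit 1866721248778) (nat_lit 2) (N E (nat_lit 1866750821027) (nat_lit 2) E))) (nat_lit 1866750837379) (nat_lit 2) (N (N (N E (nat_lit 1866750838282) (nat_lit 2) E) (nat_lit 1866759209603) (nat_lit 2) (N E (nat_lit 1866759210506) (nat_lit 2) E)) (nat_lit 1866759672842) (nat_lit 2) (N (N E (nat_lit 1866759813347) (nat_lit 2) E) (nat_lit 1925490152458) (nat_lit 1) E))) (nat_lit 1925490152475) (nat_lit 2) (N (N (N (N E (nat_lit 1925490152643) (nat_lit 2) E) (nat_lit 1925490152732) (nat_lit 2) (N E (nat_lit 1925490152739) (nat_lit 2) E)) (nat_lit 1925490160259) (nat_lit 2) (N (N E (nat_lit 1925490161162) (nat_lit 2) E) (nat_lit 1925490246275) (nat_lit 2) E)) (nat_lit 1925490247178) (nat_lit 2) (N (N (N E (nat_lit 1925490279075) (nat_lit 2) E) (nat_lit 1925490283548) (nat_lit 2) (N E (nat_lit 1925490283555) (nat_lit 2) E)) (nat_lit 1925490290772) (nat_lit 2) (N (N E (nat_lit 1925490292746) (nat_lit 2) E) (nat_lit 1925490292816) (nat_lit 2) E)))))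
 (nat_lit 1925490292963) (nat_lit 1) (N (N (N (N (N (N E (nat_lit 1925490295427) (nat_lit 2) E) (nat_lit 1925490296330) (nat_lit 2) (N E (nat_lit 1925494145667) (nat_lit 2) E)) (nat_lit 1925494146570) (nat_lit 2) (N (N E (nat_lit 1925494608906) (nat_lit 2) E) (nat_lit 1925494749411) (nat_lit 2) (N E (nat_lit 1925538185859) (nat_lit 2) E))) (nat_lit 1925538186762) (nat_lit 2) (N (N (N E (nat_lit 1925538649098) (nat_lit 2) E) (nat_lit 1925538789603) (nat_lit 2) (N E (nat_lit 1925554963107) (nat_lit 2) E)) (nat_lit 1925554979459) (nat_lit 2) (N (N E (nat_lit 1925554980362) (nat_lit 2) E) (nat_lit 1925557261340) (nat_lit 2) E))) (nat_lit 1925557261347) (nat_lit 2) (N (N (N (N E (nat_lit 1925557268564) (nat_lit 2) E) (nat_lit 1925557270538) (nat_lit 2) (N E (nat_lit 1925557270608) (nat_lit 2) E)) (nat_lit 1925557270755) (nat_lit 1) (N (N E (nat_lit 1925557273219) (nat_lit 2) E) (nat_lit 1925557274122) (nat_lit 2) E)) (nat_lit 1925557299427) (nat_lit 2) (N (N (N E (nat_lit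 1925560967252) (nat_lit 2) E) (nat_lit 1925560969226) (nat_lit 2) (N E (nat_lit 1925560969296) (nat_lit 2) E)) (nat_lit 1925560969443) (nat_lit 1) (N (N E (nat_lit 1925561039075) (nat_lit 2) E) (nat_lit 1925561727203) (nat_lit 2) E)))) (nat_lit 1925561979914) (nat_lit 2) (N (N (N (N (N E (nat_lit 1925562015824) (nat_lit 2) E) (nat_lit 1925562015971) (nat_lit 1) (N E (nat_lit 1925562016419) (nat_lit 2) E)) (nat_lit 1925562073763) (nat_lit 1) (N (N E (nat_lit 1925562074851) (nat_lit 2) E) (nat_lit 1925562085603) (nat_lit 2) (N E (nat_lit 1925562090115) (nat_lit 1) E))) (nat_lit 1925562090122) (nat_lit 2) (N (N (N E (nat_lit 1925562091018) (nat_lit 1) E) (nat_lit 1925562091035) (nat_lit 2) (N E (nat_lit 1925562091203) (nat_lit 2) E)) (nat_lit 1925562091292) (nat_lit 2) (N (N E (nat_lit 1925562091299) (nat_lit 2) E) (nat_lit 1925562091747) (nat_lit 2) E))) (nat_lit 1925562120419) (nat_lit 2) (N (N (N (N E (nat_lit 1925563351683) (nat_lit 2) E) (nat_lit 1925563352586)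 (nat_lit 2) (N E (nat_lit 1925563814922) (nat_lit 2) E)) (nat_lit 1925563955427) (nat_lit 2) (N (N E (nat_lit 1927534674563) (nat_lit 2) E) (nat_lit 1927534675466) (nat_lit 2) E)) (nat_lit 1927535137802) (nat_lit 2) (N (N (N E (nat_lit 1927535278307) (nat_lit 2) E) (nat_lit 1927771853834) (nat_lit 2) (N E (nat_lit 1927771994339) (nat_lit 2) E)) (nat_lit 1927838972131) (nat_lit 2) (N (N E (nat_lit 1927842670819) (nat_lit 2) E) (nat_lit 1927843717347) (nat_lit 2) E)))))
)
 (nat_lit 1927843775139) (nat_lit 2) (N (N (N (N (N (N (N E (nat_lit 1927843791491) (nat_lit 2) E) (nat_lit 1927843792394) (nat_lit 2) (N E (nat_lit 1934903779408) (nat_lit 1) E)) (nat_lit 1934903779523) (nat_lit 2) (N (N E (nat_lit 1934903779544) (nat_lit 2) E) (nat_lit 1934903779555) (nat_lit 0) (N E (nat_lit 1934903779556) (nat_lit 2) E))) (nat_lit 1934903779612) (nat_lit 2) (N (N (N E (nat_lit 1934903779619) (nat_lit 2) E) (nat_lit 1934903780003) (nat_lit 1) (N E (nat_lit 1934903781091) (nat_lit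 2) E)) (nat_lit 1934903837315) (nat_lit 2) (N (N E (nat_lit 1934903837336) (nat_lit 2) E) (nat_lit 1934903837347) (nat_lit 0) E))) (nat_lit 1934903837348) (nat_lit 2) (N (N (N (N E (nat_lit 1934903838218) (nat_lit 2) E) (nat_lit 1934903838288) (nat_lit 2) (N E (nat_lit 1934903838435) (nat_lit 1) E)) (nat_lit 1934903842019) (nat_lit 2) (N (N E (nat_lit 1934903849040) (nat_lit 2) E) (nat_lit 1934903849187) (nat_lit 1) E)) (nat_lit 1934903849635) (nat_lit 2) (N (N (N E (nat_lit 1934903853140) (nat_lit 2) E) (nat_lit 1934903853699) (nat_lit 0) (N E (nat_lit 1934903853700) (nat_lit 2) E)) (nat_lit 1934903853706) (nat_lit 1) (N (N E (nat_lit 1934903853723) (nat_lit 2) E) (nat_lit 1934903854602) (nat_lit 0) E)))) (nat_lit 1934903854619) (nat_lit 1) (N (N (N (N (N E (nat_lit 1934903854675) (nat_lit 2) E) (nat_lit 1934903854787) (nat_lit 1) (N E (nat_lit 1934903854794) (nat_lit 2) E)) (nat_lit 1934903854876) (nat_lit 1) (N (N E (nat_lit 1934903854883) (nat_lit 1) E) (nat_lit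 1934903855114) (nat_lit 2) (N E (nat_lit 1934903855184) (nat_lit 2) E))) (nat_lit 1934903855331) (nat_lit 1) (N (N (N E (nat_lit 1934903870115) (nat_lit 2) E) (nat_lit 1934903874588) (nat_lit 2) (N E (nat_lit 1934903874595) (nat_lit 2) E)) (nat_lit 1934903881812) (nat_lit 2) (N (N E (nat_lit 1934903883786) (nat_lit 2) E) (nat_lit 1934903883856) (nat_lit 2) E))) (nat_lit 1934903884003) (nat_lit 1) (N (N (N (N E (nat_lit 1934903886467) (nat_lit 2) E) (nat_lit 1934903887370) (nat_lit 2) (N E (nat_lit 1934904066723) (nat_lit 1) E)) (nat_lit 1934904067811) (nat_lit 2) (N (N E (nat_lit 1934904078563) (nat_lit 2) E) (nat_lit 1934904083075) (nat_lit 1) E)) (nat_lit 1934904083082) (nat_lit 2) (N (N (N E (nat_lit 1934904083978) (nat_lit 1) E) (nat_lit 1934904083995) (nat_lit 2) (N E (nat_lit 1934904084163) (nat_lit 2) E)) (nat_lit 1934904084252) (nat_lit 2) (N (N E (nat_lit 1934904084259) (nat_lit 2) E) (nat_lit 1934904084707) (nat_lit 2) E)))))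
 (nat_lit 1934904565987) (nat_lit 2) (N (N (N (N (N (N E (nat_lit 1934904623779) (nat_lit 2) E) (nat_lit 1934904640131) (nat_lit 2) (N E (nat_lit 1934904641034) (nat_lit 2) E)) (nat_lit 1934933426819) (nat_lit 2) (N (N E (nat_lit 1934933426840) (nat_lit 2) E) (nat_lit 1934933426851) (nat_lit 0) (N E (nat_lit 1934933426852) (nat_lit 2) E))) (nat_lit 1934933427722) (nat_lit 2) (N (N (N E (nat_lit 1934933427792) (nat_lit 2) E) (nat_lit 1934933427939) (nat_lit 1) (N E (nat_lit 1934933431523) (nat_lit 2) E)) (nat_lit 1934933438544) (nat_lit 2) (N (N E (nat_lit 1934933438691) (nat_lit 1) E) (nat_lit 1934933439139) (nat_lit 2) E))) (nat_lit 1934933442644) (nat_lit 2) (N (N (N (N E (nat_lit 1934933443203) (nat_lit 0) E) (nat_lit 1934933443204) (nat_lit 2) (N E (nat_lit 1934933443210) (nat_lit 1) E)) (nat_lit 1934933443227) (nat_lit 2) (N (N E (nat_lit 1934933444106) (nat_lit 0) E) (nat_lit 1934933444123) (nat_lit 1) E)) (nat_lit 1934933444179) (nat_lit 2) (N (N (N E (nat_lit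 1934933444291) (nat_lit 1) E) (nat_lit 1934933444298) (nat_lit 2) (N E (nat_lit 1934933444380) (nat_lit 1) E)) (nat_lit 1934933444387) (nat_lit 1) (N (N E (nat_lit 1934933444618) (nat_lit 2) E) (nat_lit 1934933444688) (nat_lit 2) E)))) (nat_lit 1934933444835) (nat_lit 1) (N (N (N (N (N E (nat_lit 1934933890058) (nat_lit 2) E) (nat_lit 1934933925968) (nat_lit 2) (N E (nat_lit 1934933926115) (nat_lit 1) E)) (nat_lit 1934933926563) (nat_lit 2) (N (N E (nat_lit 1934933983907) (nat_lit 1) E) (nat_lit 1934933984995) (nat_lit 2) (N E (nat_lit 1934933995747) (nat_lit 2) E))) (nat_lit 1934934000259) (nat_lit 1) (N (N (N E (nat_lit 1934934000266) (nat_lit 2) E) (nat_lit 1934934001162) (nat_lit 1) (N E (nat_lit 1934934001179) (nat_lit 2) E)) (nat_lit 1934934001347) (nat_lit 2) (N (N E (nat_lit 1934934001436) (nat_lit 2) E) (nat_lit 1934934001443) (nat_lit 2) E))) (nat_lit 1934934001891) (nat_lit 2) (N (N (N (N E (nat_lit 1934934030563) (nat_lit 2) E) (nat_lit 1934935761123)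 (nat_lit 2) (N E (nat_lit 1934935818915) (nat_lit 2) E)) (nat_lit 1934935835267) (nat_lit 2) (N (N E (nat_lit 1934935836170) (nat_lit 2) E) (nat_lit 1934939430992) (nat_lit 2) E)) (nat_lit 1934939431139) (nat_lit 1) (N (N (N E (nat_lit 1934939431587) (nat_lit 2) E) (nat_lit 1934939488931) (nat_lit 1) (N E (nat_lit 1934939490019) (nat_lit 2) E)) (nat_lit 1934939500771) (nat_lit 2) (N (N E (nat_lit 1934939505283) (nat_lit 1) E) (nat_lit 1934939505290) (nat_lit 2) E)))))
)
)
 (nat_lit 1934939506186) (nat_lit 1) (N (N (N (N (N (N (N (N E (nat_lit 1934939506203) (nat_lit 2) E) (nat_lit 1934939506371) (nat_lit 2) (N E (nat_lit 1934939506460) (nat_lit 2) E)) (nat_lit 1934939506467) (nat_lit 2) (N (N E (nat_lit 1934939506915) (nat_lit 2) E) (nat_lit 1934939535587) (nat_lit 2) (N E (nat_lit 1934939718307) (nat_lit 2) E))) (nat_lit 1934939734659) (nat_lit 2) (N (N (N E (nat_lit 1934939735562) (nat_lit 2) E) (nat_lit 1934941528148) (nat_lit 2) (N E (nat_lit 1934941530122)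 (nat_lit 2) E)) (nat_lit 1934941530192) (nat_lit 2) (N (N E (nat_lit 1934941530339) (nat_lit 1) E) (nat_lit 1934941599971) (nat_lit 2) E))) (nat_lit 1934941815427) (nat_lit 0) (N (N (N (N E (nat_lit 1934941815428) (nat_lit 2) E) (nat_lit 1934941815434) (nat_lit 1) (N E (nat_lit 1934941815451) (nat_lit 2) E)) (nat_lit 1934941816330) (nat_lit 0) (N (N E (nat_lit 1934941816347) (nat_lit 1) E) (nat_lit 1934941816403) (nat_lit 2) E)) (nat_lit 1934941816515) (nat_lit 1) (N (N (N E (nat_lit 1934941816522) (nat_lit 2) E) (nat_lit 1934941816604) (nat_lit 1) (N E (nat_lit 1934941816611) (nat_lit 1) E)) (nat_lit 1934941816842) (nat_lit 2) (N (N E (nat_lit 1934941816912) (nat_lit 2) E) (nat_lit 1934941817059) (nat_lit 1) E)))) (nat_lit 1934941819914) (nat_lit 1) (N (N (N (N (N E (nat_lit 1934941819931) (nat_lit 2) E) (nat_lit 1934941820099) (nat_lit 2) (N E (nat_lit 1934941820188) (nat_lit 2) E)) (nat_lit 1934941820195) (nat_lit 2) (N (N E (nat_lit 1934941827715) (nat_lit 2)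 E) (nat_lit 1934941828618) (nat_lit 2) (N E (nat_lit 1934942278666) (nat_lit 0) E))) (nat_lit 1934942278683) (nat_lit 1) (N (N (N E (nat_lit 1934942278739) (nat_lit 2) E) (nat_lit 1934942278851) (nat_lit 1) (N E (nat_lit 1934942278858) (nat_lit 2) E)) (nat_lit 1934942278940) (nat_lit 1) (N (N E (nat_lit 1934942278947) (nat_lit 1) E) (nat_lit 1934942286467) (nat_lit 1) E))) (nat_lit 1934942286474) (nat_lit 2) (N (N (N (N E (nat_lit 1934942287370) (nat_lit 1) E) (nat_lit 1934942287387) (nat_lit 2) (N E (nat_lit 1934942287555) (nat_lit 2) E)) (nat_lit 1934942287644) (nat_lit 2) (N (N E (nat_lit 1934942287651) (nat_lit 2) E) (nat_lit 1934942288099) (nat_lit 2) E)) (nat_lit 1934942315139) (nat_lit 2) (N (N (N E (nat_lit 1934942316042) (nat_lit 2) E) (nat_lit 1934942372483) (nat_lit 1) (N E (nat_lit 1934942372490) (nat_lit 2) E)) (nat_lit 1934942373386) (nat_lit 1) (N (N E (nat_lit 1934942373403) (nat_lit 2) E) (nat_lit 1934942373571) (nat_lit 2) E)))))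
 (nat_lit 1934942373660) (nat_lit 2) (N (N (N (N (N (N E (nat_lit 1934942373667) (nat_lit 2) E) (nat_lit 1934942374115) (nat_lit 2) (N E (nat_lit 1934942376970) (nat_lit 2) E)) (nat_lit 1934942405283) (nat_lit 1) (N (N E (nat_lit 1934942406371) (nat_lit 2) E) (nat_lit 1934942409756) (nat_lit 1) (N E (nat_lit 1934942409763) (nat_lit 1) E))) (nat_lit 1934942409812) (nat_lit 2) (N (N (N E (nat_lit 1934942416980) (nat_lit 1) E) (nat_lit 1934942417116) (nat_lit 2) (N E (nat_lit 1934942417123) (nat_lit 2) E)) (nat_lit 1934942418460) (nat_lit 2) (N (N E (nat_lit 1934942418467) (nat_lit 2) E) (nat_lit 1934942418954) (nat_lit 1) E))) (nat_lit 1934942418971) (nat_lit 2) (N (N (N (N E (nat_lit 1934942419024) (nat_lit 1) E) (nat_lit 1934942419139) (nat_lit 2) (N E (nat_lit 1934942419160) (nat_lit 2) E)) (nat_lit 1934942419171) (nat_lit 0) (N (N E (nat_lit 1934942419172) (nat_lit 2) E) (nat_lit 1934942419228) (nat_lit 2) E)) (nat_lit 1934942419235) (nat_lit 2) (N (N (N E (nat_lit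 1934942421635) (nat_lit 1) E) (nat_lit 1934942421642) (nat_lit 2) (N E (nat_lit 1934942422538) (nat_lit 1) E)) (nat_lit 1934942422555) (nat_lit 2) (N (N E (nat_lit 1934942422723) (nat_lit 2) E) (nat_lit 1934942422812) (nat_lit 2) E)))) (nat_lit 1934942422819) (nat_lit 2) (N (N (N (N (N E (nat_lit 1934942423267) (nat_lit 2) E) (nat_lit 1934942540810) (nat_lit 2) (N E (nat_lit 1934942576720) (nat_lit 2) E)) (nat_lit 1934942576867) (nat_lit 1) (N (N E (nat_lit 1934942577315) (nat_lit 2) E) (nat_lit 1934942634659) (nat_lit 1) (N E (nat_lit 1934942635747) (nat_lit 2) E))) (nat_lit 1934942646499) (nat_lit 2) (N (N (N E (nat_lit 1934942651011) (nat_lit 1) E) (nat_lit 1934942651018) (nat_lit 2) (N E (nat_lit 1934942651914) (nat_lit 1) E)) (nat_lit 1934942651931) (nat_lit 2) (N (N E (nat_lit 1934942652099) (nat_lit 2) E) (nat_lit 1934942652188) (nat_lit 2) E))) (nat_lit 1934942652195) (nat_lit 2) (N (N (N (N E (nat_lit 1934942652643) (nat_lit 2) E) (nat_lit 1934942681315)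 (nat_lit 2) (N E (nat_lit 1934950204067) (nat_lit 2) E)) (nat_lit 1934950220419) (nat_lit 2) (N (N E (nat_lit 1934950221322) (nat_lit 2) E) (nat_lit 1934952502300) (nat_lit 2) E)) (nat_lit 1934952502307) (nat_lit 2) (N (N (N E (nat_lit 1934952509524) (nat_lit 2) E) (nat_lit 1934952511498) (nat_lit 2) (N E (nat_lit 1934952511568) (nat_lit 2) E)) (nat_lit 1934952511715) (nat_lit 1) (N (N E (nat_lit 1934952514179) (nat_lit 2) E) (nat_lit 1934952515082) (nat_lit 2) E)))))
)
 (nat_lit 1934952540387) (nat_lit 2) (N (N (N (N (N (N (N E (nat_lit 1934956208212) (nat_lit 2) E) (nat_lit 1934956210186) (nat_lit 2) (N E (nat_lit 1934956210256) (nat_lit 2) E)) (nat_lit 1934956210403) (nat_lit 1) (N (N E (nat_lit 1934956280035) (nat_lit 2) E) (nat_lit 1934956968163) (nat_lit 2) (N E (nat_lit 1934957220874) (nat_lit 2) E))) (nat_lit 1934957256784) (nat_lit 2) (N (N (N E (nat_lit 1934957256931) (nat_lit 1) E) (nat_lit 1934957257379) (nat_lit 2) (N E (nat_lit 1934957314723) (nat_lit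 1) E)) (nat_lit 1934957315811) (nat_lit 2) (N (N E (nat_lit 1934957326563) (nat_lit 2) E) (nat_lit 1934957331075) (nat_lit 1) E))) (nat_lit 1934957331082) (nat_lit 2) (N (N (N (N E (nat_lit 1934957331978) (nat_lit 1) E) (nat_lit 1934957331995) (nat_lit 2) (N E (nat_lit 1934957332163) (nat_lit 2) E)) (nat_lit 1934957332252) (nat_lit 2) (N (N E (nat_lit 1934957332259) (nat_lit 2) E) (nat_lit 1934957332707) (nat_lit 2) E)) (nat_lit 1934957361379) (nat_lit 2) (N (N (N E (nat_lit 1934958592643) (nat_lit 2) E) (nat_lit 1934958593546) (nat_lit 2) (N E (nat_lit 1934959055882) (nat_lit 2) E)) (nat_lit 1934959196387) (nat_lit 2) (N (N E (nat_lit 1935050867363) (nat_lit 1) E) (nat_lit 1935050868451) (nat_lit 2) E)))) (nat_lit 1935050879203) (nat_lit 2) (N (N (N (N (N E (nat_lit 1935050883715) (nat_lit 1) E) (nat_lit 1935050883722) (nat_lit 2) (N E (nat_lit 1935050884618) (nat_lit 1) E)) (nat_lit 1935050884635) (nat_lit 2) (N (N E (nat_lit 1935050884803) (nat_lit 2) E) (nat_lit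 1935050884892) (nat_lit 2) (N E (nat_lit 1935050884899) (nat_lit 2) E))) (nat_lit 1935050885347) (nat_lit 2) (N (N (N E (nat_lit 1935051366627) (nat_lit 2) E) (nat_lit 1935051424419) (nat_lit 2) (N E (nat_lit 1935051440771) (nat_lit 2) E)) (nat_lit 1935051441674) (nat_lit 2) (N (N E (nat_lit 1935056871651) (nat_lit 2) E) (nat_lit 1935056929443) (nat_lit 2) E))) (nat_lit 1935056945795) (nat_lit 2) (N (N (N (N E (nat_lit 1935056946698) (nat_lit 2) E) (nat_lit 1935058970851) (nat_lit 2) (N E (nat_lit 1935059255939) (nat_lit 1) E)) (nat_lit 1935059255946) (nat_lit 2) (N (N E (nat_lit 1935059256842) (nat_lit 1) E) (nat_lit 1935059256859) (nat_lit 2) E)) (nat_lit 1935059257027) (nat_lit 2) (N (N (N E (nat_lit 1935059257116) (nat_lit 2) E) (nat_lit 1935059257123) (nat_lit 2) (N E (nat_lit 1935059257571) (nat_lit 2) E)) (nat_lit 1935059260426) (nat_lit 2) (N (N E (nat_lit 1935059719178) (nat_lit 1) E) (nat_lit 1935059719195) (nat_lit 2) E)))))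
 (nat_lit 1935059719363) (nat_lit 2) (N (N (N (N (N (N E (nat_lit 1935059719452) (nat_lit 2) E) (nat_lit 1935059719459) (nat_lit 2) (N E (nat_lit 1935059726979) (nat_lit 2) E)) (nat_lit 1935059727882) (nat_lit 2) (N (N E (nat_lit 1935059812995) (nat_lit 2) E) (nat_lit 1935059813898) (nat_lit 2) (N E (nat_lit 1935059845795) (nat_lit 2) E))) (nat_lit 1935059850268) (nat_lit 2) (N (N (N E (nat_lit 1935059850275) (nat_lit 2) E) (nat_lit 1935059857492) (nat_lit 2) (N E (nat_lit 1935059859466) (nat_lit 2) E)) (nat_lit 1935059859536) (nat_lit 2) (N (N E (nat_lit 1935059859683) (nat_lit 1) E) (nat_lit 1935059862147) (nat_lit 2) E))) (nat_lit 1935059863050) (nat_lit 2) (N (N (N (N E (nat_lit 1935060017379) (nat_lit 2) E) (nat_lit 1935060075171) (nat_lit 2) (N E (nat_lit 1935060091523) (nat_lit 2) E)) (nat_lit 1935060092426) (nat_lit 2) (N (N E (nat_lit 1935306432739) (nat_lit 2) E) (nat_lit 1935306490531) (nat_lit 2) E)) (nat_lit 1935306506883) (nat_lit 2) (N (N (N E (nat_lit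 1935306507786) (nat_lit 2) E) (nat_lit 1935336080035) (nat_lit 2) (N E (nat_lit 1935336096387) (nat_lit 2) E)) (nat_lit 1935336097290) (nat_lit 2) (N (N E (nat_lit 1935344468611) (nat_lit 2) E) (nat_lit 1935344469514) (nat_lit 2) E)))) (nat_lit 1935344931850) (nat_lit 2) (N (N (N (N (N E (nat_lit 1935345072355) (nat_lit 2) E) (nat_lit 1950083252867) (nat_lit 2) (N E (nat_lit 1950083252888) (nat_lit 2) E)) (nat_lit 1950083252899) (nat_lit 0) (N (N E (nat_lit 1950083252900) (nat_lit 2) E) (nat_lit 1950083253770) (nat_lit 2) (N E (nat_lit 1950083253840) (nat_lit 2) E))) (nat_lit 1950083253987) (nat_lit 1) (N (N (N E (nat_lit 1950083257571) (nat_lit 2) E) (nat_lit 1950083264592) (nat_lit 2) (N E (nat_lit 1950083264739) (nat_lit 1) E)) (nat_lit 1950083265187) (nat_lit 2) (N (N E (nat_lit 1950083268692) (nat_lit 2) E) (nat_lit 1950083269251) (nat_lit 0) E))) (nat_lit 1950083269252) (nat_lit 2) (N (N (N (N E (nat_lit 1950083269258) (nat_lit 1) E) (nat_lit 1950083269275)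 (nat_lit 2) (N E (nat_lit 1950083270154) (nat_lit 0) E)) (nat_lit 1950083270171) (nat_lit 1) (N (N E (nat_lit 1950083270227) (nat_lit 2) E) (nat_lit 1950083270339) (nat_lit 1) E)) (nat_lit 1950083270346) (nat_lit 2) (N (N (N E (nat_lit 1950083270428) (nat_lit 1) E) (nat_lit 1950083270435) (nat_lit 1) (N E (nat_lit 1950083270666) (nat_lit 2) E)) (nat_lit 1950083270736) (nat_lit 2) (N (N E (nat_lit 1950083270883) (nat_lit 1) E) (nat_lit 1950083716106) (nat_lit 2) E)))))
)
)
)
 (nat_lit 1950083752016) (nat_lit 2) (N (N (N (N (N (N (N (N (N E (nat_lit 1950083752163) (nat_lit 1) E) (nat_lit 1950083752611) (nat_lit 2) (N E (nat_lit 1950083809955) (nat_lit 1) E)) (nat_lit 1950083811043) (nat_lit 2) (N (N E (nat_lit 1950083821795) (nat_lit 2) E) (nat_lit 1950083826307) (nat_lit 1) (N E (nat_lit 1950083826314) (nat_lit 2) E))) (nat_lit 1950083827210) (nat_lit 1) (N (N (N E (nat_lit 1950083827227) (nat_lit 2) E) (nat_lit 1950083827395) (nat_lit 2) (N E (nat_lit 1950083827484)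 (nat_lit 2) E)) (nat_lit 1950083827491) (nat_lit 2) (N (N E (nat_lit 1950083827939) (nat_lit 2) E) (nat_lit 1950083856611) (nat_lit 2) E))) (nat_lit 1950085587171) (nat_lit 2) (N (N (N (N E (nat_lit 1950085644963) (nat_lit 2) E) (nat_lit 1950085661315) (nat_lit 2) (N E (nat_lit 1950085662218) (nat_lit 2) E)) (nat_lit 1950089257040) (nat_lit 2) (N (N E (nat_lit 1950089257187) (nat_lit 1) E) (nat_lit 1950089257635) (nat_lit 2) E)) (nat_lit 1950089314979) (nat_lit 1) (N (N (N E (nat_lit 1950089316067) (nat_lit 2) E) (nat_lit 1950089326819) (nat_lit 2) (N E (nat_lit 1950089331331) (nat_lit 1) E)) (nat_lit 1950089331338) (nat_lit 2) (N (N E (nat_lit 1950089332234) (nat_lit 1) E) (nat_lit 1950089332251) (nat_lit 2) E)))) (nat_lit 1950089332419) (nat_lit 2) (N (N (N (N (N E (nat_lit 1950089332508) (nat_lit 2) E) (nat_lit 1950089332515) (nat_lit 2) (N E (nat_lit 1950089332963) (nat_lit 2) E)) (nat_lit 1950089361635) (nat_lit 2) (N (N E (nat_lit 1950089544355) (nat_lit 2)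 E) (nat_lit 1950089560707) (nat_lit 2) (N E (nat_lit 1950089561610) (nat_lit 2) E))) (nat_lit 1950091354196) (nat_lit 2) (N (N (N E (nat_lit 1950091356170) (nat_lit 2) E) (nat_lit 1950091356240) (nat_lit 2) (N E (nat_lit 1950091356387) (nat_lit 1) E)) (nat_lit 1950091426019) (nat_lit 2) (N (N E (nat_lit 1950091641475) (nat_lit 0) E) (nat_lit 1950091641476) (nat_lit 2) E))) (nat_lit 1950091641482) (nat_lit 1) (N (N (N (N E (nat_lit 1950091641499) (nat_lit 2) E) (nat_lit 1950091642378) (nat_lit 0) (N E (nat_lit 1950091642395) (nat_lit 1) E)) (nat_lit 1950091642451) (nat_lit 2) (N (N E (nat_lit 1950091642563) (nat_lit 1) E) (nat_lit 1950091642570) (nat_lit 2) E)) (nat_lit 1950091642652) (nat_lit 1) (N (N (N E (nat_lit 1950091642659) (nat_lit 1) E) (nat_lit 1950091642890) (nat_lit 2) (N E (nat_lit 1950091642960) (nat_lit 2) E)) (nat_lit 1950091643107) (nat_lit 1) (N (N E (nat_lit 1950091645962) (nat_lit 1) E) (nat_lit 1950091645979) (nat_lit 2) E)))))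
 (nat_lit 1950091646147) (nat_lit 2) (N (N (N (N (N (N E (nat_lit 1950091646236) (nat_lit 2) E) (nat_lit 1950091646243) (nat_lit 2) (N E (nat_lit 1950091653763) (nat_lit 2) E)) (nat_lit 1950091654666) (nat_lit 2) (N (N E (nat_lit 1950092104714) (nat_lit 0) E) (nat_lit 1950092104731) (nat_lit 1) (N E (nat_lit 1950092104787) (nat_lit 2) E))) (nat_lit 1950092104899) (nat_lit 1) (N (N (N E (nat_lit 1950092104906) (nat_lit 2) E) (nat_lit 1950092104988) (nat_lit 1) (N E (nat_lit 1950092104995) (nat_lit 1) E)) (nat_lit 1950092112515) (nat_lit 1) (N (N E (nat_lit 1950092112522) (nat_lit 2) E) (nat_lit 1950092113418) (nat_lit 1) E))) (nat_lit 1950092113435) (nat_lit 2) (N (N (N (N E (nat_lit 1950092113603) (nat_lit 2) E) (nat_lit 1950092113692) (nat_lit 2) (N E (nat_lit 1950092113699) (nat_lit 2) E)) (nat_lit 1950092114147) (nat_lit 2) (N (N E (nat_lit 1950092141187) (nat_lit 2) E) (nat_lit 1950092142090) (nat_lit 2) E)) (nat_lit 1950092198531) (nat_lit 1) (N (N (N E (nat_lit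 1950092198538) (nat_lit 2) E) (nat_lit 1950092199434) (nat_lit 1) (N E (nat_lit 1950092199451) (nat_lit 2) E)) (nat_lit 1950092199619) (nat_lit 2) (N (N E (nat_lit 1950092199708) (nat_lit 2) E) (nat_lit 1950092199715) (nat_lit 2) E)))) (nat_lit 1950092200163) (nat_lit 2) (N (N (N (N (N E (nat_lit 1950092203018) (nat_lit 2) E) (nat_lit 1950092231331) (nat_lit 1) (N E (nat_lit 1950092232419) (nat_lit 2) E)) (nat_lit 1950092235804) (nat_lit 1) (N (N E (nat_lit 1950092235811) (nat_lit 1) E) (nat_lit 1950092235860) (nat_lit 2) (N E (nat_lit 1950092243028) (nat_lit 1) E))) (nat_lit 1950092243164) (nat_lit 2) (N (N (N E (nat_lit 1950092243171) (nat_lit 2) E) (nat_lit 1950092244508) (nat_lit 2) (N E (nat_lit 1950092244515) (nat_lit 2) E)) (nat_lit 1950092245002) (nat_lit 1) (N (N E (nat_lit 1950092245019) (nat_lit 2) E) (nat_lit 1950092245072) (nat_lit 1) E))) (nat_lit 1950092245187) (nat_lit 2) (N (N (N (N E (nat_lit 1950092245208) (nat_lit 2) E) (nat_lit 1950092245219)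 (nat_lit 0) (N E (nat_lit 1950092245220) (nat_lit 2) E)) (nat_lit 1950092245276) (nat_lit 2) (N (N E (nat_lit 1950092245283) (nat_lit 2) E) (nat_lit 1950092247683) (nat_lit 1) E)) (nat_lit 1950092247690) (nat_lit 2) (N (N (N E (nat_lit 1950092248586) (nat_lit 1) E) (nat_lit 1950092248603) (nat_lit 2) (N E (nat_lit 1950092248771) (nat_lit 2) E)) (nat_lit 1950092248860) (nat_lit 2) (N (N E (nat_lit 1950092248867) (nat_lit 2) E) (nat_lit 1950092249315) (nat_lit 2) E)))))
)
 (nat_lit 1950092366858) (nat_lit 2) (N (N (N (N (N (N (N E (nat_lit 1950092402768) (nat_lit 2) E) (nat_lit 1950092402915) (nat_lit 1) (N E (nat_lit 1950092403363) (nat_lit 2) E)) (nat_lit 1950092460707) (nat_lit 1) (N (N E (nat_lit 1950092461795) (nat_lit 2) E) (nat_lit 1950092472547) (nat_lit 2) (N E (nat_lit 1950092477059) (nat_lit 1) E))) (nat_lit 1950092477066) (nat_lit 2) (N (N (N E (nat_lit 1950092477962) (nat_lit 1) E) (nat_lit 1950092477979) (nat_lit 2) (N E (nat_lit 1950092478147) (nat_lit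 2) E)) (nat_lit 1950092478236) (nat_lit 2) (N (N E (nat_lit 1950092478243) (nat_lit 2) E) (nat_lit 1950092478691) (nat_lit 2) E))) (nat_lit 1950092507363) (nat_lit 2) (N (N (N (N E (nat_lit 1950320432138) (nat_lit 2) E) (nat_lit 1950320572643) (nat_lit 2) (N E (nat_lit 1950338818128) (nat_lit 2) E)) (nat_lit 1950338818275) (nat_lit 1) (N (N E (nat_lit 1950338818723) (nat_lit 2) E) (nat_lit 1950338876067) (nat_lit 1) E)) (nat_lit 1950338877155) (nat_lit 2) (N (N (N E (nat_lit 1950338887907) (nat_lit 2) E) (nat_lit 1950338892419) (nat_lit 1) (N E (nat_lit 1950338892426) (nat_lit 2) E)) (nat_lit 1950338893322) (nat_lit 1) (N (N E (nat_lit 1950338893339) (nat_lit 2) E) (nat_lit 1950338893507) (nat_lit 2) E)))) (nat_lit 1950338893596) (nat_lit 2) (N (N (N (N (N E (nat_lit 1950338893603) (nat_lit 2) E) (nat_lit 1950338894051) (nat_lit 2) (N E (nat_lit 1950338922723) (nat_lit 2) E)) (nat_lit 1950339105443) (nat_lit 2) (N (N E (nat_lit 1950339121795) (nat_lit 2) E) (nat_lit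 1950339122698) (nat_lit 2) (N E (nat_lit 1950368465571) (nat_lit 1) E))) (nat_lit 1950368466659) (nat_lit 2) (N (N (N E (nat_lit 1950368477411) (nat_lit 2) E) (nat_lit 1950368481923) (nat_lit 1) (N E (nat_lit 1950368481930) (nat_lit 2) E)) (nat_lit 1950368482826) (nat_lit 1) (N (N E (nat_lit 1950368482843) (nat_lit 2) E) (nat_lit 1950368483011) (nat_lit 2) E))) (nat_lit 1950368483100) (nat_lit 2) (N (N (N (N E (nat_lit 1950368483107) (nat_lit 2) E) (nat_lit 1950368483555) (nat_lit 2) (N E (nat_lit 1950368964835) (nat_lit 2) E)) (nat_lit 1950369022627) (nat_lit 2) (N (N E (nat_lit 1950369038979) (nat_lit 2) E) (nat_lit 1950369039882) (nat_lit 2) E)) (nat_lit 1950374469859) (nat_lit 2) (N (N (N E (nat_lit 1950374527651) (nat_lit 2) E) (nat_lit 1950374544003) (nat_lit 2) (N E (nat_lit 1950374544906) (nat_lit 2) E)) (nat_lit 1950376569059) (nat_lit 2) (N (N E (nat_lit 1950376854147) (nat_lit 1) E) (nat_lit 1950376854154) (nat_lit 2) E)))))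
 (nat_lit 1950376855050) (nat_lit 1) (N (N (N (N (N (N E (nat_lit 1950376855067) (nat_lit 2) E) (nat_lit 1950376855235) (nat_lit 2) (N E (nat_lit 1950376855324) (nat_lit 2) E)) (nat_lit 1950376855331) (nat_lit 2) (N (N E (nat_lit 1950376855779) (nat_lit 2) E) (nat_lit 1950376858634) (nat_lit 2) (N E (nat_lit 1950377317386) (nat_lit 1) E))) (nat_lit 1950377317403) (nat_lit 2) (N (N (N E (nat_lit 1950377317571) (nat_lit 2) E) (nat_lit 1950377317660) (nat_lit 2) (N E (nat_lit 1950377317667) (nat_lit 2) E)) (nat_lit 1950377325187) (nat_lit 2) (N (N E (nat_lit 1950377326090) (nat_lit 2) E) (nat_lit 1950377411203) (nat_lit 2) E))) (nat_lit 1950377412106) (nat_lit 2) (N (N (N (N E (nat_lit 1950377444003) (nat_lit 2) E) (nat_lit 1950377448476) (nat_lit 2) (N E (nat_lit 1950377448483) (nat_lit 2) E)) (nat_lit 1950377455700) (nat_lit 2) (N (N E (nat_lit 1950377457674) (nat_lit 2) E) (nat_lit 1950377457744) (nat_lit 2) E)) (nat_lit 1950377457891) (nat_lit 1) (N (N (N E (nat_lit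 1950377460355) (nat_lit 2) E) (nat_lit 1950377461258) (nat_lit 2) (N E (nat_lit 1950377615587) (nat_lit 2) E)) (nat_lit 1950377673379) (nat_lit 2) (N (N E (nat_lit 1950377689731) (nat_lit 2) E) (nat_lit 1950377690634) (nat_lit 2) E)))) (nat_lit 1950387550435) (nat_lit 2) (N (N (N (N (N E (nat_lit 1950391249123) (nat_lit 2) E) (nat_lit 1950392295651) (nat_lit 2) (N E (nat_lit 1950392353443) (nat_lit 2) E)) (nat_lit 1950392369795) (nat_lit 2) (N (N E (nat_lit 1950392370698) (nat_lit 2) E) (nat_lit 1951278342371) (nat_lit 2) (N E (nat_lit 1951278400163) (nat_lit 2) E))) (nat_lit 1951278416515) (nat_lit 2) (N (N (N E (nat_lit 1951278417418) (nat_lit 2) E) (nat_lit 1951307989667) (nat_lit 2) (N E (nat_lit 1951308006019) (nat_lit 2) E)) (nat_lit 1951308006922) (nat_lit 2) (N (N E (nat_lit 1951316378243) (nat_lit 2) E) (nat_lit 1951316379146) (nat_lit 2) E))) (nat_lit 1951316841482) (nat_lit 2) (N (N (N (N E (nat_lit 1951316981987) (nat_lit 2) E) (nat_lit 1953157390416)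 (nat_lit 2) (N E (nat_lit 1953157390563) (nat_lit 1) E)) (nat_lit 1953157391011) (nat_lit 2) (N (N E (nat_lit 1953157448355) (nat_lit 1) E) (nat_lit 1953157449443) (nat_lit 2) E)) (nat_lit 1953157460195) (nat_lit 2) (N (N (N E (nat_lit 1953157464707) (nat_lit 1) E) (nat_lit 1953157464714) (nat_lit 2) (N E (nat_lit 1953157465610) (nat_lit 1) E)) (nat_lit 1953157465627) (nat_lit 2) (N (N E (nat_lit 1953157465795) (nat_lit 2) E) (nat_lit 1953157465884) (nat_lit 2) E)))))
)
)
 (nat_lit 1953157465891) (nat_lit 2) (N (N (N (N (N (N (N (N E (nat_lit 1953157466339) (nat_lit 2) E) (nat_lit 1953157495011) (nat_lit 2) (N E (nat_lit 1953157677731) (nat_lit 2) E)) (nat_lit 1953157694083) (nat_lit 2) (N (N E (nat_lit 1953157694986) (nat_lit 2) E) (nat_lit 1953187037859) (nat_lit 1) (N E (nat_lit 1953187038947) (nat_lit 2) E))) (nat_lit 1953187049699) (nat_lit 2) (N (N (N E (nat_lit 1953187054211) (nat_lit 1) E) (nat_lit 1953187054218) (nat_lit 2) (N E (nat_lit 1953187055114)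 (nat_lit 1) E)) (nat_lit 1953187055131) (nat_lit 2) (N (N E (nat_lit 1953187055299) (nat_lit 2) E) (nat_lit 1953187055388) (nat_lit 2) E))) (nat_lit 1953187055395) (nat_lit 2) (N (N (N (N E (nat_lit 1953187055843) (nat_lit 2) E) (nat_lit 1953187537123) (nat_lit 2) (N E (nat_lit 1953187594915) (nat_lit 2) E)) (nat_lit 1953187611267) (nat_lit 2) (N (N E (nat_lit 1953187612170) (nat_lit 2) E) (nat_lit 1953193042147) (nat_lit 2) E)) (nat_lit 1953193099939) (nat_lit 2) (N (N (N E (nat_lit 1953193116291) (nat_lit 2) E) (nat_lit 1953193117194) (nat_lit 2) (N E (nat_lit 1953195141347) (nat_lit 2) E)) (nat_lit 1953195426435) (nat_lit 1) (N (N E (nat_lit 1953195426442) (nat_lit 2) E) (nat_lit 1953195427338) (nat_lit 1) E)))) (nat_lit 1953195427355) (nat_lit 2) (N (N (N (N (N E (nat_lit 1953195427523) (nat_lit 2) E) (nat_lit 1953195427612) (nat_lit 2) (N E (nat_lit 1953195427619) (nat_lit 2) E)) (nat_lit 1953195428067) (nat_lit 2) (N (N E (nat_lit 1953195430922) (nat_lit 2)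 E) (nat_lit 1953195889674) (nat_lit 1) (N E (nat_lit 1953195889691) (nat_lit 2) E))) (nat_lit 1953195889859) (nat_lit 2) (N (N (N E (nat_lit 1953195889948) (nat_lit 2) E) (nat_lit 1953195889955) (nat_lit 2) (N E (nat_lit 1953195897475) (nat_lit 2) E)) (nat_lit 1953195898378) (nat_lit 2) (N (N E (nat_lit 1953195983491) (nat_lit 2) E) (nat_lit 1953195984394) (nat_lit 2) E))) (nat_lit 1953196016291) (nat_lit 2) (N (N (N (N E (nat_lit 1953196020764) (nat_lit 2) E) (nat_lit 1953196020771) (nat_lit 2) (N E (nat_lit 1953196027988) (nat_lit 2) E)) (nat_lit 1953196029962) (nat_lit 2) (N (N E (nat_lit 1953196030032) (nat_lit 2) E) (nat_lit 1953196030179) (nat_lit 1) E)) (nat_lit 1953196032643) (nat_lit 2) (N (N (N E (nat_lit 1953196033546) (nat_lit 2) E) (nat_lit 1953196187875) (nat_lit 2) (N E (nat_lit 1953196245667) (nat_lit 2) E)) (nat_lit 1953196262019) (nat_lit 2) (N (N E (nat_lit 1953196262922) (nat_lit 2) E) (nat_lit 1953206122723) (nat_lit 2) E)))))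
 (nat_lit 1953209821411) (nat_lit 2) (N (N (N (N (N (N E (nat_lit 1953210867939) (nat_lit 2) E) (nat_lit 1953210925731) (nat_lit 2) (N E (nat_lit 1953210942083) (nat_lit 2) E)) (nat_lit 1953210942986) (nat_lit 2) (N (N E (nat_lit 1953304478371) (nat_lit 2) E) (nat_lit 1953304494723) (nat_lit 2) (N E (nat_lit 1953304495626) (nat_lit 2) E))) (nat_lit 1953312866947) (nat_lit 2) (N (N (N E (nat_lit 1953312867850) (nat_lit 2) E) (nat_lit 1953313330186) (nat_lit 2) (N E (nat_lit 1953313470691) (nat_lit 2) E)) (nat_lit 1954231132244) (nat_lit 2) (N (N E (nat_lit 1954231134218) (nat_lit 2) E) (nat_lit 1954231134288) (nat_lit 2) E))) (nat_lit 1954231134435) (nat_lit 1) (N (N (N (N E (nat_lit 1954231204067) (nat_lit 2) E) (nat_lit 1954231892195) (nat_lit 2) (N E (nat_lit 1954232144906) (nat_lit 2) E)) (nat_lit 1954232180816) (nat_lit 2) (N (N E (nat_lit 1954232180963) (nat_lit 1) E) (nat_lit 1954232181411) (nat_lit 2) E)) (nat_lit 1954232238755) (nat_lit 1) (N (N (N E (nat_lit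 1954232239843) (nat_lit 2) E) (nat_lit 1954232250595) (nat_lit 2) (N E (nat_lit 1954232255107) (nat_lit 1) E)) (nat_lit 1954232255114) (nat_lit 2) (N (N E (nat_lit 1954232256010) (nat_lit 1) E) (nat_lit 1954232256027) (nat_lit 2) E)))) (nat_lit 1954232256195) (nat_lit 2) (N (N (N (N (N E (nat_lit 1954232256284) (nat_lit 2) E) (nat_lit 1954232256291) (nat_lit 2) (N E (nat_lit 1954232256739) (nat_lit 2) E)) (nat_lit 1954232285411) (nat_lit 2) (N (N E (nat_lit 1954263087331) (nat_lit 2) E) (nat_lit 1954266786019) (nat_lit 2) (N E (nat_lit 1954267832547) (nat_lit 2) E))) (nat_lit 1954267890339) (nat_lit 2) (N (N (N E (nat_lit 1954267906691) (nat_lit 2) E) (nat_lit 1954267907594) (nat_lit 2) (N E (nat_lit 1954378220163) (nat_lit 0) E)) (nat_lit 1954378220164) (nat_lit 2) (N (N E (nat_lit 1954378220170) (nat_lit 1) E) (nat_lit 1954378220187) (nat_lit 2) E))) (nat_lit 1954378221066) (nat_lit 0) (N (N (N (N E (nat_lit 1954378221083) (nat_lit 1) E) (nat_lit 1954378221139)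 (nat_lit 2) (N E (nat_lit 1954378221251) (nat_lit 1) E)) (nat_lit 1954378221258) (nat_lit 2) (N (N E (nat_lit 1954378221340) (nat_lit 1) E) (nat_lit 1954378221347) (nat_lit 1) E)) (nat_lit 1954378221578) (nat_lit 2) (N (N (N E (nat_lit 1954378221648) (nat_lit 2) E) (nat_lit 1954378221795) (nat_lit 1) (N E (nat_lit 1954378224650) (nat_lit 1) E)) (nat_lit 1954378224667) (nat_lit 2) (N (N E (nat_lit 1954378224835) (nat_lit 2) E) (nat_lit 1954378224924) (nat_lit 2) E)))))
)
 (nat_lit 1954378224931) (nat_lit 2) (N (N (N (N (N (N (N E (nat_lit 1954378232451) (nat_lit 2) E) (nat_lit 1954378233354) (nat_lit 2) (N E (nat_lit 1954378683402) (nat_lit 0) E)) (nat_lit 1954378683419) (nat_lit 1) (N (N E (nat_lit 1954378683475) (nat_lit 2) E) (nat_lit 1954378683587) (nat_lit 1) (N E (nat_lit 1954378683594) (nat_lit 2) E))) (nat_lit 1954378683676) (nat_lit 1) (N (N (N E (nat_lit 1954378683683) (nat_lit 1) E) (nat_lit 1954378691203) (nat_lit 1) (N E (nat_lit 1954378691210) (nat_lit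 2) E)) (nat_lit 1954378692106) (nat_lit 1) (N (N E (nat_lit 1954378692123) (nat_lit 2) E) (nat_lit 1954378692291) (nat_lit 2) E))) (nat_lit 1954378692380) (nat_lit 2) (N (N (N (N E (nat_lit 1954378692387) (nat_lit 2) E) (nat_lit 1954378692835) (nat_lit 2) (N E (nat_lit 1954378719875) (nat_lit 2) E)) (nat_lit 1954378720778) (nat_lit 2) (N (N E (nat_lit 1954378777219) (nat_lit 1) E) (nat_lit 1954378777226) (nat_lit 2) E)) (nat_lit 1954378778122) (nat_lit 1) (N (N (N E (nat_lit 1954378778139) (nat_lit 2) E) (nat_lit 1954378778307) (nat_lit 2) (N E (nat_lit 1954378778396) (nat_lit 2) E)) (nat_lit 1954378778403) (nat_lit 2) (N (N E (nat_lit 1954378778851) (nat_lit 2) E) (nat_lit 1954378781706) (nat_lit 2) E)))) (nat_lit 1954378810019) (nat_lit 1) (N (N (N (N (N E (nat_lit 1954378811107) (nat_lit 2) E) (nat_lit 1954378814492) (nat_lit 1) (N E (nat_lit 1954378814499) (nat_lit 1) E)) (nat_lit 1954378814548) (nat_lit 2) (N (N E (nat_lit 1954378821716) (nat_lit 1) E) (nat_lit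 1954378821852) (nat_lit 2) (N E (nat_lit 1954378821859) (nat_lit 2) E))) (nat_lit 1954378823196) (nat_lit 2) (N (N (N E (nat_lit 1954378823203) (nat_lit 2) E) (nat_lit 1954378823690) (nat_lit 1) (N E (nat_lit 1954378823707) (nat_lit 2) E)) (nat_lit 1954378823760) (nat_lit 1) (N (N E (nat_lit 1954378823875) (nat_lit 2) E) (nat_lit 1954378823896) (nat_lit 2) E))) (nat_lit 1954378823907) (nat_lit 0) (N (N (N (N E (nat_lit 1954378823908) (nat_lit 2) E) (nat_lit 1954378823964) (nat_lit 2) (N E (nat_lit 1954378823971) (nat_lit 2) E)) (nat_lit 1954378826371) (nat_lit 1) (N (N E (nat_lit 1954378826378) (nat_lit 2) E) (nat_lit 1954378827274) (nat_lit 1) E)) (nat_lit 1954378827291) (nat_lit 2) (N (N (N E (nat_lit 1954378827459) (nat_lit 2) E) (nat_lit 1954378827548) (nat_lit 2) (N E (nat_lit 1954378827555) (nat_lit 2) E)) (nat_lit 1954378828003) (nat_lit 2) (N (N E (nat_lit 1954378945546) (nat_lit 2) E) (nat_lit 1954378981456) (nat_lit 2) E)))))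
 (nat_lit 1954378981603) (nat_lit 1) (N (N (N (N (N (N E (nat_lit 1954378982051) (nat_lit 2) E) (nat_lit 1954379039395) (nat_lit 1) (N E (nat_lit 1954379040483) (nat_lit 2) E)) (nat_lit 1954379051235) (nat_lit 2) (N (N E (nat_lit 1954379055747) (nat_lit 1) E) (nat_lit 1954379055754) (nat_lit 2) (N E (nat_lit 1954379056650) (nat_lit 1) E))) (nat_lit 1954379056667) (nat_lit 2) (N (N (N E (nat_lit 1954379056835) (nat_lit 2) E) (nat_lit 1954379056924) (nat_lit 2) (N E (nat_lit 1954379056931) (nat_lit 2) E)) (nat_lit 1954379057379) (nat_lit 2) (N (N E (nat_lit 1954379086051) (nat_lit 2) E) (nat_lit 1954380518410) (nat_lit 1) E))) (nat_lit 1954380518427) (nat_lit 2) (N (N (N (N E (nat_lit 1954380518595) (nat_lit 2) E) (nat_lit 1954380518684) (nat_lit 2) (N E (nat_lit 1954380518691) (nat_lit 2) E)) (nat_lit 1954380526211) (nat_lit 2) (N (N E (nat_lit 1954380527114) (nat_lit 2) E) (nat_lit 1954380612227) (nat_lit 2) E)) (nat_lit 1954380613130) (nat_lit 2) (N (N (N E (nat_lit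 1954380645027) (nat_lit 2) E) (nat_lit 1954380649500) (nat_lit 2) (N E (nat_lit 1954380649507) (nat_lit 2) E)) (nat_lit 1954380656724) (nat_lit 2) (N (N E (nat_lit 1954380658698) (nat_lit 2) E) (nat_lit 1954380658768) (nat_lit 2) E)))) (nat_lit 1954380658915) (nat_lit 1) (N (N (N (N (N E (nat_lit 1954380661379) (nat_lit 2) E) (nat_lit 1954380662282) (nat_lit 2) (N E (nat_lit 1954384511619) (nat_lit 2) E)) (nat_lit 1954384512522) (nat_lit 2) (N (N E (nat_lit 1954384974858) (nat_lit 2) E) (nat_lit 1954385115363) (nat_lit 2) (N E (nat_lit 1954615399434) (nat_lit 0) E))) (nat_lit 1954615399451) (nat_lit 1) (N (N (N E (nat_lit 1954615399507) (nat_lit 2) E) (nat_lit 1954615399619) (nat_lit 1) (N E (nat_lit 1954615399626) (nat_lit 2) E)) (nat_lit 1954615399708) (nat_lit 1) (N (N E (nat_lit 1954615399715) (nat_lit 1) E) (nat_lit 1954615407235) (nat_lit 1) E))) (nat_lit 1954615407242) (nat_lit 2) (N (N (N (N E (nat_lit 1954615408138) (nat_lit 1) E) (nat_lit 1954615408155)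 (nat_lit 2) (N E (nat_lit 1954615408323) (nat_lit 2) E)) (nat_lit 1954615408412) (nat_lit 2) (N (N E (nat_lit 1954615408419) (nat_lit 2) E) (nat_lit 1954615408867) (nat_lit 2) E)) (nat_lit 1954615435907) (nat_lit 2) (N (N (N E (nat_lit 1954615436810) (nat_lit 2) E) (nat_lit 1954615493251) (nat_lit 1) (N E (nat_lit 1954615493258) (nat_lit 2) E)) (nat_lit 1954615494154) (nat_lit 1) (N (N E (nat_lit 1954615494171) (nat_lit 2) E) (nat_lit 1954615494339) (nat_lit 2) E)))))
)
)
)
)
 (nat_lit 1954615494428) (nat_lit 2) (N (N (N (N (N (N (N (N (N (N E (nat_lit 1954615494435) (nat_lit 2) E) (nat_lit 1954615494883) (nat_lit 2) (N E (nat_lit 1954615497738) (nat_lit 2) E)) (nat_lit 1954615526051) (nat_lit 1) (N (N E (nat_lit 1954615527139) (nat_lit 2) E) (nat_lit 1954615530524) (nat_lit 1) (N E (nat_lit 1954615530531) (nat_lit 1) E))) (nat_lit 1954615530580) (nat_lit 2) (N (N (N E (nat_lit 1954615537748) (nat_lit 1) E) (nat_lit 1954615537884) (nat_lit 2) (N E (nat_lit 1954615537891)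 (nat_lit 2) E)) (nat_lit 1954615539228) (nat_lit 2) (N (N E (nat_lit 1954615539235) (nat_lit 2) E) (nat_lit 1954615539722) (nat_lit 1) E))) (nat_lit 1954615539739) (nat_lit 2) (N (N (N (N E (nat_lit 1954615539792) (nat_lit 1) E) (nat_lit 1954615539907) (nat_lit 2) (N E (nat_lit 1954615539928) (nat_lit 2) E)) (nat_lit 1954615539939) (nat_lit 0) (N (N E (nat_lit 1954615539940) (nat_lit 2) E) (nat_lit 1954615539996) (nat_lit 2) E)) (nat_lit 1954615540003) (nat_lit 2) (N (N (N E (nat_lit 1954615542403) (nat_lit 1) E) (nat_lit 1954615542410) (nat_lit 2) (N E (nat_lit 1954615543306) (nat_lit 1) E)) (nat_lit 1954615543323) (nat_lit 2) (N (N E (nat_lit 1954615543491) (nat_lit 2) E) (nat_lit 1954615543580) (nat_lit 2) E)))) (nat_lit 1954615543587) (nat_lit 2) (N (N (N (N (N E (nat_lit 1954615544035) (nat_lit 2) E) (nat_lit 1954619107555) (nat_lit 2) (N E (nat_lit 1954619392643) (nat_lit 1) E)) (nat_lit 1954619392650) (nat_lit 2) (N (N E (nat_lit 1954619393546) (nat_lit 1)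 E) (nat_lit 1954619393563) (nat_lit 2) (N E (nat_lit 1954619393731) (nat_lit 2) E))) (nat_lit 1954619393820) (nat_lit 2) (N (N (N E (nat_lit 1954619393827) (nat_lit 2) E) (nat_lit 1954619394275) (nat_lit 2) (N E (nat_lit 1954619397130) (nat_lit 2) E)) (nat_lit 1954619855882) (nat_lit 1) (N (N E (nat_lit 1954619855899) (nat_lit 2) E) (nat_lit 1954619856067) (nat_lit 2) E))) (nat_lit 1954619856156) (nat_lit 2) (N (N (N (N E (nat_lit 1954619856163) (nat_lit 2) E) (nat_lit 1954619863683) (nat_lit 2) (N E (nat_lit 1954619864586) (nat_lit 2) E)) (nat_lit 1954619949699) (nat_lit 2) (N (N E (nat_lit 1954619950602) (nat_lit 2) E) (nat_lit 1954619982499) (nat_lit 2) E)) (nat_lit 1954619986972) (nat_lit 2) (N (N (N E (nat_lit 1954619986979) (nat_lit 2) E) (nat_lit 1954619994196) (nat_lit 2) (N E (nat_lit 1954619996170) (nat_lit 2) E)) (nat_lit 1954619996240) (nat_lit 2) (N (N E (nat_lit 1954619996387) (nat_lit 1) E) (nat_lit 1954619998851) (nat_lit 2) E)))))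
 (nat_lit 1954619999754) (nat_lit 2) (N (N (N (N (N (N E (nat_lit 1954620154083) (nat_lit 2) E) (nat_lit 1954620211875) (nat_lit 2) (N E (nat_lit 1954620228227) (nat_lit 2) E)) (nat_lit 1954620229130) (nat_lit 2) (N (N E (nat_lit 1954634072707) (nat_lit 2) E) (nat_lit 1954634073610) (nat_lit 2) (N E (nat_lit 1954634535946) (nat_lit 2) E))) (nat_lit 1954634676451) (nat_lit 2) (N (N (N E (nat_lit 1954663432835) (nat_lit 1) E) (nat_lit 1954663432842) (nat_lit 2) (N E (nat_lit 1954663433738) (nat_lit 1) E)) (nat_lit 1954663433755) (nat_lit 2) (N (N E (nat_lit 1954663433923) (nat_lit 2) E) (nat_lit 1954663434012) (nat_lit 2) E))) (nat_lit 1954663434019) (nat_lit 2) (N (N (N (N E (nat_lit 1954663434467) (nat_lit 2) E) (nat_lit 1954663437322) (nat_lit 2) (N E (nat_lit 1954663896074) (nat_lit 1) E)) (nat_lit 1954663896091) (nat_lit 2) (N (N E (nat_lit 1954663896259) (nat_lit 2) E) (nat_lit 1954663896348) (nat_lit 2) E)) (nat_lit 1954663896355) (nat_lit 2) (N (N (N E (nat_lit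 1954663903875) (nat_lit 2) E) (nat_lit 1954663904778) (nat_lit 2) (N E (nat_lit 1954663989891) (nat_lit 2) E)) (nat_lit 1954663990794) (nat_lit 2) (N (N E (nat_lit 1954664022691) (nat_lit 2) E) (nat_lit 1954664027164) (nat_lit 2) E)))) (nat_lit 1954664027171) (nat_lit 2) (N (N (N (N (N E (nat_lit 1954664034388) (nat_lit 2) E) (nat_lit 1954664036362) (nat_lit 2) (N E (nat_lit 1954664036432) (nat_lit 2) E)) (nat_lit 1954664036579) (nat_lit 1) (N (N E (nat_lit 1954664039043) (nat_lit 2) E) (nat_lit 1954664039946) (nat_lit 2) (N E (nat_lit 1954664194275) (nat_lit 2) E))) (nat_lit 1954664252067) (nat_lit 2) (N (N (N E (nat_lit 1954664268419) (nat_lit 2) E) (nat_lit 1954664269322) (nat_lit 2) (N E (nat_lit 1954665731082) (nat_lit 2) E)) (nat_lit 1954665871587) (nat_lit 2) (N (N E (nat_lit 1954680210083) (nat_lit 1) E) (nat_lit 1954680211171) (nat_lit 2) E))) (nat_lit 1954680221923) (nat_lit 2) (N (N (N (N E (nat_lit 1954680226435) (nat_lit 1) E) (nat_lit 1954680226442)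 (nat_lit 2) (N E (nat_lit 1954680227338) (nat_lit 1) E)) (nat_lit 1954680227355) (nat_lit 2) (N (N E (nat_lit 1954680227523) (nat_lit 2) E) (nat_lit 1954680227612) (nat_lit 2) E)) (nat_lit 1954680227619) (nat_lit 2) (N (N (N E (nat_lit 1954680228067) (nat_lit 2) E) (nat_lit 1954680709347) (nat_lit 2) (N E (nat_lit 1954680767139) (nat_lit 2) E)) (nat_lit 1954680783491) (nat_lit 2) (N (N E (nat_lit 1954680784394) (nat_lit 2) E) (nat_lit 1954682508316) (nat_lit 1) E)))))
)
 (nat_lit 1954682508323) (nat_lit 1) (N (N (N (N (N (N (N E (nat_lit 1954682508372) (nat_lit 2) E) (nat_lit 1954682515540) (nat_lit 1) (N E (nat_lit 1954682515676) (nat_lit 2) E)) (nat_lit 1954682515683) (nat_lit 2) (N (N E (nat_lit 1954682517020) (nat_lit 2) E) (nat_lit 1954682517027) (nat_lit 2) (N E (nat_lit 1954682517514) (nat_lit 1) E))) (nat_lit 1954682517531) (nat_lit 2) (N (N (N E (nat_lit 1954682517584) (nat_lit 1) E) (nat_lit 1954682517699) (nat_lit 2) (N E (nat_lit 1954682517720) (nat_lit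 2) E)) (nat_lit 1954682517731) (nat_lit 0) (N (N E (nat_lit 1954682517732) (nat_lit 2) E) (nat_lit 1954682517788) (nat_lit 2) E))) (nat_lit 1954682517795) (nat_lit 2) (N (N (N (N E (nat_lit 1954682520195) (nat_lit 1) E) (nat_lit 1954682520202) (nat_lit 2) (N E (nat_lit 1954682521098) (nat_lit 1) E)) (nat_lit 1954682521115) (nat_lit 2) (N (N E (nat_lit 1954682521283) (nat_lit 2) E) (nat_lit 1954682521372) (nat_lit 2) E)) (nat_lit 1954682521379) (nat_lit 2) (N (N (N E (nat_lit 1954682521827) (nat_lit 2) E) (nat_lit 1954682544212) (nat_lit 2) (N E (nat_lit 1954682546186) (nat_lit 2) E)) (nat_lit 1954682546256) (nat_lit 2) (N (N E (nat_lit 1954682546403) (nat_lit 1) E) (nat_lit 1954682616035) (nat_lit 2) E)))) (nat_lit 1954686214228) (nat_lit 1) (N (N (N (N (N E (nat_lit 1954686214364) (nat_lit 2) E) (nat_lit 1954686214371) (nat_lit 2) (N E (nat_lit 1954686215708) (nat_lit 2) E)) (nat_lit 1954686215715) (nat_lit 2) (N (N E (nat_lit 1954686216202) (nat_lit 1) E) (nat_lit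 1954686216219) (nat_lit 2) (N E (nat_lit 1954686216272) (nat_lit 1) E))) (nat_lit 1954686216387) (nat_lit 2) (N (N (N E (nat_lit 1954686216408) (nat_lit 2) E) (nat_lit 1954686216419) (nat_lit 0) (N E (nat_lit 1954686216420) (nat_lit 2) E)) (nat_lit 1954686216476) (nat_lit 2) (N (N E (nat_lit 1954686216483) (nat_lit 2) E) (nat_lit 1954686272163) (nat_lit 2) E))) (nat_lit 1954686276636) (nat_lit 2) (N (N (N (N E (nat_lit 1954686276643) (nat_lit 2) E) (nat_lit 1954686283860) (nat_lit 2) (N E (nat_lit 1954686285834) (nat_lit 2) E)) (nat_lit 1954686285904) (nat_lit 2) (N (N E (nat_lit 1954686286051) (nat_lit 1) E) (nat_lit 1954686288515) (nat_lit 2) E)) (nat_lit 1954686289418) (nat_lit 2) (N (N (N E (nat_lit 1954686515427) (nat_lit 2) E) (nat_lit 1954686964764) (nat_lit 2) (N E (nat_lit 1954686964771) (nat_lit 2) E)) (nat_lit 1954686971988) (nat_lit 2) (N (N E (nat_lit 1954686973962) (nat_lit 2) E) (nat_lit 1954686974032) (nat_lit 2) E)))))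
 (nat_lit 1954686974179) (nat_lit 1) (N (N (N (N (N (N E (nat_lit 1954686976643) (nat_lit 2) E) (nat_lit 1954686977546) (nat_lit 2) (N E (nat_lit 1954687002851) (nat_lit 2) E)) (nat_lit 1954687226890) (nat_lit 1) (N (N E (nat_lit 1954687226907) (nat_lit 2) E) (nat_lit 1954687227075) (nat_lit 2) (N E (nat_lit 1954687227164) (nat_lit 2) E))) (nat_lit 1954687227171) (nat_lit 2) (N (N (N E (nat_lit 1954687234691) (nat_lit 2) E) (nat_lit 1954687235594) (nat_lit 2) (N E (nat_lit 1954687262800) (nat_lit 1) E)) (nat_lit 1954687262915) (nat_lit 2) (N (N E (nat_lit 1954687262936) (nat_lit 2) E) (nat_lit 1954687262947) (nat_lit 0) E))) (nat_lit 1954687262948) (nat_lit 2) (N (N (N (N E (nat_lit 1954687263004) (nat_lit 2) E) (nat_lit 1954687263011) (nat_lit 2) (N E (nat_lit 1954687263395) (nat_lit 1) E)) (nat_lit 1954687264483) (nat_lit 2) (N (N E (nat_lit 1954687320707) (nat_lit 2) E) (nat_lit 1954687320728) (nat_lit 2) E)) (nat_lit 1954687320739) (nat_lit 0) (N (N (N E (nat_lit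 1954687320740) (nat_lit 2) E) (nat_lit 1954687321610) (nat_lit 2) (N E (nat_lit 1954687321680) (nat_lit 2) E)) (nat_lit 1954687321827) (nat_lit 1) (N (N E (nat_lit 1954687325411) (nat_lit 2) E) (nat_lit 1954687332432) (nat_lit 2) E)))) (nat_lit 1954687332579) (nat_lit 1) (N (N (N (N (N E (nat_lit 1954687333027) (nat_lit 2) E) (nat_lit 1954687336532) (nat_lit 2) (N E (nat_lit 1954687337091) (nat_lit 0) E)) (nat_lit 1954687337092) (nat_lit 2) (N (N E (nat_lit 1954687337098) (nat_lit 1) E) (nat_lit 1954687337115) (nat_lit 2) (N E (nat_lit 1954687337994) (nat_lit 0) E))) (nat_lit 1954687338011) (nat_lit 1) (N (N (N E (nat_lit 1954687338067) (nat_lit 2) E) (nat_lit 1954687338179) (nat_lit 1) (N E (nat_lit 1954687338186) (nat_lit 2) E)) (nat_lit 1954687338268) (nat_lit 1) (N (N E (nat_lit 1954687338275) (nat_lit 1) E) (nat_lit 1954687338506) (nat_lit 2) E))) (nat_lit 1954687338576) (nat_lit 2) (N (N (N (N E (nat_lit 1954687338723) (nat_lit 1) E) (nat_lit 1954687353507)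 (nat_lit 2) (N E (nat_lit 1954687357980) (nat_lit 2) E)) (nat_lit 1954687357987) (nat_lit 2) (N (N E (nat_lit 1954687365204) (nat_lit 2) E) (nat_lit 1954687367178) (nat_lit 2) E)) (nat_lit 1954687367248) (nat_lit 2) (N (N (N E (nat_lit 1954687367395) (nat_lit 1) E) (nat_lit 1954687369859) (nat_lit 2) (N E (nat_lit 1954687370762) (nat_lit 2) E)) (nat_lit 1954688313571) (nat_lit 2) (N (N E (nat_lit 1954688598659) (nat_lit 1) E) (nat_lit 1954688598666) (nat_lit 2) E)))))
)
)
 (nat_lit 1954688599562) (nat_lit 1) (N (N (N (N (N (N (N (N E (nat_lit 1954688599579) (nat_lit 2) E) (nat_lit 1954688599747) (nat_lit 2) (N E (nat_lit 1954688599836) (nat_lit 2) E)) (nat_lit 1954688599843) (nat_lit 2) (N (N E (nat_lit 1954688600291) (nat_lit 2) E) (nat_lit 1954688603146) (nat_lit 2) (N E (nat_lit 1954689061898) (nat_lit 1) E))) (nat_lit 1954689061915) (nat_lit 2) (N (N (N E (nat_lit 1954689062083) (nat_lit 2) E) (nat_lit 1954689062172) (nat_lit 2) (N E (nat_lit 1954689062179)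 (nat_lit 2) E)) (nat_lit 1954689069699) (nat_lit 2) (N (N E (nat_lit 1954689070602) (nat_lit 2) E) (nat_lit 1954689155715) (nat_lit 2) E))) (nat_lit 1954689156618) (nat_lit 2) (N (N (N (N E (nat_lit 1954689188515) (nat_lit 2) E) (nat_lit 1954689192988) (nat_lit 2) (N E (nat_lit 1954689192995) (nat_lit 2) E)) (nat_lit 1954689200212) (nat_lit 2) (N (N E (nat_lit 1954689202186) (nat_lit 2) E) (nat_lit 1954689202256) (nat_lit 2) E)) (nat_lit 1954689202403) (nat_lit 1) (N (N (N E (nat_lit 1954689204867) (nat_lit 2) E) (nat_lit 1954689205770) (nat_lit 2) (N E (nat_lit 1954689360099) (nat_lit 2) E)) (nat_lit 1954689417891) (nat_lit 2) (N (N E (nat_lit 1954689434243) (nat_lit 2) E) (nat_lit 1954689435146) (nat_lit 2) E)))) (nat_lit 1954749617162) (nat_lit 2) (N (N (N (N (N E (nat_lit 1954749757667) (nat_lit 2) E) (nat_lit 1954768003152) (nat_lit 2) (N E (nat_lit 1954768003299) (nat_lit 1) E)) (nat_lit 1954768003747) (nat_lit 2) (N (N E (nat_lit 1954768061091) (nat_lit 1)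 E) (nat_lit 1954768062179) (nat_lit 2) (N E (nat_lit 1954768072931) (nat_lit 2) E))) (nat_lit 1954768077443) (nat_lit 1) (N (N (N E (nat_lit 1954768077450) (nat_lit 2) E) (nat_lit 1954768078346) (nat_lit 1) (N E (nat_lit 1954768078363) (nat_lit 2) E)) (nat_lit 1954768078531) (nat_lit 2) (N (N E (nat_lit 1954768078620) (nat_lit 2) E) (nat_lit 1954768078627) (nat_lit 2) E))) (nat_lit 1954768079075) (nat_lit 2) (N (N (N (N E (nat_lit 1954768107747) (nat_lit 2) E) (nat_lit 1954768290467) (nat_lit 2) (N E (nat_lit 1954768306819) (nat_lit 2) E)) (nat_lit 1954768307722) (nat_lit 2) (N (N E (nat_lit 1954797650595) (nat_lit 1) E) (nat_lit 1954797651683) (nat_lit 2) E)) (nat_lit 1954797662435) (nat_lit 2) (N (N (N E (nat_lit 1954797666947) (nat_lit 1) E) (nat_lit 1954797666954) (nat_lit 2) (N E (nat_lit 1954797667850) (nat_lit 1) E)) (nat_lit 1954797667867) (nat_lit 2) (N (N E (nat_lit 1954797668035) (nat_lit 2) E) (nat_lit 1954797668124) (nat_lit 2) E)))))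
 (nat_lit 1954797668131) (nat_lit 2) (N (N (N (N (N (N E (nat_lit 1954797668579) (nat_lit 2) E) (nat_lit 1954798149859) (nat_lit 2) (N E (nat_lit 1954798207651) (nat_lit 2) E)) (nat_lit 1954798224003) (nat_lit 2) (N (N E (nat_lit 1954798224906) (nat_lit 2) E) (nat_lit 1954803654883) (nat_lit 2) (N E (nat_lit 1954803712675) (nat_lit 2) E))) (nat_lit 1954803729027) (nat_lit 2) (N (N (N E (nat_lit 1954803729930) (nat_lit 2) E) (nat_lit 1954805754083) (nat_lit 2) (N E (nat_lit 1954806039171) (nat_lit 1) E)) (nat_lit 1954806039178) (nat_lit 2) (N (N E (nat_lit 1954806040074) (nat_lit 1) E) (nat_lit 1954806040091) (nat_lit 2) E))) (nat_lit 1954806040259) (nat_lit 2) (N (N (N (N E (nat_lit 1954806040348) (nat_lit 2) E) (nat_lit 1954806040355) (nat_lit 2) (N E (nat_lit 1954806040803) (nat_lit 2) E)) (nat_lit 1954806043658) (nat_lit 2) (N (N E (nat_lit 1954806502410) (nat_lit 1) E) (nat_lit 1954806502427) (nat_lit 2) E)) (nat_lit 1954806502595) (nat_lit 2) (N (N (N E (nat_lit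 1954806502684) (nat_lit 2) E) (nat_lit 1954806502691) (nat_lit 2) (N E (nat_lit 1954806510211) (nat_lit 2) E)) (nat_lit 1954806511114) (nat_lit 2) (N (N E (nat_lit 1954806596227) (nat_lit 2) E) (nat_lit 1954806597130) (nat_lit 2) E)))) (nat_lit 1954806629027) (nat_lit 2) (N (N (N (N (N E (nat_lit 1954806633500) (nat_lit 2) E) (nat_lit 1954806633507) (nat_lit 2) (N E (nat_lit 1954806640724) (nat_lit 2) E)) (nat_lit 1954806642698) (nat_lit 2) (N (N E (nat_lit 1954806642768) (nat_lit 2) E) (nat_lit 1954806642915) (nat_lit 1) (N E (nat_lit 1954806645379) (nat_lit 2) E))) (nat_lit 1954806646282) (nat_lit 2) (N (N (N E (nat_lit 1954806800611) (nat_lit 2) E) (nat_lit 1954806858403) (nat_lit 2) (N E (nat_lit 1954806874755) (nat_lit 2) E)) (nat_lit 1954806875658) (nat_lit 2) (N (N E (nat_lit 1954816735459) (nat_lit 2) E) (nat_lit 1954820434147) (nat_lit 2) E))) (nat_lit 1954821480675) (nat_lit 2) (N (N (N (N E (nat_lit 1954821538467) (nat_lit 2) E) (nat_lit 1954821554819)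 (nat_lit 2) (N E (nat_lit 1954821555722) (nat_lit 2) E)) (nat_lit 1958673187491) (nat_lit 2) (N (N E (nat_lit 1958673203843) (nat_lit 2) E) (nat_lit 1958673204746) (nat_lit 2) E)) (nat_lit 1958681576067) (nat_lit 2) (N (N (N E (nat_lit 1958681576970) (nat_lit 2) E) (nat_lit 1958682039306) (nat_lit 2) (N E (nat_lit 1958682179811) (nat_lit 2) E)) (nat_lit 1959849890844) (nat_lit 2) (N (N E (nat_lit 1959849890851) (nat_lit 2) E) (nat_lit 1959849898068) (nat_lit 2) E)))))
)
 (nat_lit 1959849900042) (nat_lit 2) (N (N (N (N (N (N (N E (nat_lit 1959849900112) (nat_lit 2) E) (nat_lit 1959849900259) (nat_lit 1) (N E (nat_lit 1959849902723) (nat_lit 2) E)) (nat_lit 1959849903626) (nat_lit 2) (N (N E (nat_lit 1959849928931) (nat_lit 2) E) (nat_lit 1959853596756) (nat_lit 2) (N E (nat_lit 1959853598730) (nat_lit 2) E))) (nat_lit 1959853598800) (nat_lit 2) (N (N (N E (nat_lit 1959853598947) (nat_lit 1) E) (nat_lit 1959853668579) (nat_lit 2) (N E (nat_lit 1959854356707) (nat_lit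 2) E)) (nat_lit 1959854609418) (nat_lit 2) (N (N E (nat_lit 1959854645328) (nat_lit 2) E) (nat_lit 1959854645475) (nat_lit 1) E))) (nat_lit 1959854645923) (nat_lit 2) (N (N (N (N E (nat_lit 1959854703267) (nat_lit 1) E) (nat_lit 1959854704355) (nat_lit 2) (N E (nat_lit 1959854715107) (nat_lit 2) E)) (nat_lit 1959854719619) (nat_lit 1) (N (N E (nat_lit 1959854719626) (nat_lit 2) E) (nat_lit 1959854720522) (nat_lit 1) E)) (nat_lit 1959854720539) (nat_lit 2) (N (N (N E (nat_lit 1959854720707) (nat_lit 2) E) (nat_lit 1959854720796) (nat_lit 2) (N E (nat_lit 1959854720803) (nat_lit 2) E)) (nat_lit 1959854721251) (nat_lit 2) (N (N E (nat_lit 1959854749923) (nat_lit 2) E) (nat_lit 1959855981187) (nat_lit 2) E)))) (nat_lit 1959855982090) (nat_lit 2) (N (N (N (N (N E (nat_lit 1959856444426) (nat_lit 2) E) (nat_lit 1959856584931) (nat_lit 2) (N E (nat_lit 1959868279011) (nat_lit 2) E)) (nat_lit 1959869325539) (nat_lit 2) (N (N E (nat_lit 1959869383331) (nat_lit 2) E) (nat_lit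 1959869399683) (nat_lit 2) (N E (nat_lit 1959869400586) (nat_lit 2) E))) (nat_lit 1961747325012) (nat_lit 2) (N (N (N E (nat_lit 1961747326986) (nat_lit 2) E) (nat_lit 1961747327056) (nat_lit 2) (N E (nat_lit 1961747327203) (nat_lit 1) E)) (nat_lit 1961747396835) (nat_lit 2) (N (N E (nat_lit 1961748084963) (nat_lit 2) E) (nat_lit 1961748337674) (nat_lit 2) E))) (nat_lit 1961748373584) (nat_lit 2) (N (N (N (N E (nat_lit 1961748373731) (nat_lit 1) E) (nat_lit 1961748374179) (nat_lit 2) (N E (nat_lit 1961748431523) (nat_lit 1) E)) (nat_lit 1961748432611) (nat_lit 2) (N (N E (nat_lit 1961748443363) (nat_lit 2) E) (nat_lit 1961748447875) (nat_lit 1) E)) (nat_lit 1961748447882) (nat_lit 2) (N (N (N E (nat_lit 1961748448778) (nat_lit 1) E) (nat_lit 1961748448795) (nat_lit 2) (N E (nat_lit 1961748448963) (nat_lit 2) E)) (nat_lit 1961748449052) (nat_lit 2) (N (N E (nat_lit 1961748449059) (nat_lit 2) E) (nat_lit 1961748449507) (nat_lit 2) E)))))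
 (nat_lit 1961748478179) (nat_lit 2) (N (N (N (N (N (N E (nat_lit 1961779280099) (nat_lit 2) E) (nat_lit 1961782978787) (nat_lit 2) (N E (nat_lit 1961784025315) (nat_lit 2) E)) (nat_lit 1961784083107) (nat_lit 2) (N (N E (nat_lit 1961784099459) (nat_lit 2) E) (nat_lit 1961784100362) (nat_lit 2) (N E (nat_lit 1962131601635) (nat_lit 2) E))) (nat_lit 1962135300323) (nat_lit 2) (N (N (N E (nat_lit 1962136346851) (nat_lit 2) E) (nat_lit 1962136404643) (nat_lit 2) (N E (nat_lit 1962136420995) (nat_lit 2) E)) (nat_lit 1962136421898) (nat_lit 2) (N (N E (nat_lit 1962265809930) (nat_lit 2) E) (nat_lit 1962265950435) (nat_lit 2) E))) (nat_lit 1962284195920) (nat_lit 2) (N (N (N (N E (nat_lit 1962284196067) (nat_lit 1) E) (nat_lit 1962284196515) (nat_lit 2) (N E (nat_lit 1962284253859) (nat_lit 1) E)) (nat_lit 1962284254947) (nat_lit 2) (N (N E (nat_lit 1962284265699) (nat_lit 2) E) (nat_lit 1962284270211) (nat_lit 1) E)) (nat_lit 1962284270218) (nat_lit 2) (N (N (N E (nat_lit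 1962284271114) (nat_lit 1) E) (nat_lit 1962284271131) (nat_lit 2) (N E (nat_lit 1962284271299) (nat_lit 2) E)) (nat_lit 1962284271388) (nat_lit 2) (N (N E (nat_lit 1962284271395) (nat_lit 2) E) (nat_lit 1962284271843) (nat_lit 2) E)))) (nat_lit 1962284300515) (nat_lit 2) (N (N (N (N (N E (nat_lit 1962284483235) (nat_lit 2) E) (nat_lit 1962284499587) (nat_lit 2) (N E (nat_lit 1962284500490) (nat_lit 2) E)) (nat_lit 1962313843363) (nat_lit 1) (N (N E (nat_lit 1962313844451) (nat_lit 2) E) (nat_lit 1962313855203) (nat_lit 2) (N E (nat_lit 1962313859715) (nat_lit 1) E))) (nat_lit 1962313859722) (nat_lit 2) (N (N (N E (nat_lit 1962313860618) (nat_lit 1) E) (nat_lit 1962313860635) (nat_lit 2) (N E (nat_lit 1962313860803) (nat_lit 2) E)) (nat_lit 1962313860892) (nat_lit 2) (N (N E (nat_lit 1962313860899) (nat_lit 2) E) (nat_lit 1962313861347) (nat_lit 2) E))) (nat_lit 1962314342627) (nat_lit 2) (N (N (N (N E (nat_lit 1962314400419) (nat_lit 2) E) (nat_lit 1962314416771)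 (nat_lit 2) (N E (nat_lit 1962314417674) (nat_lit 2) E)) (nat_lit 1962319847651) (nat_lit 2) (N (N E (nat_lit 1962319905443) (nat_lit 2) E) (nat_lit 1962319921795) (nat_lit 2) E)) (nat_lit 1962319922698) (nat_lit 2) (N (N (N E (nat_lit 1962321946851) (nat_lit 2) E) (nat_lit 1962322231939) (nat_lit 1) (N E (nat_lit 1962322231946) (nat_lit 2) E)) (nat_lit 1962322232842) (nat_lit 1) (N (N E (nat_lit 1962322232859) (nat_lit 2) E) (nat_lit 1962322233027) (nat_lit 2) E)))))
)
)
)
 (nat_lit 1962322233116) (nat_lit 2) (N (N (N (N (N (N (N (N (N E (nat_lit 1962322233123) (nat_lit 2) E) (nat_lit 1962322233571) (nat_lit 2) (N E (nat_lit 1962322236426) (nat_lit 2) E)) (nat_lit 1962322695178) (nat_lit 1) (N (N E (nat_lit 1962322695195) (nat_lit 2) E) (nat_lit 1962322695363) (nat_lit 2) (N E (nat_lit 1962322695452) (nat_lit 2) E))) (nat_lit 1962322695459) (nat_lit 2) (N (N (N E (nat_lit 1962322702979) (nat_lit 2) E) (nat_lit 1962322703882) (nat_lit 2) (N E (nat_lit 1962322788995)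 (nat_lit 2) E)) (nat_lit 1962322789898) (nat_lit 2) (N (N E (nat_lit 1962322821795) (nat_lit 2) E) (nat_lit 1962322826268) (nat_lit 2) E))) (nat_lit 1962322826275) (nat_lit 2) (N (N (N (N E (nat_lit 1962322833492) (nat_lit 2) E) (nat_lit 1962322835466) (nat_lit 2) (N E (nat_lit 1962322835536) (nat_lit 2) E)) (nat_lit 1962322835683) (nat_lit 1) (N (N E (nat_lit 1962322838147) (nat_lit 2) E) (nat_lit 1962322839050) (nat_lit 2) E)) (nat_lit 1962322993379) (nat_lit 2) (N (N (N E (nat_lit 1962323051171) (nat_lit 2) E) (nat_lit 1962323067523) (nat_lit 2) (N E (nat_lit 1962323068426) (nat_lit 2) E)) (nat_lit 1962332928227) (nat_lit 2) (N (N E (nat_lit 1962336626915) (nat_lit 2) E) (nat_lit 1962337673443) (nat_lit 2) E)))) (nat_lit 1962337731235) (nat_lit 2) (N (N (N (N (N E (nat_lit 1962337747587) (nat_lit 2) E) (nat_lit 1962337748490) (nat_lit 2) (N E (nat_lit 1962968154755) (nat_lit 2) E)) (nat_lit 1962968155658) (nat_lit 2) (N (N E (nat_lit 1962968617994) (nat_lit 2)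 E) (nat_lit 1962968758499) (nat_lit 2) (N E (nat_lit 1963205334026) (nat_lit 2) E))) (nat_lit 1963205474531) (nat_lit 2) (N (N (N E (nat_lit 1963272452323) (nat_lit 2) E) (nat_lit 1963276151011) (nat_lit 2) (N E (nat_lit 1963277197539) (nat_lit 2) E)) (nat_lit 1963277255331) (nat_lit 2) (N (N E (nat_lit 1963277271683) (nat_lit 2) E) (nat_lit 1963277272586) (nat_lit 2) E))) (nat_lit 2209781688547) (nat_lit 2) (N (N (N (N E (nat_lit 2209782735075) (nat_lit 2) E) (nat_lit 2209782792867) (nat_lit 2) (N E (nat_lit 2209782809219) (nat_lit 2) E)) (nat_lit 2209782810122) (nat_lit 2) (N (N E (nat_lit 2210318557411) (nat_lit 2) E) (nat_lit 2210318615203) (nat_lit 2) E)) (nat_lit 2210318631555) (nat_lit 2) (N (N (N E (nat_lit 2210318632458) (nat_lit 2) E) (nat_lit 2210348204707) (nat_lit 2) (N E (nat_lit 2210348221059) (nat_lit 2) E)) (nat_lit 2210348221962) (nat_lit 2) (N (N E (nat_lit 2210356593283) (nat_lit 2) E) (nat_lit 2210356594186) (nat_lit 2) E)))))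
 (nat_lit 2210357056522) (nat_lit 2) (N (N (N (N (N (N E (nat_lit 2210357197027) (nat_lit 2) E) (nat_lit 2285090701955) (nat_lit 1) (N E (nat_lit 2285090701962) (nat_lit 2) E)) (nat_lit 2285090702858) (nat_lit 1) (N (N E (nat_lit 2285090702875) (nat_lit 2) E) (nat_lit 2285090703043) (nat_lit 2) (N E (nat_lit 2285090703132) (nat_lit 2) E))) (nat_lit 2285090703139) (nat_lit 2) (N (N (N E (nat_lit 2285090703587) (nat_lit 2) E) (nat_lit 2285090706442) (nat_lit 2) (N E (nat_lit 2285091165194) (nat_lit 1) E)) (nat_lit 2285091165211) (nat_lit 2) (N (N E (nat_lit 2285091165379) (nat_lit 2) E) (nat_lit 2285091165468) (nat_lit 2) E))) (nat_lit 2285091165475) (nat_lit 2) (N (N (N (N E (nat_lit 2285091172995) (nat_lit 2) E) (nat_lit 2285091173898) (nat_lit 2) (N E (nat_lit 2285091259011) (nat_lit 2) E)) (nat_lit 2285091259914) (nat_lit 2) (N (N E (nat_lit 2285091291811) (nat_lit 2) E) (nat_lit 2285091296284) (nat_lit 2) E)) (nat_lit 2285091296291) (nat_lit 2) (N (N (N E (nat_lit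 2285091303508) (nat_lit 2) E) (nat_lit 2285091305482) (nat_lit 2) (N E (nat_lit 2285091305552) (nat_lit 2) E)) (nat_lit 2285091305699) (nat_lit 1) (N (N E (nat_lit 2285091308163) (nat_lit 2) E) (nat_lit 2285091309066) (nat_lit 2) E)))) (nat_lit 2285091463395) (nat_lit 2) (N (N (N (N (N E (nat_lit 2285091521187) (nat_lit 2) E) (nat_lit 2285091537539) (nat_lit 2) (N E (nat_lit 2285091538442) (nat_lit 2) E)) (nat_lit 2285093000202) (nat_lit 2) (N (N E (nat_lit 2285093140707) (nat_lit 2) E) (nat_lit 2285327881226) (nat_lit 1) (N E (nat_lit 2285327881243) (nat_lit 2) E))) (nat_lit 2285327881411) (nat_lit 2) (N (N (N E (nat_lit 2285327881500) (nat_lit 2) E) (nat_lit 2285327881507) (nat_lit 2) (N E (nat_lit 2285327889027) (nat_lit 2) E)) (nat_lit 2285327889930) (nat_lit 2) (N (N E (nat_lit 2285327975043) (nat_lit 2) E) (nat_lit 2285327975946) (nat_lit 2) E))) (nat_lit 2285328007843) (nat_lit 2) (N (N (N (N E (nat_lit 2285328012316) (nat_lit 2) E) (nat_lit 2285328012323)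 (nat_lit 2) (N E (nat_lit 2285328019540) (nat_lit 2) E)) (nat_lit 2285328021514) (nat_lit 2) (N (N E (nat_lit 2285328021584) (nat_lit 2) E) (nat_lit 2285328021731) (nat_lit 1) E)) (nat_lit 2285328024195) (nat_lit 2) (N (N (N E (nat_lit 2285328025098) (nat_lit 2) E) (nat_lit 2285331874435) (nat_lit 2) (N E (nat_lit 2285331875338) (nat_lit 2) E)) (nat_lit 2285332337674) (nat_lit 2) (N (N E (nat_lit 2285332478179) (nat_lit 2) E) (nat_lit 2285375914627) (nat_lit 2) E)))))
)
 (nat_lit 2285375915530) (nat_lit 2) (N (N (N (N (N (N (N E (nat_lit 2285376377866) (nat_lit 2) E) (nat_lit 2285376518371) (nat_lit 2) (N E (nat_lit 2285392691875) (nat_lit 2) E)) (nat_lit 2285392708227) (nat_lit 2) (N (N E (nat_lit 2285392709130) (nat_lit 2) E) (nat_lit 2285394990108) (nat_lit 2) (N E (nat_lit 2285394990115) (nat_lit 2) E))) (nat_lit 2285394997332) (nat_lit 2) (N (N (N E (nat_lit 2285394999306) (nat_lit 2) E) (nat_lit 2285394999376) (nat_lit 2) (N E (nat_lit 2285394999523) (nat_lit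 1) E)) (nat_lit 2285395001987) (nat_lit 2) (N (N E (nat_lit 2285395002890) (nat_lit 2) E) (nat_lit 2285395028195) (nat_lit 2) E))) (nat_lit 2285398696020) (nat_lit 2) (N (N (N (N E (nat_lit 2285398697994) (nat_lit 2) E) (nat_lit 2285398698064) (nat_lit 2) (N E (nat_lit 2285398698211) (nat_lit 1) E)) (nat_lit 2285398767843) (nat_lit 2) (N (N E (nat_lit 2285399455971) (nat_lit 2) E) (nat_lit 2285399708682) (nat_lit 2) E)) (nat_lit 2285399744592) (nat_lit 2) (N (N (N E (nat_lit 2285399744739) (nat_lit 1) E) (nat_lit 2285399745187) (nat_lit 2) (N E (nat_lit 2285399802531) (nat_lit 1) E)) (nat_lit 2285399803619) (nat_lit 2) (N (N E (nat_lit 2285399814371) (nat_lit 2) E) (nat_lit 2285399818883) (nat_lit 1) E)))) (nat_lit 2285399818890) (nat_lit 2) (N (N (N (N (N E (nat_lit 2285399819786) (nat_lit 1) E) (nat_lit 2285399819803) (nat_lit 2) (N E (nat_lit 2285399819971) (nat_lit 2) E)) (nat_lit 2285399820060) (nat_lit 2) (N (N E (nat_lit 2285399820067) (nat_lit 2) E) (nat_lit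 2285399820515) (nat_lit 2) (N E (nat_lit 2285399849187) (nat_lit 2) E))) (nat_lit 2285401080451) (nat_lit 2) (N (N (N E (nat_lit 2285401081354) (nat_lit 2) E) (nat_lit 2285401543690) (nat_lit 2) (N E (nat_lit 2285401684195) (nat_lit 2) E)) (nat_lit 2285480485091) (nat_lit 2) (N (N E (nat_lit 2285480542883) (nat_lit 2) E) (nat_lit 2285480559235) (nat_lit 2) E))) (nat_lit 2285480560138) (nat_lit 2) (N (N (N (N E (nat_lit 2285510132387) (nat_lit 2) E) (nat_lit 2285510148739) (nat_lit 2) (N E (nat_lit 2285510149642) (nat_lit 2) E)) (nat_lit 2285518520963) (nat_lit 2) (N (N E (nat_lit 2285518521866) (nat_lit 2) E) (nat_lit 2285518984202) (nat_lit 2) E)) (nat_lit 2285519124707) (nat_lit 2) (N (N (N E (nat_lit 2286267405322) (nat_lit 2) E) (nat_lit 2286267545827) (nat_lit 2) (N E (nat_lit 2286334523619) (nat_lit 2) E)) (nat_lit 2286338222307) (nat_lit 2) (N (N E (nat_lit 2286339268835) (nat_lit 2) E) (nat_lit 2286339326627) (nat_lit 2) E)))))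
 (nat_lit 2286339342979) (nat_lit 2) (N (N (N (N (N (N E (nat_lit 2286339343882) (nat_lit 2) E) (nat_lit 2406526489610) (nat_lit 1) (N E (nat_lit 2406526489627) (nat_lit 2) E)) (nat_lit 2406526489795) (nat_lit 2) (N (N E (nat_lit 2406526489884) (nat_lit 2) E) (nat_lit 2406526489891) (nat_lit 2) (N E (nat_lit 2406526497411) (nat_lit 2) E))) (nat_lit 2406526498314) (nat_lit 2) (N (N (N E (nat_lit 2406526583427) (nat_lit 2) E) (nat_lit 2406526584330) (nat_lit 2) (N E (nat_lit 2406526616227) (nat_lit 2) E)) (nat_lit 2406526620700) (nat_lit 2) (N (N E (nat_lit 2406526620707) (nat_lit 2) E) (nat_lit 2406526627924) (nat_lit 2) E))) (nat_lit 2406526629898) (nat_lit 2) (N (N (N (N E (nat_lit 2406526629968) (nat_lit 2) E) (nat_lit 2406526630115) (nat_lit 1) (N E (nat_lit 2406526632579) (nat_lit 2) E)) (nat_lit 2406526633482) (nat_lit 2) (N (N E (nat_lit 2406530482819) (nat_lit 2) E) (nat_lit 2406530483722) (nat_lit 2) E)) (nat_lit 2406530946058) (nat_lit 2) (N (N (N E (nat_lit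 2406531086563) (nat_lit 2) E) (nat_lit 2406574523011) (nat_lit 2) (N E (nat_lit 2406574523914) (nat_lit 2) E)) (nat_lit 2406574986250) (nat_lit 2) (N (N E (nat_lit 2406575126755) (nat_lit 2) E) (nat_lit 2406591300259) (nat_lit 2) E)))) (nat_lit 2406591316611) (nat_lit 2) (N (N (N (N (N E (nat_lit 2406591317514) (nat_lit 2) E) (nat_lit 2406593598492) (nat_lit 2) (N E (nat_lit 2406593598499) (nat_lit 2) E)) (nat_lit 2406593605716) (nat_lit 2) (N (N E (nat_lit 2406593607690) (nat_lit 2) E) (nat_lit 2406593607760) (nat_lit 2) (N E (nat_lit 2406593607907) (nat_lit 1) E))) (nat_lit 2406593610371) (nat_lit 2) (N (N (N E (nat_lit 2406593611274) (nat_lit 2) E) (nat_lit 2406593636579) (nat_lit 2) (N E (nat_lit 2406597304404) (nat_lit 2) E)) (nat_lit 2406597306378) (nat_lit 2) (N (N E (nat_lit 2406597306448) (nat_lit 2) E) (nat_lit 2406597306595) (nat_lit 1) E))) (nat_lit 2406597376227) (nat_lit 2) (N (N (N (N E (nat_lit 2406598064355) (nat_lit 2) E) (nat_lit 2406598317066)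 (nat_lit 2) (N E (nat_lit 2406598352976) (nat_lit 2) E)) (nat_lit 2406598353123) (nat_lit 1) (N (N E (nat_lit 2406598353571) (nat_lit 2) E) (nat_lit 2406598410915) (nat_lit 1) E)) (nat_lit 2406598412003) (nat_lit 2) (N (N (N E (nat_lit 2406598422755) (nat_lit 2) E) (nat_lit 2406598427267) (nat_lit 1) (N E (nat_lit 2406598427274) (nat_lit 2) E)) (nat_lit 2406598428170) (nat_lit 1) (N (N E (nat_lit 2406598428187) (nat_lit 2) E) (nat_lit 2406598428355) (nat_lit 2) E)))))
)
)
 (nat_lit 2406598428444) (nat_lit 2) (N (N (N (N (N (N (N (N E (nat_lit 2406598428451) (nat_lit 2) E) (nat_lit 2406598428899) (nat_lit 2) (N E (nat_lit 2406598457571) (nat_lit 2) E)) (nat_lit 2406599688835) (nat_lit 2) (N (N E (nat_lit 2406599689738) (nat_lit 2) E) (nat_lit 2406600152074) (nat_lit 2) (N E (nat_lit 2406600292579) (nat_lit 2) E))) (nat_lit 2408571011715) (nat_lit 2) (N (N (N E (nat_lit 2408571012618) (nat_lit 2) E) (nat_lit 2408571474954) (nat_lit 2) (N E (nat_lit 2408571615459)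 (nat_lit 2) E)) (nat_lit 2408808190986) (nat_lit 2) (N (N E (nat_lit 2408808331491) (nat_lit 2) E) (nat_lit 2408875309283) (nat_lit 2) E))) (nat_lit 2408879007971) (nat_lit 2) (N (N (N (N E (nat_lit 2408880054499) (nat_lit 2) E) (nat_lit 2408880112291) (nat_lit 2) (N E (nat_lit 2408880128643) (nat_lit 2) E)) (nat_lit 2408880129546) (nat_lit 2) (N (N E (nat_lit 2431119590019) (nat_lit 2) E) (nat_lit 2431119590922) (nat_lit 2) E)) (nat_lit 2431120053258) (nat_lit 2) (N (N (N E (nat_lit 2431120193763) (nat_lit 2) E) (nat_lit 2431356769290) (nat_lit 2) (N E (nat_lit 2431356909795) (nat_lit 2) E)) (nat_lit 2431423887587) (nat_lit 2) (N (N E (nat_lit 2431427586275) (nat_lit 2) E) (nat_lit 2431428632803) (nat_lit 2) E)))) (nat_lit 2431428690595) (nat_lit 2) (N (N (N (N (N E (nat_lit 2431428706947) (nat_lit 2) E) (nat_lit 2431428707850) (nat_lit 2) (N E (nat_lit 2439709524643) (nat_lit 2) E)) (nat_lit 2439709540995) (nat_lit 2) (N (N E (nat_lit 2439709541898) (nat_lit 2)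 E) (nat_lit 2439717913219) (nat_lit 2) (N E (nat_lit 2439717914122) (nat_lit 2) E))) (nat_lit 2439718376458) (nat_lit 2) (N (N (N E (nat_lit 2439718516963) (nat_lit 2) E) (nat_lit 2440886227996) (nat_lit 2) (N E (nat_lit 2440886228003) (nat_lit 2) E)) (nat_lit 2440886235220) (nat_lit 2) (N (N E (nat_lit 2440886237194) (nat_lit 2) E) (nat_lit 2440886237264) (nat_lit 2) E))) (nat_lit 2440886237411) (nat_lit 1) (N (N (N (N E (nat_lit 2440886239875) (nat_lit 2) E) (nat_lit 2440886240778) (nat_lit 2) (N E (nat_lit 2440886266083) (nat_lit 2) E)) (nat_lit 2440889933908) (nat_lit 2) (N (N E (nat_lit 2440889935882) (nat_lit 2) E) (nat_lit 2440889935952) (nat_lit 2) E)) (nat_lit 2440889936099) (nat_lit 1) (N (N (N E (nat_lit 2440890005731) (nat_lit 2) E) (nat_lit 2440890693859) (nat_lit 2) (N E (nat_lit 2440890946570) (nat_lit 2) E)) (nat_lit 2440890982480) (nat_lit 2) (N (N E (nat_lit 2440890982627) (nat_lit 1) E) (nat_lit 2440890983075) (nat_lit 2) E)))))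
 (nat_lit 2440891040419) (nat_lit 1) (N (N (N (N (N (N E (nat_lit 2440891041507) (nat_lit 2) E) (nat_lit 2440891052259) (nat_lit 2) (N E (nat_lit 2440891056771) (nat_lit 1) E)) (nat_lit 2440891056778) (nat_lit 2) (N (N E (nat_lit 2440891057674) (nat_lit 1) E) (nat_lit 2440891057691) (nat_lit 2) (N E (nat_lit 2440891057859) (nat_lit 2) E))) (nat_lit 2440891057948) (nat_lit 2) (N (N (N E (nat_lit 2440891057955) (nat_lit 2) E) (nat_lit 2440891058403) (nat_lit 2) (N E (nat_lit 2440891087075) (nat_lit 2) E)) (nat_lit 2440892318339) (nat_lit 2) (N (N E (nat_lit 2440892319242) (nat_lit 2) E) (nat_lit 2440892781578) (nat_lit 2) E))) (nat_lit 2440892922083) (nat_lit 2) (N (N (N (N E (nat_lit 2440904616163) (nat_lit 2) E) (nat_lit 2440905662691) (nat_lit 2) (N E (nat_lit 2440905720483) (nat_lit 2) E)) (nat_lit 2440905736835) (nat_lit 2) (N (N E (nat_lit 2440905737738) (nat_lit 2) E) (nat_lit 2442783662164) (nat_lit 2) E)) (nat_lit 2442783664138) (nat_lit 2) (N (N (N E (nat_lit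 2442783664208) (nat_lit 2) E) (nat_lit 2442783664355) (nat_lit 1) (N E (nat_lit 2442783733987) (nat_lit 2) E)) (nat_lit 2442784422115) (nat_lit 2) (N (N E (nat_lit 2442784674826) (nat_lit 2) E) (nat_lit 2442784710736) (nat_lit 2) E)))) (nat_lit 2442784710883) (nat_lit 1) (N (N (N (N (N E (nat_lit 2442784711331) (nat_lit 2) E) (nat_lit 2442784768675) (nat_lit 1) (N E (nat_lit 2442784769763) (nat_lit 2) E)) (nat_lit 2442784780515) (nat_lit 2) (N (N E (nat_lit 2442784785027) (nat_lit 1) E) (nat_lit 2442784785034) (nat_lit 2) (N E (nat_lit 2442784785930) (nat_lit 1) E))) (nat_lit 2442784785947) (nat_lit 2) (N (N (N E (nat_lit 2442784786115) (nat_lit 2) E) (nat_lit 2442784786204) (nat_lit 2) (N E (nat_lit 2442784786211) (nat_lit 2) E)) (nat_lit 2442784786659) (nat_lit 2) (N (N E (nat_lit 2442784815331) (nat_lit 2) E) (nat_lit 2442815617251) (nat_lit 2) E))) (nat_lit 2442819315939) (nat_lit 2) (N (N (N (N E (nat_lit 2442820362467) (nat_lit 2) E) (nat_lit 2442820420259)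 (nat_lit 2) (N E (nat_lit 2442820436611) (nat_lit 2) E)) (nat_lit 2442820437514) (nat_lit 2) (N (N E (nat_lit 2443167938787) (nat_lit 2) E) (nat_lit 2443171637475) (nat_lit 2) E)) (nat_lit 2443172684003) (nat_lit 2) (N (N (N E (nat_lit 2443172741795) (nat_lit 2) E) (nat_lit 2443172758147) (nat_lit 2) (N E (nat_lit 2443172759050) (nat_lit 2) E)) (nat_lit 2443302147082) (nat_lit 2) (N (N E (nat_lit 2443302287587) (nat_lit 2) E) (nat_lit 2443320533072) (nat_lit 2) E)))))
)
 (nat_lit 2443320533219) (nat_lit 1) (N (N (N (N (N (N (N E (nat_lit 2443320533667) (nat_lit 2) E) (nat_lit 2443320591011) (nat_lit 1) (N E (nat_lit 2443320592099) (nat_lit 2) E)) (nat_lit 2443320602851) (nat_lit 2) (N (N E (nat_lit 2443320607363) (nat_lit 1) E) (nat_lit 2443320607370) (nat_lit 2) (N E (nat_lit 2443320608266) (nat_lit 1) E))) (nat_lit 2443320608283) (nat_lit 2) (N (N (N E (nat_lit 2443320608451) (nat_lit 2) E) (nat_lit 2443320608540) (nat_lit 2) (N E (nat_lit 2443320608547) (nat_lit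 2) E)) (nat_lit 2443320608995) (nat_lit 2) (N (N E (nat_lit 2443320637667) (nat_lit 2) E) (nat_lit 2443320820387) (nat_lit 2) E))) (nat_lit 2443320836739) (nat_lit 2) (N (N (N (N E (nat_lit 2443320837642) (nat_lit 2) E) (nat_lit 2443350180515) (nat_lit 1) (N E (nat_lit 2443350181603) (nat_lit 2) E)) (nat_lit 2443350192355) (nat_lit 2) (N (N E (nat_lit 2443350196867) (nat_lit 1) E) (nat_lit 2443350196874) (nat_lit 2) E)) (nat_lit 2443350197770) (nat_lit 1) (N (N (N E (nat_lit 2443350197787) (nat_lit 2) E) (nat_lit 2443350197955) (nat_lit 2) (N E (nat_lit 2443350198044) (nat_lit 2) E)) (nat_lit 2443350198051) (nat_lit 2) (N (N E (nat_lit 2443350198499) (nat_lit 2) E) (nat_lit 2443350679779) (nat_lit 2) E)))) (nat_lit 2443350737571) (nat_lit 2) (N (N (N (N (N E (nat_lit 2443350753923) (nat_lit 2) E) (nat_lit 2443350754826) (nat_lit 2) (N E (nat_lit 2443356184803) (nat_lit 2) E)) (nat_lit 2443356242595) (nat_lit 2) (N (N E (nat_lit 2443356258947) (nat_lit 2) E) (nat_lit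 2443356259850) (nat_lit 2) (N E (nat_lit 2443358284003) (nat_lit 2) E))) (nat_lit 2443358569091) (nat_lit 1) (N (N (N E (nat_lit 2443358569098) (nat_lit 2) E) (nat_lit 2443358569994) (nat_lit 1) (N E (nat_lit 2443358570011) (nat_lit 2) E)) (nat_lit 2443358570179) (nat_lit 2) (N (N E (nat_lit 2443358570268) (nat_lit 2) E) (nat_lit 2443358570275) (nat_lit 2) E))) (nat_lit 2443358570723) (nat_lit 2) (N (N (N (N E (nat_lit 2443358573578) (nat_lit 2) E) (nat_lit 2443359032330) (nat_lit 1) (N E (nat_lit 2443359032347) (nat_lit 2) E)) (nat_lit 2443359032515) (nat_lit 2) (N (N E (nat_lit 2443359032604) (nat_lit 2) E) (nat_lit 2443359032611) (nat_lit 2) E)) (nat_lit 2443359040131) (nat_lit 2) (N (N (N E (nat_lit 2443359041034) (nat_lit 2) E) (nat_lit 2443359126147) (nat_lit 2) (N E (nat_lit 2443359127050) (nat_lit 2) E)) (nat_lit 2443359158947) (nat_lit 2) (N (N E (nat_lit 2443359163420) (nat_lit 2) E) (nat_lit 2443359163427) (nat_lit 2) E)))))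
 (nat_lit 2443359170644) (nat_lit 2) (N (N (N (N (N (N E (nat_lit 2443359172618) (nat_lit 2) E) (nat_lit 2443359172688) (nat_lit 2) (N E (nat_lit 2443359172835) (nat_lit 1) E)) (nat_lit 2443359175299) (nat_lit 2) (N (N E (nat_lit 2443359176202) (nat_lit 2) E) (nat_lit 2443359330531) (nat_lit 2) (N E (nat_lit 2443359388323) (nat_lit 2) E))) (nat_lit 2443359404675) (nat_lit 2) (N (N (N E (nat_lit 2443359405578) (nat_lit 2) E) (nat_lit 2443369265379) (nat_lit 2) (N E (nat_lit 2443372964067) (nat_lit 2) E)) (nat_lit 2443374010595) (nat_lit 2) (N (N E (nat_lit 2443374068387) (nat_lit 2) E) (nat_lit 2443374084739) (nat_lit 2) E))) (nat_lit 2443374085642) (nat_lit 2) (N (N (N (N E (nat_lit 2444004491907) (nat_lit 2) E) (nat_lit 2444004492810) (nat_lit 2) (N E (nat_lit 2444004955146) (nat_lit 2) E)) (nat_lit 2444005095651) (nat_lit 2) (N (N E (nat_lit 2444241671178) (nat_lit 2) E) (nat_lit 2444241811683) (nat_lit 2) E)) (nat_lit 2444308789475) (nat_lit 2) (N (N (N E (nat_lit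 2444312488163) (nat_lit 2) E) (nat_lit 2444313534691) (nat_lit 2) (N E (nat_lit 2444313592483) (nat_lit 2) E)) (nat_lit 2444313608835) (nat_lit 2) (N (N E (nat_lit 2444313609738) (nat_lit 2) E) (nat_lit 2484659593443) (nat_lit 2) E)))) (nat_lit 2484659651235) (nat_lit 2) (N (N (N (N (N E (nat_lit 2484659667587) (nat_lit 2) E) (nat_lit 2484659668490) (nat_lit 2) (N E (nat_lit 2484689240739) (nat_lit 2) E)) (nat_lit 2484689257091) (nat_lit 2) (N (N E (nat_lit 2484689257994) (nat_lit 2) E) (nat_lit 2484697629315) (nat_lit 2) (N E (nat_lit 2484697630218) (nat_lit 2) E))) (nat_lit 2484698092554) (nat_lit 2) (N (N (N E (nat_lit 2484698233059) (nat_lit 2) E) (nat_lit 2499839066787) (nat_lit 2) (N E (nat_lit 2499839083139) (nat_lit 2) E)) (nat_lit 2499839084042) (nat_lit 2) (N (N E (nat_lit 2499847455363) (nat_lit 2) E) (nat_lit 2499847456266) (nat_lit 2) E))) (nat_lit 2499847918602) (nat_lit 2) (N (N (N (N E (nat_lit 2499848059107) (nat_lit 2) E) (nat_lit 2504134034051)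 (nat_lit 2) (N E (nat_lit 2504134034954) (nat_lit 2) E)) (nat_lit 2504134497290) (nat_lit 2) (N (N E (nat_lit 2504134637795) (nat_lit 2) E) (nat_lit 2504371213322) (nat_lit 2) E)) (nat_lit 2504371353827) (nat_lit 2) (N (N (N E (nat_lit 2504438331619) (nat_lit 2) E) (nat_lit 2504442030307) (nat_lit 2) (N E (nat_lit 2504443076835) (nat_lit 2) E)) (nat_lit 2504443134627) (nat_lit 2) (N (N E (nat_lit 2504443150979) (nat_lit 2) E) (nat_lit 2504443151882) (nat_lit 2) E)))))
)
)
)
)
)
)


end Pool.Agent.L5helper11.GP
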