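import Pool.Agent.L5helper11.GP.S1
import Pool.Agent.L5helper11.GP.S2

/-! Checks of the certificate. -/

set_option autoImplicit false

namespace Pool.Agent.L5helper11.GP

theorem c0 : chkF S1 = true := by decide +kernel

theorem c1 : chk S1 S2 = true := by decide +kernel

end Pool.Agent.L5helper11.GP
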