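import Pool.Agent.L5helper11.GP.Def

/-! Certificate, level 3. -/

set_option autoImplicit false

namespace Pool.Agent.L5helper11.GP

open Tr in
/-- The words at level 3 with their values. -/
def S3 : Tr := (N (N (N (N (N (N (N (N (N (N (N (N E (nat_lit 86067446404) (nat_lit 1) E) (nat_lit 86067446432) (nat_lit 1) E) (nat_lit 86067447324) (nat_lit 2) (N E (nat_lit 86067447492) (nat_lit 2) E)) (nat_lit 86067447520) (nat_lit 2) (N (N E (nat_lit 86067447840) (nat_lit 2) E) (nat_lit 86067447888) (nat_lit 1) (N E (nat_lit 86067448003) (nat_lit 2) E))) (nat_lit 86067448024) (nat_lit 2) (N (N (N E (nat_lit 86067448036) (nat_lit 2) E) (nat_lit 86067448092) (nat_lit 2) (N E (nat_lit 86067458244) (nat_lit 2) E)) (nat_lit 86067458272) (nat_lit 2) (N (N E (nat_lit 86067462224) (nat_lit 1) E) (nat_lit 86067462339) (nat_lit 2) (N E (nat_lit 86067462360) (nat_lit 2) E)))) (nat_lit 86067462372) (nat_lit 2) (N (N (N (N (N E (nat_lit 86067462404) (nat_lit 0) E) (nat_lit 86067462428)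 (nat_lit 2) E) (nat_lit 86067462435) (nat_lit 2) (N E (nat_lit 86067463704) (nat_lit 2) E)) (nat_lit 86067463940) (nat_lit 2) (N (N E (nat_lit 86067463968) (nat_lit 2) E) (nat_lit 86067464388) (nat_lit 2) (N E (nat_lit 86067464416) (nat_lit 2) E))) (nat_lit 86067909660) (nat_lit 2) (N (N (N E (nat_lit 86067916884) (nat_lit 2) E) (nat_lit 86067918928) (nat_lit 2) (N E (nat_lit 86067945668) (nat_lit 2) E)) (nat_lit 86067945696) (nat_lit 2) (N (N E (nat_lit 86068003460) (nat_lit 2) E) (nat_lit 86068003488) (nat_lit 2) (N E (nat_lit 86068004944) (nat_lit 2) E))))) (nat_lit 86068019280) (nat_lit 2) (N (N (N (N (N (N E (nat_lit 86068019460) (nat_lit 1) E) (nat_lit 86068183120) (nat_lit 2) E) (nat_lit 86068183300) (nat_lit 1) (N E (nat_lit 86068207696) (nat_lit 1) E)) (nat_lit 86068207811) (nat_lit 2) (N (N E (nat_lit 86068207832) (nat_lit 2) E) (nat_lit 86068207844) (nat_lit 2) (N E (nat_lit 86068207900) (nat_lit 2) E))) (nat_lit 86068265603) (nat_lit 2) (N (N (N E (nat_lit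 86068265624) (nat_lit 2) E) (nat_lit 86068265636) (nat_lit 2) (N E (nat_lit 86068266576) (nat_lit 2) E)) (nat_lit 86068277328) (nat_lit 2) (N (N E (nat_lit 86068281428) (nat_lit 2) E) (nat_lit 86068283472) (nat_lit 2) (N E (nat_lit 86068302876) (nat_lit 2) E)))) (nat_lit 86068310100) (nat_lit 2) (N (N (N (N (N E (nat_lit 86068312144) (nat_lit 2) E) (nat_lit 86069854468) (nat_lit 2) E) (nat_lit 86073450692) (nat_lit 2) (N E (nat_lit 86073450720) (nat_lit 2) E)) (nat_lit 86073508484) (nat_lit 2) (N (N E (nat_lit 86073508512) (nat_lit 2) E) (nat_lit 86073509968) (nat_lit 2) (N E (nat_lit 86073524304) (nat_lit 2) E))) (nat_lit 86073524484) (nat_lit 1) (N (N (N E (nat_lit 86073753860) (nat_lit 2) E) (nat_lit 86075547728) (nat_lit 1) (N E (nat_lit 86075547843) (nat_lit 2) E)) (nat_lit 86075547864) (nat_lit 2) (N (N E (nat_lit 86075547876) (nat_lit 2) E) (nat_lit 86075547932) (nat_lit 2) (N E (nat_lit 86075549444) (nat_lit 2) E))))))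
 (nat_lit 86075605635) (nat_lit 2) (N (N (N (N (N (N (N E (nat_lit 86075605656) (nat_lit 2) E) (nat_lit 86075605668) (nat_lit 2) E) (nat_lit 86075606538) (nat_lit 2) (N E (nat_lit 86075606608) (nat_lit 2) E)) (nat_lit 86075606788) (nat_lit 1) (N (N E (nat_lit 86075610372) (nat_lit 2) E) (nat_lit 86075617360) (nat_lit 2) (N E (nat_lit 86075621460) (nat_lit 2) E))) (nat_lit 86075623504) (nat_lit 2) (N (N (N E (nat_lit 86075638428) (nat_lit 2) E) (nat_lit 86075639324) (nat_lit 1) (N E (nat_lit 86075639380) (nat_lit 2) E)) (nat_lit 86075639840) (nat_lit 1) (N (N E (nat_lit 86075639888) (nat_lit 0) E) (nat_lit 86075639891) (nat_lit 2) (N E (nat_lit 86075640003) (nat_lit 1) E)))) (nat_lit 86075640010) (nat_lit 2) (N (N (N (N (N E (nat_lit 86075640024) (nat_lit 1) E) (nat_lit 86075640036) (nat_lit 1) E) (nat_lit 86075640092) (nat_lit 1) (N E (nat_lit 86075642908) (nat_lit 2) E)) (nat_lit 86075642915) (nat_lit 2) (N (N E (nat_lit 86075643076) (nat_lit 2) E) (nat_lit 86075650132)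 (nat_lit 2) (N E (nat_lit 86075650244) (nat_lit 1) E))) (nat_lit 86075650692) (nat_lit 2) (N (N (N E (nat_lit 86075652106) (nat_lit 2) E) (nat_lit 86075652176) (nat_lit 2) (N E (nat_lit 86075652356) (nat_lit 1) E)) (nat_lit 86075654787) (nat_lit 2) (N (N E (nat_lit 86075655690) (nat_lit 2) E) (nat_lit 86075655940) (nat_lit 1) (N E (nat_lit 86075835928) (nat_lit 2) E))))) (nat_lit 86075836164) (nat_lit 2) (N (N (N (N (N (N E (nat_lit 86075836192) (nat_lit 2) E) (nat_lit 86075836612) (nat_lit 2) E) (nat_lit 86075836640) (nat_lit 2) (N E (nat_lit 86075846916) (nat_lit 2) E)) (nat_lit 86076298264) (nat_lit 2) (N (N E (nat_lit 86076298500) (nat_lit 2) E) (nat_lit 86076298528) (nat_lit 2) (N E (nat_lit 86076305488) (nat_lit 2) E))) (nat_lit 86076305668) (nat_lit 1) (N (N (N E (nat_lit 86076334340) (nat_lit 2) E) (nat_lit 86076424836) (nat_lit 2) (N E (nat_lit 86076424864) (nat_lit 2) E)) (nat_lit 86076426320) (nat_lit 2) (N (N E (nat_lit 86076440656) (nat_lit 2) E) (nat_lit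 86076440836) (nat_lit 1) (N E (nat_lit 86076596420) (nat_lit 2) E)))) (nat_lit 86076596448) (nat_lit 2) (N (N (N (N (N E (nat_lit 86076654212) (nat_lit 2) E) (nat_lit 86076654240) (nat_lit 2) E) (nat_lit 86076655696) (nat_lit 2) (N E (nat_lit 86076670032) (nat_lit 2) E)) (nat_lit 86076670212) (nat_lit 1) (N (N E (nat_lit 86304625692) (nat_lit 2) E) (nat_lit 86304632916) (nat_lit 2) (N E (nat_lit 86304634960) (nat_lit 2) E))) (nat_lit 86308331604) (nat_lit 2) (N (N (N E (nat_lit 86308333648) (nat_lit 2) E) (nat_lit 86309355780) (nat_lit 2) (N E (nat_lit 86309380176) (nat_lit 2) E)) (nat_lit 86323011780) (nat_lit 2) (N (N E (nat_lit 86323011808) (nat_lit 2) E) (nat_lit 86323069572) (nat_lit 2) (N E (nat_lit 86323069600) (nat_lit 2) E))))))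
)
 (nat_lit 86323071056) (nat_lit 2) (N (N (N (N (N (N (N (N E (nat_lit 86323085392) (nat_lit 2) E) (nat_lit 86323085572) (nat_lit 1) E) (nat_lit 86323314948) (nat_lit 2) (N E (nat_lit 86352659076) (nat_lit 2) E)) (nat_lit 86352659104) (nat_lit 2) (N (N E (nat_lit 86352660560) (nat_lit 2) E) (nat_lit 86352674896) (nat_lit 2) (N E (nat_lit 86352675076) (nat_lit 1) E))) (nat_lit 86353232132) (nat_lit 2) (N (N (N E (nat_lit 86353395972) (nat_lit 2) E) (nat_lit 86353420368) (nat_lit 2) (N E (nat_lit 86358737156) (nat_lit 2) E)) (nat_lit 86360760400) (nat_lit 2) (N (N E (nat_lit 86360819460) (nat_lit 2) E) (nat_lit 86360851996) (nat_lit 2) (N E (nat_lit 86360852512) (nat_lit 2) E)))) (nat_lit 86360852560) (nat_lit 1) (N (N (N (N (N E (nat_lit 86360852675) (nat_lit 2) E) (nat_lit 86360852696) (nat_lit 2) E) (nat_lit 86360852708) (nat_lit 2) (N E (nat_lit 86360852764) (nat_lit 2) E)) (nat_lit 86360862916) (nat_lit 2) (N (N E (nat_lit 86360865028) (nat_lit 2) E) (nat_lit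 86360868612) (nat_lit 2) (N E (nat_lit 86361518340) (nat_lit 2) E))) (nat_lit 86361653508) (nat_lit 2) (N (N (N E (nat_lit 86361882884) (nat_lit 2) E) (nat_lit 86442623236) (nat_lit 2) (N E (nat_lit 86444646480) (nat_lit 2) E)) (nat_lit 86444705540) (nat_lit 2) (N (N E (nat_lit 86444738076) (nat_lit 2) E) (nat_lit 86444738592) (nat_lit 2) (N E (nat_lit 86444738640) (nat_lit 1) E))))) (nat_lit 86444738755) (nat_lit 2) (N (N (N (N (N (N E (nat_lit 86444738776) (nat_lit 2) E) (nat_lit 86444738788) (nat_lit 2) E) (nat_lit 86444738844) (nat_lit 2) (N E (nat_lit 86444748996) (nat_lit 2) E)) (nat_lit 86444751108) (nat_lit 2) (N (N E (nat_lit 86444754692) (nat_lit 2) E) (nat_lit 86445404420) (nat_lit 2) (N E (nat_lit 86445539588) (nat_lit 2) E))) (nat_lit 86445768964) (nat_lit 2) (N (N (N E (nat_lit 86457229392) (nat_lit 1) E) (nat_lit 86457229507) (nat_lit 2) (N E (nat_lit 86457229528) (nat_lit 2) E)) (nat_lit 86457229540) (nat_lit 2) (N (N E (nat_lit 86457229596) (nat_lit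 2) E) (nat_lit 86457287299) (nat_lit 2) (N E (nat_lit 86457287320) (nat_lit 2) E)))) (nat_lit 86457287332) (nat_lit 2) (N (N (N (N (N E (nat_lit 86457288272) (nat_lit 2) E) (nat_lit 86457299024) (nat_lit 2) E) (nat_lit 86457303124) (nat_lit 2) (N E (nat_lit 86457305168) (nat_lit 2) E)) (nat_lit 86457324572) (nat_lit 2) (N (N E (nat_lit 86457331796) (nat_lit 2) E) (nat_lit 86457333840) (nat_lit 2) (N E (nat_lit 86486876803) (nat_lit 2) E))) (nat_lit 86486876824) (nat_lit 2) (N (N (N E (nat_lit 86486876836) (nat_lit 2) E) (nat_lit 86486877776) (nat_lit 2) (N E (nat_lit 86486888528) (nat_lit 2) E)) (nat_lit 86486892628) (nat_lit 2) (N (N E (nat_lit 86486894672) (nat_lit 2) E) (nat_lit 86487351556) (nat_lit 2) (N E (nat_lit 86487375952) (nat_lit 2) E))))))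
 (nat_lit 86492880976) (nat_lit 2) (N (N (N (N (N (N (N E (nat_lit 86494978132) (nat_lit 2) E) (nat_lit 86494980176) (nat_lit 2) E) (nat_lit 86496002308) (nat_lit 2) (N E (nat_lit 86496026704) (nat_lit 2) E)) (nat_lit 86505952284) (nat_lit 2) (N (N E (nat_lit 86505959508) (nat_lit 2) E) (nat_lit 86505961552) (nat_lit 2) (N E (nat_lit 86509658196) (nat_lit 2) E))) (nat_lit 86509660240) (nat_lit 2) (N (N (N E (nat_lit 86510682372) (nat_lit 2) E) (nat_lit 86510706768) (nat_lit 2) (N E (nat_lit 87262609668) (nat_lit 2) E)) (nat_lit 87292199172) (nat_lit 2) (N (N E (nat_lit 87300376656) (nat_lit 2) E) (nat_lit 89141584068) (nat_lit 2) (N E (nat_lit 89141584096) (nat_lit 2) E)))) (nat_lit 89141641860) (nat_lit 2) (N (N (N (N (N E (nat_lit 89141641888) (nat_lit 2) E) (nat_lit 89141643344) (nat_lit 2) E) (nat_lit 89141657680) (nat_lit 2) (N E (nat_lit 89141657860) (nat_lit 1) E)) (nat_lit 89141887236) (nat_lit 2) (N (N E (nat_lit 89171231364) (nat_lit 2) E) (nat_lit 89171231392)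 (nat_lit 2) (N E (nat_lit 89171232848) (nat_lit 2) E))) (nat_lit 89171247184) (nat_lit 2) (N (N (N E (nat_lit 89171247364) (nat_lit 1) E) (nat_lit 89171804420) (nat_lit 2) (N E (nat_lit 89171968260) (nat_lit 2) E)) (nat_lit 89171992656) (nat_lit 2) (N (N E (nat_lit 89177309444) (nat_lit 2) E) (nat_lit 89179332688) (nat_lit 2) (N E (nat_lit 89179391748) (nat_lit 2) E))))) (nat_lit 89179424284) (nat_lit 2) (N (N (N (N (N (N E (nat_lit 89179424800) (nat_lit 2) E) (nat_lit 89179424848) (nat_lit 1) E) (nat_lit 89179424963) (nat_lit 2) (N E (nat_lit 89179424984) (nat_lit 2) E)) (nat_lit 89179424996) (nat_lit 2) (N (N E (nat_lit 89179425052) (nat_lit 2) E) (nat_lit 89179435204) (nat_lit 2) (N E (nat_lit 89179437316) (nat_lit 2) E))) (nat_lit 89179440900) (nat_lit 2) (N (N (N E (nat_lit 89180090628) (nat_lit 2) E) (nat_lit 89180225796) (nat_lit 2) (N E (nat_lit 89180455172) (nat_lit 2) E)) (nat_lit 89288687876) (nat_lit 2) (N (N E (nat_lit 89296865360) (nat_lit 2) E) (nat_lit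 90215325776) (nat_lit 1) (N E (nat_lit 90215325891) (nat_lit 2) E)))) (nat_lit 90215325912) (nat_lit 2) (N (N (N (N (N E (nat_lit 90215325924) (nat_lit 2) E) (nat_lit 90215325980) (nat_lit 2) E) (nat_lit 90215383683) (nat_lit 2) (N E (nat_lit 90215383704) (nat_lit 2) E)) (nat_lit 90215383716) (nat_lit 2) (N (N E (nat_lit 90215384656) (nat_lit 2) E) (nat_lit 90215395408) (nat_lit 2) (N E (nat_lit 90215399508) (nat_lit 2) E))) (nat_lit 90215401552) (nat_lit 2) (N (N (N E (nat_lit 90215420956) (nat_lit 2) E) (nat_lit 90215428180) (nat_lit 2) (N E (nat_lit 90215430224) (nat_lit 2) E)) (nat_lit 90215614212) (nat_lit 2) (N (N E (nat_lit 90216076548) (nat_lit 2) E) (nat_lit 90216204368) (nat_lit 2) (N E (nat_lit 90244973187) (nat_lit 2) E))))))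
)
)
 (nat_lit 90244973208) (nat_lit 2) (N (N (N (N (N (N (N (N (N E (nat_lit 90244973220) (nat_lit 2) E) (nat_lit 90244974090) (nat_lit 2) E) (nat_lit 90244974160) (nat_lit 2) (N E (nat_lit 90244974340) (nat_lit 1) E)) (nat_lit 90244977924) (nat_lit 2) (N (N E (nat_lit 90244984912) (nat_lit 2) E) (nat_lit 90244989012) (nat_lit 2) (N E (nat_lit 90244991056) (nat_lit 2) E))) (nat_lit 90245436426) (nat_lit 2) (N (N (N E (nat_lit 90245436676) (nat_lit 1) E) (nat_lit 90245445380) (nat_lit 2) (N E (nat_lit 90245447940) (nat_lit 2) E)) (nat_lit 90245472336) (nat_lit 2) (N (N E (nat_lit 90245531396) (nat_lit 2) E) (nat_lit 90245563932) (nat_lit 2) (N E (nat_lit 90245564448) (nat_lit 2) E)))) (nat_lit 90245564496) (nat_lit 1) (N (N (N (N (N E (nat_lit 90245564611) (nat_lit 2) E) (nat_lit 90245564632) (nat_lit 2) E) (nat_lit 90245564644) (nat_lit 2) (N E (nat_lit 90245564700) (nat_lit 2) E)) (nat_lit 90245574852) (nat_lit 2) (N (N E (nat_lit 90245576964) (nat_lit 2) E) (nat_lit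 90245580548) (nat_lit 2) (N E (nat_lit 90247271684) (nat_lit 2) E))) (nat_lit 90247399504) (nat_lit 2) (N (N (N E (nat_lit 90250977360) (nat_lit 2) E) (nat_lit 90253074516) (nat_lit 2) (N E (nat_lit 90253076560) (nat_lit 2) E)) (nat_lit 90254098692) (nat_lit 2) (N (N E (nat_lit 90254123088) (nat_lit 2) E) (nat_lit 90261754908) (nat_lit 2) (N E (nat_lit 90261762132) (nat_lit 2) E))))) (nat_lit 90261764176) (nat_lit 2) (N (N (N (N (N (N E (nat_lit 90262213660) (nat_lit 1) E) (nat_lit 90262213716) (nat_lit 2) E) (nat_lit 90262220884) (nat_lit 1) (N E (nat_lit 90262221020) (nat_lit 2) E)) (nat_lit 90262221060) (nat_lit 2) (N (N E (nat_lit 90262222364) (nat_lit 2) E) (nat_lit 90262222880) (nat_lit 2) (N E (nat_lit 90262222928) (nat_lit 1) E))) (nat_lit 90262223043) (nat_lit 2) (N (N (N E (nat_lit 90262223064) (nat_lit 2) E) (nat_lit 90262223076) (nat_lit 2) (N E (nat_lit 90262223132) (nat_lit 2) E)) (nat_lit 90262249556) (nat_lit 2) (N (N E (nat_lit 90262251600) (nat_lit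 2) E) (nat_lit 90262356228) (nat_lit 2) (N E (nat_lit 90262483140) (nat_lit 2) E)))) (nat_lit 90262483168) (nat_lit 2) (N (N (N (N (N E (nat_lit 90262485252) (nat_lit 2) E) (nat_lit 90262487120) (nat_lit 1) E) (nat_lit 90262487235) (nat_lit 2) (N E (nat_lit 90262487256) (nat_lit 2) E)) (nat_lit 90262487268) (nat_lit 2) (N (N E (nat_lit 90262487300) (nat_lit 0) E) (nat_lit 90262487324) (nat_lit 2) (N E (nat_lit 90262487331) (nat_lit 2) E))) (nat_lit 90262488600) (nat_lit 2) (N (N (N E (nat_lit 90262488836) (nat_lit 2) E) (nat_lit 90262488864) (nat_lit 2) (N E (nat_lit 90262489284) (nat_lit 2) E)) (nat_lit 90262489312) (nat_lit 2) (N (N E (nat_lit 90262511696) (nat_lit 0) E) (nat_lit 90262511699) (nat_lit 2) (N E (nat_lit 90262511811) (nat_lit 1) E))))))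
 (nat_lit 90262511818) (nat_lit 2) (N (N (N (N (N (N (N E (nat_lit 90262511832) (nat_lit 1) E) (nat_lit 90262511844) (nat_lit 1) E) (nat_lit 90262511900) (nat_lit 1) (N E (nat_lit 90262512259) (nat_lit 2) E)) (nat_lit 90262512280) (nat_lit 2) (N (N E (nat_lit 90262512292) (nat_lit 2) E) (nat_lit 90262513232) (nat_lit 2) (N E (nat_lit 90262569603) (nat_lit 1) E))) (nat_lit 90262569610) (nat_lit 2) (N (N (N E (nat_lit 90262569624) (nat_lit 1) E) (nat_lit 90262569636) (nat_lit 1) (N E (nat_lit 90262570528) (nat_lit 2) E)) (nat_lit 90262570576) (nat_lit 1) (N (N E (nat_lit 90262570691) (nat_lit 2) E) (nat_lit 90262570712) (nat_lit 2) (N E (nat_lit 90262570724) (nat_lit 2) E)))) (nat_lit 90262570780) (nat_lit 2) (N (N (N (N (N E (nat_lit 90262574160) (nat_lit 2) E) (nat_lit 90262581328) (nat_lit 1) E) (nat_lit 90262581443) (nat_lit 2) (N E (nat_lit 90262581464) (nat_lit 2) E)) (nat_lit 90262581476) (nat_lit 2) (N (N E (nat_lit 90262581532) (nat_lit 2) E) (nat_lit 90262585428)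 (nat_lit 1) (N E (nat_lit 90262585564) (nat_lit 2) E))) (nat_lit 90262585604) (nat_lit 2) (N (N (N E (nat_lit 90262586908) (nat_lit 2) E) (nat_lit 90262587424) (nat_lit 2) (N E (nat_lit 90262587472) (nat_lit 1) E)) (nat_lit 90262587587) (nat_lit 2) (N (N E (nat_lit 90262587608) (nat_lit 2) E) (nat_lit 90262587620) (nat_lit 2) (N E (nat_lit 90262587676) (nat_lit 2) E))))) (nat_lit 90262606876) (nat_lit 1) (N (N (N (N (N (N E (nat_lit 90262606932) (nat_lit 2) E) (nat_lit 90262614100) (nat_lit 1) E) (nat_lit 90262614236) (nat_lit 2) (N E (nat_lit 90262614276) (nat_lit 2) E)) (nat_lit 90262615580) (nat_lit 2) (N (N E (nat_lit 90262616096) (nat_lit 2) E) (nat_lit 90262616144) (nat_lit 1) (N E (nat_lit 90262616259) (nat_lit 2) E))) (nat_lit 90262616280) (nat_lit 2) (N (N (N E (nat_lit 90262616292) (nat_lit 2) E) (nat_lit 90262616348) (nat_lit 2) (N E (nat_lit 90264048668) (nat_lit 2) E)) (nat_lit 90264048675) (nat_lit 2) (N (N E (nat_lit 90264048836) (nat_lit 2) E) (nat_lit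 90264055892) (nat_lit 2) (N E (nat_lit 90264056004) (nat_lit 1) E)))) (nat_lit 90264056452) (nat_lit 2) (N (N (N (N (N E (nat_lit 90264057866) (nat_lit 2) E) (nat_lit 90264057936) (nat_lit 2) E) (nat_lit 90264058116) (nat_lit 1) (N E (nat_lit 90264060547) (nat_lit 2) E)) (nat_lit 90264061450) (nat_lit 2) (N (N E (nat_lit 90264061700) (nat_lit 1) E) (nat_lit 90264084676) (nat_lit 2) (N E (nat_lit 90264086788) (nat_lit 2) E))) (nat_lit 90264143952) (nat_lit 2) (N (N (N E (nat_lit 90267754580) (nat_lit 2) E) (nat_lit 90267754692) (nat_lit 1) (N E (nat_lit 90267755140) (nat_lit 2) E)) (nat_lit 90267756554) (nat_lit 2) (N (N E (nat_lit 90267756624) (nat_lit 2) E) (nat_lit 90267756804) (nat_lit 1) (N E (nat_lit 90267813404) (nat_lit 2) E))))))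
)
 (nat_lit 90267813920) (nat_lit 2) (N (N (N (N (N (N (N (N E (nat_lit 90267813968) (nat_lit 1) E) (nat_lit 90267814083) (nat_lit 2) E) (nat_lit 90267814104) (nat_lit 2) (N E (nat_lit 90267814116) (nat_lit 2) E)) (nat_lit 90267814172) (nat_lit 2) (N (N E (nat_lit 90267824324) (nat_lit 2) E) (nat_lit 90267826436) (nat_lit 2) (N E (nat_lit 90267830020) (nat_lit 2) E))) (nat_lit 90268043344) (nat_lit 2) (N (N (N E (nat_lit 90268512452) (nat_lit 2) E) (nat_lit 90268514564) (nat_lit 2) (N E (nat_lit 90268518148) (nat_lit 2) E)) (nat_lit 90268767242) (nat_lit 2) (N (N E (nat_lit 90268767492) (nat_lit 1) E) (nat_lit 90268776196) (nat_lit 2) (N E (nat_lit 90268778756) (nat_lit 2) E)))) (nat_lit 90268803152) (nat_lit 2) (N (N (N (N (N E (nat_lit 90268862212) (nat_lit 2) E) (nat_lit 90268894748) (nat_lit 2) E) (nat_lit 90268895264) (nat_lit 2) (N E (nat_lit 90268895312) (nat_lit 1) E)) (nat_lit 90268895427) (nat_lit 2) (N (N E (nat_lit 90268895448) (nat_lit 2) E) (nat_lit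 90268895460) (nat_lit 2) (N E (nat_lit 90268895516) (nat_lit 2) E))) (nat_lit 90268905668) (nat_lit 2) (N (N (N E (nat_lit 90268907780) (nat_lit 2) E) (nat_lit 90268911364) (nat_lit 2) (N E (nat_lit 90270139011) (nat_lit 2) E)) (nat_lit 90270139914) (nat_lit 2) (N (N E (nat_lit 90270140164) (nat_lit 1) E) (nat_lit 90270143748) (nat_lit 2) (N E (nat_lit 90270602250) (nat_lit 2) E))))) (nat_lit 90270602500) (nat_lit 1) (N (N (N (N (N (N E (nat_lit 90270611204) (nat_lit 2) E) (nat_lit 90270613764) (nat_lit 2) E) (nat_lit 90270697220) (nat_lit 2) (N E (nat_lit 90270729756) (nat_lit 2) E)) (nat_lit 90270730272) (nat_lit 2) (N (N E (nat_lit 90270730320) (nat_lit 1) E) (nat_lit 90270730435) (nat_lit 2) (N E (nat_lit 90270730456) (nat_lit 2) E))) (nat_lit 90270730468) (nat_lit 2) (N (N (N E (nat_lit 90270730524) (nat_lit 2) E) (nat_lit 90270740676) (nat_lit 2) (N E (nat_lit 90270742788) (nat_lit 2) E)) (nat_lit 90270746372) (nat_lit 2) (N (N E (nat_lit 90362414616) (nat_lit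 2) E) (nat_lit 90362414852) (nat_lit 2) (N E (nat_lit 90362414880) (nat_lit 2) E)))) (nat_lit 90362415300) (nat_lit 2) (N (N (N (N (N E (nat_lit 90362415328) (nat_lit 2) E) (nat_lit 90362425604) (nat_lit 2) E) (nat_lit 90362876952) (nat_lit 2) (N E (nat_lit 90362877188) (nat_lit 2) E)) (nat_lit 90362877216) (nat_lit 2) (N (N E (nat_lit 90362884176) (nat_lit 2) E) (nat_lit 90362884356) (nat_lit 1) (N E (nat_lit 90362913028) (nat_lit 2) E))) (nat_lit 90363003524) (nat_lit 2) (N (N (N E (nat_lit 90363003552) (nat_lit 2) E) (nat_lit 90363005008) (nat_lit 2) (N E (nat_lit 90363019344) (nat_lit 2) E)) (nat_lit 90363019524) (nat_lit 1) (N (N E (nat_lit 90363175108) (nat_lit 2) E) (nat_lit 90363175136) (nat_lit 2) (N E (nat_lit 90363232900) (nat_lit 2) E))))))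
 (nat_lit 90363232928) (nat_lit 2) (N (N (N (N (N (N (N E (nat_lit 90363234384) (nat_lit 2) E) (nat_lit 90363248720) (nat_lit 2) E) (nat_lit 90363248900) (nat_lit 1) (N E (nat_lit 90364719364) (nat_lit 2) E)) (nat_lit 90364854532) (nat_lit 2) (N (N E (nat_lit 90368510032) (nat_lit 2) E) (nat_lit 90599592984) (nat_lit 2) (N E (nat_lit 90599593220) (nat_lit 2) E))) (nat_lit 90599593248) (nat_lit 2) (N (N (N E (nat_lit 90599600208) (nat_lit 2) E) (nat_lit 90599600388) (nat_lit 1) (N E (nat_lit 90599629060) (nat_lit 2) E)) (nat_lit 90599719556) (nat_lit 2) (N (N E (nat_lit 90599719584) (nat_lit 2) E) (nat_lit 90599721040) (nat_lit 2) (N E (nat_lit 90599735376) (nat_lit 2) E)))) (nat_lit 90599735556) (nat_lit 1) (N (N (N (N (N E (nat_lit 90603298896) (nat_lit 2) E) (nat_lit 90603357956) (nat_lit 2) E) (nat_lit 90603390492) (nat_lit 2) (N E (nat_lit 90603391008) (nat_lit 2) E)) (nat_lit 90603391056) (nat_lit 1) (N (N E (nat_lit 90603391171) (nat_lit 2) E) (nat_lit 90603391192)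 (nat_lit 2) (N E (nat_lit 90603391204) (nat_lit 2) E))) (nat_lit 90603391260) (nat_lit 2) (N (N (N E (nat_lit 90603401412) (nat_lit 2) E) (nat_lit 90603403524) (nat_lit 2) (N E (nat_lit 90603407108) (nat_lit 2) E)) (nat_lit 90604056836) (nat_lit 2) (N (N E (nat_lit 90604192004) (nat_lit 2) E) (nat_lit 90604421380) (nat_lit 2) (N E (nat_lit 90618071120) (nat_lit 2) E))))) (nat_lit 90648097028) (nat_lit 2) (N (N (N (N (N (N E (nat_lit 90648232196) (nat_lit 2) E) (nat_lit 90648461572) (nat_lit 2) E) (nat_lit 90664403588) (nat_lit 2) (N E (nat_lit 90664403616) (nat_lit 2) E)) (nat_lit 90664405072) (nat_lit 2) (N (N E (nat_lit 90664419408) (nat_lit 2) E) (nat_lit 90664419588) (nat_lit 1) (N E (nat_lit 90664976644) (nat_lit 2) E))) (nat_lit 90665140484) (nat_lit 2) (N (N (N E (nat_lit 90665164880) (nat_lit 2) E) (nat_lit 90670481668) (nat_lit 2) (N E (nat_lit 90672504912) (nat_lit 2) E)) (nat_lit 90672563972) (nat_lit 2) (N (N E (nat_lit 90672596508) (nat_lit 2) E) (nat_lit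 90672597024) (nat_lit 2) (N E (nat_lit 90672597072) (nat_lit 1) E)))) (nat_lit 90672597187) (nat_lit 2) (N (N (N (N E (nat_lit 90672597208) (nat_lit 2) E) (nat_lit 90672597220) (nat_lit 2) (N E (nat_lit 90672597276) (nat_lit 2) E)) (nat_lit 90672607428) (nat_lit 2) (N (N E (nat_lit 90672609540) (nat_lit 2) E) (nat_lit 90672613124) (nat_lit 2) (N E (nat_lit 90673262852) (nat_lit 2) E))) (nat_lit 90673398020) (nat_lit 2) (N (N (N E (nat_lit 90673627396) (nat_lit 2) E) (nat_lit 90752196804) (nat_lit 2) (N E (nat_lit 90752196832) (nat_lit 2) E)) (nat_lit 90752254596) (nat_lit 2) (N (N E (nat_lit 90752254624) (nat_lit 2) E) (nat_lit 90752256080) (nat_lit 2) (N E (nat_lit 90752270416) (nat_lit 2) E))))))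
)
)
)
 (nat_lit 90752270596) (nat_lit 1) (N (N (N (N (N (N (N (N (N (N E (nat_lit 90752499972) (nat_lit 2) E) (nat_lit 90781844100) (nat_lit 2) E) (nat_lit 90781844128) (nat_lit 2) (N E (nat_lit 90781845584) (nat_lit 2) E)) (nat_lit 90781859920) (nat_lit 2) (N (N E (nat_lit 90781860100) (nat_lit 1) E) (nat_lit 90782417156) (nat_lit 2) (N E (nat_lit 90782580996) (nat_lit 2) E))) (nat_lit 90782605392) (nat_lit 2) (N (N (N E (nat_lit 90787922180) (nat_lit 2) E) (nat_lit 90789945424) (nat_lit 2) (N E (nat_lit 90790004484) (nat_lit 2) E)) (nat_lit 90790037020) (nat_lit 2) (N (N E (nat_lit 90790037536) (nat_lit 2) E) (nat_lit 90790037584) (nat_lit 1) (N E (nat_lit 90790037699) (nat_lit 2) E)))) (nat_lit 90790037720) (nat_lit 2) (N (N (N (N (N E (nat_lit 90790037732) (nat_lit 2) E) (nat_lit 90790037788) (nat_lit 2) E) (nat_lit 90790047940) (nat_lit 2) (N E (nat_lit 90790050052) (nat_lit 2) E)) (nat_lit 90790053636) (nat_lit 2) (N (N E (nat_lit 90790703364) (nat_lit 2)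 E) (nat_lit 90790838532) (nat_lit 2) (N E (nat_lit 90791067908) (nat_lit 2) E))) (nat_lit 207503234076) (nat_lit 2) (N (N (N E (nat_lit 207503241300) (nat_lit 2) E) (nat_lit 207503243344) (nat_lit 2) (N E (nat_lit 207506939988) (nat_lit 2) E)) (nat_lit 207506942032) (nat_lit 2) (N (N E (nat_lit 207507964164) (nat_lit 2) E) (nat_lit 207507988560) (nat_lit 2) (N E (nat_lit 209400668244) (nat_lit 2) E))))) (nat_lit 209400670288) (nat_lit 2) (N (N (N (N (N (N E (nat_lit 209401692420) (nat_lit 2) E) (nat_lit 209401716816) (nat_lit 2) E) (nat_lit 209925048400) (nat_lit 2) (N E (nat_lit 209937539152) (nat_lit 2) E)) (nat_lit 216916861124) (nat_lit 2) (N (N E (nat_lit 216916861152) (nat_lit 2) E) (nat_lit 216916918916) (nat_lit 2) (N E (nat_lit 216916918944) (nat_lit 2) E))) (nat_lit 216916920400) (nat_lit 2) (N (N (N E (nat_lit 216916934736) (nat_lit 2) E) (nat_lit 216916934916) (nat_lit 1) (N E (nat_lit 216917164292) (nat_lit 2) E)) (nat_lit 216946508420) (nat_lit 2)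 (N (N E (nat_lit 216946508448) (nat_lit 2) E) (nat_lit 216946509904) (nat_lit 2) (N E (nat_lit 216946524240) (nat_lit 2) E)))) (nat_lit 216946524420) (nat_lit 1) (N (N (N (N (N E (nat_lit 216947081476) (nat_lit 2) E) (nat_lit 216947245316) (nat_lit 2) E) (nat_lit 216947269712) (nat_lit 2) (N E (nat_lit 216952586500) (nat_lit 2) E)) (nat_lit 216954609744) (nat_lit 2) (N (N E (nat_lit 216954668804) (nat_lit 2) E) (nat_lit 216954701340) (nat_lit 2) (N E (nat_lit 216954701856) (nat_lit 2) E))) (nat_lit 216954701904) (nat_lit 1) (N (N (N E (nat_lit 216954702019) (nat_lit 2) E) (nat_lit 216954702040) (nat_lit 2) (N E (nat_lit 216954702052) (nat_lit 2) E)) (nat_lit 216954702108) (nat_lit 2) (N (N E (nat_lit 216954712260) (nat_lit 2) E) (nat_lit 216954714372) (nat_lit 2) (N E (nat_lit 216954717956) (nat_lit 2) E))))))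
 (nat_lit 216955367684) (nat_lit 2) (N (N (N (N (N (N (N E (nat_lit 216955502852) (nat_lit 2) E) (nat_lit 216955732228) (nat_lit 2) E) (nat_lit 217063964932) (nat_lit 2) (N E (nat_lit 217072142416) (nat_lit 2) E)) (nat_lit 232096334468) (nat_lit 2) (N (N E (nat_lit 232096334496) (nat_lit 2) E) (nat_lit 232096335952) (nat_lit 2) (N E (nat_lit 232096350288) (nat_lit 2) E))) (nat_lit 232096350468) (nat_lit 1) (N (N (N E (nat_lit 232096907524) (nat_lit 2) E) (nat_lit 232097071364) (nat_lit 2) (N E (nat_lit 232097095760) (nat_lit 2) E)) (nat_lit 232102412548) (nat_lit 2) (N (N E (nat_lit 232104435792) (nat_lit 2) E) (nat_lit 232104494852) (nat_lit 2) (N E (nat_lit 232104527388) (nat_lit 2) E)))) (nat_lit 232104527904) (nat_lit 2) (N (N (N (N (N E (nat_lit 232104527952) (nat_lit 1) E) (nat_lit 232104528067) (nat_lit 2) E) (nat_lit 232104528088) (nat_lit 2) (N E (nat_lit 232104528100) (nat_lit 2) E)) (nat_lit 232104528156) (nat_lit 2) (N (N E (nat_lit 232104538308) (nat_lit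 2) E) (nat_lit 232104540420) (nat_lit 2) (N E (nat_lit 232104544004) (nat_lit 2) E))) (nat_lit 232105193732) (nat_lit 2) (N (N (N E (nat_lit 232105328900) (nat_lit 2) E) (nat_lit 232105558276) (nat_lit 2) (N E (nat_lit 232351973636) (nat_lit 2) E)) (nat_lit 232381563140) (nat_lit 2) (N (N E (nat_lit 232389740624) (nat_lit 2) E) (nat_lit 232473626704) (nat_lit 2) (N E (nat_lit 232486117456) (nat_lit 2) E))))) (nat_lit 235170545924) (nat_lit 2) (N (N (N (N (N (N E (nat_lit 235200135428) (nat_lit 2) E) (nat_lit 235208312912) (nat_lit 2) E) (nat_lit 236244213840) (nat_lit 2) (N E (nat_lit 236273862404) (nat_lit 2) E)) (nat_lit 236274324740) (nat_lit 2) (N (N E (nat_lit 236274452560) (nat_lit 2) E) (nat_lit 236291101724) (nat_lit 2) (N E (nat_lit 236291108948) (nat_lit 2) E))) (nat_lit 236291110992) (nat_lit 2) (N (N (N E (nat_lit 236291375184) (nat_lit 2) E) (nat_lit 236291375364) (nat_lit 1) (N E (nat_lit 236291399760) (nat_lit 1) E)) (nat_lit 236291399875) (nat_lit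 2) (N (N E (nat_lit 236291399896) (nat_lit 2) E) (nat_lit 236291399908) (nat_lit 2) (N E (nat_lit 236291399964) (nat_lit 2) E)))) (nat_lit 236291457667) (nat_lit 2) (N (N (N (N (N E (nat_lit 236291457688) (nat_lit 2) E) (nat_lit 236291457700) (nat_lit 2) E) (nat_lit 236291458640) (nat_lit 2) (N E (nat_lit 236291469392) (nat_lit 2) E)) (nat_lit 236291473492) (nat_lit 2) (N (N E (nat_lit 236291475536) (nat_lit 2) E) (nat_lit 236291494940) (nat_lit 2) (N E (nat_lit 236291502164) (nat_lit 2) E))) (nat_lit 236291504208) (nat_lit 2) (N (N (N E (nat_lit 236292944068) (nat_lit 2) E) (nat_lit 236292946180) (nat_lit 2) (N E (nat_lit 236292949764) (nat_lit 2) E)) (nat_lit 236296642756) (nat_lit 2) (N (N E (nat_lit 236296644868) (nat_lit 2) E) (nat_lit 236296702032) (nat_lit 2) (N E (nat_lit 236297655556) (nat_lit 2) E))))))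
)
 (nat_lit 236297783376) (nat_lit 2) (N (N (N (N (N (N (N (N E (nat_lit 236299028228) (nat_lit 2) E) (nat_lit 236299490564) (nat_lit 2) E) (nat_lit 236299618384) (nat_lit 2) (N E (nat_lit 236391772420) (nat_lit 2) E)) (nat_lit 236391907588) (nat_lit 2) (N (N E (nat_lit 236392136964) (nat_lit 2) E) (nat_lit 236628488452) (nat_lit 2) (N E (nat_lit 236628623620) (nat_lit 2) E))) (nat_lit 236632279120) (nat_lit 2) (N (N (N E (nat_lit 236693307652) (nat_lit 2) E) (nat_lit 236701485136) (nat_lit 2) (N E (nat_lit 236781158660) (nat_lit 2) E)) (nat_lit 236810748164) (nat_lit 2) (N (N E (nat_lit 236818925648) (nat_lit 2) E) (nat_lit 278120218884) (nat_lit 2) (N E (nat_lit 278149808388) (nat_lit 2) E)))) (nat_lit 278157985872) (nat_lit 2) (N (N (N (N (N E (nat_lit 279193886800) (nat_lit 2) E) (nat_lit 279223535364) (nat_lit 2) E) (nat_lit 279223997700) (nat_lit 2) (N E (nat_lit 279224125520) (nat_lit 2) E)) (nat_lit 279240774684) (nat_lit 2) (N (N E (nat_lit 279240781908)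 (nat_lit 2) E) (nat_lit 279240783952) (nat_lit 2) (N E (nat_lit 279241048144) (nat_lit 2) E))) (nat_lit 279241048324) (nat_lit 1) (N (N (N E (nat_lit 279241072720) (nat_lit 1) E) (nat_lit 279241072835) (nat_lit 2) (N E (nat_lit 279241072856) (nat_lit 2) E)) (nat_lit 279241072868) (nat_lit 2) (N (N E (nat_lit 279241072924) (nat_lit 2) E) (nat_lit 279241130627) (nat_lit 2) (N E (nat_lit 279241130648) (nat_lit 2) E))))) (nat_lit 279241130660) (nat_lit 2) (N (N (N (N (N (N E (nat_lit 279241131600) (nat_lit 2) E) (nat_lit 279241142352) (nat_lit 2) E) (nat_lit 279241146452) (nat_lit 2) (N E (nat_lit 279241148496) (nat_lit 2) E)) (nat_lit 279241167900) (nat_lit 2) (N (N E (nat_lit 279241175124) (nat_lit 2) E) (nat_lit 279241177168) (nat_lit 2) (N E (nat_lit 279242617028) (nat_lit 2) E))) (nat_lit 279242619140) (nat_lit 2) (N (N (N E (nat_lit 279242622724) (nat_lit 2) E) (nat_lit 279246315716) (nat_lit 2) (N E (nat_lit 279246317828) (nat_lit 2) E)) (nat_lit 279246374992)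 (nat_lit 2) (N (N E (nat_lit 279247328516) (nat_lit 2) E) (nat_lit 279247456336) (nat_lit 2) (N E (nat_lit 279248701188) (nat_lit 2) E)))) (nat_lit 279249163524) (nat_lit 2) (N (N (N (N (N E (nat_lit 279249291344) (nat_lit 2) E) (nat_lit 279341445380) (nat_lit 2) E) (nat_lit 279341580548) (nat_lit 2) (N E (nat_lit 279341809924) (nat_lit 2) E)) (nat_lit 279578161412) (nat_lit 2) (N (N E (nat_lit 279578296580) (nat_lit 2) E) (nat_lit 279581952080) (nat_lit 2) (N E (nat_lit 279642980612) (nat_lit 2) E))) (nat_lit 279651158096) (nat_lit 2) (N (N (N E (nat_lit 279730831620) (nat_lit 2) E) (nat_lit 279760421124) (nat_lit 2) (N E (nat_lit 279768598608) (nat_lit 2) E)) (nat_lit 285636337744) (nat_lit 1) (N (N E (nat_lit 285636337859) (nat_lit 2) E) (nat_lit 285636337880) (nat_lit 2) (N E (nat_lit 285636337892) (nat_lit 2) E))))))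
 (nat_lit 285636337948) (nat_lit 2) (N (N (N (N (N (N (N E (nat_lit 285636395651) (nat_lit 2) E) (nat_lit 285636395672) (nat_lit 2) E) (nat_lit 285636395684) (nat_lit 2) (N E (nat_lit 285636396624) (nat_lit 2) E)) (nat_lit 285636407376) (nat_lit 2) (N (N E (nat_lit 285636411476) (nat_lit 2) E) (nat_lit 285636413520) (nat_lit 2) (N E (nat_lit 285636432924) (nat_lit 2) E))) (nat_lit 285636440148) (nat_lit 2) (N (N (N E (nat_lit 285636442192) (nat_lit 2) E) (nat_lit 285665985155) (nat_lit 2) (N E (nat_lit 285665985176) (nat_lit 2) E)) (nat_lit 285665985188) (nat_lit 2) (N (N E (nat_lit 285665986128) (nat_lit 2) E) (nat_lit 285665996880) (nat_lit 2) (N E (nat_lit 285666000980) (nat_lit 2) E)))) (nat_lit 285666003024) (nat_lit 2) (N (N (N (N (N E (nat_lit 285666459908) (nat_lit 2) E) (nat_lit 285666484304) (nat_lit 2) E) (nat_lit 285671989328) (nat_lit 2) (N E (nat_lit 285674086484) (nat_lit 2) E)) (nat_lit 285674088528) (nat_lit 2) (N (N E (nat_lit 285675110660) (nat_lit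 2) E) (nat_lit 285675135056) (nat_lit 2) (N E (nat_lit 285685060636) (nat_lit 2) E))) (nat_lit 285685067860) (nat_lit 2) (N (N (N E (nat_lit 285685069904) (nat_lit 2) E) (nat_lit 285688766548) (nat_lit 2) (N E (nat_lit 285688768592) (nat_lit 2) E)) (nat_lit 285689790724) (nat_lit 2) (N (N E (nat_lit 285689815120) (nat_lit 2) E) (nat_lit 300815811203) (nat_lit 2) (N E (nat_lit 300815811224) (nat_lit 2) E))))) (nat_lit 300815811236) (nat_lit 2) (N (N (N (N (N (N E (nat_lit 300815812176) (nat_lit 2) E) (nat_lit 300815822928) (nat_lit 2) E) (nat_lit 300815827028) (nat_lit 2) (N E (nat_lit 300815829072) (nat_lit 2) E)) (nat_lit 300816285956) (nat_lit 2) (N (N E (nat_lit 300816310352) (nat_lit 2) E) (nat_lit 300821815376) (nat_lit 2) (N E (nat_lit 300823912532) (nat_lit 2) E))) (nat_lit 300823914576) (nat_lit 2) (N (N (N E (nat_lit 300824936708) (nat_lit 2) E) (nat_lit 300824961104) (nat_lit 2) (N E (nat_lit 301058885712) (nat_lit 2) E)) (nat_lit 301071376464) (nat_lit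 2) (N (N E (nat_lit 303889948752) (nat_lit 2) E) (nat_lit 304963690580) (nat_lit 2) (N E (nat_lit 304963692624) (nat_lit 2) E)))) (nat_lit 304964714756) (nat_lit 2) (N (N (N (N (N E (nat_lit 304964739152) (nat_lit 2) E) (nat_lit 305488070736) (nat_lit 2) E) (nat_lit 305500561488) (nat_lit 2) (N E (nat_lit 310582449180) (nat_lit 2) E)) (nat_lit 310582456404) (nat_lit 2) (N (N E (nat_lit 310582458448) (nat_lit 2) E) (nat_lit 310586155092) (nat_lit 2) (N E (nat_lit 310586157136) (nat_lit 2) E))) (nat_lit 310587179268) (nat_lit 2) (N (N (N E (nat_lit 310587203664) (nat_lit 2) E) (nat_lit 312479883348) (nat_lit 2) (N E (nat_lit 312479885392) (nat_lit 2) E)) (nat_lit 312480907524) (nat_lit 2) (N (N E (nat_lit 312480931920) (nat_lit 2) E) (nat_lit 313004263504) (nat_lit 2) (N E (nat_lit 313016754256) (nat_lit 2) E))))))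
)
)
 (nat_lit 688539578564) (nat_lit 2) (N (N (N (N (N (N (N (N (N E (nat_lit 688539580676) (nat_lit 2) E) (nat_lit 688539584260) (nat_lit 2) E) (nat_lit 688543277252) (nat_lit 2) (N E (nat_lit 688543279364) (nat_lit 2) E)) (nat_lit 688543336528) (nat_lit 2) (N (N E (nat_lit 688544290052) (nat_lit 2) E) (nat_lit 688544417872) (nat_lit 2) (N E (nat_lit 688545662724) (nat_lit 2) E))) (nat_lit 688546125060) (nat_lit 2) (N (N (N E (nat_lit 688546252880) (nat_lit 2) E) (nat_lit 690437005508) (nat_lit 2) (N E (nat_lit 690437007620) (nat_lit 2) E)) (nat_lit 690437064784) (nat_lit 2) (N (N E (nat_lit 690438018308) (nat_lit 2) E) (nat_lit 690438146128) (nat_lit 2) (N E (nat_lit 690467389700) (nat_lit 2) E)))) (nat_lit 690467414096) (nat_lit 2) (N (N (N (N (N E (nat_lit 690955490564) (nat_lit 2) E) (nat_lit 690955618384) (nat_lit 2) E) (nat_lit 691021037828) (nat_lit 2) (N E (nat_lit 691021062224) (nat_lit 2) E)) (nat_lit 691657836292) (nat_lit 2) (N (N E (nat_lit 691658298628)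 (nat_lit 2) E) (nat_lit 691658426448) (nat_lit 2) (N E (nat_lit 691895014660) (nat_lit 2) E))) (nat_lit 691895142480) (nat_lit 2) (N (N (N E (nat_lit 691960561924) (nat_lit 2) E) (nat_lit 691960586320) (nat_lit 2) (N E (nat_lit 697953272068) (nat_lit 2) E)) (nat_lit 697982861572) (nat_lit 2) (N (N E (nat_lit 697991039056) (nat_lit 2) E) (nat_lit 713132687620) (nat_lit 2) (N E (nat_lit 713140865104) (nat_lit 2) E))))) (nat_lit 717327712516) (nat_lit 2) (N (N (N (N (N (N E (nat_lit 717327736912) (nat_lit 2) E) (nat_lit 1660025872580) (nat_lit 2) E) (nat_lit 1660025872608) (nat_lit 2) (N E (nat_lit 1660025874692) (nat_lit 2) E)) (nat_lit 1660025930372) (nat_lit 2) (N (N E (nat_lit 1660025930400) (nat_lit 2) E) (nat_lit 1660025931856) (nat_lit 2) (N E (nat_lit 1660025946192) (nat_lit 2) E))) (nat_lit 1660025946372) (nat_lit 1) (N (N (N E (nat_lit 1660026175748) (nat_lit 2) E) (nat_lit 1660026885380) (nat_lit 2) (N E (nat_lit 1660027013200) (nat_lit 2) E)) (nat_lit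 1660055519876) (nat_lit 2) (N (N E (nat_lit 1660055519904) (nat_lit 2) E) (nat_lit 1660055521360) (nat_lit 2) (N E (nat_lit 1660055535696) (nat_lit 2) E)))) (nat_lit 1660055535876) (nat_lit 1) (N (N (N (N (N E (nat_lit 1660056092932) (nat_lit 2) E) (nat_lit 1660056256772) (nat_lit 2) E) (nat_lit 1660056281168) (nat_lit 2) (N E (nat_lit 1660061597956) (nat_lit 2) E)) (nat_lit 1660063621200) (nat_lit 2) (N (N E (nat_lit 1660063680260) (nat_lit 2) E) (nat_lit 1660063712796) (nat_lit 2) (N E (nat_lit 1660063713312) (nat_lit 2) E))) (nat_lit 1660063713360) (nat_lit 1) (N (N (N E (nat_lit 1660063713475) (nat_lit 2) E) (nat_lit 1660063713496) (nat_lit 2) (N E (nat_lit 1660063713508) (nat_lit 2) E)) (nat_lit 1660063713564) (nat_lit 2) (N (N E (nat_lit 1660063723716) (nat_lit 2) E) (nat_lit 1660063725828) (nat_lit 2) (N E (nat_lit 1660063729412) (nat_lit 2) E))))))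
 (nat_lit 1660064379140) (nat_lit 2) (N (N (N (N (N (N (N E (nat_lit 1660064514308) (nat_lit 2) E) (nat_lit 1660064743684) (nat_lit 2) E) (nat_lit 1660172976388) (nat_lit 2) (N E (nat_lit 1660181153872) (nat_lit 2) E)) (nat_lit 1660544357636) (nat_lit 2) (N (N E (nat_lit 1660544485456) (nat_lit 2) E) (nat_lit 1660609904900) (nat_lit 2) (N E (nat_lit 1660609929296) (nat_lit 2) E))) (nat_lit 1675205345924) (nat_lit 2) (N (N (N E (nat_lit 1675205345952) (nat_lit 2) E) (nat_lit 1675205347408) (nat_lit 2) (N E (nat_lit 1675205361744) (nat_lit 2) E)) (nat_lit 1675205361924) (nat_lit 1) (N (N E (nat_lit 1675205918980) (nat_lit 2) E) (nat_lit 1675206082820) (nat_lit 2) (N E (nat_lit 1675206107216) (nat_lit 2) E)))) (nat_lit 1675211424004) (nat_lit 2) (N (N (N (N (N E (nat_lit 1675213447248) (nat_lit 2) E) (nat_lit 1675213506308) (nat_lit 2) E) (nat_lit 1675213538844) (nat_lit 2) (N E (nat_lit 1675213539360) (nat_lit 2) E)) (nat_lit 1675213539408) (nat_lit 1) (N (N E (nat_lit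 1675213539523) (nat_lit 2) E) (nat_lit 1675213539544) (nat_lit 2) (N E (nat_lit 1675213539556) (nat_lit 2) E))) (nat_lit 1675213539612) (nat_lit 2) (N (N (N E (nat_lit 1675213549764) (nat_lit 2) E) (nat_lit 1675213551876) (nat_lit 2) (N E (nat_lit 1675213555460) (nat_lit 2) E)) (nat_lit 1675214205188) (nat_lit 2) (N (N E (nat_lit 1675214340356) (nat_lit 2) E) (nat_lit 1675214569732) (nat_lit 2) (N E (nat_lit 1675460985092) (nat_lit 2) E))))) (nat_lit 1675490574596) (nat_lit 2) (N (N (N (N (N (N E (nat_lit 1675498752080) (nat_lit 2) E) (nat_lit 1675582638160) (nat_lit 2) E) (nat_lit 1675595128912) (nat_lit 2) (N E (nat_lit 1678279557380) (nat_lit 2) E)) (nat_lit 1678309146884) (nat_lit 2) (N (N E (nat_lit 1678317324368) (nat_lit 2) E) (nat_lit 1679353225296) (nat_lit 2) (N E (nat_lit 1679382873860) (nat_lit 2) E))) (nat_lit 1679383336196) (nat_lit 2) (N (N (N E (nat_lit 1679383464016) (nat_lit 2) E) (nat_lit 1679400113180) (nat_lit 2) (N E (nat_lit 1679400120404)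 (nat_lit 2) E)) (nat_lit 1679400122448) (nat_lit 2) (N (N E (nat_lit 1679400386640) (nat_lit 2) E) (nat_lit 1679400386820) (nat_lit 1) (N E (nat_lit 1679400411216) (nat_lit 1) E)))) (nat_lit 1679400411331) (nat_lit 2) (N (N (N (N (N E (nat_lit 1679400411352) (nat_lit 2) E) (nat_lit 1679400411364) (nat_lit 2) E) (nat_lit 1679400411420) (nat_lit 2) (N E (nat_lit 1679400469123) (nat_lit 2) E)) (nat_lit 1679400469144) (nat_lit 2) (N (N E (nat_lit 1679400469156) (nat_lit 2) E) (nat_lit 1679400470096) (nat_lit 2) (N E (nat_lit 1679400480848) (nat_lit 2) E))) (nat_lit 1679400484948) (nat_lit 2) (N (N (N E (nat_lit 1679400486992) (nat_lit 2) E) (nat_lit 1679400506396) (nat_lit 2) (N E (nat_lit 1679400513620) (nat_lit 2) E)) (nat_lit 1679400515664) (nat_lit 2) (N (N E (nat_lit 1679401955524) (nat_lit 2) E) (nat_lit 1679401957636) (nat_lit 2) (N E (nat_lit 1679401961220) (nat_lit 2) E))))))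
)
 (nat_lit 1679405654212) (nat_lit 2) (N (N (N (N (N (N (N (N E (nat_lit 1679405656324) (nat_lit 2) E) (nat_lit 1679405713488) (nat_lit 2) E) (nat_lit 1679406667012) (nat_lit 2) (N E (nat_lit 1679406794832) (nat_lit 2) E)) (nat_lit 1679408039684) (nat_lit 2) (N (N E (nat_lit 1679408502020) (nat_lit 2) E) (nat_lit 1679408629840) (nat_lit 2) (N E (nat_lit 1679500783876) (nat_lit 2) E))) (nat_lit 1679500919044) (nat_lit 2) (N (N (N E (nat_lit 1679501148420) (nat_lit 2) E) (nat_lit 1679737499908) (nat_lit 2) (N E (nat_lit 1679737635076) (nat_lit 2) E)) (nat_lit 1679741290576) (nat_lit 2) (N (N E (nat_lit 1679802319108) (nat_lit 2) E) (nat_lit 1679810496592) (nat_lit 2) (N E (nat_lit 1679890170116) (nat_lit 2) E)))) (nat_lit 1679919759620) (nat_lit 2) (N (N (N (N (N E (nat_lit 1679927937104) (nat_lit 2) E) (nat_lit 1735334904068) (nat_lit 2) E) (nat_lit 1735343081552) (nat_lit 2) (N E (nat_lit 1739529928964) (nat_lit 2) E)) (nat_lit 1739529953360) (nat_lit 2) (N (N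 E (nat_lit 1925490152708) (nat_lit 2) E) (nat_lit 1925490280528) (nat_lit 2) (N E (nat_lit 1925555699972) (nat_lit 2) E))) (nat_lit 1925555724368) (nat_lit 2) (N (N (N E (nat_lit 1959050479696) (nat_lit 2) E) (nat_lit 1959062970448) (nat_lit 2) (N E (nat_lit 2209781686352) (nat_lit 1) E)) (nat_lit 2209781686467) (nat_lit 2) (N (N E (nat_lit 2209781686488) (nat_lit 2) E) (nat_lit 2209781686500) (nat_lit 2) (N E (nat_lit 2209781686556) (nat_lit 2) E))))) (nat_lit 2209781744259) (nat_lit 2) (N (N (N (N (N (N E (nat_lit 2209781744280) (nat_lit 2) E) (nat_lit 2209781744292) (nat_lit 2) E) (nat_lit 2209781745232) (nat_lit 2) (N E (nat_lit 2209781755984) (nat_lit 2) E)) (nat_lit 2209781760084) (nat_lit 2) (N (N E (nat_lit 2209781762128) (nat_lit 2) E) (nat_lit 2209781781532) (nat_lit 2) (N E (nat_lit 2209781788756) (nat_lit 2) E))) (nat_lit 2209781790800) (nat_lit 2) (N (N (N E (nat_lit 2209811333763) (nat_lit 2) E) (nat_lit 2209811333784) (nat_lit 2) (N E (nat_lit 2209811333796)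 (nat_lit 2) E)) (nat_lit 2209811334736) (nat_lit 2) (N (N E (nat_lit 2209811345488) (nat_lit 2) E) (nat_lit 2209811349588) (nat_lit 2) (N E (nat_lit 2209811351632) (nat_lit 2) E)))) (nat_lit 2209811808516) (nat_lit 2) (N (N (N (N (N E (nat_lit 2209811832912) (nat_lit 2) E) (nat_lit 2209817337936) (nat_lit 2) E) (nat_lit 2209819435092) (nat_lit 2) (N E (nat_lit 2209819437136) (nat_lit 2) E)) (nat_lit 2209820459268) (nat_lit 2) (N (N E (nat_lit 2209820483664) (nat_lit 2) E) (nat_lit 2209830409244) (nat_lit 2) (N E (nat_lit 2209830416468) (nat_lit 2) E))) (nat_lit 2209830418512) (nat_lit 2) (N (N (N E (nat_lit 2209834115156) (nat_lit 2) E) (nat_lit 2209834117200) (nat_lit 2) (N E (nat_lit 2209835139332) (nat_lit 2) E)) (nat_lit 2209835163728) (nat_lit 2) (N (N E (nat_lit 2209928775428) (nat_lit 2) E) (nat_lit 2209929237764) (nat_lit 2) (N E (nat_lit 2209929365584) (nat_lit 2) E))))))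
 (nat_lit 2210165953796) (nat_lit 2) (N (N (N (N (N (N (N E (nat_lit 2210166081616) (nat_lit 2) E) (nat_lit 2210231501060) (nat_lit 2) E) (nat_lit 2210231525456) (nat_lit 2) (N E (nat_lit 2224961159811) (nat_lit 2) E)) (nat_lit 2224961159832) (nat_lit 2) (N (N E (nat_lit 2224961159844) (nat_lit 2) E) (nat_lit 2224961160714) (nat_lit 2) (N E (nat_lit 2224961160784) (nat_lit 2) E))) (nat_lit 2224961160964) (nat_lit 1) (N (N (N E (nat_lit 2224961164548) (nat_lit 2) E) (nat_lit 2224961171536) (nat_lit 2) (N E (nat_lit 2224961175636) (nat_lit 2) E)) (nat_lit 2224961177680) (nat_lit 2) (N (N E (nat_lit 2224961623050) (nat_lit 2) E) (nat_lit 2224961623300) (nat_lit 1) (N E (nat_lit 2224961632004) (nat_lit 2) E)))) (nat_lit 2224961634564) (nat_lit 2) (N (N (N (N (N E (nat_lit 2224961658960) (nat_lit 2) E) (nat_lit 2224961718020) (nat_lit 2) E) (nat_lit 2224961750556) (nat_lit 2) (N E (nat_lit 2224961751072) (nat_lit 2) E)) (nat_lit 2224961751120) (nat_lit 1) (N (N E (nat_lit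 2224961751235) (nat_lit 2) E) (nat_lit 2224961751256) (nat_lit 2) (N E (nat_lit 2224961751268) (nat_lit 2) E))) (nat_lit 2224961751324) (nat_lit 2) (N (N (N E (nat_lit 2224961761476) (nat_lit 2) E) (nat_lit 2224961763588) (nat_lit 2) (N E (nat_lit 2224961767172) (nat_lit 2) E)) (nat_lit 2224963458308) (nat_lit 2) (N (N E (nat_lit 2224963586128) (nat_lit 2) E) (nat_lit 2224967163984) (nat_lit 2) (N E (nat_lit 2224969261140) (nat_lit 2) E))))) (nat_lit 2224969263184) (nat_lit 2) (N (N (N (N (N (N E (nat_lit 2224970285316) (nat_lit 2) E) (nat_lit 2224970309712) (nat_lit 2) E) (nat_lit 2225198339082) (nat_lit 2) (N E (nat_lit 2225198339332) (nat_lit 1) E)) (nat_lit 2225198348036) (nat_lit 2) (N (N E (nat_lit 2225198350596) (nat_lit 2) E) (nat_lit 2225198434052) (nat_lit 2) (N E (nat_lit 2225198466588) (nat_lit 2) E))) (nat_lit 2225198467104) (nat_lit 2) (N (N (N E (nat_lit 2225198467152) (nat_lit 1) E) (nat_lit 2225198467267) (nat_lit 2) (N E (nat_lit 2225198467288)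 (nat_lit 2) E)) (nat_lit 2225198467300) (nat_lit 2) (N (N E (nat_lit 2225198467356) (nat_lit 2) E) (nat_lit 2225198477508) (nat_lit 2) (N E (nat_lit 2225198479620) (nat_lit 2) E)))) (nat_lit 2225198483204) (nat_lit 2) (N (N (N (N E (nat_lit 2225202333444) (nat_lit 2) E) (nat_lit 2225202795780) (nat_lit 2) (N E (nat_lit 2225202923600) (nat_lit 2) E)) (nat_lit 2225204234320) (nat_lit 2) (N (N E (nat_lit 2225216725072) (nat_lit 2) E) (nat_lit 2225246373636) (nat_lit 2) (N E (nat_lit 2225246835972) (nat_lit 2) E))) (nat_lit 2225246963792) (nat_lit 2) (N (N (N E (nat_lit 2225263612956) (nat_lit 2) E) (nat_lit 2225263620180) (nat_lit 2) (N E (nat_lit 2225263622224) (nat_lit 2) E)) (nat_lit 2225263886416) (nat_lit 2) (N (N E (nat_lit 2225263886596) (nat_lit 1) E) (nat_lit 2225263910992) (nat_lit 1) (N E (nat_lit 2225263911107) (nat_lit 2) E))))))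
)
)
)
)
 (nat_lit 2225263911128) (nat_lit 2) (N (N (N (N (N (N (N (N (N (N (N E (nat_lit 2225263911140) (nat_lit 2) E) (nat_lit 2225263911196) (nat_lit 2) E) (nat_lit 2225263968899) (nat_lit 2) (N E (nat_lit 2225263968920) (nat_lit 2) E)) (nat_lit 2225263968932) (nat_lit 2) (N (N E (nat_lit 2225263969872) (nat_lit 2) E) (nat_lit 2225263980624) (nat_lit 2) (N E (nat_lit 2225263984724) (nat_lit 2) E))) (nat_lit 2225263986768) (nat_lit 2) (N (N (N E (nat_lit 2225264006172) (nat_lit 2) E) (nat_lit 2225264013396) (nat_lit 2) (N E (nat_lit 2225264015440) (nat_lit 2) E)) (nat_lit 2225265455300) (nat_lit 2) (N (N E (nat_lit 2225265457412) (nat_lit 2) E) (nat_lit 2225265460996) (nat_lit 2) (N E (nat_lit 2225269153988) (nat_lit 2) E)))) (nat_lit 2225269156100) (nat_lit 2) (N (N (N (N (N E (nat_lit 2225269213264) (nat_lit 2) E) (nat_lit 2225270166788) (nat_lit 2) E) (nat_lit 2225270294608) (nat_lit 2) (N E (nat_lit 2225271539460) (nat_lit 2) E)) (nat_lit 2225272001796) (nat_lit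 2) (N (N E (nat_lit 2225272129616) (nat_lit 2) E) (nat_lit 2226137863428) (nat_lit 2) (N E (nat_lit 2226137991248) (nat_lit 2) E))) (nat_lit 2226203410692) (nat_lit 2) (N (N (N E (nat_lit 2226203435088) (nat_lit 2) E) (nat_lit 2228035297360) (nat_lit 2) (N E (nat_lit 2229109039188) (nat_lit 2) E)) (nat_lit 2229109041232) (nat_lit 2) (N (N E (nat_lit 2229110063364) (nat_lit 2) E) (nat_lit 2229110087760) (nat_lit 2) (N E (nat_lit 2229633419344) (nat_lit 2) E))))) (nat_lit 2229645910096) (nat_lit 2) (N (N (N (N (N (N E (nat_lit 2233551565060) (nat_lit 2) E) (nat_lit 2233551700228) (nat_lit 2) E) (nat_lit 2233551929604) (nat_lit 2) (N E (nat_lit 2233553392668) (nat_lit 2) E)) (nat_lit 2233553399892) (nat_lit 2) (N (N E (nat_lit 2233553401936) (nat_lit 2) E) (nat_lit 2233557098580) (nat_lit 2) (N E (nat_lit 2233557100624) (nat_lit 2) E))) (nat_lit 2233558122756) (nat_lit 2) (N (N (N E (nat_lit 2233558147152) (nat_lit 2) E) (nat_lit 2233788273692) (nat_lit 1) (N E (nat_lit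 2233788273748) (nat_lit 2) E)) (nat_lit 2233788280916) (nat_lit 1) (N (N E (nat_lit 2233788281052) (nat_lit 2) E) (nat_lit 2233788281092) (nat_lit 2) (N E (nat_lit 2233788282396) (nat_lit 2) E)))) (nat_lit 2233788282912) (nat_lit 2) (N (N (N (N (N E (nat_lit 2233788282960) (nat_lit 1) E) (nat_lit 2233788283075) (nat_lit 2) E) (nat_lit 2233788283096) (nat_lit 2) (N E (nat_lit 2233788283108) (nat_lit 2) E)) (nat_lit 2233788283164) (nat_lit 2) (N (N E (nat_lit 2233788309588) (nat_lit 2) E) (nat_lit 2233788311632) (nat_lit 2) (N E (nat_lit 2233788416260) (nat_lit 2) E))) (nat_lit 2233791979604) (nat_lit 1) (N (N (N E (nat_lit 2233791979740) (nat_lit 2) E) (nat_lit 2233791979780) (nat_lit 2) (N E (nat_lit 2233791981084) (nat_lit 2) E)) (nat_lit 2233791981600) (nat_lit 2) (N (N E (nat_lit 2233791981648) (nat_lit 1) E) (nat_lit 2233791981763) (nat_lit 2) (N E (nat_lit 2233791981784) (nat_lit 2) E))))))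
 (nat_lit 2233791981796) (nat_lit 2) (N (N (N (N (N (N (N E (nat_lit 2233791981852) (nat_lit 2) E) (nat_lit 2233792042012) (nat_lit 2) E) (nat_lit 2233792049236) (nat_lit 2) (N E (nat_lit 2233792051280) (nat_lit 2) E)) (nat_lit 2233792071760) (nat_lit 2) (N (N E (nat_lit 2233792730140) (nat_lit 2) E) (nat_lit 2233792737364) (nat_lit 2) (N E (nat_lit 2233792739408) (nat_lit 2) E))) (nat_lit 2233793003600) (nat_lit 2) (N (N (N E (nat_lit 2233793003780) (nat_lit 1) E) (nat_lit 2233793028176) (nat_lit 1) (N E (nat_lit 2233793028291) (nat_lit 2) E)) (nat_lit 2233793028312) (nat_lit 2) (N (N E (nat_lit 2233793028324) (nat_lit 2) E) (nat_lit 2233793028380) (nat_lit 2) (N E (nat_lit 2233793086083) (nat_lit 2) E)))) (nat_lit 2233793086104) (nat_lit 2) (N (N (N (N (N E (nat_lit 2233793086116) (nat_lit 2) E) (nat_lit 2233793087056) (nat_lit 2) E) (nat_lit 2233793097808) (nat_lit 2) (N E (nat_lit 2233793101908) (nat_lit 2) E)) (nat_lit 2233793103952) (nat_lit 2) (N (N E (nat_lit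 2233793123356) (nat_lit 2) E) (nat_lit 2233793130580) (nat_lit 2) (N E (nat_lit 2233793132624) (nat_lit 2) E))) (nat_lit 2233806659668) (nat_lit 2) (N (N (N E (nat_lit 2233806661712) (nat_lit 2) E) (nat_lit 2233807683844) (nat_lit 2) (N E (nat_lit 2233807708240) (nat_lit 2) E)) (nat_lit 2233853100292) (nat_lit 2) (N (N E (nat_lit 2233861277776) (nat_lit 2) E) (nat_lit 2233922498756) (nat_lit 2) (N E (nat_lit 2233922500868) (nat_lit 2) E))))) (nat_lit 2233922504452) (nat_lit 2) (N (N (N (N (N (N E (nat_lit 2233922601220) (nat_lit 2) E) (nat_lit 2233926197444) (nat_lit 2) E) (nat_lit 2233926197472) (nat_lit 2) (N E (nat_lit 2233926199556) (nat_lit 2) E)) (nat_lit 2233926255236) (nat_lit 2) (N (N E (nat_lit 2233926255264) (nat_lit 2) E) (nat_lit 2233926256720) (nat_lit 2) (N E (nat_lit 2233926271056) (nat_lit 2) E))) (nat_lit 2233926271236) (nat_lit 1) (N (N (N E (nat_lit 2233926500612) (nat_lit 2) E) (nat_lit 2233927210244) (nat_lit 2) (N E (nat_lit 2233927338064)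 (nat_lit 2) E)) (nat_lit 2233928294480) (nat_lit 1) (N (N E (nat_lit 2233928294595) (nat_lit 2) E) (nat_lit 2233928294616) (nat_lit 2) (N E (nat_lit 2233928294628) (nat_lit 2) E)))) (nat_lit 2233928294684) (nat_lit 2) (N (N (N (N (N E (nat_lit 2233928296196) (nat_lit 2) E) (nat_lit 2233928352387) (nat_lit 2) E) (nat_lit 2233928352408) (nat_lit 2) (N E (nat_lit 2233928352420) (nat_lit 2) E)) (nat_lit 2233928353290) (nat_lit 2) (N (N E (nat_lit 2233928353360) (nat_lit 2) E) (nat_lit 2233928353540) (nat_lit 1) (N E (nat_lit 2233928357124) (nat_lit 2) E))) (nat_lit 2233928364112) (nat_lit 2) (N (N (N E (nat_lit 2233928368212) (nat_lit 2) E) (nat_lit 2233928370256) (nat_lit 2) (N E (nat_lit 2233928385180) (nat_lit 2) E)) (nat_lit 2233928386076) (nat_lit 1) (N (N E (nat_lit 2233928386132) (nat_lit 2) E) (nat_lit 2233928386592) (nat_lit 1) (N E (nat_lit 2233928386640) (nat_lit 0) E))))))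
)
 (nat_lit 2233928386643) (nat_lit 2) (N (N (N (N (N (N (N (N E (nat_lit 2233928386755) (nat_lit 1) E) (nat_lit 2233928386762) (nat_lit 2) E) (nat_lit 2233928386776) (nat_lit 1) (N E (nat_lit 2233928386788) (nat_lit 1) E)) (nat_lit 2233928386844) (nat_lit 1) (N (N E (nat_lit 2233928389660) (nat_lit 2) E) (nat_lit 2233928389667) (nat_lit 2) (N E (nat_lit 2233928389828) (nat_lit 2) E))) (nat_lit 2233928396884) (nat_lit 2) (N (N (N E (nat_lit 2233928396996) (nat_lit 1) E) (nat_lit 2233928397444) (nat_lit 2) (N E (nat_lit 2233928398858) (nat_lit 2) E)) (nat_lit 2233928398928) (nat_lit 2) (N (N E (nat_lit 2233928399108) (nat_lit 1) E) (nat_lit 2233928401539) (nat_lit 2) (N E (nat_lit 2233928402442) (nat_lit 2) E)))) (nat_lit 2233928402692) (nat_lit 1) (N (N (N (N (N E (nat_lit 2233928582680) (nat_lit 2) E) (nat_lit 2233928582916) (nat_lit 2) E) (nat_lit 2233928582944) (nat_lit 2) (N E (nat_lit 2233928583364) (nat_lit 2) E)) (nat_lit 2233928583392) (nat_lit 2) (N (N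 E (nat_lit 2233928593668) (nat_lit 2) E) (nat_lit 2233929045016) (nat_lit 2) (N E (nat_lit 2233929045252) (nat_lit 2) E))) (nat_lit 2233929045280) (nat_lit 2) (N (N (N E (nat_lit 2233929052240) (nat_lit 2) E) (nat_lit 2233929052420) (nat_lit 1) (N E (nat_lit 2233929081092) (nat_lit 2) E)) (nat_lit 2233929171588) (nat_lit 2) (N (N E (nat_lit 2233929171616) (nat_lit 2) E) (nat_lit 2233929173072) (nat_lit 2) (N E (nat_lit 2233929187408) (nat_lit 2) E))))) (nat_lit 2233929187588) (nat_lit 1) (N (N (N (N (N (N E (nat_lit 2233929343172) (nat_lit 2) E) (nat_lit 2233929343200) (nat_lit 2) E) (nat_lit 2233929400964) (nat_lit 2) (N E (nat_lit 2233929400992) (nat_lit 2) E)) (nat_lit 2233929402448) (nat_lit 2) (N (N E (nat_lit 2233929416784) (nat_lit 2) E) (nat_lit 2233929416964) (nat_lit 1) (N E (nat_lit 2233940877392) (nat_lit 0) E))) (nat_lit 2233940877395) (nat_lit 2) (N (N (N E (nat_lit 2233940877507) (nat_lit 1) E) (nat_lit 2233940877514) (nat_lit 2) (N E (nat_lit 2233940877528)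 (nat_lit 1) E)) (nat_lit 2233940877540) (nat_lit 1) (N (N E (nat_lit 2233940877596) (nat_lit 1) E) (nat_lit 2233940877955) (nat_lit 2) (N E (nat_lit 2233940877976) (nat_lit 2) E)))) (nat_lit 2233940877988) (nat_lit 2) (N (N (N (N (N E (nat_lit 2233940878928) (nat_lit 2) E) (nat_lit 2233940935299) (nat_lit 1) E) (nat_lit 2233940935306) (nat_lit 2) (N E (nat_lit 2233940935320) (nat_lit 1) E)) (nat_lit 2233940935332) (nat_lit 1) (N (N E (nat_lit 2233940936224) (nat_lit 2) E) (nat_lit 2233940936272) (nat_lit 1) (N E (nat_lit 2233940936387) (nat_lit 2) E))) (nat_lit 2233940936408) (nat_lit 2) (N (N (N E (nat_lit 2233940936420) (nat_lit 2) E) (nat_lit 2233940936476) (nat_lit 2) (N E (nat_lit 2233940939856) (nat_lit 2) E)) (nat_lit 2233940947024) (nat_lit 1) (N (N E (nat_lit 2233940947139) (nat_lit 2) E) (nat_lit 2233940947160) (nat_lit 2) (N E (nat_lit 2233940947172) (nat_lit 2) E))))))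
 (nat_lit 2233940947228) (nat_lit 2) (N (N (N (N (N (N (N E (nat_lit 2233940951124) (nat_lit 1) E) (nat_lit 2233940951260) (nat_lit 2) E) (nat_lit 2233940951300) (nat_lit 2) (N E (nat_lit 2233940952604) (nat_lit 2) E)) (nat_lit 2233940953120) (nat_lit 2) (N (N E (nat_lit 2233940953168) (nat_lit 1) E) (nat_lit 2233940953283) (nat_lit 2) (N E (nat_lit 2233940953304) (nat_lit 2) E))) (nat_lit 2233940953316) (nat_lit 2) (N (N (N E (nat_lit 2233940953372) (nat_lit 2) E) (nat_lit 2233940972572) (nat_lit 1) (N E (nat_lit 2233940972628) (nat_lit 2) E)) (nat_lit 2233940979796) (nat_lit 1) (N (N E (nat_lit 2233940979932) (nat_lit 2) E) (nat_lit 2233940979972) (nat_lit 2) (N E (nat_lit 2233940981276) (nat_lit 2) E)))) (nat_lit 2233940981792) (nat_lit 2) (N (N (N (N (N E (nat_lit 2233940981840) (nat_lit 1) E) (nat_lit 2233940981955) (nat_lit 2) E) (nat_lit 2233940981976) (nat_lit 2) (N E (nat_lit 2233940981988) (nat_lit 2) E)) (nat_lit 2233940982044) (nat_lit 2) (N (N E (nat_lit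 2233941164675) (nat_lit 2) E) (nat_lit 2233941164696) (nat_lit 2) (N E (nat_lit 2233941164708) (nat_lit 2) E))) (nat_lit 2233941165648) (nat_lit 2) (N (N (N E (nat_lit 2233941176400) (nat_lit 2) E) (nat_lit 2233941180500) (nat_lit 2) (N E (nat_lit 2233941182544) (nat_lit 2) E)) (nat_lit 2233941639428) (nat_lit 2) (N (N E (nat_lit 2233941663824) (nat_lit 2) E) (nat_lit 2233970524803) (nat_lit 1) (N E (nat_lit 2233970524810) (nat_lit 2) E))))) (nat_lit 2233970524824) (nat_lit 1) (N (N (N (N (N (N E (nat_lit 2233970524836) (nat_lit 1) E) (nat_lit 2233970525728) (nat_lit 2) E) (nat_lit 2233970525776) (nat_lit 1) (N E (nat_lit 2233970525891) (nat_lit 2) E)) (nat_lit 2233970525912) (nat_lit 2) (N (N E (nat_lit 2233970525924) (nat_lit 2) E) (nat_lit 2233970525980) (nat_lit 2) (N E (nat_lit 2233970529360) (nat_lit 2) E))) (nat_lit 2233970536528) (nat_lit 1) (N (N (N E (nat_lit 2233970536643) (nat_lit 2) E) (nat_lit 2233970536664) (nat_lit 2) (N E (nat_lit 2233970536676)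 (nat_lit 2) E)) (nat_lit 2233970536732) (nat_lit 2) (N (N E (nat_lit 2233970540628) (nat_lit 1) E) (nat_lit 2233970540764) (nat_lit 2) (N E (nat_lit 2233970540804) (nat_lit 2) E)))) (nat_lit 2233970542108) (nat_lit 2) (N (N (N (N (N E (nat_lit 2233970542624) (nat_lit 2) E) (nat_lit 2233970542672) (nat_lit 1) E) (nat_lit 2233970542787) (nat_lit 2) (N E (nat_lit 2233970542808) (nat_lit 2) E)) (nat_lit 2233970542820) (nat_lit 2) (N (N E (nat_lit 2233970542876) (nat_lit 2) E) (nat_lit 2233970999376) (nat_lit 2) (N E (nat_lit 2233970999556) (nat_lit 1) E))) (nat_lit 2233971023952) (nat_lit 1) (N (N (N E (nat_lit 2233971024067) (nat_lit 2) E) (nat_lit 2233971024088) (nat_lit 2) (N E (nat_lit 2233971024100) (nat_lit 2) E)) (nat_lit 2233971024156) (nat_lit 2) (N (N E (nat_lit 2233971081859) (nat_lit 2) E) (nat_lit 2233971081880) (nat_lit 2) (N E (nat_lit 2233971081892) (nat_lit 2) E))))))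
)
)
 (nat_lit 2233971082832) (nat_lit 2) (N (N (N (N (N (N (N (N (N E (nat_lit 2233971093584) (nat_lit 2) E) (nat_lit 2233971097684) (nat_lit 2) E) (nat_lit 2233971099728) (nat_lit 2) (N E (nat_lit 2233971119132) (nat_lit 2) E)) (nat_lit 2233971126356) (nat_lit 2) (N (N E (nat_lit 2233971128400) (nat_lit 2) E) (nat_lit 2233972834564) (nat_lit 2) (N E (nat_lit 2233972858960) (nat_lit 2) E))) (nat_lit 2233976528976) (nat_lit 1) (N (N (N E (nat_lit 2233976529091) (nat_lit 2) E) (nat_lit 2233976529112) (nat_lit 2) (N E (nat_lit 2233976529124) (nat_lit 2) E)) (nat_lit 2233976529180) (nat_lit 2) (N (N E (nat_lit 2233976586883) (nat_lit 2) E) (nat_lit 2233976586904) (nat_lit 2) (N E (nat_lit 2233976586916) (nat_lit 2) E)))) (nat_lit 2233976587856) (nat_lit 2) (N (N (N (N (N E (nat_lit 2233976598608) (nat_lit 2) E) (nat_lit 2233976602708) (nat_lit 2) E) (nat_lit 2233976604752) (nat_lit 2) (N E (nat_lit 2233976624156) (nat_lit 2) E)) (nat_lit 2233976631380) (nat_lit 2)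 (N (N E (nat_lit 2233976633424) (nat_lit 2) E) (nat_lit 2233978626132) (nat_lit 1) (N E (nat_lit 2233978626268) (nat_lit 2) E))) (nat_lit 2233978626308) (nat_lit 2) (N (N (N E (nat_lit 2233978627612) (nat_lit 2) E) (nat_lit 2233978628128) (nat_lit 2) (N E (nat_lit 2233978628176) (nat_lit 1) E)) (nat_lit 2233978628291) (nat_lit 2) (N (N E (nat_lit 2233978628312) (nat_lit 2) E) (nat_lit 2233978628324) (nat_lit 2) (N E (nat_lit 2233978628380) (nat_lit 2) E))))) (nat_lit 2233978688540) (nat_lit 2) (N (N (N (N (N (N E (nat_lit 2233978695764) (nat_lit 2) E) (nat_lit 2233978697808) (nat_lit 2) E) (nat_lit 2233978718288) (nat_lit 2) (N E (nat_lit 2233979376668) (nat_lit 2) E)) (nat_lit 2233979383892) (nat_lit 2) (N (N E (nat_lit 2233979385936) (nat_lit 2) E) (nat_lit 2233979650128) (nat_lit 2) (N E (nat_lit 2233979650308) (nat_lit 1) E))) (nat_lit 2233979674704) (nat_lit 1) (N (N (N E (nat_lit 2233979674819) (nat_lit 2) E) (nat_lit 2233979674840) (nat_lit 2) (N E (nat_lit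 2233979674852) (nat_lit 2) E)) (nat_lit 2233979674908) (nat_lit 2) (N (N E (nat_lit 2233979732611) (nat_lit 2) E) (nat_lit 2233979732632) (nat_lit 2) (N E (nat_lit 2233979732644) (nat_lit 2) E)))) (nat_lit 2233979733584) (nat_lit 2) (N (N (N (N (N E (nat_lit 2233979744336) (nat_lit 2) E) (nat_lit 2233979748436) (nat_lit 2) E) (nat_lit 2233979750480) (nat_lit 2) (N E (nat_lit 2233979769884) (nat_lit 2) E)) (nat_lit 2233979777108) (nat_lit 2) (N (N E (nat_lit 2233979779152) (nat_lit 2) E) (nat_lit 2233989600284) (nat_lit 1) (N E (nat_lit 2233989600340) (nat_lit 2) E))) (nat_lit 2233989607508) (nat_lit 1) (N (N (N E (nat_lit 2233989607644) (nat_lit 2) E) (nat_lit 2233989607684) (nat_lit 2) (N E (nat_lit 2233989608988) (nat_lit 2) E)) (nat_lit 2233989609504) (nat_lit 2) (N (N E (nat_lit 2233989609552) (nat_lit 1) E) (nat_lit 2233989609667) (nat_lit 2) (N E (nat_lit 2233989609688) (nat_lit 2) E))))))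
 (nat_lit 2233989609700) (nat_lit 2) (N (N (N (N (N (N (N E (nat_lit 2233989609756) (nat_lit 2) E) (nat_lit 2233989636180) (nat_lit 2) E) (nat_lit 2233989638224) (nat_lit 2) (N E (nat_lit 2233993306196) (nat_lit 1) E)) (nat_lit 2233993306332) (nat_lit 2) (N (N E (nat_lit 2233993306372) (nat_lit 2) E) (nat_lit 2233993307676) (nat_lit 2) (N E (nat_lit 2233993308192) (nat_lit 2) E))) (nat_lit 2233993308240) (nat_lit 1) (N (N (N E (nat_lit 2233993308355) (nat_lit 2) E) (nat_lit 2233993308376) (nat_lit 2) (N E (nat_lit 2233993308388) (nat_lit 2) E)) (nat_lit 2233993308444) (nat_lit 2) (N (N E (nat_lit 2233993368604) (nat_lit 2) E) (nat_lit 2233993375828) (nat_lit 2) (N E (nat_lit 2233993377872) (nat_lit 2) E)))) (nat_lit 2233993398352) (nat_lit 2) (N (N (N (N (N E (nat_lit 2233994056732) (nat_lit 2) E) (nat_lit 2233994063956) (nat_lit 2) E) (nat_lit 2233994066000) (nat_lit 2) (N E (nat_lit 2233994330192) (nat_lit 2) E)) (nat_lit 2233994330372) (nat_lit 1) (N (N E (nat_lit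 2233994354768) (nat_lit 1) E) (nat_lit 2233994354883) (nat_lit 2) (N E (nat_lit 2233994354904) (nat_lit 2) E))) (nat_lit 2233994354916) (nat_lit 2) (N (N (N E (nat_lit 2233994354972) (nat_lit 2) E) (nat_lit 2233994412675) (nat_lit 2) (N E (nat_lit 2233994412696) (nat_lit 2) E)) (nat_lit 2233994412708) (nat_lit 2) (N (N E (nat_lit 2233994413648) (nat_lit 2) E) (nat_lit 2233994424400) (nat_lit 2) (N E (nat_lit 2233994428500) (nat_lit 2) E))))) (nat_lit 2233994430544) (nat_lit 2) (N (N (N (N (N (N E (nat_lit 2233994449948) (nat_lit 2) E) (nat_lit 2233994457172) (nat_lit 2) E) (nat_lit 2233994459216) (nat_lit 2) (N E (nat_lit 2234727797788) (nat_lit 2) E)) (nat_lit 2234727797795) (nat_lit 2) (N (N E (nat_lit 2234727797956) (nat_lit 2) E) (nat_lit 2234727805012) (nat_lit 2) (N E (nat_lit 2234727805124) (nat_lit 1) E))) (nat_lit 2234727805572) (nat_lit 2) (N (N (N E (nat_lit 2234727806986) (nat_lit 2) E) (nat_lit 2234727807056) (nat_lit 2) (N E (nat_lit 2234727807236)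 (nat_lit 1) E)) (nat_lit 2234727809667) (nat_lit 2) (N (N E (nat_lit 2234727810570) (nat_lit 2) E) (nat_lit 2234727810820) (nat_lit 1) (N E (nat_lit 2234727833796) (nat_lit 2) E)))) (nat_lit 2234727835908) (nat_lit 2) (N (N (N (N (N E (nat_lit 2234727893072) (nat_lit 2) E) (nat_lit 2234731503700) (nat_lit 2) E) (nat_lit 2234731503812) (nat_lit 1) (N E (nat_lit 2234731504260) (nat_lit 2) E)) (nat_lit 2234731505674) (nat_lit 2) (N (N E (nat_lit 2234731505744) (nat_lit 2) E) (nat_lit 2234731505924) (nat_lit 1) (N E (nat_lit 2234731562524) (nat_lit 2) E))) (nat_lit 2234731563040) (nat_lit 2) (N (N (N E (nat_lit 2234731563088) (nat_lit 1) E) (nat_lit 2234731563203) (nat_lit 2) (N E (nat_lit 2234731563224) (nat_lit 2) E)) (nat_lit 2234731563236) (nat_lit 2) (N (N E (nat_lit 2234731563292) (nat_lit 2) E) (nat_lit 2234731573444) (nat_lit 2) (N E (nat_lit 2234731575556) (nat_lit 2) E))))))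
)
 (nat_lit 2234731579140) (nat_lit 2) (N (N (N (N (N (N (N (N E (nat_lit 2234731792464) (nat_lit 2) E) (nat_lit 2234732261572) (nat_lit 2) E) (nat_lit 2234732263684) (nat_lit 2) (N E (nat_lit 2234732267268) (nat_lit 2) E)) (nat_lit 2234732516362) (nat_lit 2) (N (N E (nat_lit 2234732516612) (nat_lit 1) E) (nat_lit 2234732525316) (nat_lit 2) (N E (nat_lit 2234732527876) (nat_lit 2) E))) (nat_lit 2234732552272) (nat_lit 2) (N (N (N E (nat_lit 2234732611332) (nat_lit 2) E) (nat_lit 2234732643868) (nat_lit 2) (N E (nat_lit 2234732644384) (nat_lit 2) E)) (nat_lit 2234732644432) (nat_lit 1) (N (N E (nat_lit 2234732644547) (nat_lit 2) E) (nat_lit 2234732644568) (nat_lit 2) (N E (nat_lit 2234732644580) (nat_lit 2) E)))) (nat_lit 2234732644636) (nat_lit 2) (N (N (N (N (N E (nat_lit 2234732654788) (nat_lit 2) E) (nat_lit 2234732656900) (nat_lit 2) E) (nat_lit 2234732660484) (nat_lit 2) (N E (nat_lit 2234733888131) (nat_lit 2) E)) (nat_lit 2234733889034) (nat_lit 2) (N (N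 E (nat_lit 2234733889284) (nat_lit 1) E) (nat_lit 2234733892868) (nat_lit 2) (N E (nat_lit 2234734351370) (nat_lit 2) E))) (nat_lit 2234734351620) (nat_lit 1) (N (N (N E (nat_lit 2234734360324) (nat_lit 2) E) (nat_lit 2234734362884) (nat_lit 2) (N E (nat_lit 2234734446340) (nat_lit 2) E)) (nat_lit 2234734478876) (nat_lit 2) (N (N E (nat_lit 2234734479392) (nat_lit 2) E) (nat_lit 2234734479440) (nat_lit 1) (N E (nat_lit 2234734479555) (nat_lit 2) E))))) (nat_lit 2234734479576) (nat_lit 2) (N (N (N (N (N (N E (nat_lit 2234734479588) (nat_lit 2) E) (nat_lit 2234734479644) (nat_lit 2) E) (nat_lit 2234734489796) (nat_lit 2) (N E (nat_lit 2234734491908) (nat_lit 2) E)) (nat_lit 2234734495492) (nat_lit 2) (N (N E (nat_lit 2234746183876) (nat_lit 2) E) (nat_lit 2234746185988) (nat_lit 2) (N E (nat_lit 2234746243152) (nat_lit 2) E))) (nat_lit 2234747196676) (nat_lit 2) (N (N (N E (nat_lit 2234747324496) (nat_lit 2) E) (nat_lit 2234776568068) (nat_lit 2) (N E (nat_lit 2234776592464)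 (nat_lit 2) E)) (nat_lit 2236625231956) (nat_lit 2) (N (N E (nat_lit 2236625232068) (nat_lit 1) E) (nat_lit 2236625232516) (nat_lit 2) (N E (nat_lit 2236625233930) (nat_lit 2) E)))) (nat_lit 2236625234000) (nat_lit 2) (N (N (N (N (N E (nat_lit 2236625234180) (nat_lit 1) E) (nat_lit 2236625290780) (nat_lit 2) E) (nat_lit 2236625291296) (nat_lit 2) (N E (nat_lit 2236625291344) (nat_lit 1) E)) (nat_lit 2236625291459) (nat_lit 2) (N (N E (nat_lit 2236625291480) (nat_lit 2) E) (nat_lit 2236625291492) (nat_lit 2) (N E (nat_lit 2236625291548) (nat_lit 2) E))) (nat_lit 2236625301700) (nat_lit 2) (N (N (N E (nat_lit 2236625303812) (nat_lit 2) E) (nat_lit 2236625307396) (nat_lit 2) (N E (nat_lit 2236625520720) (nat_lit 2) E)) (nat_lit 2236625989828) (nat_lit 2) (N (N E (nat_lit 2236625991940) (nat_lit 2) E) (nat_lit 2236625995524) (nat_lit 2) (N E (nat_lit 2236626244618) (nat_lit 2) E))))))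
 (nat_lit 2236626244868) (nat_lit 1) (N (N (N (N (N (N (N E (nat_lit 2236626253572) (nat_lit 2) E) (nat_lit 2236626256132) (nat_lit 2) E) (nat_lit 2236626280528) (nat_lit 2) (N E (nat_lit 2236626339588) (nat_lit 2) E)) (nat_lit 2236626372124) (nat_lit 2) (N (N E (nat_lit 2236626372640) (nat_lit 2) E) (nat_lit 2236626372688) (nat_lit 1) (N E (nat_lit 2236626372803) (nat_lit 2) E))) (nat_lit 2236626372824) (nat_lit 2) (N (N (N E (nat_lit 2236626372836) (nat_lit 2) E) (nat_lit 2236626372892) (nat_lit 2) (N E (nat_lit 2236626383044) (nat_lit 2) E)) (nat_lit 2236626385156) (nat_lit 2) (N (N E (nat_lit 2236626388740) (nat_lit 2) E) (nat_lit 2236655342620) (nat_lit 2) (N E (nat_lit 2236655349844) (nat_lit 2) E)))) (nat_lit 2236655351888) (nat_lit 2) (N (N (N (N (N E (nat_lit 2236655616080) (nat_lit 2) E) (nat_lit 2236655616260) (nat_lit 1) E) (nat_lit 2236655640656) (nat_lit 1) (N E (nat_lit 2236655640771) (nat_lit 2) E)) (nat_lit 2236655640792) (nat_lit 2) (N (N E (nat_lit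 2236655640804) (nat_lit 2) E) (nat_lit 2236655640860) (nat_lit 2) (N E (nat_lit 2236655698563) (nat_lit 2) E))) (nat_lit 2236655698584) (nat_lit 2) (N (N (N E (nat_lit 2236655698596) (nat_lit 2) E) (nat_lit 2236655699536) (nat_lit 2) (N E (nat_lit 2236655710288) (nat_lit 2) E)) (nat_lit 2236655714388) (nat_lit 2) (N (N E (nat_lit 2236655716432) (nat_lit 2) E) (nat_lit 2236655735836) (nat_lit 2) (N E (nat_lit 2236655743060) (nat_lit 2) E))))) (nat_lit 2236655745104) (nat_lit 2) (N (N (N (N (N (N E (nat_lit 2236657184964) (nat_lit 2) E) (nat_lit 2236657187076) (nat_lit 2) E) (nat_lit 2236657190660) (nat_lit 2) (N E (nat_lit 2236660883652) (nat_lit 2) E)) (nat_lit 2236660885764) (nat_lit 2) (N (N E (nat_lit 2236660942928) (nat_lit 2) E) (nat_lit 2236661896452) (nat_lit 2) (N E (nat_lit 2236662024272) (nat_lit 2) E))) (nat_lit 2236663269124) (nat_lit 2) (N (N (N E (nat_lit 2236663731460) (nat_lit 2) E) (nat_lit 2236663859280) (nat_lit 2) (N E (nat_lit 2236773056772)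 (nat_lit 2) E)) (nat_lit 2236773081168) (nat_lit 2) (N (N E (nat_lit 2237009506500) (nat_lit 2) E) (nat_lit 2237009508612) (nat_lit 2) (N E (nat_lit 2237009512196) (nat_lit 2) E)))) (nat_lit 2237013205188) (nat_lit 2) (N (N (N (N E (nat_lit 2237013207300) (nat_lit 2) E) (nat_lit 2237013264464) (nat_lit 2) (N E (nat_lit 2237014217988) (nat_lit 2) E)) (nat_lit 2237014345808) (nat_lit 2) (N (N E (nat_lit 2237015590660) (nat_lit 2) E) (nat_lit 2237016052996) (nat_lit 2) (N E (nat_lit 2237016180816) (nat_lit 2) E))) (nat_lit 2237143716874) (nat_lit 2) (N (N (N E (nat_lit 2237143717124) (nat_lit 1) E) (nat_lit 2237143725828) (nat_lit 2) (N E (nat_lit 2237143728388) (nat_lit 2) E)) (nat_lit 2237143811844) (nat_lit 2) (N (N E (nat_lit 2237143844380) (nat_lit 2) E) (nat_lit 2237143844896) (nat_lit 2) (N E (nat_lit 2237143844944) (nat_lit 1) E))))))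
)
)
)
 (nat_lit 2237143845059) (nat_lit 2) (N (N (N (N (N (N (N (N (N (N E (nat_lit 2237143845080) (nat_lit 2) E) (nat_lit 2237143845092) (nat_lit 2) E) (nat_lit 2237143845148) (nat_lit 2) (N E (nat_lit 2237143855300) (nat_lit 2) E)) (nat_lit 2237143857412) (nat_lit 2) (N (N E (nat_lit 2237143860996) (nat_lit 2) E) (nat_lit 2237147711236) (nat_lit 2) (N E (nat_lit 2237148173572) (nat_lit 2) E))) (nat_lit 2237148301392) (nat_lit 2) (N (N (N E (nat_lit 2237149612112) (nat_lit 2) E) (nat_lit 2237162102864) (nat_lit 2) (N E (nat_lit 2237191751428) (nat_lit 2) E)) (nat_lit 2237192213764) (nat_lit 2) (N (N E (nat_lit 2237192341584) (nat_lit 2) E) (nat_lit 2237208990748) (nat_lit 2) (N E (nat_lit 2237208997972) (nat_lit 2) E)))) (nat_lit 2237209000016) (nat_lit 2) (N (N (N (N (N E (nat_lit 2237209264208) (nat_lit 2) E) (nat_lit 2237209264388) (nat_lit 1) E) (nat_lit 2237209288784) (nat_lit 1) (N E (nat_lit 2237209288899) (nat_lit 2) E)) (nat_lit 2237209288920) (nat_lit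 2) (N (N E (nat_lit 2237209288932) (nat_lit 2) E) (nat_lit 2237209288988) (nat_lit 2) (N E (nat_lit 2237209346691) (nat_lit 2) E))) (nat_lit 2237209346712) (nat_lit 2) (N (N (N E (nat_lit 2237209346724) (nat_lit 2) E) (nat_lit 2237209347664) (nat_lit 2) (N E (nat_lit 2237209358416) (nat_lit 2) E)) (nat_lit 2237209362516) (nat_lit 2) (N (N E (nat_lit 2237209364560) (nat_lit 2) E) (nat_lit 2237209383964) (nat_lit 2) (N E (nat_lit 2237209391188) (nat_lit 2) E))))) (nat_lit 2237209393232) (nat_lit 2) (N (N (N (N (N (N E (nat_lit 2237210833092) (nat_lit 2) E) (nat_lit 2237210835204) (nat_lit 2) E) (nat_lit 2237210838788) (nat_lit 2) (N E (nat_lit 2237214531780) (nat_lit 2) E)) (nat_lit 2237214533892) (nat_lit 2) (N (N E (nat_lit 2237214591056) (nat_lit 2) E) (nat_lit 2237215544580) (nat_lit 2) (N E (nat_lit 2237215672400) (nat_lit 2) E))) (nat_lit 2237216917252) (nat_lit 2) (N (N (N E (nat_lit 2237217379588) (nat_lit 2) E) (nat_lit 2237217507408) (nat_lit 2) (N E (nat_lit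 2237846061699) (nat_lit 2) E)) (nat_lit 2237846062602) (nat_lit 2) (N (N E (nat_lit 2237846062852) (nat_lit 1) E) (nat_lit 2237846066436) (nat_lit 2) (N E (nat_lit 2237846524938) (nat_lit 2) E)))) (nat_lit 2237846525188) (nat_lit 1) (N (N (N (N (N E (nat_lit 2237846533892) (nat_lit 2) E) (nat_lit 2237846536452) (nat_lit 2) E) (nat_lit 2237846619908) (nat_lit 2) (N E (nat_lit 2237846652444) (nat_lit 2) E)) (nat_lit 2237846652960) (nat_lit 2) (N (N E (nat_lit 2237846653008) (nat_lit 1) E) (nat_lit 2237846653123) (nat_lit 2) (N E (nat_lit 2237846653144) (nat_lit 2) E))) (nat_lit 2237846653156) (nat_lit 2) (N (N (N E (nat_lit 2237846653212) (nat_lit 2) E) (nat_lit 2237846663364) (nat_lit 2) (N E (nat_lit 2237846665476) (nat_lit 2) E)) (nat_lit 2237846669060) (nat_lit 2) (N (N E (nat_lit 2237848360196) (nat_lit 2) E) (nat_lit 2237848488016) (nat_lit 2) (N E (nat_lit 2238083240970) (nat_lit 2) E))))))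
 (nat_lit 2238083241220) (nat_lit 1) (N (N (N (N (N (N (N E (nat_lit 2238083249924) (nat_lit 2) E) (nat_lit 2238083252484) (nat_lit 2) E) (nat_lit 2238083335940) (nat_lit 2) (N E (nat_lit 2238083368476) (nat_lit 2) E)) (nat_lit 2238083368992) (nat_lit 2) (N (N E (nat_lit 2238083369040) (nat_lit 1) E) (nat_lit 2238083369155) (nat_lit 2) (N E (nat_lit 2238083369176) (nat_lit 2) E))) (nat_lit 2238083369188) (nat_lit 2) (N (N (N E (nat_lit 2238083369244) (nat_lit 2) E) (nat_lit 2238083379396) (nat_lit 2) (N E (nat_lit 2238083381508) (nat_lit 2) E)) (nat_lit 2238083385092) (nat_lit 2) (N (N E (nat_lit 2238087235332) (nat_lit 2) E) (nat_lit 2238087697668) (nat_lit 2) (N E (nat_lit 2238087825488) (nat_lit 2) E)))) (nat_lit 2238089136208) (nat_lit 2) (N (N (N (N (N E (nat_lit 2238131275524) (nat_lit 2) E) (nat_lit 2238131737860) (nat_lit 2) E) (nat_lit 2238131865680) (nat_lit 2) (N E (nat_lit 2238148514844) (nat_lit 2) E)) (nat_lit 2238148522068) (nat_lit 2) (N (N E (nat_lit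 2238148524112) (nat_lit 2) E) (nat_lit 2238148788304) (nat_lit 2) (N E (nat_lit 2238148788484) (nat_lit 1) E))) (nat_lit 2238148812880) (nat_lit 1) (N (N (N E (nat_lit 2238148812995) (nat_lit 2) E) (nat_lit 2238148813016) (nat_lit 2) (N E (nat_lit 2238148813028) (nat_lit 2) E)) (nat_lit 2238148813084) (nat_lit 2) (N (N E (nat_lit 2238148870787) (nat_lit 2) E) (nat_lit 2238148870808) (nat_lit 2) (N E (nat_lit 2238148870820) (nat_lit 2) E))))) (nat_lit 2238148871760) (nat_lit 2) (N (N (N (N (N (N E (nat_lit 2238148882512) (nat_lit 2) E) (nat_lit 2238148886612) (nat_lit 2) E) (nat_lit 2238148888656) (nat_lit 2) (N E (nat_lit 2238148908060) (nat_lit 2) E)) (nat_lit 2238148915284) (nat_lit 2) (N (N E (nat_lit 2238148917328) (nat_lit 2) E) (nat_lit 2238150357188) (nat_lit 2) (N E (nat_lit 2238150359300) (nat_lit 2) E))) (nat_lit 2238150362884) (nat_lit 2) (N (N (N E (nat_lit 2238154055876) (nat_lit 2) E) (nat_lit 2238154057988) (nat_lit 2) (N E (nat_lit 2238154115152)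 (nat_lit 2) E)) (nat_lit 2238155068676) (nat_lit 2) (N (N E (nat_lit 2238155196496) (nat_lit 2) E) (nat_lit 2238156441348) (nat_lit 2) (N E (nat_lit 2238156903684) (nat_lit 2) E)))) (nat_lit 2238157031504) (nat_lit 2) (N (N (N (N (N E (nat_lit 2285090702872) (nat_lit 2) E) (nat_lit 2285090703108) (nat_lit 2) E) (nat_lit 2285090703136) (nat_lit 2) (N E (nat_lit 2285090703556) (nat_lit 2) E)) (nat_lit 2285090703584) (nat_lit 2) (N (N E (nat_lit 2285090713860) (nat_lit 2) E) (nat_lit 2285091165208) (nat_lit 2) (N E (nat_lit 2285091165444) (nat_lit 2) E))) (nat_lit 2285091165472) (nat_lit 2) (N (N (N E (nat_lit 2285091172432) (nat_lit 2) E) (nat_lit 2285091172612) (nat_lit 1) (N E (nat_lit 2285091201284) (nat_lit 2) E)) (nat_lit 2285091291780) (nat_lit 2) (N (N E (nat_lit 2285091291808) (nat_lit 2) E) (nat_lit 2285091293264) (nat_lit 2) (N E (nat_lit 2285091307600) (nat_lit 2) E))))))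
)
 (nat_lit 2285091307780) (nat_lit 1) (N (N (N (N (N (N (N (N E (nat_lit 2285091463364) (nat_lit 2) E) (nat_lit 2285091463392) (nat_lit 2) E) (nat_lit 2285091521156) (nat_lit 2) (N E (nat_lit 2285091521184) (nat_lit 2) E)) (nat_lit 2285091522640) (nat_lit 2) (N (N E (nat_lit 2285091536976) (nat_lit 2) E) (nat_lit 2285091537156) (nat_lit 1) (N E (nat_lit 2285093007620) (nat_lit 2) E))) (nat_lit 2285093142788) (nat_lit 2) (N (N (N E (nat_lit 2285096798288) (nat_lit 2) E) (nat_lit 2285327881240) (nat_lit 2) (N E (nat_lit 2285327881476) (nat_lit 2) E)) (nat_lit 2285327881504) (nat_lit 2) (N (N E (nat_lit 2285327888464) (nat_lit 2) E) (nat_lit 2285327888644) (nat_lit 1) (N E (nat_lit 2285327917316) (nat_lit 2) E)))) (nat_lit 2285328007812) (nat_lit 2) (N (N (N (N (N E (nat_lit 2285328007840) (nat_lit 2) E) (nat_lit 2285328009296) (nat_lit 2) E) (nat_lit 2285328023632) (nat_lit 2) (N E (nat_lit 2285328023812) (nat_lit 1) E)) (nat_lit 2285331587152) (nat_lit 2) (N (N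 E (nat_lit 2285331646212) (nat_lit 2) E) (nat_lit 2285331678748) (nat_lit 2) (N E (nat_lit 2285331679264) (nat_lit 2) E))) (nat_lit 2285331679312) (nat_lit 1) (N (N (N E (nat_lit 2285331679427) (nat_lit 2) E) (nat_lit 2285331679448) (nat_lit 2) (N E (nat_lit 2285331679460) (nat_lit 2) E)) (nat_lit 2285331679516) (nat_lit 2) (N (N E (nat_lit 2285331689668) (nat_lit 2) E) (nat_lit 2285331691780) (nat_lit 2) (N E (nat_lit 2285331695364) (nat_lit 2) E))))) (nat_lit 2285332345092) (nat_lit 2) (N (N (N (N (N (N E (nat_lit 2285332480260) (nat_lit 2) E) (nat_lit 2285332709636) (nat_lit 2) E) (nat_lit 2285346359376) (nat_lit 2) (N E (nat_lit 2285376385284) (nat_lit 2) E)) (nat_lit 2285376520452) (nat_lit 2) (N (N E (nat_lit 2285376749828) (nat_lit 2) E) (nat_lit 2285392691844) (nat_lit 2) (N E (nat_lit 2285392691872) (nat_lit 2) E))) (nat_lit 2285392693328) (nat_lit 2) (N (N (N E (nat_lit 2285392707664) (nat_lit 2) E) (nat_lit 2285392707844) (nat_lit 1) (N E (nat_lit 2285393264900)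 (nat_lit 2) E)) (nat_lit 2285393428740) (nat_lit 2) (N (N E (nat_lit 2285393453136) (nat_lit 2) E) (nat_lit 2285398769924) (nat_lit 2) (N E (nat_lit 2285400793168) (nat_lit 2) E)))) (nat_lit 2285400852228) (nat_lit 2) (N (N (N (N (N E (nat_lit 2285400884764) (nat_lit 2) E) (nat_lit 2285400885280) (nat_lit 2) E) (nat_lit 2285400885328) (nat_lit 1) (N E (nat_lit 2285400885443) (nat_lit 2) E)) (nat_lit 2285400885464) (nat_lit 2) (N (N E (nat_lit 2285400885476) (nat_lit 2) E) (nat_lit 2285400885532) (nat_lit 2) (N E (nat_lit 2285400895684) (nat_lit 2) E))) (nat_lit 2285400897796) (nat_lit 2) (N (N (N E (nat_lit 2285400901380) (nat_lit 2) E) (nat_lit 2285401551108) (nat_lit 2) (N E (nat_lit 2285401686276) (nat_lit 2) E)) (nat_lit 2285401915652) (nat_lit 2) (N (N E (nat_lit 2285480485060) (nat_lit 2) E) (nat_lit 2285480485088) (nat_lit 2) (N E (nat_lit 2285480542852) (nat_lit 2) E))))))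
 (nat_lit 2285480542880) (nat_lit 2) (N (N (N (N (N (N (N E (nat_lit 2285480544336) (nat_lit 2) E) (nat_lit 2285480558672) (nat_lit 2) E) (nat_lit 2285480558852) (nat_lit 1) (N E (nat_lit 2285480788228) (nat_lit 2) E)) (nat_lit 2285510132356) (nat_lit 2) (N (N E (nat_lit 2285510132384) (nat_lit 2) E) (nat_lit 2285510133840) (nat_lit 2) (N E (nat_lit 2285510148176) (nat_lit 2) E))) (nat_lit 2285510148356) (nat_lit 1) (N (N (N E (nat_lit 2285510705412) (nat_lit 2) E) (nat_lit 2285510869252) (nat_lit 2) (N E (nat_lit 2285510893648) (nat_lit 2) E)) (nat_lit 2285516210436) (nat_lit 2) (N (N E (nat_lit 2285518233680) (nat_lit 2) E) (nat_lit 2285518292740) (nat_lit 2) (N E (nat_lit 2285518325276) (nat_lit 2) E)))) (nat_lit 2285518325792) (nat_lit 2) (N (N (N (N (N E (nat_lit 2285518325840) (nat_lit 1) E) (nat_lit 2285518325955) (nat_lit 2) E) (nat_lit 2285518325976) (nat_lit 2) (N E (nat_lit 2285518325988) (nat_lit 2) E)) (nat_lit 2285518326044) (nat_lit 2) (N (N E (nat_lit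 2285518336196) (nat_lit 2) E) (nat_lit 2285518338308) (nat_lit 2) (N E (nat_lit 2285518341892) (nat_lit 2) E))) (nat_lit 2285518991620) (nat_lit 2) (N (N (N E (nat_lit 2285519126788) (nat_lit 2) E) (nat_lit 2285519356164) (nat_lit 2) (N E (nat_lit 2286267412740) (nat_lit 2) E)) (nat_lit 2286267547908) (nat_lit 2) (N (N E (nat_lit 2286271203408) (nat_lit 2) E) (nat_lit 2286332231940) (nat_lit 2) (N E (nat_lit 2286340409424) (nat_lit 2) E))))) (nat_lit 2288212001028) (nat_lit 2) (N (N (N (N (N (N E (nat_lit 2288212025424) (nat_lit 2) E) (nat_lit 2406526489624) (nat_lit 2) E) (nat_lit 2406526489860) (nat_lit 2) (N E (nat_lit 2406526489888) (nat_lit 2) E)) (nat_lit 2406526496848) (nat_lit 2) (N (N E (nat_lit 2406526497028) (nat_lit 1) E) (nat_lit 2406526525700) (nat_lit 2) (N E (nat_lit 2406526616196) (nat_lit 2) E))) (nat_lit 2406526616224) (nat_lit 2) (N (N (N E (nat_lit 2406526617680) (nat_lit 2) E) (nat_lit 2406526632016) (nat_lit 2) (N E (nat_lit 2406526632196)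 (nat_lit 1) E)) (nat_lit 2406530195536) (nat_lit 2) (N (N E (nat_lit 2406530254596) (nat_lit 2) E) (nat_lit 2406530287132) (nat_lit 2) (N E (nat_lit 2406530287648) (nat_lit 2) E)))) (nat_lit 2406530287696) (nat_lit 1) (N (N (N (N (N E (nat_lit 2406530287811) (nat_lit 2) E) (nat_lit 2406530287832) (nat_lit 2) E) (nat_lit 2406530287844) (nat_lit 2) (N E (nat_lit 2406530287900) (nat_lit 2) E)) (nat_lit 2406530298052) (nat_lit 2) (N (N E (nat_lit 2406530300164) (nat_lit 2) E) (nat_lit 2406530303748) (nat_lit 2) (N E (nat_lit 2406530953476) (nat_lit 2) E))) (nat_lit 2406531088644) (nat_lit 2) (N (N (N E (nat_lit 2406531318020) (nat_lit 2) E) (nat_lit 2406544967760) (nat_lit 2) (N E (nat_lit 2406574993668) (nat_lit 2) E)) (nat_lit 2406575128836) (nat_lit 2) (N (N E (nat_lit 2406575358212) (nat_lit 2) E) (nat_lit 2406591300228) (nat_lit 2) (N E (nat_lit 2406591300256) (nat_lit 2) E))))))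
)
)
 (nat_lit 2406591301712) (nat_lit 2) (N (N (N (N (N (N (N (N (N E (nat_lit 2406591316048) (nat_lit 2) E) (nat_lit 2406591316228) (nat_lit 1) E) (nat_lit 2406591873284) (nat_lit 2) (N E (nat_lit 2406592037124) (nat_lit 2) E)) (nat_lit 2406592061520) (nat_lit 2) (N (N E (nat_lit 2406597378308) (nat_lit 2) E) (nat_lit 2406599401552) (nat_lit 2) (N E (nat_lit 2406599460612) (nat_lit 2) E))) (nat_lit 2406599493148) (nat_lit 2) (N (N (N E (nat_lit 2406599493664) (nat_lit 2) E) (nat_lit 2406599493712) (nat_lit 1) (N E (nat_lit 2406599493827) (nat_lit 2) E)) (nat_lit 2406599493848) (nat_lit 2) (N (N E (nat_lit 2406599493860) (nat_lit 2) E) (nat_lit 2406599493916) (nat_lit 2) (N E (nat_lit 2406599504068) (nat_lit 2) E)))) (nat_lit 2406599506180) (nat_lit 2) (N (N (N (N (N E (nat_lit 2406599509764) (nat_lit 2) E) (nat_lit 2406600159492) (nat_lit 2) E) (nat_lit 2406600294660) (nat_lit 2) (N E (nat_lit 2406600524036) (nat_lit 2) E)) (nat_lit 2408423923792) (nat_lit 2)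 (N (N E (nat_lit 2408453572356) (nat_lit 2) E) (nat_lit 2408454034692) (nat_lit 2) (N E (nat_lit 2408454162512) (nat_lit 2) E))) (nat_lit 2408470811676) (nat_lit 2) (N (N (N E (nat_lit 2408470818900) (nat_lit 2) E) (nat_lit 2408470820944) (nat_lit 2) (N E (nat_lit 2408471085136) (nat_lit 2) E)) (nat_lit 2408471085316) (nat_lit 1) (N (N E (nat_lit 2408471109712) (nat_lit 1) E) (nat_lit 2408471109827) (nat_lit 2) (N E (nat_lit 2408471109848) (nat_lit 2) E))))) (nat_lit 2408471109860) (nat_lit 2) (N (N (N (N (N (N E (nat_lit 2408471109916) (nat_lit 2) E) (nat_lit 2408471167619) (nat_lit 2) E) (nat_lit 2408471167640) (nat_lit 2) (N E (nat_lit 2408471167652) (nat_lit 2) E)) (nat_lit 2408471168592) (nat_lit 2) (N (N E (nat_lit 2408471179344) (nat_lit 2) E) (nat_lit 2408471183444) (nat_lit 2) (N E (nat_lit 2408471185488) (nat_lit 2) E))) (nat_lit 2408471204892) (nat_lit 2) (N (N (N E (nat_lit 2408471212116) (nat_lit 2) E) (nat_lit 2408471214160) (nat_lit 2) (N E (nat_lit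 2408472654020) (nat_lit 2) E)) (nat_lit 2408472656132) (nat_lit 2) (N (N E (nat_lit 2408472659716) (nat_lit 2) E) (nat_lit 2408476352708) (nat_lit 2) (N E (nat_lit 2408476354820) (nat_lit 2) E)))) (nat_lit 2408476411984) (nat_lit 2) (N (N (N (N (N E (nat_lit 2408477365508) (nat_lit 2) E) (nat_lit 2408477493328) (nat_lit 2) E) (nat_lit 2408478738180) (nat_lit 2) (N E (nat_lit 2408479200516) (nat_lit 2) E)) (nat_lit 2408479328336) (nat_lit 2) (N (N E (nat_lit 2408571482372) (nat_lit 2) E) (nat_lit 2408571617540) (nat_lit 2) (N E (nat_lit 2408571846916) (nat_lit 2) E))) (nat_lit 2408808198404) (nat_lit 2) (N (N (N E (nat_lit 2408808333572) (nat_lit 2) E) (nat_lit 2408811989072) (nat_lit 2) (N E (nat_lit 2408873017604) (nat_lit 2) E)) (nat_lit 2408881195088) (nat_lit 2) (N (N E (nat_lit 2408960868612) (nat_lit 2) E) (nat_lit 2408990458116) (nat_lit 2) (N E (nat_lit 2408998635600) (nat_lit 2) E))))))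
 (nat_lit 2415987278084) (nat_lit 2) (N (N (N (N (N (N (N E (nat_lit 2415987302480) (nat_lit 2) E) (nat_lit 2431120060676) (nat_lit 2) E) (nat_lit 2431120195844) (nat_lit 2) (N E (nat_lit 2431120425220) (nat_lit 2) E)) (nat_lit 2431356776708) (nat_lit 2) (N (N E (nat_lit 2431356911876) (nat_lit 2) E) (nat_lit 2431360567376) (nat_lit 2) (N E (nat_lit 2431421595908) (nat_lit 2) E))) (nat_lit 2431429773392) (nat_lit 2) (N (N (N E (nat_lit 2431509446916) (nat_lit 2) E) (nat_lit 2431539036420) (nat_lit 2) (N E (nat_lit 2431547213904) (nat_lit 2) E)) (nat_lit 2439709524612) (nat_lit 2) (N (N E (nat_lit 2439709524640) (nat_lit 2) E) (nat_lit 2439709526096) (nat_lit 2) (N E (nat_lit 2439709540432) (nat_lit 2) E)))) (nat_lit 2439709540612) (nat_lit 1) (N (N (N (N (N E (nat_lit 2439710097668) (nat_lit 2) E) (nat_lit 2439710261508) (nat_lit 2) E) (nat_lit 2439710285904) (nat_lit 2) (N E (nat_lit 2439715602692) (nat_lit 2) E)) (nat_lit 2439717625936) (nat_lit 2) (N (N E (nat_lit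 2439717684996) (nat_lit 2) E) (nat_lit 2439717717532) (nat_lit 2) (N E (nat_lit 2439717718048) (nat_lit 2) E))) (nat_lit 2439717718096) (nat_lit 1) (N (N (N E (nat_lit 2439717718211) (nat_lit 2) E) (nat_lit 2439717718232) (nat_lit 2) (N E (nat_lit 2439717718244) (nat_lit 2) E)) (nat_lit 2439717718300) (nat_lit 2) (N (N E (nat_lit 2439717728452) (nat_lit 2) E) (nat_lit 2439717730564) (nat_lit 2) (N E (nat_lit 2439717734148) (nat_lit 2) E))))) (nat_lit 2439718383876) (nat_lit 2) (N (N (N (N (N (N E (nat_lit 2439718519044) (nat_lit 2) E) (nat_lit 2439718748420) (nat_lit 2) E) (nat_lit 2439965163780) (nat_lit 2) (N E (nat_lit 2439994753284) (nat_lit 2) E)) (nat_lit 2440002930768) (nat_lit 2) (N (N E (nat_lit 2440086816848) (nat_lit 2) E) (nat_lit 2440099307600) (nat_lit 2) (N E (nat_lit 2442783736068) (nat_lit 2) E))) (nat_lit 2442813325572) (nat_lit 2) (N (N (N E (nat_lit 2442821503056) (nat_lit 2) E) (nat_lit 2443857403984) (nat_lit 2) (N E (nat_lit 2443887052548)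 (nat_lit 2) E)) (nat_lit 2443887514884) (nat_lit 2) (N (N E (nat_lit 2443887642704) (nat_lit 2) E) (nat_lit 2443904291868) (nat_lit 2) (N E (nat_lit 2443904299092) (nat_lit 2) E)))) (nat_lit 2443904301136) (nat_lit 2) (N (N (N (N (N E (nat_lit 2443904565328) (nat_lit 2) E) (nat_lit 2443904565508) (nat_lit 1) E) (nat_lit 2443904589904) (nat_lit 1) (N E (nat_lit 2443904590019) (nat_lit 2) E)) (nat_lit 2443904590040) (nat_lit 2) (N (N E (nat_lit 2443904590052) (nat_lit 2) E) (nat_lit 2443904590108) (nat_lit 2) (N E (nat_lit 2443904647811) (nat_lit 2) E))) (nat_lit 2443904647832) (nat_lit 2) (N (N (N E (nat_lit 2443904647844) (nat_lit 2) E) (nat_lit 2443904648784) (nat_lit 2) (N E (nat_lit 2443904659536) (nat_lit 2) E)) (nat_lit 2443904663636) (nat_lit 2) (N (N E (nat_lit 2443904665680) (nat_lit 2) E) (nat_lit 2443904685084) (nat_lit 2) (N E (nat_lit 2443904692308) (nat_lit 2) E))))))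
)
 (nat_lit 2443904694352) (nat_lit 2) (N (N (N (N (N (N (N (N E (nat_lit 2443906134212) (nat_lit 2) E) (nat_lit 2443906136324) (nat_lit 2) E) (nat_lit 2443906139908) (nat_lit 2) (N E (nat_lit 2443909832900) (nat_lit 2) E)) (nat_lit 2443909835012) (nat_lit 2) (N (N E (nat_lit 2443909892176) (nat_lit 2) E) (nat_lit 2443910845700) (nat_lit 2) (N E (nat_lit 2443910973520) (nat_lit 2) E))) (nat_lit 2443912218372) (nat_lit 2) (N (N (N E (nat_lit 2443912680708) (nat_lit 2) E) (nat_lit 2443912808528) (nat_lit 2) (N E (nat_lit 2444004962564) (nat_lit 2) E)) (nat_lit 2444005097732) (nat_lit 2) (N (N E (nat_lit 2444005327108) (nat_lit 2) E) (nat_lit 2444241678596) (nat_lit 2) (N E (nat_lit 2444241813764) (nat_lit 2) E)))) (nat_lit 2444245469264) (nat_lit 2) (N (N (N (N (N E (nat_lit 2444306497796) (nat_lit 2) E) (nat_lit 2444314675280) (nat_lit 2) E) (nat_lit 2444394348804) (nat_lit 2) (N E (nat_lit 2444423938308) (nat_lit 2) E)) (nat_lit 2444432115792) (nat_lit 2) (N (N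 E (nat_lit 2484659593412) (nat_lit 2) E) (nat_lit 2484659593440) (nat_lit 2) (N E (nat_lit 2484659651204) (nat_lit 2) E))) (nat_lit 2484659651232) (nat_lit 2) (N (N (N E (nat_lit 2484659652688) (nat_lit 2) E) (nat_lit 2484659667024) (nat_lit 2) (N E (nat_lit 2484659667204) (nat_lit 1) E)) (nat_lit 2484659896580) (nat_lit 2) (N (N E (nat_lit 2484689240708) (nat_lit 2) E) (nat_lit 2484689240736) (nat_lit 2) (N E (nat_lit 2484689242192) (nat_lit 2) E))))) (nat_lit 2484689256528) (nat_lit 2) (N (N (N (N (N (N E (nat_lit 2484689256708) (nat_lit 1) E) (nat_lit 2484689813764) (nat_lit 2) E) (nat_lit 2484689977604) (nat_lit 2) (N E (nat_lit 2484690002000) (nat_lit 2) E)) (nat_lit 2484695318788) (nat_lit 2) (N (N E (nat_lit 2484697342032) (nat_lit 2) E) (nat_lit 2484697401092) (nat_lit 2) (N E (nat_lit 2484697433628) (nat_lit 2) E))) (nat_lit 2484697434144) (nat_lit 2) (N (N (N E (nat_lit 2484697434192) (nat_lit 1) E) (nat_lit 2484697434307) (nat_lit 2) (N E (nat_lit 2484697434328)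 (nat_lit 2) E)) (nat_lit 2484697434340) (nat_lit 2) (N (N E (nat_lit 2484697434396) (nat_lit 2) E) (nat_lit 2484697444548) (nat_lit 2) (N E (nat_lit 2484697446660) (nat_lit 2) E)))) (nat_lit 2484697450244) (nat_lit 2) (N (N (N (N (N E (nat_lit 2484698099972) (nat_lit 2) E) (nat_lit 2484698235140) (nat_lit 2) E) (nat_lit 2484698464516) (nat_lit 2) (N E (nat_lit 2484806697220) (nat_lit 2) E)) (nat_lit 2484814874704) (nat_lit 2) (N (N E (nat_lit 2499839066756) (nat_lit 2) E) (nat_lit 2499839066784) (nat_lit 2) (N E (nat_lit 2499839068240) (nat_lit 2) E))) (nat_lit 2499839082576) (nat_lit 2) (N (N (N E (nat_lit 2499839082756) (nat_lit 1) E) (nat_lit 2499839639812) (nat_lit 2) (N E (nat_lit 2499839803652) (nat_lit 2) E)) (nat_lit 2499839828048) (nat_lit 2) (N (N E (nat_lit 2499845144836) (nat_lit 2) E) (nat_lit 2499847168080) (nat_lit 2) (N E (nat_lit 2499847227140) (nat_lit 2) E))))))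
 (nat_lit 2499847259676) (nat_lit 2) (N (N (N (N (N (N (N E (nat_lit 2499847260192) (nat_lit 2) E) (nat_lit 2499847260240) (nat_lit 1) E) (nat_lit 2499847260355) (nat_lit 2) (N E (nat_lit 2499847260376) (nat_lit 2) E)) (nat_lit 2499847260388) (nat_lit 2) (N (N E (nat_lit 2499847260444) (nat_lit 2) E) (nat_lit 2499847270596) (nat_lit 2) (N E (nat_lit 2499847272708) (nat_lit 2) E))) (nat_lit 2499847276292) (nat_lit 2) (N (N (N E (nat_lit 2499847926020) (nat_lit 2) E) (nat_lit 2499848061188) (nat_lit 2) (N E (nat_lit 2499848290564) (nat_lit 2) E)) (nat_lit 2500094705924) (nat_lit 2) (N (N E (nat_lit 2500124295428) (nat_lit 2) E) (nat_lit 2500132472912) (nat_lit 2) (N E (nat_lit 2500216358992) (nat_lit 2) E)))) (nat_lit 2500228849744) (nat_lit 2) (N (N (N (N (N E (nat_lit 2502913278212) (nat_lit 2) E) (nat_lit 2502942867716) (nat_lit 2) E) (nat_lit 2502951045200) (nat_lit 2) (N E (nat_lit 2503986946128) (nat_lit 2) E)) (nat_lit 2504016594692) (nat_lit 2) (N (N E (nat_lit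 2504017057028) (nat_lit 2) E) (nat_lit 2504017184848) (nat_lit 2) (N E (nat_lit 2504033834012) (nat_lit 2) E))) (nat_lit 2504033841236) (nat_lit 2) (N (N (N E (nat_lit 2504033843280) (nat_lit 2) E) (nat_lit 2504034107472) (nat_lit 2) (N E (nat_lit 2504034107652) (nat_lit 1) E)) (nat_lit 2504034132048) (nat_lit 1) (N (N E (nat_lit 2504034132163) (nat_lit 2) E) (nat_lit 2504034132184) (nat_lit 2) (N E (nat_lit 2504034132196) (nat_lit 2) E))))) (nat_lit 2504034132252) (nat_lit 2) (N (N (N (N (N (N E (nat_lit 2504034189955) (nat_lit 2) E) (nat_lit 2504034189976) (nat_lit 2) E) (nat_lit 2504034189988) (nat_lit 2) (N E (nat_lit 2504034190928) (nat_lit 2) E)) (nat_lit 2504034201680) (nat_lit 2) (N (N E (nat_lit 2504034205780) (nat_lit 2) E) (nat_lit 2504034207824) (nat_lit 2) (N E (nat_lit 2504034227228) (nat_lit 2) E))) (nat_lit 2504034234452) (nat_lit 2) (N (N (N E (nat_lit 2504034236496) (nat_lit 2) E) (nat_lit 2504035676356) (nat_lit 2) (N E (nat_lit 2504035678468)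 (nat_lit 2) E)) (nat_lit 2504035682052) (nat_lit 2) (N (N E (nat_lit 2504039375044) (nat_lit 2) E) (nat_lit 2504039377156) (nat_lit 2) (N E (nat_lit 2504039434320) (nat_lit 2) E)))) (nat_lit 2504040387844) (nat_lit 2) (N (N (N (N E (nat_lit 2504040515664) (nat_lit 2) E) (nat_lit 2504041760516) (nat_lit 2) (N E (nat_lit 2504042222852) (nat_lit 2) E)) (nat_lit 2504042350672) (nat_lit 2) (N (N E (nat_lit 2504134504708) (nat_lit 2) E) (nat_lit 2504134639876) (nat_lit 2) (N E (nat_lit 2504134869252) (nat_lit 2) E))) (nat_lit 2504371220740) (nat_lit 2) (N (N (N E (nat_lit 2504371355908) (nat_lit 2) E) (nat_lit 2504375011408) (nat_lit 2) (N E (nat_lit 2504436039940) (nat_lit 2) E)) (nat_lit 2504444217424) (nat_lit 2) (N (N E (nat_lit 2504523890948) (nat_lit 2) E) (nat_lit 2504553480452) (nat_lit 2) (N E (nat_lit 2504561657936) (nat_lit 2) E))))))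
)
)
)
)
)


end Pool.Agent.L5helper11.GP
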