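import Pool.Agent.L5helper11.GP.Def

/-! Certificate, level 4. -/

set_option autoImplicit false

namespace Pool.Agent.L5helper11.GP

open Tr in
/-- The words at level 4 with their values. -/
def S4 : Tr := (N (N (N (N (N (N (N (N (N (N (N E (nat_lit 86067446403) (nat_lit 1) E) (nat_lit 86067446410) (nat_lit 2) E) (nat_lit 86067447306) (nat_lit 1) (N E (nat_lit 86067447323) (nat_lit 2) E)) (nat_lit 86067447328) (nat_lit 2) (N (N (N E (nat_lit 86067447491) (nat_lit 2) E) (nat_lit 86067447580) (nat_lit 2) E) (nat_lit 86067447587) (nat_lit 2) (N E (nat_lit 86067447832) (nat_lit 2) E))) (nat_lit 86067450890) (nat_lit 2) (N (N (N (N E (nat_lit 86067463960) (nat_lit 2) E) (nat_lit 86067909642) (nat_lit 1) E) (nat_lit 86067909659) (nat_lit 2) (N E (nat_lit 86067909664) (nat_lit 2) E)) (nat_lit 86067909827) (nat_lit 2) (N (N (N E (nat_lit 86067909916) (nat_lit 2) E) (nat_lit 86067909923) (nat_lit 2) E) (nat_lit 86067917443) (nat_lit 2) (N E (nat_lit 86067918346) (nat_lit 2) E))))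 (nat_lit 86068003459) (nat_lit 2) (N (N (N (N (N E (nat_lit 86068004362) (nat_lit 2) E) (nat_lit 86068040732) (nat_lit 2) E) (nat_lit 86068040739) (nat_lit 2) (N E (nat_lit 86068047956) (nat_lit 2) E)) (nat_lit 86068049930) (nat_lit 2) (N (N (N E (nat_lit 86068052611) (nat_lit 2) E) (nat_lit 86068053514) (nat_lit 2) E) (nat_lit 86069744650) (nat_lit 2) (N E (nat_lit 86075836184) (nat_lit 2) E))) (nat_lit 86076298520) (nat_lit 2) (N (N (N (N E (nat_lit 86304625674) (nat_lit 1) E) (nat_lit 86304625691) (nat_lit 2) E) (nat_lit 86304625696) (nat_lit 2) (N E (nat_lit 86304625859) (nat_lit 2) E)) (nat_lit 86304625948) (nat_lit 2) (N (N (N E (nat_lit 86304625955) (nat_lit 2) E) (nat_lit 86304633475) (nat_lit 2) E) (nat_lit 86304634378) (nat_lit 2) (N E (nat_lit 86304719491) (nat_lit 2) E))))) (nat_lit 86304720394) (nat_lit 2) (N (N (N (N (N (N E (nat_lit 86304756764) (nat_lit 2) E) (nat_lit 86304756771) (nat_lit 2) E) (nat_lit 86304763988) (nat_lit 2) (N E (nat_lit 86304765962)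 (nat_lit 2) E)) (nat_lit 86304768643) (nat_lit 2) (N (N (N E (nat_lit 86304769546) (nat_lit 2) E) (nat_lit 86308618883) (nat_lit 2) E) (nat_lit 86308619786) (nat_lit 2) (N E (nat_lit 86309082122) (nat_lit 2) E))) (nat_lit 86310487576) (nat_lit 2) (N (N (N (N E (nat_lit 86352659075) (nat_lit 2) E) (nat_lit 86352659978) (nat_lit 2) E) (nat_lit 86353122314) (nat_lit 2) (N E (nat_lit 86371734556) (nat_lit 2) E)) (nat_lit 86371734563) (nat_lit 2) (N (N (N E (nat_lit 86371741780) (nat_lit 2) E) (nat_lit 86371743754) (nat_lit 2) E) (nat_lit 86371746435) (nat_lit 2) (N E (nat_lit 86371747338) (nat_lit 2) E)))) (nat_lit 86375440468) (nat_lit 2) (N (N (N (N (N E (nat_lit 86375442442) (nat_lit 2) E) (nat_lit 86376453130) (nat_lit 2) E) (nat_lit 86376547864) (nat_lit 2) (N E (nat_lit 86377824899) (nat_lit 2) E)) (nat_lit 86377825802) (nat_lit 2) (N (N (N E (nat_lit 86378288138) (nat_lit 2) E) (nat_lit 86442608152) (nat_lit 2) E) (nat_lit 87244149770) (nat_lit 2) (N E (nat_lit 89171231363)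 (nat_lit 2) E))) (nat_lit 89171232266) (nat_lit 2) (N (N (N (N E (nat_lit 89171694602) (nat_lit 2) E) (nat_lit 89171701955) (nat_lit 2) E) (nat_lit 89171702044) (nat_lit 2) (N E (nat_lit 89171702051) (nat_lit 2) E)) (nat_lit 89171704032) (nat_lit 2) (N (N E (nat_lit 89171707672) (nat_lit 2) E) (nat_lit 89171834904) (nat_lit 2) (N E (nat_lit 89172067864) (nat_lit 2) E))))))
 (nat_lit 89180210712) (nat_lit 2) (N (N (N (N (N (N (N E (nat_lit 89190306844) (nat_lit 2) E) (nat_lit 89190306851) (nat_lit 2) E) (nat_lit 89190314068) (nat_lit 2) (N E (nat_lit 89190316042) (nat_lit 2) E)) (nat_lit 89190318723) (nat_lit 2) (N (N (N E (nat_lit 89190319626) (nat_lit 2) E) (nat_lit 89194012756) (nat_lit 2) E) (nat_lit 89194014730) (nat_lit 2) (N E (nat_lit 89195025418) (nat_lit 2) E))) (nat_lit 89195120152) (nat_lit 2) (N (N (N (N E (nat_lit 89196397187) (nat_lit 2) E) (nat_lit 89196398090) (nat_lit 2) E) (nat_lit 89196860426) (nat_lit 2) (N E (nat_lit 89678455008) (nat_lit 2) E)) (nat_lit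 89678512800) (nat_lit 2) (N (N (N E (nat_lit 89708102304) (nat_lit 2) E) (nat_lit 89716262424) (nat_lit 2) E) (nat_lit 90362414872) (nat_lit 2) (N E (nat_lit 90362877208) (nat_lit 2) E)))) (nat_lit 90599593240) (nat_lit 2) (N (N (N (N (N E (nat_lit 90670466584) (nat_lit 2) E) (nat_lit 207503234058) (nat_lit 1) E) (nat_lit 207503234075) (nat_lit 2) (N E (nat_lit 207503234080) (nat_lit 2) E)) (nat_lit 207503234243) (nat_lit 2) (N (N (N E (nat_lit 207503234332) (nat_lit 2) E) (nat_lit 207503234339) (nat_lit 2) E) (nat_lit 207503241859) (nat_lit 2) (N E (nat_lit 207503242762) (nat_lit 2) E))) (nat_lit 207503327875) (nat_lit 2) (N (N (N (N E (nat_lit 207503328778) (nat_lit 2) E) (nat_lit 207503365148) (nat_lit 2) E) (nat_lit 207503365155) (nat_lit 2) (N E (nat_lit 207503372372) (nat_lit 2) E)) (nat_lit 207503374346) (nat_lit 2) (N (N (N E (nat_lit 207503377027) (nat_lit 2) E) (nat_lit 207503377930) (nat_lit 2) E) (nat_lit 207507031576) (nat_lit 2) (N E (nat_lit 207507227267)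 (nat_lit 2) E))))) (nat_lit 207507228170) (nat_lit 2) (N (N (N (N (N (N E (nat_lit 207507690506) (nat_lit 2) E) (nat_lit 207508063768) (nat_lit 2) E) (nat_lit 207509095960) (nat_lit 2) (N E (nat_lit 207551267459) (nat_lit 2) E)) (nat_lit 207551268362) (nat_lit 2) (N (N (N E (nat_lit 207551730698) (nat_lit 2) E) (nat_lit 207551738051) (nat_lit 2) E) (nat_lit 207551738140) (nat_lit 2) (N E (nat_lit 207551738147) (nat_lit 2) E))) (nat_lit 207551740128) (nat_lit 2) (N (N (N (N E (nat_lit 207551743768) (nat_lit 2) E) (nat_lit 207551871000) (nat_lit 2) E) (nat_lit 207552103960) (nat_lit 2) (N E (nat_lit 207560246808) (nat_lit 2) E)) (nat_lit 207570342940) (nat_lit 2) (N (N (N E (nat_lit 207570342947) (nat_lit 2) E) (nat_lit 207570350164) (nat_lit 2) E) (nat_lit 207570352138) (nat_lit 2) (N E (nat_lit 207570354819) (nat_lit 2) E)))) (nat_lit 207570355722) (nat_lit 2) (N (N (N (N (N E (nat_lit 207574048852) (nat_lit 2) E) (nat_lit 207574050826) (nat_lit 2) E) (nat_lit 207575061514)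 (nat_lit 2) (N E (nat_lit 207575156248) (nat_lit 2) E)) (nat_lit 207576433283) (nat_lit 2) (N (N (N E (nat_lit 207576434186) (nat_lit 2) E) (nat_lit 207576896522) (nat_lit 2) E) (nat_lit 209400727576) (nat_lit 2) (N E (nat_lit 209400743704) (nat_lit 2) E))) (nat_lit 209400759832) (nat_lit 2) (N (N (N (N E (nat_lit 209400955523) (nat_lit 2) E) (nat_lit 209400956426) (nat_lit 2) E) (nat_lit 209401418762) (nat_lit 2) (N E (nat_lit 209401426115) (nat_lit 2) E)) (nat_lit 209401426204) (nat_lit 2) (N (N E (nat_lit 209401426211) (nat_lit 2) E) (nat_lit 209401428192) (nat_lit 2) (N E (nat_lit 209401431832) (nat_lit 2) E))))))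
)
 (nat_lit 209401559064) (nat_lit 2) (N (N (N (N (N (N (N (N E (nat_lit 209401792024) (nat_lit 2) E) (nat_lit 209430315651) (nat_lit 1) E) (nat_lit 209430315658) (nat_lit 2) (N E (nat_lit 209430316554) (nat_lit 1) E)) (nat_lit 209430316571) (nat_lit 2) (N (N (N E (nat_lit 209430316576) (nat_lit 2) E) (nat_lit 209430316739) (nat_lit 2) E) (nat_lit 209430316828) (nat_lit 2) (N E (nat_lit 209430316835) (nat_lit 2) E))) (nat_lit 209430317080) (nat_lit 2) (N (N (N (N E (nat_lit 209430320138) (nat_lit 2) E) (nat_lit 209430327491) (nat_lit 2) E) (nat_lit 209430327580) (nat_lit 2) (N E (nat_lit 209430327587) (nat_lit 2) E)) (nat_lit 209430329568) (nat_lit 2) (N (N (N E (nat_lit 209430333208) (nat_lit 2) E) (nat_lit 209430778890) (nat_lit 1) E) (nat_lit 209430778907) (nat_lit 2) (N E (nat_lit 209430778912) (nat_lit 2) E)))) (nat_lit 209430779075) (nat_lit 2) (N (N (N (N (N E (nat_lit 209430779164) (nat_lit 2) E) (nat_lit 209430779171) (nat_lit 2) E) (nat_lit 209430786131) (nat_lit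 2) (N E (nat_lit 209430786243) (nat_lit 1) E)) (nat_lit 209430786250) (nat_lit 2) (N (N (N E (nat_lit 209430786332) (nat_lit 1) E) (nat_lit 209430786339) (nat_lit 1) E) (nat_lit 209430786691) (nat_lit 2) (N E (nat_lit 209430787594) (nat_lit 2) E))) (nat_lit 209430788320) (nat_lit 1) (N (N (N (N E (nat_lit 209430790224) (nat_lit 2) E) (nat_lit 209430791946) (nat_lit 2) E) (nat_lit 209430791960) (nat_lit 1) (N E (nat_lit 209430814915) (nat_lit 2) E)) (nat_lit 209430815004) (nat_lit 2) (N (N (N E (nat_lit 209430815011) (nat_lit 2) E) (nat_lit 209430816992) (nat_lit 2) E) (nat_lit 209430872707) (nat_lit 2) (N E (nat_lit 209430873610) (nat_lit 2) E))))) (nat_lit 209430909980) (nat_lit 2) (N (N (N (N (N (N E (nat_lit 209430909987) (nat_lit 2) E) (nat_lit 209430917204) (nat_lit 2) E) (nat_lit 209430919178) (nat_lit 2) (N E (nat_lit 209430919192) (nat_lit 1) E)) (nat_lit 209430919248) (nat_lit 2) (N (N (N E (nat_lit 209430921859) (nat_lit 2) E) (nat_lit 209430922762) (nat_lit 2)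 E) (nat_lit 209431041048) (nat_lit 2) (N E (nat_lit 209431048272) (nat_lit 2) E))) (nat_lit 209431077091) (nat_lit 2) (N (N (N (N E (nat_lit 209431134883) (nat_lit 2) E) (nat_lit 209431151235) (nat_lit 2) E) (nat_lit 209431151256) (nat_lit 2) (N E (nat_lit 209431152138) (nat_lit 2) E)) (nat_lit 209431152152) (nat_lit 1) (N (N (N E (nat_lit 209431152208) (nat_lit 2) E) (nat_lit 209432613898) (nat_lit 2) E) (nat_lit 209432621251) (nat_lit 2) (N E (nat_lit 209432621340) (nat_lit 2) E)))) (nat_lit 209432621347) (nat_lit 2) (N (N (N (N (N E (nat_lit 209432623328) (nat_lit 2) E) (nat_lit 209432626968) (nat_lit 2) E) (nat_lit 209432754200) (nat_lit 2) (N E (nat_lit 209438705411) (nat_lit 2) E)) (nat_lit 209438705432) (nat_lit 2) (N (N (N E (nat_lit 209439167747) (nat_lit 2) E) (nat_lit 209439167768) (nat_lit 2) E) (nat_lit 209439294083) (nat_lit 2) (N E (nat_lit 209439294104) (nat_lit 2) E))) (nat_lit 209439294986) (nat_lit 2) (N (N (N (N E (nat_lit 209439295000) (nat_lit 1) E)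 (nat_lit 209439295056) (nat_lit 2) E) (nat_lit 209439298584) (nat_lit 2) (N E (nat_lit 209439305808) (nat_lit 2) E)) (nat_lit 209447093784) (nat_lit 2) (N (N E (nat_lit 209447094048) (nat_lit 2) E) (nat_lit 209447094496) (nat_lit 2) (N E (nat_lit 209447556120) (nat_lit 2) E))))))
 (nat_lit 209447556384) (nat_lit 2) (N (N (N (N (N (N (N E (nat_lit 209447682720) (nat_lit 2) E) (nat_lit 209447854304) (nat_lit 2) E) (nat_lit 209447912096) (nat_lit 2) (N E (nat_lit 209449391132) (nat_lit 1) E)) (nat_lit 209449391139) (nat_lit 1) (N (N (N E (nat_lit 209449391188) (nat_lit 2) E) (nat_lit 209449398356) (nat_lit 1) E) (nat_lit 209449398492) (nat_lit 2) (N E (nat_lit 209449398499) (nat_lit 2) E))) (nat_lit 209449399836) (nat_lit 2) (N (N (N (N E (nat_lit 209449399843) (nat_lit 2) E) (nat_lit 209449400330) (nat_lit 1) E) (nat_lit 209449400347) (nat_lit 2) (N E (nat_lit 209449400352) (nat_lit 2) E)) (nat_lit 209449400515) (nat_lit 2) (N (N (N E (nat_lit 209449400604) (nat_lit 2) E)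 (nat_lit 209449400611) (nat_lit 2) E) (nat_lit 209449403011) (nat_lit 1) (N E (nat_lit 209449403018) (nat_lit 2) E)))) (nat_lit 209449403914) (nat_lit 1) (N (N (N (N (N E (nat_lit 209449403931) (nat_lit 2) E) (nat_lit 209449403936) (nat_lit 2) E) (nat_lit 209449404099) (nat_lit 2) (N E (nat_lit 209449404188) (nat_lit 2) E)) (nat_lit 209449404195) (nat_lit 2) (N (N (N E (nat_lit 209449427028) (nat_lit 2) E) (nat_lit 209449429002) (nat_lit 2) E) (nat_lit 209453097044) (nat_lit 1) (N E (nat_lit 209453097180) (nat_lit 2) E))) (nat_lit 209453097187) (nat_lit 2) (N (N (N (N E (nat_lit 209453098524) (nat_lit 2) E) (nat_lit 209453098531) (nat_lit 2) E) (nat_lit 209453099018) (nat_lit 1) (N E (nat_lit 209453099035) (nat_lit 2) E)) (nat_lit 209453099040) (nat_lit 2) (N (N (N E (nat_lit 209453099203) (nat_lit 2) E) (nat_lit 209453099292) (nat_lit 2) E) (nat_lit 209453099299) (nat_lit 2) (N E (nat_lit 209453159452) (nat_lit 2) E))))) (nat_lit 209453159459) (nat_lit 2) (N (N (N (N (N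 (N E (nat_lit 209453166676) (nat_lit 2) E) (nat_lit 209453168650) (nat_lit 2) E) (nat_lit 209453171331) (nat_lit 2) (N E (nat_lit 209453172234) (nat_lit 2) E)) (nat_lit 209453847580) (nat_lit 2) (N (N (N E (nat_lit 209453847587) (nat_lit 2) E) (nat_lit 209453854804) (nat_lit 2) E) (nat_lit 209453856778) (nat_lit 2) (N E (nat_lit 209453859459) (nat_lit 2) E))) (nat_lit 209453860362) (nat_lit 2) (N (N (N (N E (nat_lit 209454109706) (nat_lit 1) E) (nat_lit 209454109723) (nat_lit 2) E) (nat_lit 209454109728) (nat_lit 2) (N E (nat_lit 209454109891) (nat_lit 2) E)) (nat_lit 209454109980) (nat_lit 2) (N (N (N E (nat_lit 209454109987) (nat_lit 2) E) (nat_lit 209454117507) (nat_lit 2) E) (nat_lit 209454118410) (nat_lit 2) (N E (nat_lit 209454147096) (nat_lit 2) E)))) (nat_lit 209454203523) (nat_lit 2) (N (N (N (N (N E (nat_lit 209454203544) (nat_lit 2) E) (nat_lit 209454204426) (nat_lit 2) E) (nat_lit 209454204440) (nat_lit 1) (N E (nat_lit 209454204496) (nat_lit 2) E)) (nat_lit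 209454208024) (nat_lit 2) (N (N (N E (nat_lit 209454240796) (nat_lit 2) E) (nat_lit 209454240803) (nat_lit 2) E) (nat_lit 209454248020) (nat_lit 2) (N E (nat_lit 209454249994) (nat_lit 2) E))) (nat_lit 209454252675) (nat_lit 2) (N (N (N (N E (nat_lit 209454253578) (nat_lit 2) E) (nat_lit 209455481475) (nat_lit 1) E) (nat_lit 209455481482) (nat_lit 2) (N E (nat_lit 209455482378) (nat_lit 1) E)) (nat_lit 209455482395) (nat_lit 2) (N (N E (nat_lit 209455482400) (nat_lit 2) E) (nat_lit 209455482563) (nat_lit 2) (N E (nat_lit 209455482652) (nat_lit 2) E))))))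
)
)
 (nat_lit 209455482659) (nat_lit 2) (N (N (N (N (N (N (N (N (N E (nat_lit 209455485962) (nat_lit 2) E) (nat_lit 209455944714) (nat_lit 1) E) (nat_lit 209455944731) (nat_lit 2) (N E (nat_lit 209455944736) (nat_lit 2) E)) (nat_lit 209455944899) (nat_lit 2) (N (N (N E (nat_lit 209455944988) (nat_lit 2) E) (nat_lit 209455944995) (nat_lit 2) E) (nat_lit 209455952515) (nat_lit 2) (N E (nat_lit 209455953418) (nat_lit 2) E))) (nat_lit 209456038531) (nat_lit 2) (N (N (N (N E (nat_lit 209456039434) (nat_lit 2) E) (nat_lit 209456075804) (nat_lit 2) E) (nat_lit 209456075811) (nat_lit 2) (N E (nat_lit 209456083028) (nat_lit 2) E)) (nat_lit 209456085002) (nat_lit 2) (N (N (N E (nat_lit 209456087683) (nat_lit 2) E) (nat_lit 209456088586) (nat_lit 2) E) (nat_lit 209547756163) (nat_lit 2) (N E (nat_lit 209547757066) (nat_lit 2) E)))) (nat_lit 209548219402) (nat_lit 2) (N (N (N (N (N E (nat_lit 209548226755) (nat_lit 2) E) (nat_lit 209548226844) (nat_lit 2) E) (nat_lit 209548226851)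 (nat_lit 2) (N E (nat_lit 209548228832) (nat_lit 2) E)) (nat_lit 209548232472) (nat_lit 2) (N (N (N E (nat_lit 209548359704) (nat_lit 2) E) (nat_lit 209548592664) (nat_lit 2) E) (nat_lit 209556735512) (nat_lit 2) (N E (nat_lit 209784935434) (nat_lit 2) E))) (nat_lit 209937539296) (nat_lit 1) (N (N (N (N E (nat_lit 209937539744) (nat_lit 2) E) (nat_lit 209937597088) (nat_lit 1) E) (nat_lit 209937598176) (nat_lit 2) (N E (nat_lit 209937608928) (nat_lit 2) E)) (nat_lit 209937612995) (nat_lit 2) (N (N (N E (nat_lit 209937613084) (nat_lit 2) E) (nat_lit 209937613091) (nat_lit 2) E) (nat_lit 209937614360) (nat_lit 2) (N E (nat_lit 209937614624) (nat_lit 2) E))))) (nat_lit 209937615072) (nat_lit 2) (N (N (N (N (N (N E (nat_lit 209937826464) (nat_lit 2) E) (nat_lit 209967186592) (nat_lit 1) E) (nat_lit 209967187680) (nat_lit 2) (N E (nat_lit 209967198432) (nat_lit 2) E)) (nat_lit 209967202499) (nat_lit 2) (N (N (N E (nat_lit 209967202588) (nat_lit 2) E) (nat_lit 209967202595) (nat_lit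 2) E) (nat_lit 209967203864) (nat_lit 2) (N E (nat_lit 209967204128) (nat_lit 2) E))) (nat_lit 209967204576) (nat_lit 2) (N (N (N (N E (nat_lit 209967685856) (nat_lit 2) E) (nat_lit 209967743648) (nat_lit 2) E) (nat_lit 209973190880) (nat_lit 2) (N E (nat_lit 209973248672) (nat_lit 2) E)) (nat_lit 209975289368) (nat_lit 2) (N (N (N E (nat_lit 209975345795) (nat_lit 2) E) (nat_lit 209975345816) (nat_lit 2) E) (nat_lit 209975346698) (nat_lit 2) (N E (nat_lit 209975346712) (nat_lit 1) E)))) (nat_lit 209975346768) (nat_lit 2) (N (N (N (N (N E (nat_lit 209975350296) (nat_lit 2) E) (nat_lit 209975383068) (nat_lit 2) E) (nat_lit 209975383075) (nat_lit 2) (N E (nat_lit 209975390292) (nat_lit 2) E)) (nat_lit 209975392266) (nat_lit 2) (N (N (N E (nat_lit 209975394947) (nat_lit 2) E) (nat_lit 209975395850) (nat_lit 2) E) (nat_lit 209975576088) (nat_lit 2) (N E (nat_lit 209975576352) (nat_lit 2) E))) (nat_lit 209975576800) (nat_lit 2) (N (N (N (N E (nat_lit 209976038424) (nat_lit 2)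 E) (nat_lit 209976038688) (nat_lit 2) E) (nat_lit 209976165024) (nat_lit 2) (N E (nat_lit 209976336608) (nat_lit 2) E)) (nat_lit 209976394400) (nat_lit 2) (N (N E (nat_lit 210474410064) (nat_lit 2) E) (nat_lit 210474468888) (nat_lit 2) (N E (nat_lit 210474485784) (nat_lit 2) E))))))
 (nat_lit 210474514456) (nat_lit 2) (N (N (N (N (N (N (N E (nat_lit 210504058392) (nat_lit 2) E) (nat_lit 210504075288) (nat_lit 2) E) (nat_lit 210512160792) (nat_lit 2) (N E (nat_lit 210523142168) (nat_lit 2) E)) (nat_lit 210526840856) (nat_lit 2) (N (N (N E (nat_lit 210621499146) (nat_lit 2) E) (nat_lit 210621499160) (nat_lit 1) E) (nat_lit 210621502744) (nat_lit 2) (N E (nat_lit 210621961482) (nat_lit 2) E))) (nat_lit 210621961496) (nat_lit 1) (N (N (N (N E (nat_lit 210621970200) (nat_lit 2) E) (nat_lit 210622056216) (nat_lit 2) E) (nat_lit 210622089240) (nat_lit 2) (N E (nat_lit 210622092298) (nat_lit 2) E)) (nat_lit 210622099651) (nat_lit 2) (N (N (N E (nat_lit 210622099740) (nat_lit 2)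 E) (nat_lit 210622099747) (nat_lit 2) E) (nat_lit 210622101728) (nat_lit 2) (N E (nat_lit 210622105368) (nat_lit 2) E)))) (nat_lit 210622318616) (nat_lit 2) (N (N (N (N (N E (nat_lit 210622334744) (nat_lit 2) E) (nat_lit 210623796504) (nat_lit 2) E) (nat_lit 210858677514) (nat_lit 2) (N E (nat_lit 210858677528) (nat_lit 1) E)) (nat_lit 210858686232) (nat_lit 2) (N (N (N E (nat_lit 210858772248) (nat_lit 2) E) (nat_lit 210858805272) (nat_lit 2) E) (nat_lit 210858808330) (nat_lit 2) (N E (nat_lit 210858815683) (nat_lit 2) E))) (nat_lit 210858815772) (nat_lit 2) (N (N (N (N E (nat_lit 210858815779) (nat_lit 2) E) (nat_lit 210858817760) (nat_lit 2) E) (nat_lit 210858821400) (nat_lit 2) (N E (nat_lit 210862671640) (nat_lit 2) E)) (nat_lit 210863133976) (nat_lit 2) (N (N (N E (nat_lit 210906711832) (nat_lit 2) E) (nat_lit 210907174168) (nat_lit 2) E) (nat_lit 210923489304) (nat_lit 2) (N E (nat_lit 210923505432) (nat_lit 2) E))))) (nat_lit 210925786122) (nat_lit 2) (N (N (N (N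 (N (N E (nat_lit 210925880856) (nat_lit 2) E) (nat_lit 210929493528) (nat_lit 2) E) (nat_lit 210929549955) (nat_lit 2) (N E (nat_lit 210929549976) (nat_lit 2) E)) (nat_lit 210929550858) (nat_lit 2) (N (N (N E (nat_lit 210929550872) (nat_lit 1) E) (nat_lit 210929550928) (nat_lit 2) E) (nat_lit 210929554456) (nat_lit 2) (N E (nat_lit 210929587228) (nat_lit 2) E))) (nat_lit 210929587235) (nat_lit 2) (N (N (N (N E (nat_lit 210929594452) (nat_lit 2) E) (nat_lit 210929596426) (nat_lit 2) E) (nat_lit 210929599107) (nat_lit 2) (N E (nat_lit 210929600010) (nat_lit 2) E)) (nat_lit 210929780248) (nat_lit 2) (N (N (N E (nat_lit 210930540768) (nat_lit 2) E) (nat_lit 210930598560) (nat_lit 2) E) (nat_lit 210931877656) (nat_lit 2) (N E (nat_lit 210932339992) (nat_lit 2) E)))) (nat_lit 211011340312) (nat_lit 2) (N (N (N (N (N E (nat_lit 211011356440) (nat_lit 2) E) (nat_lit 211040929816) (nat_lit 2) E) (nat_lit 211040945944) (nat_lit 2) (N E (nat_lit 211049318168) (nat_lit 2) E)) (nat_lit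 211049780504) (nat_lit 2) (N (N (N E (nat_lit 216946508419) (nat_lit 2) E) (nat_lit 216946509322) (nat_lit 2) E) (nat_lit 216946971658) (nat_lit 2) (N E (nat_lit 216946979011) (nat_lit 2) E))) (nat_lit 216946979100) (nat_lit 2) (N (N (N (N E (nat_lit 216946979107) (nat_lit 2) E) (nat_lit 216946981088) (nat_lit 2) E) (nat_lit 216946984728) (nat_lit 2) (N E (nat_lit 216947111960) (nat_lit 2) E)) (nat_lit 216947344920) (nat_lit 2) (N (N E (nat_lit 216955487768) (nat_lit 2) E) (nat_lit 216965583900) (nat_lit 2) (N E (nat_lit 216965583907) (nat_lit 2) E))))))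
)
 (nat_lit 216965591124) (nat_lit 2) (N (N (N (N (N (N (N (N E (nat_lit 216965593098) (nat_lit 2) E) (nat_lit 216965595779) (nat_lit 2) E) (nat_lit 216965596682) (nat_lit 2) (N E (nat_lit 216969289812) (nat_lit 2) E)) (nat_lit 216969291786) (nat_lit 2) (N (N (N E (nat_lit 216970302474) (nat_lit 2) E) (nat_lit 216970397208) (nat_lit 2) E) (nat_lit 216971674243) (nat_lit 2) (N E (nat_lit 216971675146) (nat_lit 2) E))) (nat_lit 216972137482) (nat_lit 2) (N (N (N (N E (nat_lit 217453732064) (nat_lit 2) E) (nat_lit 217453789856) (nat_lit 2) E) (nat_lit 217483379360) (nat_lit 2) (N E (nat_lit 217491539480) (nat_lit 2) E)) (nat_lit 232096334467) (nat_lit 2) (N (N (N E (nat_lit 232096335370) (nat_lit 2) E) (nat_lit 232096797706) (nat_lit 2) E) (nat_lit 232333513738) (nat_lit 2) (N E (nat_lit 241862972444) (nat_lit 2) E)))) (nat_lit 241862972451) (nat_lit 2) (N (N (N (N (N E (nat_lit 241862979668) (nat_lit 2) E) (nat_lit 241862981642) (nat_lit 2) E) (nat_lit 241862981656) (nat_lit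 1) (N E (nat_lit 241862981712) (nat_lit 2) E)) (nat_lit 241862984323) (nat_lit 2) (N (N (N E (nat_lit 241862985226) (nat_lit 2) E) (nat_lit 241863010328) (nat_lit 2) E) (nat_lit 241866678356) (nat_lit 2) (N E (nat_lit 241866680330) (nat_lit 2) E))) (nat_lit 241866680344) (nat_lit 1) (N (N (N (N E (nat_lit 241866680400) (nat_lit 2) E) (nat_lit 241866749976) (nat_lit 2) E) (nat_lit 241867438104) (nat_lit 2) (N E (nat_lit 241867691018) (nat_lit 2) E)) (nat_lit 241867698371) (nat_lit 2) (N (N (N E (nat_lit 241867698460) (nat_lit 2) E) (nat_lit 241867698467) (nat_lit 2) E) (nat_lit 241867700448) (nat_lit 2) (N E (nat_lit 241867704088) (nat_lit 2) E))))) (nat_lit 241867726928) (nat_lit 2) (N (N (N (N (N (N E (nat_lit 241867785752) (nat_lit 2) E) (nat_lit 241867802648) (nat_lit 2) E) (nat_lit 241867831320) (nat_lit 2) (N E (nat_lit 241869062787) (nat_lit 2) E)) (nat_lit 241869063690) (nat_lit 2) (N (N (N E (nat_lit 241869526026) (nat_lit 2) E) (nat_lit 241881360408) (nat_lit 2)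 E) (nat_lit 243760406612) (nat_lit 2) (N E (nat_lit 243760408586) (nat_lit 2) E))) (nat_lit 243760408600) (nat_lit 1) (N (N (N (N E (nat_lit 243760408656) (nat_lit 2) E) (nat_lit 243760478232) (nat_lit 2) E) (nat_lit 243761166360) (nat_lit 2) (N E (nat_lit 243761419274) (nat_lit 2) E)) (nat_lit 243761426627) (nat_lit 2) (N (N (N E (nat_lit 243761426716) (nat_lit 2) E) (nat_lit 243761426723) (nat_lit 2) E) (nat_lit 243761428704) (nat_lit 2) (N E (nat_lit 243761432344) (nat_lit 2) E)))) (nat_lit 243761455184) (nat_lit 2) (N (N (N (N (N E (nat_lit 243761514008) (nat_lit 2) E) (nat_lit 243761530904) (nat_lit 2) E) (nat_lit 243761559576) (nat_lit 2) (N E (nat_lit 243792361496) (nat_lit 2) E)) (nat_lit 243796060184) (nat_lit 2) (N (N (N E (nat_lit 244144683032) (nat_lit 2) E) (nat_lit 244148381720) (nat_lit 2) E) (nat_lit 244278891530) (nat_lit 2) (N E (nat_lit 244278986264) (nat_lit 2) E))) (nat_lit 244282598936) (nat_lit 2) (N (N (N (N E (nat_lit 244282655363) (nat_lit 2) E)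 (nat_lit 244282655384) (nat_lit 2) E) (nat_lit 244282656266) (nat_lit 2) (N E (nat_lit 244282656280) (nat_lit 1) E)) (nat_lit 244282656336) (nat_lit 2) (N (N E (nat_lit 244282659864) (nat_lit 2) E) (nat_lit 244282692636) (nat_lit 2) (N E (nat_lit 244282692643) (nat_lit 2) E))))))
 (nat_lit 244282699860) (nat_lit 2) (N (N (N (N (N (N (N E (nat_lit 244282701834) (nat_lit 2) E) (nat_lit 244282704515) (nat_lit 2) E) (nat_lit 244282705418) (nat_lit 2) (N E (nat_lit 244282885656) (nat_lit 2) E)) (nat_lit 244283646176) (nat_lit 2) (N (N (N E (nat_lit 244283703968) (nat_lit 2) E) (nat_lit 244284983064) (nat_lit 2) E) (nat_lit 244285445400) (nat_lit 2) (N E (nat_lit 244297277520) (nat_lit 2) E))) (nat_lit 244297336344) (nat_lit 2) (N (N (N (N E (nat_lit 244297353240) (nat_lit 2) E) (nat_lit 244297381912) (nat_lit 2) E) (nat_lit 244326925848) (nat_lit 2) (N E (nat_lit 244326942744) (nat_lit 2) E)) (nat_lit 244335028248) (nat_lit 2) (N (N (N E (nat_lit 244346009624) (nat_lit 2) E)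 (nat_lit 244349708312) (nat_lit 2) E) (nat_lit 244981236355) (nat_lit 2) (N E (nat_lit 244981237258) (nat_lit 2) E)))) (nat_lit 244981699594) (nat_lit 2) (N (N (N (N (N E (nat_lit 245218415626) (nat_lit 2) E) (nat_lit 276222710808) (nat_lit 2) E) (nat_lit 276222718032) (nat_lit 2) (N E (nat_lit 276226416720) (nat_lit 2) E)) (nat_lit 276226475544) (nat_lit 2) (N (N (N E (nat_lit 276227556888) (nat_lit 2) E) (nat_lit 276229391896) (nat_lit 2) E) (nat_lit 278120144976) (nat_lit 2) (N E (nat_lit 278120203800) (nat_lit 2) E))) (nat_lit 278121285144) (nat_lit 2) (N (N (N (N E (nat_lit 278638757400) (nat_lit 2) E) (nat_lit 279341565464) (nat_lit 2) E) (nat_lit 279578281496) (nat_lit 2) (N E (nat_lit 285636337891) (nat_lit 2) E)) (nat_lit 285636395683) (nat_lit 2) (N (N (N E (nat_lit 285636412035) (nat_lit 2) E) (nat_lit 285636412056) (nat_lit 2) E) (nat_lit 285636412938) (nat_lit 2) (N E (nat_lit 285636412952) (nat_lit 1) E))))) (nat_lit 285636413008) (nat_lit 2) (N (N (N (N (N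 (N E (nat_lit 285636642328) (nat_lit 2) E) (nat_lit 285665985187) (nat_lit 2) E) (nat_lit 285666001539) (nat_lit 2) (N E (nat_lit 285666001560) (nat_lit 2) E)) (nat_lit 285666002442) (nat_lit 2) (N (N (N E (nat_lit 285666002456) (nat_lit 1) E) (nat_lit 285666002512) (nat_lit 2) E) (nat_lit 285666559512) (nat_lit 2) (N E (nat_lit 285672064536) (nat_lit 2) E))) (nat_lit 285674178072) (nat_lit 2) (N (N (N (N E (nat_lit 285674373763) (nat_lit 2) E) (nat_lit 285674374666) (nat_lit 2) E) (nat_lit 285674837002) (nat_lit 2) (N E (nat_lit 285674844355) (nat_lit 2) E)) (nat_lit 285674844444) (nat_lit 2) (N (N (N E (nat_lit 285674844451) (nat_lit 2) E) (nat_lit 285674846432) (nat_lit 2) E) (nat_lit 285674850072) (nat_lit 2) (N E (nat_lit 285674977304) (nat_lit 2) E)))) (nat_lit 285675210264) (nat_lit 2) (N (N (N (N (N E (nat_lit 285688858136) (nat_lit 2) E) (nat_lit 285689890328) (nat_lit 2) E) (nat_lit 285783442968) (nat_lit 2) (N E (nat_lit 300815811235) (nat_lit 2) E)) (nat_lit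 300815827587) (nat_lit 2) (N (N (N E (nat_lit 300815827608) (nat_lit 2) E) (nat_lit 300815828490) (nat_lit 2) E) (nat_lit 300815828504) (nat_lit 1) (N E (nat_lit 300815828560) (nat_lit 2) E))) (nat_lit 300816385560) (nat_lit 2) (N (N (N (N E (nat_lit 300821890584) (nat_lit 2) E) (nat_lit 300824004120) (nat_lit 2) E) (nat_lit 300824199811) (nat_lit 2) (N E (nat_lit 300824200714) (nat_lit 2) E)) (nat_lit 300824663050) (nat_lit 2) (N (N E (nat_lit 300824670403) (nat_lit 2) E) (nat_lit 300824670492) (nat_lit 2) (N E (nat_lit 300824670499) (nat_lit 2) E))))))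
)
)
)
 (nat_lit 300824672480) (nat_lit 2) (N (N (N (N (N (N (N (N (N (N E (nat_lit 300824676120) (nat_lit 2) E) (nat_lit 300824803352) (nat_lit 2) E) (nat_lit 300825036312) (nat_lit 2) (N E (nat_lit 301071451672) (nat_lit 2) E)) (nat_lit 301101041176) (nat_lit 2) (N (N (N E (nat_lit 303890023960) (nat_lit 2) E) (nat_lit 303919613464) (nat_lit 2) E) (nat_lit 304963782168) (nat_lit 2) (N E (nat_lit 304964814360) (nat_lit 2) E))) (nat_lit 305110778499) (nat_lit 2) (N (N (N (N E (nat_lit 305110779402) (nat_lit 2) E) (nat_lit 305111241738) (nat_lit 2) E) (nat_lit 305116841496) (nat_lit 2) (N E (nat_lit 305347957770) (nat_lit 2) E)) (nat_lit 305348052504) (nat_lit 2) (N (N (N E (nat_lit 305351665176) (nat_lit 2) E) (nat_lit 305351721603) (nat_lit 2) E) (nat_lit 305351721624) (nat_lit 2) (N E (nat_lit 305351722506) (nat_lit 2) E)))) (nat_lit 305351722520) (nat_lit 1) (N (N (N (N (N E (nat_lit 305351722576) (nat_lit 2) E) (nat_lit 305351726104) (nat_lit 2) E) (nat_lit 305351758876)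 (nat_lit 2) (N E (nat_lit 305351758883) (nat_lit 2) E)) (nat_lit 305351766100) (nat_lit 2) (N (N (N E (nat_lit 305351768074) (nat_lit 2) E) (nat_lit 305351770755) (nat_lit 2) E) (nat_lit 305351771658) (nat_lit 2) (N E (nat_lit 305351951896) (nat_lit 2) E))) (nat_lit 305352712416) (nat_lit 2) (N (N (N (N E (nat_lit 305352770208) (nat_lit 2) E) (nat_lit 305354049304) (nat_lit 2) E) (nat_lit 305354511640) (nat_lit 2) (N E (nat_lit 305366402584) (nat_lit 2) E)) (nat_lit 305415075864) (nat_lit 2) (N (N (N E (nat_lit 305418774552) (nat_lit 2) E) (nat_lit 305500636696) (nat_lit 2) E) (nat_lit 305530226200) (nat_lit 2) (N E (nat_lit 310586246680) (nat_lit 2) E))))) (nat_lit 310587278872) (nat_lit 2) (N (N (N (N (N (N E (nat_lit 312479974936) (nat_lit 2) E) (nat_lit 312481007128) (nat_lit 2) E) (nat_lit 313016829464) (nat_lit 2) (N E (nat_lit 313046418968) (nat_lit 2) E)) (nat_lit 688539571210) (nat_lit 2) (N (N (N E (nat_lit 688539571224) (nat_lit 1) E) (nat_lit 688539571280) (nat_lit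 2) E) (nat_lit 688539578448) (nat_lit 1) (N E (nat_lit 688539578563) (nat_lit 2) E))) (nat_lit 688539578584) (nat_lit 2) (N (N (N (N E (nat_lit 688539578652) (nat_lit 2) E) (nat_lit 688539578659) (nat_lit 2) E) (nat_lit 688539579928) (nat_lit 2) (N E (nat_lit 688539580640) (nat_lit 2) E)) (nat_lit 688539580675) (nat_lit 2) (N (N (N E (nat_lit 688539580696) (nat_lit 2) E) (nat_lit 688539584259) (nat_lit 2) E) (nat_lit 688539584280) (nat_lit 2) (N E (nat_lit 688539607120) (nat_lit 2) E)))) (nat_lit 688539665944) (nat_lit 2) (N (N (N (N (N E (nat_lit 688539711512) (nat_lit 2) E) (nat_lit 688543277136) (nat_lit 1) E) (nat_lit 688543277251) (nat_lit 2) (N E (nat_lit 688543277272) (nat_lit 2) E)) (nat_lit 688543277340) (nat_lit 2) (N (N (N E (nat_lit 688543277347) (nat_lit 2) E) (nat_lit 688543278616) (nat_lit 2) E) (nat_lit 688543279328) (nat_lit 2) (N E (nat_lit 688543279363) (nat_lit 2) E))) (nat_lit 688543279384) (nat_lit 2) (N (N (N (N E (nat_lit 688543335043) (nat_lit 2)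 E) (nat_lit 688543335064) (nat_lit 2) E) (nat_lit 688543335946) (nat_lit 2) (N E (nat_lit 688543335960) (nat_lit 1) E)) (nat_lit 688543336016) (nat_lit 2) (N (N E (nat_lit 688543339544) (nat_lit 2) E) (nat_lit 688543346768) (nat_lit 2) (N E (nat_lit 688543372316) (nat_lit 2) E))))))
 (nat_lit 688543372323) (nat_lit 2) (N (N (N (N (N (N (N E (nat_lit 688543379540) (nat_lit 2) E) (nat_lit 688543381514) (nat_lit 2) E) (nat_lit 688543384195) (nat_lit 2) (N E (nat_lit 688543385098) (nat_lit 2) E)) (nat_lit 688543565336) (nat_lit 2) (N (N (N E (nat_lit 688544027672) (nat_lit 2) E) (nat_lit 688544034896) (nat_lit 2) E) (nat_lit 688544290051) (nat_lit 2) (N E (nat_lit 688544290072) (nat_lit 2) E))) (nat_lit 688544325856) (nat_lit 2) (N (N (N (N E (nat_lit 688544383648) (nat_lit 2) E) (nat_lit 688544416387) (nat_lit 2) E) (nat_lit 688544416408) (nat_lit 2) (N E (nat_lit 688544417290) (nat_lit 2) E)) (nat_lit 688544417304) (nat_lit 1) (N (N (N E (nat_lit 688544417360) (nat_lit 2)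 E) (nat_lit 688544420888) (nat_lit 2) E) (nat_lit 688544428112) (nat_lit 2) (N E (nat_lit 688545662723) (nat_lit 2) E)))) (nat_lit 688545662744) (nat_lit 2) (N (N (N (N (N E (nat_lit 688546125059) (nat_lit 2) E) (nat_lit 688546125080) (nat_lit 2) E) (nat_lit 688546251395) (nat_lit 2) (N E (nat_lit 688546251416) (nat_lit 2) E)) (nat_lit 688546252298) (nat_lit 2) (N (N (N E (nat_lit 688546252312) (nat_lit 1) E) (nat_lit 688546252368) (nat_lit 2) E) (nat_lit 688546255896) (nat_lit 2) (N E (nat_lit 688546263120) (nat_lit 2) E))) (nat_lit 688557957200) (nat_lit 2) (N (N (N (N E (nat_lit 688558016024) (nat_lit 2) E) (nat_lit 688559097368) (nat_lit 2) E) (nat_lit 688606689304) (nat_lit 2) (N E (nat_lit 688610387992) (nat_lit 2) E)) (nat_lit 690437005392) (nat_lit 1) (N (N (N E (nat_lit 690437005507) (nat_lit 2) E) (nat_lit 690437005528) (nat_lit 2) E) (nat_lit 690437005596) (nat_lit 2) (N E (nat_lit 690437005603) (nat_lit 2) E))))) (nat_lit 690437006872) (nat_lit 2) (N (N (N (N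 (N (N E (nat_lit 690437007584) (nat_lit 2) E) (nat_lit 690437007619) (nat_lit 2) E) (nat_lit 690437007640) (nat_lit 2) (N E (nat_lit 690437063299) (nat_lit 2) E)) (nat_lit 690437063320) (nat_lit 2) (N (N (N E (nat_lit 690437064202) (nat_lit 2) E) (nat_lit 690437064216) (nat_lit 1) E) (nat_lit 690437064272) (nat_lit 2) (N E (nat_lit 690437067800) (nat_lit 2) E))) (nat_lit 690437075024) (nat_lit 2) (N (N (N (N E (nat_lit 690437100572) (nat_lit 2) E) (nat_lit 690437100579) (nat_lit 2) E) (nat_lit 690437107796) (nat_lit 2) (N E (nat_lit 690437109770) (nat_lit 2) E)) (nat_lit 690437112451) (nat_lit 2) (N (N (N E (nat_lit 690437113354) (nat_lit 2) E) (nat_lit 690437293592) (nat_lit 2) E) (nat_lit 690437755928) (nat_lit 2) (N E (nat_lit 690437763152) (nat_lit 2) E)))) (nat_lit 690438018307) (nat_lit 2) (N (N (N (N (N E (nat_lit 690438018328) (nat_lit 2) E) (nat_lit 690438054112) (nat_lit 2) E) (nat_lit 690438111904) (nat_lit 2) (N E (nat_lit 690438144643) (nat_lit 2) E)) (nat_lit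 690438144664) (nat_lit 2) (N (N (N E (nat_lit 690438145546) (nat_lit 2) E) (nat_lit 690438145560) (nat_lit 1) E) (nat_lit 690438145616) (nat_lit 2) (N E (nat_lit 690438149144) (nat_lit 2) E))) (nat_lit 690438156368) (nat_lit 2) (N (N (N (N E (nat_lit 690466652803) (nat_lit 2) E) (nat_lit 690466653706) (nat_lit 2) E) (nat_lit 690467116042) (nat_lit 2) (N E (nat_lit 690467123395) (nat_lit 2) E)) (nat_lit 690467123484) (nat_lit 2) (N (N E (nat_lit 690467123491) (nat_lit 2) E) (nat_lit 690467125472) (nat_lit 2) (N E (nat_lit 690467129112) (nat_lit 2) E))))))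
)
 (nat_lit 690467256344) (nat_lit 2) (N (N (N (N (N (N (N (N E (nat_lit 690467489304) (nat_lit 2) E) (nat_lit 690468951064) (nat_lit 2) E) (nat_lit 690468958288) (nat_lit 2) (N E (nat_lit 690472656976) (nat_lit 2) E)) (nat_lit 690472715800) (nat_lit 2) (N (N (N E (nat_lit 690473797144) (nat_lit 2) E) (nat_lit 690475632152) (nat_lit 2) E) (nat_lit 690485728284) (nat_lit 2) (N E (nat_lit 690485728291) (nat_lit 2) E))) (nat_lit 690485735508) (nat_lit 2) (N (N (N (N E (nat_lit 690485737482) (nat_lit 2) E) (nat_lit 690485740163) (nat_lit 2) E) (nat_lit 690485741066) (nat_lit 2) (N E (nat_lit 690489434196) (nat_lit 2) E)) (nat_lit 690489436170) (nat_lit 2) (N (N (N E (nat_lit 690490446858) (nat_lit 2) E) (nat_lit 690490541592) (nat_lit 2) E) (nat_lit 690491818627) (nat_lit 2) (N E (nat_lit 690491819530) (nat_lit 2) E)))) (nat_lit 690492281866) (nat_lit 2) (N (N (N (N (N E (nat_lit 690821272600) (nat_lit 2) E) (nat_lit 690821279824) (nat_lit 2) E) (nat_lit 690824978512) (nat_lit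 2) (N E (nat_lit 690825037336) (nat_lit 2) E)) (nat_lit 690826118680) (nat_lit 2) (N (N (N E (nat_lit 690827953688) (nat_lit 2) E) (nat_lit 690955490563) (nat_lit 2) E) (nat_lit 690955490584) (nat_lit 2) (N E (nat_lit 690955616899) (nat_lit 2) E))) (nat_lit 690955616920) (nat_lit 2) (N (N (N (N E (nat_lit 690955617802) (nat_lit 2) E) (nat_lit 690955617816) (nat_lit 1) E) (nat_lit 690955617872) (nat_lit 2) (N E (nat_lit 690955621400) (nat_lit 2) E)) (nat_lit 690955628624) (nat_lit 2) (N (N (N E (nat_lit 690960074264) (nat_lit 2) E) (nat_lit 690973876448) (nat_lit 2) E) (nat_lit 690973934240) (nat_lit 2) (N E (nat_lit 691003523744) (nat_lit 2) E))))) (nat_lit 691004114456) (nat_lit 2) (N (N (N (N (N (N E (nat_lit 691011683864) (nat_lit 2) E) (nat_lit 691020300931) (nat_lit 2) E) (nat_lit 691020301834) (nat_lit 2) (N E (nat_lit 691020764170) (nat_lit 2) E)) (nat_lit 691020771523) (nat_lit 2) (N (N (N E (nat_lit 691020771612) (nat_lit 2) E) (nat_lit 691020771619) (nat_lit 2)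 E) (nat_lit 691020773600) (nat_lit 2) (N E (nat_lit 691020777240) (nat_lit 2) E))) (nat_lit 691020904472) (nat_lit 2) (N (N (N (N E (nat_lit 691021137432) (nat_lit 2) E) (nat_lit 691022599192) (nat_lit 2) E) (nat_lit 691022606416) (nat_lit 2) (N E (nat_lit 691026305104) (nat_lit 2) E)) (nat_lit 691026363928) (nat_lit 2) (N (N (N E (nat_lit 691027445272) (nat_lit 2) E) (nat_lit 691029280280) (nat_lit 2) E) (nat_lit 691657836291) (nat_lit 2) (N E (nat_lit 691657836312) (nat_lit 2) E)))) (nat_lit 691658298627) (nat_lit 2) (N (N (N (N (N E (nat_lit 691658298648) (nat_lit 2) E) (nat_lit 691658424963) (nat_lit 2) E) (nat_lit 691658424984) (nat_lit 2) (N E (nat_lit 691658425866) (nat_lit 2) E)) (nat_lit 691658425880) (nat_lit 1) (N (N (N E (nat_lit 691658425936) (nat_lit 2) E) (nat_lit 691658429464) (nat_lit 2) E) (nat_lit 691658436688) (nat_lit 2) (N E (nat_lit 691660260888) (nat_lit 2) E))) (nat_lit 691895014659) (nat_lit 2) (N (N (N (N E (nat_lit 691895014680) (nat_lit 2) E)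 (nat_lit 691895140995) (nat_lit 2) E) (nat_lit 691895141016) (nat_lit 2) (N E (nat_lit 691895141898) (nat_lit 2) E)) (nat_lit 691895141912) (nat_lit 1) (N (N E (nat_lit 691895141968) (nat_lit 2) E) (nat_lit 691895145496) (nat_lit 2) (N E (nat_lit 691895152720) (nat_lit 2) E))))))
 (nat_lit 691899598360) (nat_lit 2) (N (N (N (N (N (N (N E (nat_lit 691943638552) (nat_lit 2) E) (nat_lit 691959825027) (nat_lit 2) E) (nat_lit 691959825930) (nat_lit 2) (N E (nat_lit 691960288266) (nat_lit 2) E)) (nat_lit 691960295619) (nat_lit 2) (N (N (N E (nat_lit 691960295708) (nat_lit 2) E) (nat_lit 691960295715) (nat_lit 2) E) (nat_lit 691960297696) (nat_lit 2) (N E (nat_lit 691960301336) (nat_lit 2) E))) (nat_lit 691960428568) (nat_lit 2) (N (N (N (N E (nat_lit 691960661528) (nat_lit 2) E) (nat_lit 691962123288) (nat_lit 2) E) (nat_lit 691962130512) (nat_lit 2) (N E (nat_lit 691965829200) (nat_lit 2) E)) (nat_lit 691965888024) (nat_lit 2) (N (N (N E (nat_lit 691966969368) (nat_lit 2) E)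 (nat_lit 691968804376) (nat_lit 2) E) (nat_lit 697953198160) (nat_lit 2) (N E (nat_lit 697953256984) (nat_lit 2) E)))) (nat_lit 697954338328) (nat_lit 2) (N (N (N (N (N E (nat_lit 698471810584) (nat_lit 2) E) (nat_lit 713373615640) (nat_lit 2) E) (nat_lit 722899318808) (nat_lit 2) (N E (nat_lit 722903017496) (nat_lit 2) E)) (nat_lit 724796745752) (nat_lit 2) (N (N (N E (nat_lit 725318993432) (nat_lit 2) E) (nat_lit 1660025872464) (nat_lit 1) E) (nat_lit 1660025872579) (nat_lit 2) (N E (nat_lit 1660025872600) (nat_lit 2) E))) (nat_lit 1660025872668) (nat_lit 2) (N (N (N (N E (nat_lit 1660025872675) (nat_lit 2) E) (nat_lit 1660025873944) (nat_lit 2) E) (nat_lit 1660025874656) (nat_lit 2) (N E (nat_lit 1660025874691) (nat_lit 2) E)) (nat_lit 1660025874712) (nat_lit 2) (N (N (N E (nat_lit 1660025930371) (nat_lit 2) E) (nat_lit 1660025930392) (nat_lit 2) E) (nat_lit 1660025931274) (nat_lit 2) (N E (nat_lit 1660025931288) (nat_lit 1) E))))) (nat_lit 1660025931344) (nat_lit 2)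 (N (N (N (N (N (N E (nat_lit 1660025934872) (nat_lit 2) E) (nat_lit 1660025942096) (nat_lit 2) E) (nat_lit 1660025967644) (nat_lit 2) (N E (nat_lit 1660025967651) (nat_lit 2) E)) (nat_lit 1660025974868) (nat_lit 2) (N (N (N E (nat_lit 1660025976842) (nat_lit 2) E) (nat_lit 1660025979523) (nat_lit 2) E) (nat_lit 1660025980426) (nat_lit 2) (N E (nat_lit 1660026160664) (nat_lit 2) E))) (nat_lit 1660026623000) (nat_lit 2) (N (N (N (N E (nat_lit 1660026630224) (nat_lit 2) E) (nat_lit 1660026885379) (nat_lit 2) E) (nat_lit 1660026885400) (nat_lit 2) (N E (nat_lit 1660026921184) (nat_lit 2) E)) (nat_lit 1660026978976) (nat_lit 2) (N (N (N E (nat_lit 1660027011715) (nat_lit 2) E) (nat_lit 1660027011736) (nat_lit 2) E) (nat_lit 1660027012618) (nat_lit 2) (N E (nat_lit 1660027012632) (nat_lit 1) E)))) (nat_lit 1660027012688) (nat_lit 2) (N (N (N (N (N E (nat_lit 1660027016216) (nat_lit 2) E) (nat_lit 1660027023440) (nat_lit 2) E) (nat_lit 1660055519875) (nat_lit 2) (N E (nat_lit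 1660055520778) (nat_lit 2) E)) (nat_lit 1660055983114) (nat_lit 2) (N (N (N E (nat_lit 1660055990467) (nat_lit 2) E) (nat_lit 1660055990556) (nat_lit 2) E) (nat_lit 1660055990563) (nat_lit 2) (N E (nat_lit 1660055992544) (nat_lit 2) E))) (nat_lit 1660055996184) (nat_lit 2) (N (N (N (N E (nat_lit 1660056123416) (nat_lit 2) E) (nat_lit 1660056356376) (nat_lit 2) E) (nat_lit 1660057818136) (nat_lit 2) (N E (nat_lit 1660057825360) (nat_lit 2) E)) (nat_lit 1660061524048) (nat_lit 2) (N (N E (nat_lit 1660061582872) (nat_lit 2) E) (nat_lit 1660062664216) (nat_lit 2) (N E (nat_lit 1660064499224) (nat_lit 2) E))))))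
)
)
 (nat_lit 1660074595356) (nat_lit 2) (N (N (N (N (N (N (N (N (N E (nat_lit 1660074595363) (nat_lit 2) E) (nat_lit 1660074602580) (nat_lit 2) E) (nat_lit 1660074604554) (nat_lit 2) (N E (nat_lit 1660074607235) (nat_lit 2) E)) (nat_lit 1660074608138) (nat_lit 2) (N (N (N E (nat_lit 1660078301268) (nat_lit 2) E) (nat_lit 1660078303242) (nat_lit 2) E) (nat_lit 1660079313930) (nat_lit 2) (N E (nat_lit 1660079408664) (nat_lit 2) E))) (nat_lit 1660080685699) (nat_lit 2) (N (N (N (N E (nat_lit 1660080686602) (nat_lit 2) E) (nat_lit 1660081148938) (nat_lit 2) E) (nat_lit 1660410139672) (nat_lit 2) (N E (nat_lit 1660410146896) (nat_lit 2) E)) (nat_lit 1660413845584) (nat_lit 2) (N (N (N E (nat_lit 1660413904408) (nat_lit 2) E) (nat_lit 1660414985752) (nat_lit 2) E) (nat_lit 1660416820760) (nat_lit 2) (N E (nat_lit 1660544357635) (nat_lit 2) E)))) (nat_lit 1660544357656) (nat_lit 2) (N (N (N (N (N E (nat_lit 1660544483971) (nat_lit 2) E) (nat_lit 1660544483992) (nat_lit 2) E)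 (nat_lit 1660544484874) (nat_lit 2) (N E (nat_lit 1660544484888) (nat_lit 1) E)) (nat_lit 1660544484944) (nat_lit 2) (N (N (N E (nat_lit 1660544488472) (nat_lit 2) E) (nat_lit 1660544495696) (nat_lit 2) E) (nat_lit 1660548941336) (nat_lit 2) (N E (nat_lit 1660562743520) (nat_lit 2) E))) (nat_lit 1660562801312) (nat_lit 2) (N (N (N (N E (nat_lit 1660592390816) (nat_lit 2) E) (nat_lit 1660592981528) (nat_lit 2) E) (nat_lit 1660600550936) (nat_lit 2) (N E (nat_lit 1660609168003) (nat_lit 2) E)) (nat_lit 1660609168906) (nat_lit 2) (N (N (N E (nat_lit 1660609631242) (nat_lit 2) E) (nat_lit 1660609638595) (nat_lit 2) E) (nat_lit 1660609638684) (nat_lit 2) (N E (nat_lit 1660609638691) (nat_lit 2) E))))) (nat_lit 1660609640672) (nat_lit 2) (N (N (N (N (N (N E (nat_lit 1660609644312) (nat_lit 2) E) (nat_lit 1660609771544) (nat_lit 2) E) (nat_lit 1660610004504) (nat_lit 2) (N E (nat_lit 1660611466264) (nat_lit 2) E)) (nat_lit 1660611473488) (nat_lit 2) (N (N (N E (nat_lit 1660615172176)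 (nat_lit 2) E) (nat_lit 1660615231000) (nat_lit 2) E) (nat_lit 1660616312344) (nat_lit 2) (N E (nat_lit 1660618147352) (nat_lit 2) E))) (nat_lit 1675205345923) (nat_lit 2) (N (N (N (N E (nat_lit 1675205346826) (nat_lit 2) E) (nat_lit 1675205809162) (nat_lit 2) E) (nat_lit 1675211408920) (nat_lit 2) (N E (nat_lit 1675442525194) (nat_lit 2) E)) (nat_lit 1675442619928) (nat_lit 2) (N (N (N E (nat_lit 1675446232600) (nat_lit 2) E) (nat_lit 1675446289027) (nat_lit 2) E) (nat_lit 1675446289048) (nat_lit 2) (N E (nat_lit 1675446289930) (nat_lit 2) E)))) (nat_lit 1675446289944) (nat_lit 1) (N (N (N (N (N E (nat_lit 1675446290000) (nat_lit 2) E) (nat_lit 1675446293528) (nat_lit 2) E) (nat_lit 1675446326300) (nat_lit 2) (N E (nat_lit 1675446326307) (nat_lit 2) E)) (nat_lit 1675446333524) (nat_lit 2) (N (N (N E (nat_lit 1675446335498) (nat_lit 2) E) (nat_lit 1675446338179) (nat_lit 2) E) (nat_lit 1675446339082) (nat_lit 2) (N E (nat_lit 1675446519320) (nat_lit 2) E))) (nat_lit 1675447279840)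 (nat_lit 2) (N (N (N (N E (nat_lit 1675447337632) (nat_lit 2) E) (nat_lit 1675448616728) (nat_lit 2) E) (nat_lit 1675449079064) (nat_lit 2) (N E (nat_lit 1675460970008) (nat_lit 2) E)) (nat_lit 1675509643288) (nat_lit 2) (N (N E (nat_lit 1675513341976) (nat_lit 2) E) (nat_lit 1675595204120) (nat_lit 2) (N E (nat_lit 1675624793624) (nat_lit 2) E))))))
 (nat_lit 1676382049304) (nat_lit 2) (N (N (N (N (N (N (N E (nat_lit 1676382056528) (nat_lit 2) E) (nat_lit 1676385755216) (nat_lit 2) E) (nat_lit 1676385814040) (nat_lit 2) (N E (nat_lit 1676386895384) (nat_lit 2) E)) (nat_lit 1676388730392) (nat_lit 2) (N (N (N E (nat_lit 1678279483472) (nat_lit 2) E) (nat_lit 1678279542296) (nat_lit 2) E) (nat_lit 1678280623640) (nat_lit 2) (N E (nat_lit 1678798095896) (nat_lit 2) E))) (nat_lit 1679500903960) (nat_lit 2) (N (N (N (N E (nat_lit 1679737619992) (nat_lit 2) E) (nat_lit 1684971983900) (nat_lit 2) E) (nat_lit 1684971983907) (nat_lit 2) (N E (nat_lit 1684971991124) (nat_lit 2)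 E)) (nat_lit 1684971993098) (nat_lit 2) (N (N (N E (nat_lit 1684971995779) (nat_lit 2) E) (nat_lit 1684971996682) (nat_lit 2) E) (nat_lit 1684975689812) (nat_lit 2) (N E (nat_lit 1684975691786) (nat_lit 2) E)))) (nat_lit 1684976702474) (nat_lit 2) (N (N (N (N (N E (nat_lit 1684976797208) (nat_lit 2) E) (nat_lit 1684978074243) (nat_lit 2) E) (nat_lit 1684978075146) (nat_lit 2) (N E (nat_lit 1684978537482) (nat_lit 2) E)) (nat_lit 1686869418068) (nat_lit 2) (N (N (N E (nat_lit 1686869420042) (nat_lit 2) E) (nat_lit 1686870430730) (nat_lit 2) E) (nat_lit 1686870525464) (nat_lit 2) (N E (nat_lit 1687387902986) (nat_lit 2) E))) (nat_lit 1688090247811) (nat_lit 2) (N (N (N (N E (nat_lit 1688090248714) (nat_lit 2) E) (nat_lit 1688090711050) (nat_lit 2) E) (nat_lit 1688327427082) (nat_lit 2) (N E (nat_lit 1735575832088) (nat_lit 2) E)) (nat_lit 1856770675736) (nat_lit 2) (N (N (N E (nat_lit 1856770682960) (nat_lit 2) E) (nat_lit 1856774381648) (nat_lit 2) E) (nat_lit 1856774440472)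 (nat_lit 2) (N E (nat_lit 1856775521816) (nat_lit 2) E))))) (nat_lit 1856777356824) (nat_lit 2) (N (N (N (N (N (N E (nat_lit 1858668109904) (nat_lit 2) E) (nat_lit 1858668168728) (nat_lit 2) E) (nat_lit 1858669250072) (nat_lit 2) (N E (nat_lit 1859186722328) (nat_lit 2) E)) (nat_lit 1859889530392) (nat_lit 2) (N (N (N E (nat_lit 1860126246424) (nat_lit 2) E) (nat_lit 1925490152707) (nat_lit 2) E) (nat_lit 1925490152728) (nat_lit 2) (N E (nat_lit 1925490279043) (nat_lit 2) E))) (nat_lit 1925490279064) (nat_lit 2) (N (N (N (N E (nat_lit 1925490279946) (nat_lit 2) E) (nat_lit 1925490279960) (nat_lit 1) E) (nat_lit 1925490280016) (nat_lit 2) (N E (nat_lit 1925490283544) (nat_lit 2) E)) (nat_lit 1925490290768) (nat_lit 2) (N (N (N E (nat_lit 1925494736408) (nat_lit 2) E) (nat_lit 1925538776600) (nat_lit 2) E) (nat_lit 1925554963075) (nat_lit 2) (N E (nat_lit 1925554963978) (nat_lit 2) E)))) (nat_lit 1925555426314) (nat_lit 2) (N (N (N (N (N E (nat_lit 1925555433667) (nat_lit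 2) E) (nat_lit 1925555433756) (nat_lit 2) E) (nat_lit 1925555433763) (nat_lit 2) (N E (nat_lit 1925555435744) (nat_lit 2) E)) (nat_lit 1925555439384) (nat_lit 2) (N (N (N E (nat_lit 1925555566616) (nat_lit 2) E) (nat_lit 1925555799576) (nat_lit 2) E) (nat_lit 1925557261336) (nat_lit 2) (N E (nat_lit 1925557268560) (nat_lit 2) E))) (nat_lit 1925560967248) (nat_lit 2) (N (N (N (N E (nat_lit 1925561026072) (nat_lit 2) E) (nat_lit 1925562107416) (nat_lit 2) E) (nat_lit 1925563942424) (nat_lit 2) (N E (nat_lit 1927535265304) (nat_lit 2) E)) (nat_lit 1927771981336) (nat_lit 2) (N (N E (nat_lit 1934903779552) (nat_lit 2) E) (nat_lit 1934903837344) (nat_lit 2) (N E (nat_lit 1934933426848) (nat_lit 2) E))))))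
)
 (nat_lit 1934941586968) (nat_lit 2) (N (N (N (N (N (N (N (N E (nat_lit 1950083252896) (nat_lit 2) E) (nat_lit 1950083843608) (nat_lit 2) E) (nat_lit 1950091413016) (nat_lit 2) (N E (nat_lit 1950320559640) (nat_lit 2) E)) (nat_lit 1958673187459) (nat_lit 2) (N (N (N E (nat_lit 1958673188362) (nat_lit 2) E) (nat_lit 1958673650698) (nat_lit 2) E) (nat_lit 1958679250456) (nat_lit 2) (N E (nat_lit 1958910366730) (nat_lit 2) E))) (nat_lit 1958910461464) (nat_lit 2) (N (N (N (N E (nat_lit 1958914074136) (nat_lit 2) E) (nat_lit 1958914130563) (nat_lit 2) E) (nat_lit 1958914130584) (nat_lit 2) (N E (nat_lit 1958914131466) (nat_lit 2) E)) (nat_lit 1958914131480) (nat_lit 1) (N (N (N E (nat_lit 1958914131536) (nat_lit 2) E) (nat_lit 1958914135064) (nat_lit 2) E) (nat_lit 1958914167836) (nat_lit 2) (N E (nat_lit 1958914167843) (nat_lit 2) E)))) (nat_lit 1958914175060) (nat_lit 2) (N (N (N (N (N E (nat_lit 1958914177034) (nat_lit 2) E) (nat_lit 1958914179715) (nat_lit 2) E) (nat_lit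 1958914180618) (nat_lit 2) (N E (nat_lit 1958914360856) (nat_lit 2) E)) (nat_lit 1958915121376) (nat_lit 2) (N (N (N E (nat_lit 1958915179168) (nat_lit 2) E) (nat_lit 1958916458264) (nat_lit 2) E) (nat_lit 1958916920600) (nat_lit 2) (N E (nat_lit 1958928811544) (nat_lit 2) E))) (nat_lit 1958977484824) (nat_lit 2) (N (N (N (N E (nat_lit 1958981183512) (nat_lit 2) E) (nat_lit 1959063045656) (nat_lit 2) E) (nat_lit 1959092635160) (nat_lit 2) (N E (nat_lit 1959849890840) (nat_lit 2) E)) (nat_lit 1959849898064) (nat_lit 2) (N (N (N E (nat_lit 1959853596752) (nat_lit 2) E) (nat_lit 1959853655576) (nat_lit 2) E) (nat_lit 1959854736920) (nat_lit 2) (N E (nat_lit 1959856571928) (nat_lit 2) E))))) (nat_lit 1961747325008) (nat_lit 2) (N (N (N (N (N (N E (nat_lit 1961747383832) (nat_lit 2) E) (nat_lit 1961748465176) (nat_lit 2) E) (nat_lit 1962265937432) (nat_lit 2) (N E (nat_lit 1962968745496) (nat_lit 2) E)) (nat_lit 1963205461528) (nat_lit 2) (N (N (N E (nat_lit 2285090703107) (nat_lit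 2) E) (nat_lit 2285090703128) (nat_lit 2) E) (nat_lit 2285091165443) (nat_lit 2) (N E (nat_lit 2285091165464) (nat_lit 2) E))) (nat_lit 2285091291779) (nat_lit 2) (N (N (N (N E (nat_lit 2285091291800) (nat_lit 2) E) (nat_lit 2285091292682) (nat_lit 2) E) (nat_lit 2285091292696) (nat_lit 1) (N E (nat_lit 2285091292752) (nat_lit 2) E)) (nat_lit 2285091296280) (nat_lit 2) (N (N (N E (nat_lit 2285091303504) (nat_lit 2) E) (nat_lit 2285093127704) (nat_lit 2) E) (nat_lit 2285327881475) (nat_lit 2) (N E (nat_lit 2285327881496) (nat_lit 2) E)))) (nat_lit 2285328007811) (nat_lit 2) (N (N (N (N (N E (nat_lit 2285328007832) (nat_lit 2) E) (nat_lit 2285328008714) (nat_lit 2) E) (nat_lit 2285328008728) (nat_lit 1) (N E (nat_lit 2285328008784) (nat_lit 2) E)) (nat_lit 2285328012312) (nat_lit 2) (N (N (N E (nat_lit 2285328019536) (nat_lit 2) E) (nat_lit 2285332465176) (nat_lit 2) E) (nat_lit 2285376505368) (nat_lit 2) (N E (nat_lit 2285392691843) (nat_lit 2) E))) (nat_lit 2285392692746)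 (nat_lit 2) (N (N (N (N E (nat_lit 2285393155082) (nat_lit 2) E) (nat_lit 2285393162435) (nat_lit 2) E) (nat_lit 2285393162524) (nat_lit 2) (N E (nat_lit 2285393162531) (nat_lit 2) E)) (nat_lit 2285393164512) (nat_lit 2) (N (N E (nat_lit 2285393168152) (nat_lit 2) E) (nat_lit 2285393295384) (nat_lit 2) (N E (nat_lit 2285393528344) (nat_lit 2) E))))))
 (nat_lit 2285394990104) (nat_lit 2) (N (N (N (N (N (N (N E (nat_lit 2285394997328) (nat_lit 2) E) (nat_lit 2285398696016) (nat_lit 2) E) (nat_lit 2285398754840) (nat_lit 2) (N E (nat_lit 2285399836184) (nat_lit 2) E)) (nat_lit 2285401671192) (nat_lit 2) (N (N (N E (nat_lit 2286267532824) (nat_lit 2) E) (nat_lit 2406526489859) (nat_lit 2) E) (nat_lit 2406526489880) (nat_lit 2) (N E (nat_lit 2406526616195) (nat_lit 2) E))) (nat_lit 2406526616216) (nat_lit 2) (N (N (N (N E (nat_lit 2406526617098) (nat_lit 2) E) (nat_lit 2406526617112) (nat_lit 1) E) (nat_lit 2406526617168) (nat_lit 2) (N E (nat_lit 2406526620696) (nat_lit 2)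 E)) (nat_lit 2406526627920) (nat_lit 2) (N (N (N E (nat_lit 2406531073560) (nat_lit 2) E) (nat_lit 2406575113752) (nat_lit 2) E) (nat_lit 2406591300227) (nat_lit 2) (N E (nat_lit 2406591301130) (nat_lit 2) E)))) (nat_lit 2406591763466) (nat_lit 2) (N (N (N (N (N E (nat_lit 2406591770819) (nat_lit 2) E) (nat_lit 2406591770908) (nat_lit 2) E) (nat_lit 2406591770915) (nat_lit 2) (N E (nat_lit 2406591772896) (nat_lit 2) E)) (nat_lit 2406591776536) (nat_lit 2) (N (N (N E (nat_lit 2406591903768) (nat_lit 2) E) (nat_lit 2406592136728) (nat_lit 2) E) (nat_lit 2406593598488) (nat_lit 2) (N E (nat_lit 2406593605712) (nat_lit 2) E))) (nat_lit 2406597304400) (nat_lit 2) (N (N (N (N E (nat_lit 2406597363224) (nat_lit 2) E) (nat_lit 2406598444568) (nat_lit 2) E) (nat_lit 2406600279576) (nat_lit 2) (N E (nat_lit 2408571602456) (nat_lit 2) E)) (nat_lit 2408808318488) (nat_lit 2) (N (N (N E (nat_lit 2431120180760) (nat_lit 2) E) (nat_lit 2431356896792) (nat_lit 2) E) (nat_lit 2439709524611)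 (nat_lit 2) (N E (nat_lit 2439709525514) (nat_lit 2) E))))) (nat_lit 2439709987850) (nat_lit 2) (N (N (N (N (N (N E (nat_lit 2439715587608) (nat_lit 2) E) (nat_lit 2439946703882) (nat_lit 2) E) (nat_lit 2439946798616) (nat_lit 2) (N E (nat_lit 2439950411288) (nat_lit 2) E)) (nat_lit 2439950467715) (nat_lit 2) (N (N (N E (nat_lit 2439950467736) (nat_lit 2) E) (nat_lit 2439950468618) (nat_lit 2) E) (nat_lit 2439950468632) (nat_lit 1) (N E (nat_lit 2439950468688) (nat_lit 2) E))) (nat_lit 2439950472216) (nat_lit 2) (N (N (N (N E (nat_lit 2439950504988) (nat_lit 2) E) (nat_lit 2439950504995) (nat_lit 2) E) (nat_lit 2439950512212) (nat_lit 2) (N E (nat_lit 2439950514186) (nat_lit 2) E)) (nat_lit 2439950516867) (nat_lit 2) (N (N (N E (nat_lit 2439950517770) (nat_lit 2) E) (nat_lit 2439950698008) (nat_lit 2) E) (nat_lit 2439951458528) (nat_lit 2) (N E (nat_lit 2439951516320) (nat_lit 2) E)))) (nat_lit 2439952795416) (nat_lit 2) (N (N (N (N (N E (nat_lit 2439953257752) (nat_lit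 2) E) (nat_lit 2439965148696) (nat_lit 2) E) (nat_lit 2440013821976) (nat_lit 2) (N E (nat_lit 2440017520664) (nat_lit 2) E)) (nat_lit 2440099382808) (nat_lit 2) (N (N (N E (nat_lit 2440128972312) (nat_lit 2) E) (nat_lit 2440886227992) (nat_lit 2) E) (nat_lit 2440886235216) (nat_lit 2) (N E (nat_lit 2440889933904) (nat_lit 2) E))) (nat_lit 2440889992728) (nat_lit 2) (N (N (N (N E (nat_lit 2440891074072) (nat_lit 2) E) (nat_lit 2440892909080) (nat_lit 2) E) (nat_lit 2442783662160) (nat_lit 2) (N E (nat_lit 2442783720984) (nat_lit 2) E)) (nat_lit 2442784802328) (nat_lit 2) (N (N E (nat_lit 2443302274584) (nat_lit 2) E) (nat_lit 2444005082648) (nat_lit 2) (N E (nat_lit 2444241798680) (nat_lit 2) E))))))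
)
)
)
)


end Pool.Agent.L5helper11.GP
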