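import Pool.Agent.L5helper11.GP.Def

/-! Certificate, level 5. -/

set_option autoImplicit false

namespace Pool.Agent.L5helper11.GP

open Tr in
/-- The words at level 5 with their values. -/
def S5 : Tr := (N (N (N (N (N (N (N (N (N (N (N E (nat_lit 86067446435) (nat_lit 1) E) (nat_lit 86067447523) (nat_lit 2) E) (nat_lit 86067447836) (nat_lit 2) (N E (nat_lit 86067447843) (nat_lit 2) E)) (nat_lit 86067458275) (nat_lit 2) (N (N E (nat_lit 86067462403) (nat_lit 2) E) (nat_lit 86067462787) (nat_lit 1) (N E (nat_lit 86067462794) (nat_lit 2) E))) (nat_lit 86067463690) (nat_lit 1) (N (N (N (N E (nat_lit 86067463707) (nat_lit 2) E) (nat_lit 86067463712) (nat_lit 2) E) (nat_lit 86067463875) (nat_lit 2) (N E (nat_lit 86067463964) (nat_lit 2) E)) (nat_lit 86067463971) (nat_lit 2) (N (N E (nat_lit 86067464419) (nat_lit 2) E) (nat_lit 86067945699) (nat_lit 2) (N E (nat_lit 86068003491) (nat_lit 2) E)))) (nat_lit 86068019843) (nat_lit 2) (N (N (N (N (N E (nat_lit 86068020746)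 (nat_lit 2) E) (nat_lit 86068171804) (nat_lit 2) E) (nat_lit 86068171811) (nat_lit 2) (N E (nat_lit 86068179028) (nat_lit 2) E)) (nat_lit 86068181002) (nat_lit 2) (N (N E (nat_lit 86068181072) (nat_lit 2) E) (nat_lit 86068181219) (nat_lit 1) (N E (nat_lit 86068183683) (nat_lit 2) E))) (nat_lit 86068184586) (nat_lit 2) (N (N (N (N E (nat_lit 86068209891) (nat_lit 2) E) (nat_lit 86073450723) (nat_lit 2) E) (nat_lit 86073508515) (nat_lit 2) (N E (nat_lit 86073524867) (nat_lit 2) E)) (nat_lit 86073525770) (nat_lit 2) (N (N E (nat_lit 86075549923) (nat_lit 2) E) (nat_lit 86075835011) (nat_lit 1) (N E (nat_lit 86075835018) (nat_lit 2) E))))) (nat_lit 86075835914) (nat_lit 1) (N (N (N (N (N (N E (nat_lit 86075835931) (nat_lit 2) E) (nat_lit 86075835936) (nat_lit 2) E) (nat_lit 86075836099) (nat_lit 2) (N E (nat_lit 86075836188) (nat_lit 2) E)) (nat_lit 86075836195) (nat_lit 2) (N (N E (nat_lit 86075836643) (nat_lit 2) E) (nat_lit 86075839498) (nat_lit 2) (N E (nat_lit 86076298250)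 (nat_lit 1) E))) (nat_lit 86076298267) (nat_lit 2) (N (N (N (N E (nat_lit 86076298272) (nat_lit 2) E) (nat_lit 86076298435) (nat_lit 2) E) (nat_lit 86076298524) (nat_lit 2) (N E (nat_lit 86076298531) (nat_lit 2) E)) (nat_lit 86076306051) (nat_lit 2) (N (N E (nat_lit 86076306954) (nat_lit 2) E) (nat_lit 86076309584) (nat_lit 2) (N E (nat_lit 86076392067) (nat_lit 2) E)))) (nat_lit 86076392970) (nat_lit 2) (N (N (N (N (N E (nat_lit 86076424867) (nat_lit 2) E) (nat_lit 86076429340) (nat_lit 2) E) (nat_lit 86076429347) (nat_lit 2) (N E (nat_lit 86076436564) (nat_lit 2) E)) (nat_lit 86076438538) (nat_lit 2) (N (N E (nat_lit 86076438608) (nat_lit 2) E) (nat_lit 86076438755) (nat_lit 1) (N E (nat_lit 86076441219) (nat_lit 2) E))) (nat_lit 86076442122) (nat_lit 2) (N (N (N (N E (nat_lit 86076596451) (nat_lit 2) E) (nat_lit 86076654243) (nat_lit 2) E) (nat_lit 86076670595) (nat_lit 2) (N E (nat_lit 86076671498) (nat_lit 2) E)) (nat_lit 86309353699) (nat_lit 2) (N (N E (nat_lit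 86323011811) (nat_lit 2) E) (nat_lit 86323069603) (nat_lit 2) (N E (nat_lit 86323085955) (nat_lit 2) E))))))
 (nat_lit 86323086858) (nat_lit 2) (N (N (N (N (N (N (N E (nat_lit 86352659107) (nat_lit 2) E) (nat_lit 86352675459) (nat_lit 2) E) (nat_lit 86352676362) (nat_lit 2) (N E (nat_lit 86353393891) (nat_lit 2) E)) (nat_lit 86361047683) (nat_lit 2) (N (N E (nat_lit 86361048586) (nat_lit 2) E) (nat_lit 86361510922) (nat_lit 2) (N E (nat_lit 86361651427) (nat_lit 2) E))) (nat_lit 86438843420) (nat_lit 2) (N (N (N (N E (nat_lit 86438850644) (nat_lit 2) E) (nat_lit 86438852688) (nat_lit 2) E) (nat_lit 86442549332) (nat_lit 2) (N E (nat_lit 86442551376) (nat_lit 2) E)) (nat_lit 86442641635) (nat_lit 2) (N (N E (nat_lit 86443573475) (nat_lit 2) E) (nat_lit 86443597904) (nat_lit 2) (N E (nat_lit 86443657251) (nat_lit 2) E)))) (nat_lit 86443671811) (nat_lit 2) (N (N (N (N (N E (nat_lit 86443673120) (nat_lit 2) E) (nat_lit 86443673372) (nat_lit 2) E) (nat_lit 86444933763)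 (nat_lit 2) (N E (nat_lit 86444934666) (nat_lit 2) E)) (nat_lit 86445397002) (nat_lit 2) (N (N E (nat_lit 86445537507) (nat_lit 2) E) (nat_lit 86457231587) (nat_lit 2) (N E (nat_lit 86487349475) (nat_lit 2) E))) (nat_lit 86496000227) (nat_lit 2) (N (N (N (N E (nat_lit 86510680291) (nat_lit 2) E) (nat_lit 89141584099) (nat_lit 2) E) (nat_lit 89141641891) (nat_lit 2) (N E (nat_lit 89141658243) (nat_lit 2) E)) (nat_lit 89141659146) (nat_lit 2) (N (N E (nat_lit 89171231395) (nat_lit 2) E) (nat_lit 89171247747) (nat_lit 2) (N E (nat_lit 89171248650) (nat_lit 2) E))))) (nat_lit 89171966179) (nat_lit 2) (N (N (N (N (N (N E (nat_lit 89179619971) (nat_lit 2) E) (nat_lit 89179620874) (nat_lit 2) E) (nat_lit 89180083210) (nat_lit 2) (N E (nat_lit 89180223715) (nat_lit 2) E)) (nat_lit 90215327971) (nat_lit 2) (N (N E (nat_lit 90245445859) (nat_lit 2) E) (nat_lit 90254096611) (nat_lit 2) (N E (nat_lit 90262354147) (nat_lit 2) E))) (nat_lit 90268776675) (nat_lit 2) (N (N (N (N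 E (nat_lit 90362413699) (nat_lit 1) E) (nat_lit 90362413706) (nat_lit 2) E) (nat_lit 90362414602) (nat_lit 1) (N E (nat_lit 90362414619) (nat_lit 2) E)) (nat_lit 90362414624) (nat_lit 2) (N (N E (nat_lit 90362414787) (nat_lit 2) E) (nat_lit 90362414876) (nat_lit 2) (N E (nat_lit 90362414883) (nat_lit 2) E)))) (nat_lit 90362415331) (nat_lit 2) (N (N (N (N (N E (nat_lit 90362418186) (nat_lit 2) E) (nat_lit 90362876938) (nat_lit 1) E) (nat_lit 90362876955) (nat_lit 2) (N E (nat_lit 90362876960) (nat_lit 2) E)) (nat_lit 90362877123) (nat_lit 2) (N (N E (nat_lit 90362877212) (nat_lit 2) E) (nat_lit 90362877219) (nat_lit 2) (N E (nat_lit 90362884739) (nat_lit 2) E))) (nat_lit 90362885642) (nat_lit 2) (N (N (N (N E (nat_lit 90362888272) (nat_lit 2) E) (nat_lit 90362970755) (nat_lit 2) E) (nat_lit 90362971658) (nat_lit 2) (N E (nat_lit 90363003555) (nat_lit 2) E)) (nat_lit 90363008028) (nat_lit 2) (N (N E (nat_lit 90363008035) (nat_lit 2) E) (nat_lit 90363015252) (nat_lit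 2) (N E (nat_lit 90363017226) (nat_lit 2) E))))))
)
 (nat_lit 90363017296) (nat_lit 2) (N (N (N (N (N (N (N (N E (nat_lit 90363017443) (nat_lit 1) E) (nat_lit 90363019907) (nat_lit 2) E) (nat_lit 90363020810) (nat_lit 2) (N E (nat_lit 90363175139) (nat_lit 2) E)) (nat_lit 90363232931) (nat_lit 2) (N (N E (nat_lit 90363249283) (nat_lit 2) E) (nat_lit 90363250186) (nat_lit 2) (N E (nat_lit 90364711946) (nat_lit 2) E))) (nat_lit 90364852451) (nat_lit 2) (N (N (N (N E (nat_lit 90599592970) (nat_lit 1) E) (nat_lit 90599592987) (nat_lit 2) E) (nat_lit 90599592992) (nat_lit 2) (N E (nat_lit 90599593155) (nat_lit 2) E)) (nat_lit 90599593244) (nat_lit 2) (N (N E (nat_lit 90599593251) (nat_lit 2) E) (nat_lit 90599600771) (nat_lit 2) (N E (nat_lit 90599601674) (nat_lit 2) E)))) (nat_lit 90599604304) (nat_lit 2) (N (N (N (N (N E (nat_lit 90599686787) (nat_lit 2) E) (nat_lit 90599687690) (nat_lit 2) E) (nat_lit 90599719587) (nat_lit 2) (N E (nat_lit 90599724060) (nat_lit 2) E))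 (nat_lit 90599724067) (nat_lit 2) (N (N E (nat_lit 90599731284) (nat_lit 2) E) (nat_lit 90599733258) (nat_lit 2) (N E (nat_lit 90599733328) (nat_lit 2) E))) (nat_lit 90599733475) (nat_lit 1) (N (N (N (N E (nat_lit 90599735939) (nat_lit 2) E) (nat_lit 90599736842) (nat_lit 2) E) (nat_lit 90603586179) (nat_lit 2) (N E (nat_lit 90603587082) (nat_lit 2) E)) (nat_lit 90604049418) (nat_lit 2) (N (N E (nat_lit 90604189923) (nat_lit 2) E) (nat_lit 90605396048) (nat_lit 2) (N E (nat_lit 90605500643) (nat_lit 2) E))))) (nat_lit 90647626371) (nat_lit 2) (N (N (N (N (N (N E (nat_lit 90647627274) (nat_lit 2) E) (nat_lit 90648089610) (nat_lit 2) E) (nat_lit 90648230115) (nat_lit 2) (N E (nat_lit 90664403619) (nat_lit 2) E)) (nat_lit 90664419971) (nat_lit 2) (N (N E (nat_lit 90664420874) (nat_lit 2) E) (nat_lit 90665138403) (nat_lit 2) (N E (nat_lit 90666701852) (nat_lit 2) E))) (nat_lit 90666709076) (nat_lit 2) (N (N (N (N E (nat_lit 90666711120) (nat_lit 2) E) (nat_lit 90670407764)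 (nat_lit 2) E) (nat_lit 90670409808) (nat_lit 2) (N E (nat_lit 90670500067) (nat_lit 2) E)) (nat_lit 90671431907) (nat_lit 2) (N (N E (nat_lit 90671456336) (nat_lit 2) E) (nat_lit 90671515683) (nat_lit 2) (N E (nat_lit 90671530243) (nat_lit 2) E)))) (nat_lit 90671531552) (nat_lit 2) (N (N (N (N (N E (nat_lit 90671531804) (nat_lit 2) E) (nat_lit 90672792195) (nat_lit 2) E) (nat_lit 90672793098) (nat_lit 2) (N E (nat_lit 90673255434) (nat_lit 2) E)) (nat_lit 90673395939) (nat_lit 2) (N (N E (nat_lit 90752196835) (nat_lit 2) E) (nat_lit 90752254627) (nat_lit 2) (N E (nat_lit 90752270979) (nat_lit 2) E))) (nat_lit 90752271882) (nat_lit 2) (N (N (N (N E (nat_lit 90781844131) (nat_lit 2) E) (nat_lit 90781860483) (nat_lit 2) E) (nat_lit 90781861386) (nat_lit 2) (N E (nat_lit 90782578915) (nat_lit 2) E)) (nat_lit 90790232707) (nat_lit 2) (N (N E (nat_lit 90790233610) (nat_lit 2) E) (nat_lit 90790695946) (nat_lit 2) (N E (nat_lit 90790836451) (nat_lit 2) E))))))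
 (nat_lit 207507962083) (nat_lit 2) (N (N (N (N (N (N (N E (nat_lit 209401690339) (nat_lit 2) E) (nat_lit 216916861155) (nat_lit 2) E) (nat_lit 216916918947) (nat_lit 2) (N E (nat_lit 216916935299) (nat_lit 2) E)) (nat_lit 216916936202) (nat_lit 2) (N (N E (nat_lit 216946508451) (nat_lit 2) E) (nat_lit 216946524803) (nat_lit 2) (N E (nat_lit 216946525706) (nat_lit 2) E))) (nat_lit 216947243235) (nat_lit 2) (N (N (N (N E (nat_lit 216954897027) (nat_lit 2) E) (nat_lit 216954897930) (nat_lit 2) E) (nat_lit 216955360266) (nat_lit 2) (N E (nat_lit 216955500771) (nat_lit 2) E)) (nat_lit 232096334499) (nat_lit 2) (N (N E (nat_lit 232096350851) (nat_lit 2) E) (nat_lit 232096351754) (nat_lit 2) (N E (nat_lit 232097069283) (nat_lit 2) E)))) (nat_lit 232104723075) (nat_lit 2) (N (N (N (N (N E (nat_lit 232104723978) (nat_lit 2) E) (nat_lit 232105186314) (nat_lit 2) E) (nat_lit 232105326819) (nat_lit 2) (N E (nat_lit 236391301763) (nat_lit 2) E)) (nat_lit 236391302666) (nat_lit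 2) (N (N E (nat_lit 236391765002) (nat_lit 2) E) (nat_lit 236391905507) (nat_lit 2) (N E (nat_lit 236628481034) (nat_lit 2) E))) (nat_lit 236628621539) (nat_lit 2) (N (N (N (N E (nat_lit 276222710812) (nat_lit 2) E) (nat_lit 276222718036) (nat_lit 2) E) (nat_lit 276222720080) (nat_lit 2) (N E (nat_lit 276226416724) (nat_lit 2) E)) (nat_lit 276226418768) (nat_lit 2) (N (N E (nat_lit 276227465296) (nat_lit 2) E) (nat_lit 276229404899) (nat_lit 2) (N E (nat_lit 278120144980) (nat_lit 2) E))))) (nat_lit 278120147024) (nat_lit 2) (N (N (N (N (N (N E (nat_lit 278121193552) (nat_lit 2) E) (nat_lit 278638770403) (nat_lit 2) E) (nat_lit 278657015888) (nat_lit 2) (N E (nat_lit 278657120483) (nat_lit 2) E)) (nat_lit 278694766819) (nat_lit 2) (N (N E (nat_lit 278695053539) (nat_lit 2) E) (nat_lit 278695526480) (nat_lit 2) (N E (nat_lit 278695641763) (nat_lit 2) E))) (nat_lit 278695646236) (nat_lit 2) (N (N (N (N E (nat_lit 278695646243) (nat_lit 2) E) (nat_lit 278695653460)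 (nat_lit 2) E) (nat_lit 278695655434) (nat_lit 2) (N E (nat_lit 278695655504) (nat_lit 2) E)) (nat_lit 278695655651) (nat_lit 1) (N (N E (nat_lit 279340974723) (nat_lit 2) E) (nat_lit 279340975626) (nat_lit 2) (N E (nat_lit 279341437962) (nat_lit 2) E)))) (nat_lit 279341578467) (nat_lit 2) (N (N (N (N (N E (nat_lit 279578153994) (nat_lit 2) E) (nat_lit 279578294499) (nat_lit 2) E) (nat_lit 285636339939) (nat_lit 2) (N E (nat_lit 285666457827) (nat_lit 2) E)) (nat_lit 285675108579) (nat_lit 2) (N (N E (nat_lit 285689788643) (nat_lit 2) E) (nat_lit 286211848419) (nat_lit 2) (N E (nat_lit 300816283875) (nat_lit 2) E))) (nat_lit 300824934627) (nat_lit 2) (N (N (N E (nat_lit 304964712675) (nat_lit 2) E) (nat_lit 310587177187) (nat_lit 2) (N E (nat_lit 312480905443) (nat_lit 2) E)) (nat_lit 688539571228) (nat_lit 1) (N (N E (nat_lit 688539571284) (nat_lit 2) E) (nat_lit 688539578452) (nat_lit 1) (N E (nat_lit 688539578588) (nat_lit 2) E))))))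
)
)
 (nat_lit 688539578595) (nat_lit 2) (N (N (N (N (N (N (N (N (N E (nat_lit 688539579932) (nat_lit 2) E) (nat_lit 688539580448) (nat_lit 2) E) (nat_lit 688539580496) (nat_lit 1) (N E (nat_lit 688539580611) (nat_lit 2) E)) (nat_lit 688539580632) (nat_lit 2) (N (N E (nat_lit 688539580644) (nat_lit 2) E) (nat_lit 688539580700) (nat_lit 2) (N E (nat_lit 688539607124) (nat_lit 2) E))) (nat_lit 688539609168) (nat_lit 2) (N (N (N (N E (nat_lit 688539699427) (nat_lit 2) E) (nat_lit 688543277140) (nat_lit 1) E) (nat_lit 688543277276) (nat_lit 2) (N E (nat_lit 688543277283) (nat_lit 2) E)) (nat_lit 688543278620) (nat_lit 2) (N (N E (nat_lit 688543279136) (nat_lit 2) E) (nat_lit 688543279184) (nat_lit 1) (N E (nat_lit 688543279299) (nat_lit 2) E)))) (nat_lit 688543279320) (nat_lit 2) (N (N (N (N (N E (nat_lit 688543279332) (nat_lit 2) E) (nat_lit 688543279388) (nat_lit 2) E) (nat_lit 688543339548) (nat_lit 2) (N E (nat_lit 688543346772) (nat_lit 2) E)) (nat_lit 688543348816)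 (nat_lit 2) (N (N E (nat_lit 688544027676) (nat_lit 2) E) (nat_lit 688544034900) (nat_lit 2) (N E (nat_lit 688544036944) (nat_lit 2) E))) (nat_lit 688544301136) (nat_lit 2) (N (N (N (N E (nat_lit 688544325712) (nat_lit 1) E) (nat_lit 688544325827) (nat_lit 2) E) (nat_lit 688544325848) (nat_lit 2) (N E (nat_lit 688544325860) (nat_lit 2) E)) (nat_lit 688544325916) (nat_lit 2) (N (N E (nat_lit 688544383619) (nat_lit 2) E) (nat_lit 688544383640) (nat_lit 2) (N E (nat_lit 688544383652) (nat_lit 2) E))))) (nat_lit 688544384592) (nat_lit 2) (N (N (N (N (N (N E (nat_lit 688544395344) (nat_lit 2) E) (nat_lit 688544399444) (nat_lit 2) E) (nat_lit 688544401488) (nat_lit 2) (N E (nat_lit 688544420892) (nat_lit 2) E)) (nat_lit 688544428116) (nat_lit 2) (N (N E (nat_lit 688544430160) (nat_lit 2) E) (nat_lit 688557957204) (nat_lit 2) (N E (nat_lit 688557959248) (nat_lit 2) E))) (nat_lit 688559005776) (nat_lit 2) (N (N (N (N E (nat_lit 690437005396) (nat_lit 1) E) (nat_lit 690437005532)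 (nat_lit 2) E) (nat_lit 690437005539) (nat_lit 2) (N E (nat_lit 690437006876) (nat_lit 2) E)) (nat_lit 690437007392) (nat_lit 2) (N (N E (nat_lit 690437007440) (nat_lit 1) E) (nat_lit 690437007555) (nat_lit 2) (N E (nat_lit 690437007576) (nat_lit 2) E)))) (nat_lit 690437007588) (nat_lit 2) (N (N (N (N (N E (nat_lit 690437007644) (nat_lit 2) E) (nat_lit 690437067804) (nat_lit 2) E) (nat_lit 690437075028) (nat_lit 2) (N E (nat_lit 690437077072) (nat_lit 2) E)) (nat_lit 690437755932) (nat_lit 2) (N (N E (nat_lit 690437763156) (nat_lit 2) E) (nat_lit 690437765200) (nat_lit 2) (N E (nat_lit 690438029392) (nat_lit 2) E))) (nat_lit 690438053968) (nat_lit 1) (N (N (N (N E (nat_lit 690438054083) (nat_lit 2) E) (nat_lit 690438054104) (nat_lit 2) E) (nat_lit 690438054116) (nat_lit 2) (N E (nat_lit 690438054172) (nat_lit 2) E)) (nat_lit 690438111875) (nat_lit 2) (N (N E (nat_lit 690438111896) (nat_lit 2) E) (nat_lit 690438111908) (nat_lit 2) (N E (nat_lit 690438112848) (nat_lit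 2) E))))))
 (nat_lit 690438123600) (nat_lit 2) (N (N (N (N (N (N (N E (nat_lit 690438127700) (nat_lit 2) E) (nat_lit 690438129744) (nat_lit 2) E) (nat_lit 690438149148) (nat_lit 2) (N E (nat_lit 690438156372) (nat_lit 2) E)) (nat_lit 690438158416) (nat_lit 2) (N (N E (nat_lit 690468951068) (nat_lit 2) E) (nat_lit 690468958292) (nat_lit 2) (N E (nat_lit 690468960336) (nat_lit 2) E))) (nat_lit 690472656980) (nat_lit 2) (N (N (N (N E (nat_lit 690472659024) (nat_lit 2) E) (nat_lit 690473705552) (nat_lit 2) E) (nat_lit 690475645155) (nat_lit 2) (N E (nat_lit 690821272604) (nat_lit 2) E)) (nat_lit 690821279828) (nat_lit 2) (N (N E (nat_lit 690821281872) (nat_lit 2) E) (nat_lit 690824978516) (nat_lit 2) (N E (nat_lit 690824980560) (nat_lit 2) E)))) (nat_lit 690826027088) (nat_lit 2) (N (N (N (N (N E (nat_lit 690961293392) (nat_lit 2) E) (nat_lit 690961397987) (nat_lit 2) E) (nat_lit 690973876304) (nat_lit 1) (N E (nat_lit 690973876419) (nat_lit 2) E)) (nat_lit 690973876440)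 (nat_lit 2) (N (N E (nat_lit 690973876452) (nat_lit 2) E) (nat_lit 690973876508) (nat_lit 2) (N E (nat_lit 690973934211) (nat_lit 2) E))) (nat_lit 690973934232) (nat_lit 2) (N (N (N (N E (nat_lit 690973934244) (nat_lit 2) E) (nat_lit 690973935184) (nat_lit 2) E) (nat_lit 690973945936) (nat_lit 2) (N E (nat_lit 690973950036) (nat_lit 2) E)) (nat_lit 690973952080) (nat_lit 2) (N (N E (nat_lit 690973971484) (nat_lit 2) E) (nat_lit 690973978708) (nat_lit 2) (N E (nat_lit 690973980752) (nat_lit 2) E))))) (nat_lit 691003523715) (nat_lit 2) (N (N (N (N (N (N E (nat_lit 691003523736) (nat_lit 2) E) (nat_lit 691003523748) (nat_lit 2) E) (nat_lit 691003524688) (nat_lit 2) (N E (nat_lit 691003535440) (nat_lit 2) E)) (nat_lit 691003539540) (nat_lit 2) (N (N E (nat_lit 691003541584) (nat_lit 2) E) (nat_lit 691004022864) (nat_lit 2) (N E (nat_lit 691004127459) (nat_lit 2) E))) (nat_lit 691009527888) (nat_lit 2) (N (N (N (N E (nat_lit 691011625044) (nat_lit 2) E) (nat_lit 691011627088)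 (nat_lit 2) E) (nat_lit 691012673616) (nat_lit 2) (N E (nat_lit 691022599196) (nat_lit 2) E)) (nat_lit 691022606420) (nat_lit 2) (N (N E (nat_lit 691022608464) (nat_lit 2) E) (nat_lit 691026305108) (nat_lit 2) (N E (nat_lit 691026307152) (nat_lit 2) E)))) (nat_lit 691027353680) (nat_lit 2) (N (N (N (N (N E (nat_lit 691557775587) (nat_lit 2) E) (nat_lit 691900817488) (nat_lit 2) E) (nat_lit 691900922083) (nat_lit 2) (N E (nat_lit 691960559843) (nat_lit 2) E)) (nat_lit 691962123292) (nat_lit 2) (N (N E (nat_lit 691962130516) (nat_lit 2) E) (nat_lit 691962132560) (nat_lit 2) (N E (nat_lit 691965829204) (nat_lit 2) E))) (nat_lit 691965831248) (nat_lit 2) (N (N (N E (nat_lit 691965921507) (nat_lit 2) E) (nat_lit 691966853347) (nat_lit 2) (N E (nat_lit 691966877776) (nat_lit 2) E)) (nat_lit 691966937123) (nat_lit 2) (N (N E (nat_lit 691966951683) (nat_lit 2) E) (nat_lit 691966952992) (nat_lit 2) (N E (nat_lit 691966953244) (nat_lit 2) E))))))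
)
 (nat_lit 697953198164) (nat_lit 2) (N (N (N (N (N (N (N (N E (nat_lit 697953200208) (nat_lit 2) E) (nat_lit 697954246736) (nat_lit 2) E) (nat_lit 698490069072) (nat_lit 2) (N E (nat_lit 722151028963) (nat_lit 2) E)) (nat_lit 1660025872468) (nat_lit 1) (N (N E (nat_lit 1660025872604) (nat_lit 2) E) (nat_lit 1660025872611) (nat_lit 2) (N E (nat_lit 1660025873948) (nat_lit 2) E))) (nat_lit 1660025874464) (nat_lit 2) (N (N (N (N E (nat_lit 1660025874512) (nat_lit 1) E) (nat_lit 1660025874627) (nat_lit 2) E) (nat_lit 1660025874648) (nat_lit 2) (N E (nat_lit 1660025874660) (nat_lit 2) E)) (nat_lit 1660025874716) (nat_lit 2) (N (N E (nat_lit 1660025930403) (nat_lit 2) E) (nat_lit 1660025934876) (nat_lit 2) (N E (nat_lit 1660025942100) (nat_lit 2) E)))) (nat_lit 1660025944144) (nat_lit 2) (N (N (N (N (N E (nat_lit 1660025946755) (nat_lit 2) E) (nat_lit 1660025947658) (nat_lit 2) E) (nat_lit 1660026623004) (nat_lit 2) (N E (nat_lit 1660026630228) (nat_lit 2) E)) (nat_lit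 1660026632272) (nat_lit 2) (N (N E (nat_lit 1660026896464) (nat_lit 2) E) (nat_lit 1660026921040) (nat_lit 1) (N E (nat_lit 1660026921155) (nat_lit 2) E))) (nat_lit 1660026921176) (nat_lit 2) (N (N (N (N E (nat_lit 1660026921188) (nat_lit 2) E) (nat_lit 1660026921244) (nat_lit 2) E) (nat_lit 1660026978947) (nat_lit 2) (N E (nat_lit 1660026978968) (nat_lit 2) E)) (nat_lit 1660026978980) (nat_lit 2) (N (N E (nat_lit 1660026979920) (nat_lit 2) E) (nat_lit 1660026990672) (nat_lit 2) (N E (nat_lit 1660026994772) (nat_lit 2) E))))) (nat_lit 1660026996816) (nat_lit 2) (N (N (N (N (N (N E (nat_lit 1660027016220) (nat_lit 2) E) (nat_lit 1660027023444) (nat_lit 2) E) (nat_lit 1660027025488) (nat_lit 2) (N E (nat_lit 1660055519907) (nat_lit 2) E)) (nat_lit 1660055536259) (nat_lit 2) (N (N E (nat_lit 1660055537162) (nat_lit 2) E) (nat_lit 1660056254691) (nat_lit 2) (N E (nat_lit 1660057818140) (nat_lit 2) E))) (nat_lit 1660057825364) (nat_lit 2) (N (N (N (N E (nat_lit 1660057827408)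 (nat_lit 2) E) (nat_lit 1660061524052) (nat_lit 2) E) (nat_lit 1660061526096) (nat_lit 2) (N E (nat_lit 1660062572624) (nat_lit 2) E)) (nat_lit 1660063908483) (nat_lit 2) (N (N E (nat_lit 1660063909386) (nat_lit 2) E) (nat_lit 1660064371722) (nat_lit 2) (N E (nat_lit 1660064512227) (nat_lit 2) E)))) (nat_lit 1660410139676) (nat_lit 2) (N (N (N (N (N E (nat_lit 1660410146900) (nat_lit 2) E) (nat_lit 1660410148944) (nat_lit 2) E) (nat_lit 1660413845588) (nat_lit 2) (N E (nat_lit 1660413847632) (nat_lit 2) E)) (nat_lit 1660414894160) (nat_lit 2) (N (N E (nat_lit 1660550160464) (nat_lit 2) E) (nat_lit 1660550265059) (nat_lit 2) (N E (nat_lit 1660562743376) (nat_lit 1) E))) (nat_lit 1660562743491) (nat_lit 2) (N (N (N (N E (nat_lit 1660562743512) (nat_lit 2) E) (nat_lit 1660562743524) (nat_lit 2) E) (nat_lit 1660562743580) (nat_lit 2) (N E (nat_lit 1660562801283) (nat_lit 2) E)) (nat_lit 1660562801304) (nat_lit 2) (N (N E (nat_lit 1660562801316) (nat_lit 2) E) (nat_lit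 1660562802256) (nat_lit 2) (N E (nat_lit 1660562813008) (nat_lit 2) E))))))
 (nat_lit 1660562817108) (nat_lit 2) (N (N (N (N (N (N (N E (nat_lit 1660562819152) (nat_lit 2) E) (nat_lit 1660562838556) (nat_lit 2) E) (nat_lit 1660562845780) (nat_lit 2) (N E (nat_lit 1660562847824) (nat_lit 2) E)) (nat_lit 1660592390787) (nat_lit 2) (N (N E (nat_lit 1660592390808) (nat_lit 2) E) (nat_lit 1660592390820) (nat_lit 2) (N E (nat_lit 1660592391760) (nat_lit 2) E))) (nat_lit 1660592402512) (nat_lit 2) (N (N (N (N E (nat_lit 1660592406612) (nat_lit 2) E) (nat_lit 1660592408656) (nat_lit 2) E) (nat_lit 1660592889936) (nat_lit 2) (N E (nat_lit 1660592994531) (nat_lit 2) E)) (nat_lit 1660598394960) (nat_lit 2) (N (N E (nat_lit 1660600492116) (nat_lit 2) E) (nat_lit 1660600494160) (nat_lit 2) (N E (nat_lit 1660601540688) (nat_lit 2) E)))) (nat_lit 1660611466268) (nat_lit 2) (N (N (N (N (N E (nat_lit 1660611473492) (nat_lit 2) E) (nat_lit 1660611475536) (nat_lit 2) E) (nat_lit 1660615172180)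 (nat_lit 2) (N E (nat_lit 1660615174224) (nat_lit 2) E)) (nat_lit 1660616220752) (nat_lit 2) (N (N E (nat_lit 1675205345955) (nat_lit 2) E) (nat_lit 1675205362307) (nat_lit 2) (N E (nat_lit 1675205363210) (nat_lit 2) E))) (nat_lit 1675205937379) (nat_lit 2) (N (N (N (N E (nat_lit 1675206080739) (nat_lit 2) E) (nat_lit 1675213734531) (nat_lit 2) E) (nat_lit 1675213735434) (nat_lit 2) (N E (nat_lit 1675214197770) (nat_lit 2) E)) (nat_lit 1675214338275) (nat_lit 2) (N (N E (nat_lit 1675442653411) (nat_lit 2) E) (nat_lit 1676382049308) (nat_lit 2) (N E (nat_lit 1676382056532) (nat_lit 2) E))))) (nat_lit 1676382058576) (nat_lit 2) (N (N (N (N (N (N E (nat_lit 1676385755220) (nat_lit 2) E) (nat_lit 1676385757264) (nat_lit 2) E) (nat_lit 1676386803792) (nat_lit 2) (N E (nat_lit 1678279483476) (nat_lit 2) E)) (nat_lit 1678279485520) (nat_lit 2) (N (N E (nat_lit 1678280532048) (nat_lit 2) E) (nat_lit 1678816354384) (nat_lit 2) (N E (nat_lit 1679500313219) (nat_lit 2) E)))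 (nat_lit 1679500314122) (nat_lit 2) (N (N (N (N E (nat_lit 1679500776458) (nat_lit 2) E) (nat_lit 1679500916963) (nat_lit 2) E) (nat_lit 1679737492490) (nat_lit 2) (N E (nat_lit 1679737632995) (nat_lit 2) E)) (nat_lit 1683795753187) (nat_lit 2) (N (N E (nat_lit 1684032469219) (nat_lit 2) E) (nat_lit 1684166818019) (nat_lit 2) (N E (nat_lit 1684185063504) (nat_lit 2) E)))) (nat_lit 1684185168099) (nat_lit 2) (N (N (N (N (N E (nat_lit 1684222814435) (nat_lit 2) E) (nat_lit 1684223101155) (nat_lit 2) E) (nat_lit 1684223574096) (nat_lit 2) (N E (nat_lit 1684223689379) (nat_lit 2) E)) (nat_lit 1684223693852) (nat_lit 2) (N (N E (nat_lit 1684223693859) (nat_lit 2) E) (nat_lit 1684223701076) (nat_lit 2) (N E (nat_lit 1684223703050) (nat_lit 2) E))) (nat_lit 1684223703120) (nat_lit 2) (N (N (N E (nat_lit 1684223703267) (nat_lit 1) E) (nat_lit 1684975749347) (nat_lit 2) (N E (nat_lit 1684976830691) (nat_lit 2) E)) (nat_lit 1684978665699) (nat_lit 2) (N (N E (nat_lit 1686869477603)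 (nat_lit 2) E) (nat_lit 1686870558947) (nat_lit 2) (N E (nat_lit 1687388031203) (nat_lit 2) E))))))
)
)
)
 (nat_lit 1688090839267) (nat_lit 2) (N (N (N (N (N (N (N (N (N (N E (nat_lit 1688327555299) (nat_lit 2) E) (nat_lit 1856770675740) (nat_lit 2) E) (nat_lit 1856770682964) (nat_lit 2) (N E (nat_lit 1856770685008) (nat_lit 2) E)) (nat_lit 1856774381652) (nat_lit 2) (N (N E (nat_lit 1856774383696) (nat_lit 2) E) (nat_lit 1856775430224) (nat_lit 2) (N E (nat_lit 1858668109908) (nat_lit 2) E))) (nat_lit 1858668111952) (nat_lit 2) (N (N (N (N E (nat_lit 1858669158480) (nat_lit 2) E) (nat_lit 1859204980816) (nat_lit 2) E) (nat_lit 1925495955536) (nat_lit 2) (N E (nat_lit 1925496060131) (nat_lit 2) E)) (nat_lit 1925555697891) (nat_lit 2) (N (N E (nat_lit 1925557261340) (nat_lit 2) E) (nat_lit 1925557268564) (nat_lit 2) (N E (nat_lit 1925557270608) (nat_lit 2) E)))) (nat_lit 1925560967252) (nat_lit 2) (N (N (N (N (N E (nat_lit 1925560969296) (nat_lit 2) E) (nat_lit 1925561059555)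 (nat_lit 2) E) (nat_lit 1925561991395) (nat_lit 2) (N E (nat_lit 1925562015824) (nat_lit 2) E)) (nat_lit 1925562075171) (nat_lit 2) (N (N E (nat_lit 1925562089731) (nat_lit 2) E) (nat_lit 1925562091040) (nat_lit 2) (N E (nat_lit 1925562091292) (nat_lit 2) E))) (nat_lit 1927387660515) (nat_lit 2) (N (N (N (N E (nat_lit 1927417250019) (nat_lit 2) E) (nat_lit 1928461328464) (nat_lit 2) E) (nat_lit 1928461433059) (nat_lit 2) (N E (nat_lit 1928499079395) (nat_lit 2) E)) (nat_lit 1928499366115) (nat_lit 2) (N (N E (nat_lit 1928499839056) (nat_lit 2) E) (nat_lit 1928499954339) (nat_lit 2) (N E (nat_lit 1928499958812) (nat_lit 2) E))))) (nat_lit 1928499958819) (nat_lit 2) (N (N (N (N (N (N E (nat_lit 1928499966036) (nat_lit 2) E) (nat_lit 1928499968010) (nat_lit 2) E) (nat_lit 1928499968080) (nat_lit 2) (N E (nat_lit 1928499968227) (nat_lit 1) E)) (nat_lit 1928510060771) (nat_lit 2) (N (N E (nat_lit 1928513759459) (nat_lit 2) E) (nat_lit 1928608416419) (nat_lit 2) (N E (nat_lit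 1928608887011) (nat_lit 2) E))) (nat_lit 1928609022179) (nat_lit 2) (N (N (N (N E (nat_lit 1928609251555) (nat_lit 2) E) (nat_lit 1928617408739) (nat_lit 2) E) (nat_lit 1928845603043) (nat_lit 2) (N E (nat_lit 1928845738211) (nat_lit 2) E)) (nat_lit 1928910422243) (nat_lit 2) (N (N E (nat_lit 1928998273251) (nat_lit 2) E) (nat_lit 1929027862755) (nat_lit 2) (N E (nat_lit 1934903779408) (nat_lit 1) E)))) (nat_lit 1934903779523) (nat_lit 2) (N (N (N (N (N E (nat_lit 1934903779544) (nat_lit 2) E) (nat_lit 1934903779556) (nat_lit 2) E) (nat_lit 1934903779612) (nat_lit 2) (N E (nat_lit 1934903781411) (nat_lit 2) E)) (nat_lit 1934903837315) (nat_lit 2) (N (N E (nat_lit 1934903837336) (nat_lit 2) E) (nat_lit 1934903837348) (nat_lit 2) (N E (nat_lit 1934903838288) (nat_lit 2) E))) (nat_lit 1934903849040) (nat_lit 2) (N (N (N (N E (nat_lit 1934903853140) (nat_lit 2) E) (nat_lit 1934903855184) (nat_lit 2) E) (nat_lit 1934903874588) (nat_lit 2) (N E (nat_lit 1934903881812)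 (nat_lit 2) E)) (nat_lit 1934903883856) (nat_lit 2) (N (N E (nat_lit 1934933426819) (nat_lit 2) E) (nat_lit 1934933426840) (nat_lit 2) (N E (nat_lit 1934933426852) (nat_lit 2) E))))))
 (nat_lit 1934933427792) (nat_lit 2) (N (N (N (N (N (N (N E (nat_lit 1934933438544) (nat_lit 2) E) (nat_lit 1934933442644) (nat_lit 2) E) (nat_lit 1934933444688) (nat_lit 2) (N E (nat_lit 1934933925968) (nat_lit 2) E)) (nat_lit 1934934030563) (nat_lit 2) (N (N E (nat_lit 1934939430992) (nat_lit 2) E) (nat_lit 1934941528148) (nat_lit 2) (N E (nat_lit 1934941530192) (nat_lit 2) E))) (nat_lit 1934941620451) (nat_lit 2) (N (N (N (N E (nat_lit 1934942288099) (nat_lit 2) E) (nat_lit 1934942576720) (nat_lit 2) E) (nat_lit 1934950938851) (nat_lit 2) (N E (nat_lit 1934952502300) (nat_lit 2) E)) (nat_lit 1934952509524) (nat_lit 2) (N (N E (nat_lit 1934952511568) (nat_lit 2) E) (nat_lit 1934956208212) (nat_lit 2) (N E (nat_lit 1934956210256) (nat_lit 2) E)))) (nat_lit 1934956300515) (nat_lit 2)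 (N (N (N (N (N E (nat_lit 1934957232355) (nat_lit 2) E) (nat_lit 1934957256784) (nat_lit 2) E) (nat_lit 1934957316131) (nat_lit 2) (N E (nat_lit 1934957330691) (nat_lit 2) E)) (nat_lit 1934957332000) (nat_lit 2) (N (N E (nat_lit 1934957332252) (nat_lit 2) E) (nat_lit 1935428958435) (nat_lit 2) (N E (nat_lit 1950083252867) (nat_lit 2) E))) (nat_lit 1950083252888) (nat_lit 2) (N (N (N (N E (nat_lit 1950083252900) (nat_lit 2) E) (nat_lit 1950083253770) (nat_lit 2) E) (nat_lit 1950083253840) (nat_lit 2) (N E (nat_lit 1950083264592) (nat_lit 2) E)) (nat_lit 1950083268692) (nat_lit 2) (N (N E (nat_lit 1950083270736) (nat_lit 2) E) (nat_lit 1950083716106) (nat_lit 2) (N E (nat_lit 1950083727587) (nat_lit 2) E))))) (nat_lit 1950083752016) (nat_lit 2) (N (N (N (N (N (N E (nat_lit 1950083856611) (nat_lit 2) E) (nat_lit 1950089257040) (nat_lit 2) E) (nat_lit 1950091354196) (nat_lit 2) (N E (nat_lit 1950091356240) (nat_lit 2) E)) (nat_lit 1950091446499) (nat_lit 2) (N (N E (nat_lit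 1950092114147) (nat_lit 2) E) (nat_lit 1950092402768) (nat_lit 2) (N E (nat_lit 1950320432138) (nat_lit 2) E))) (nat_lit 1950320441379) (nat_lit 2) (N (N (N (N E (nat_lit 1950320443619) (nat_lit 2) E) (nat_lit 1950320572643) (nat_lit 2) E) (nat_lit 1950324140067) (nat_lit 2) (N E (nat_lit 1950338818128) (nat_lit 2) E)) (nat_lit 1950387550435) (nat_lit 2) (N (N E (nat_lit 1950391249123) (nat_lit 2) E) (nat_lit 1950454657251) (nat_lit 2) (N E (nat_lit 1950458355939) (nat_lit 2) E)))) (nat_lit 1950460455139) (nat_lit 2) (N (N (N (N (N E (nat_lit 1950460741859) (nat_lit 2) E) (nat_lit 1950461214800) (nat_lit 2) E) (nat_lit 1950461330083) (nat_lit 2) (N E (nat_lit 1950461334556) (nat_lit 2) E)) (nat_lit 1950461334563) (nat_lit 2) (N (N E (nat_lit 1950461341780) (nat_lit 2) E) (nat_lit 1950461343754) (nat_lit 2) (N E (nat_lit 1950461343824) (nat_lit 2) E))) (nat_lit 1950461343971) (nat_lit 1) (N (N (N (N E (nat_lit 1950473094691) (nat_lit 2) E) (nat_lit 1950473111587)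 (nat_lit 2) E) (nat_lit 1950473140259) (nat_lit 2) (N E (nat_lit 1950502684195) (nat_lit 2) E)) (nat_lit 1950502701091) (nat_lit 2) (N (N E (nat_lit 1950510786595) (nat_lit 2) E) (nat_lit 1950521767971) (nat_lit 2) (N E (nat_lit 1950525466659) (nat_lit 2) E))))))
)
 (nat_lit 1953157390416) (nat_lit 2) (N (N (N (N (N (N (N (N E (nat_lit 1954231132244) (nat_lit 2) E) (nat_lit 1954231134288) (nat_lit 2) E) (nat_lit 1954231224547) (nat_lit 2) (N E (nat_lit 1954232156387) (nat_lit 2) E)) (nat_lit 1954232180816) (nat_lit 2) (N (N E (nat_lit 1954232240163) (nat_lit 2) E) (nat_lit 1954232254723) (nat_lit 2) (N E (nat_lit 1954232256032) (nat_lit 2) E))) (nat_lit 1954232256284) (nat_lit 2) (N (N (N (N E (nat_lit 1954260780803) (nat_lit 2) E) (nat_lit 1954261243139) (nat_lit 2) E) (nat_lit 1954277558499) (nat_lit 2) (N E (nat_lit 1954278031440) (nat_lit 2) E)) (nat_lit 1954278146723) (nat_lit 2) (N (N E (nat_lit 1954278151196) (nat_lit 2) E) (nat_lit 1954278151203) (nat_lit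 2) (N E (nat_lit 1954278158420) (nat_lit 2) E)))) (nat_lit 1954278160394) (nat_lit 2) (N (N (N (N (N E (nat_lit 1954278160464) (nat_lit 2) E) (nat_lit 1954278160611) (nat_lit 1) E) (nat_lit 1954278318307) (nat_lit 2) (N E (nat_lit 1954278376099) (nat_lit 2) E)) (nat_lit 1954279855114) (nat_lit 2) (N (N E (nat_lit 1954279862467) (nat_lit 2) E) (nat_lit 1954279864579) (nat_lit 2) (N E (nat_lit 1954279868163) (nat_lit 2) E))) (nat_lit 1954279995619) (nat_lit 2) (N (N (N (N E (nat_lit 1954283561155) (nat_lit 2) E) (nat_lit 1954283563267) (nat_lit 2) E) (nat_lit 1954284573955) (nat_lit 2) (N E (nat_lit 1954285946627) (nat_lit 2) E)) (nat_lit 1954286408963) (nat_lit 2) (N (N E (nat_lit 1954378220164) (nat_lit 2) E) (nat_lit 1954378220192) (nat_lit 2) (N E (nat_lit 1954378221648) (nat_lit 2) E))))) (nat_lit 1954378235984) (nat_lit 2) (N (N (N (N (N (N E (nat_lit 1954378692835) (nat_lit 2) E) (nat_lit 1954378811427) (nat_lit 2) E) (nat_lit 1954378821859) (nat_lit 2) (N E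 (nat_lit 1954378957027) (nat_lit 2) E)) (nat_lit 1954378981456) (nat_lit 2) (N (N E (nat_lit 1954379040803) (nat_lit 2) E) (nat_lit 1954379055363) (nat_lit 2) (N E (nat_lit 1954379056672) (nat_lit 2) E))) (nat_lit 1954379056924) (nat_lit 2) (N (N (N (N E (nat_lit 1954386321488) (nat_lit 2) E) (nat_lit 1954386426083) (nat_lit 2) E) (nat_lit 1954615406851) (nat_lit 2) (N E (nat_lit 1954615408867) (nat_lit 2) E)) (nat_lit 1954615527459) (nat_lit 2) (N (N E (nat_lit 1954615537891) (nat_lit 2) E) (nat_lit 1954619105476) (nat_lit 2) (N E (nat_lit 1954619105504) (nat_lit 2) E)))) (nat_lit 1954619105539) (nat_lit 2) (N (N (N (N (N E (nat_lit 1954619107555) (nat_lit 2) E) (nat_lit 1954619163268) (nat_lit 2) E) (nat_lit 1954619163296) (nat_lit 2) (N E (nat_lit 1954619164752) (nat_lit 2) E)) (nat_lit 1954619179088) (nat_lit 2) (N (N E (nat_lit 1954620154083) (nat_lit 2) E) (nat_lit 1954620211875) (nat_lit 2) (N E (nat_lit 1954621202512) (nat_lit 1) E))) (nat_lit 1954621202627)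 (nat_lit 2) (N (N (N (N E (nat_lit 1954621202648) (nat_lit 2) E) (nat_lit 1954621202660) (nat_lit 2) E) (nat_lit 1954621202716) (nat_lit 2) (N E (nat_lit 1954621260419) (nat_lit 2) E)) (nat_lit 1954621260440) (nat_lit 2) (N (N E (nat_lit 1954621260452) (nat_lit 2) E) (nat_lit 1954621261392) (nat_lit 2) (N E (nat_lit 1954621272144) (nat_lit 2) E))))))
 (nat_lit 1954621276244) (nat_lit 2) (N (N (N (N (N (N (N E (nat_lit 1954621278288) (nat_lit 2) E) (nat_lit 1954621293219) (nat_lit 2) E) (nat_lit 1954621297692) (nat_lit 2) (N E (nat_lit 1954621297699) (nat_lit 2) E)) (nat_lit 1954621304916) (nat_lit 2) (N (N E (nat_lit 1954621306890) (nat_lit 2) E) (nat_lit 1954621306960) (nat_lit 2) (N E (nat_lit 1954621307107) (nat_lit 1) E))) (nat_lit 1954621490712) (nat_lit 2) (N (N (N (N E (nat_lit 1954621490948) (nat_lit 2) E) (nat_lit 1954621490976) (nat_lit 2) E) (nat_lit 1954621491396) (nat_lit 2) (N E (nat_lit 1954621491424) (nat_lit 2) E)) (nat_lit 1954621953048) (nat_lit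 2) (N (N E (nat_lit 1954621953284) (nat_lit 2) E) (nat_lit 1954621953312) (nat_lit 2) (N E (nat_lit 1954621960272) (nat_lit 2) E)))) (nat_lit 1954622079620) (nat_lit 2) (N (N (N (N (N E (nat_lit 1954622079648) (nat_lit 2) E) (nat_lit 1954622081104) (nat_lit 2) E) (nat_lit 1954622095440) (nat_lit 2) (N E (nat_lit 1954622251204) (nat_lit 2) E)) (nat_lit 1954622251232) (nat_lit 2) (N (N E (nat_lit 1954622308996) (nat_lit 2) E) (nat_lit 1954622309024) (nat_lit 2) (N E (nat_lit 1954622310480) (nat_lit 2) E))) (nat_lit 1954622324816) (nat_lit 2) (N (N (N (N E (nat_lit 1954680211491) (nat_lit 2) E) (nat_lit 1954680226051) (nat_lit 2) E) (nat_lit 1954680227360) (nat_lit 2) (N E (nat_lit 1954680227612) (nat_lit 2) E)) (nat_lit 1954680935452) (nat_lit 2) (N (N E (nat_lit 1954680935459) (nat_lit 2) E) (nat_lit 1954680942676) (nat_lit 2) (N E (nat_lit 1954680944650) (nat_lit 2) E))))) (nat_lit 1954680944720) (nat_lit 2) (N (N (N (N (N (N E (nat_lit 1954680944867) (nat_lit 1)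 E) (nat_lit 1954680947331) (nat_lit 2) E) (nat_lit 1954680948234) (nat_lit 2) (N E (nat_lit 1954680973539) (nat_lit 2) E)) (nat_lit 1954682508316) (nat_lit 1) (N (N E (nat_lit 1954682508372) (nat_lit 2) E) (nat_lit 1954682515540) (nat_lit 1) (N E (nat_lit 1954682515676) (nat_lit 2) E))) (nat_lit 1954682515683) (nat_lit 2) (N (N (N (N E (nat_lit 1954682517020) (nat_lit 2) E) (nat_lit 1954682517536) (nat_lit 2) E) (nat_lit 1954682517584) (nat_lit 1) (N E (nat_lit 1954682517699) (nat_lit 2) E)) (nat_lit 1954682517720) (nat_lit 2) (N (N E (nat_lit 1954682517732) (nat_lit 2) E) (nat_lit 1954682517788) (nat_lit 2) (N E (nat_lit 1954682519811) (nat_lit 2) E)))) (nat_lit 1954682521120) (nat_lit 2) (N (N (N (N (N E (nat_lit 1954682521372) (nat_lit 2) E) (nat_lit 1954682544212) (nat_lit 2) E) (nat_lit 1954682546256) (nat_lit 2) (N E (nat_lit 1954682636515) (nat_lit 2) E)) (nat_lit 1954686214228) (nat_lit 1) (N (N E (nat_lit 1954686214364) (nat_lit 2) E) (nat_lit 1954686214371)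 (nat_lit 2) (N E (nat_lit 1954686215708) (nat_lit 2) E))) (nat_lit 1954686216224) (nat_lit 2) (N (N (N E (nat_lit 1954686216272) (nat_lit 1) E) (nat_lit 1954686216387) (nat_lit 2) (N E (nat_lit 1954686216408) (nat_lit 2) E)) (nat_lit 1954686216420) (nat_lit 2) (N (N E (nat_lit 1954686216476) (nat_lit 2) E) (nat_lit 1954686272163) (nat_lit 2) (N E (nat_lit 1954686276636) (nat_lit 2) E))))))
)
)
 (nat_lit 1954686283860) (nat_lit 2) (N (N (N (N (N (N (N (N (N E (nat_lit 1954686285904) (nat_lit 2) E) (nat_lit 1954686288515) (nat_lit 2) E) (nat_lit 1954686289418) (nat_lit 2) (N E (nat_lit 1954686306314) (nat_lit 2) E)) (nat_lit 1954686306384) (nat_lit 2) (N (N E (nat_lit 1954686306531) (nat_lit 1) E) (nat_lit 1954686964764) (nat_lit 2) (N E (nat_lit 1954686971988) (nat_lit 2) E))) (nat_lit 1954686974032) (nat_lit 2) (N (N (N (N E (nat_lit 1954687226912) (nat_lit 2) E) (nat_lit 1954687227164) (nat_lit 2) E) (nat_lit 1954687238224) (nat_lit 2) (N E (nat_lit 1954687238371)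 (nat_lit 1) E)) (nat_lit 1954687238819) (nat_lit 2) (N (N E (nat_lit 1954687262800) (nat_lit 1) E) (nat_lit 1954687262915) (nat_lit 2) (N E (nat_lit 1954687262936) (nat_lit 2) E)))) (nat_lit 1954687262948) (nat_lit 2) (N (N (N (N (N E (nat_lit 1954687263004) (nat_lit 2) E) (nat_lit 1954687264803) (nat_lit 2) E) (nat_lit 1954687320707) (nat_lit 2) (N E (nat_lit 1954687320728) (nat_lit 2) E)) (nat_lit 1954687320740) (nat_lit 2) (N (N E (nat_lit 1954687321610) (nat_lit 2) E) (nat_lit 1954687321680) (nat_lit 2) (N E (nat_lit 1954687322147) (nat_lit 1) E))) (nat_lit 1954687332432) (nat_lit 2) (N (N (N (N E (nat_lit 1954687336532) (nat_lit 2) E) (nat_lit 1954687336707) (nat_lit 1) E) (nat_lit 1954687336714) (nat_lit 2) (N E (nat_lit 1954687337092) (nat_lit 2) E)) (nat_lit 1954687337120) (nat_lit 2) (N (N E (nat_lit 1954687338016) (nat_lit 1) E) (nat_lit 1954687338268) (nat_lit 1) (N E (nat_lit 1954687338576) (nat_lit 2) E))))) (nat_lit 1954687357980) (nat_lit 2) (N (N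 (N (N (N (N E (nat_lit 1954687365204) (nat_lit 2) E) (nat_lit 1954687367248) (nat_lit 2) E) (nat_lit 1954768003152) (nat_lit 2) (N E (nat_lit 1959849890844) (nat_lit 2) E)) (nat_lit 1959849898068) (nat_lit 2) (N (N E (nat_lit 1959849900112) (nat_lit 2) E) (nat_lit 1959853596756) (nat_lit 2) (N E (nat_lit 1959853598800) (nat_lit 2) E))) (nat_lit 1959854645328) (nat_lit 2) (N (N (N (N E (nat_lit 1961747325012) (nat_lit 2) E) (nat_lit 1961747327056) (nat_lit 2) E) (nat_lit 1961748373584) (nat_lit 2) (N E (nat_lit 1962284195920) (nat_lit 2) E)) (nat_lit 2209781688547) (nat_lit 2) (N (N E (nat_lit 2209811806435) (nat_lit 2) E) (nat_lit 2209820457187) (nat_lit 2) (N E (nat_lit 2209835137251) (nat_lit 2) E)))) (nat_lit 2210357197027) (nat_lit 2) (N (N (N (N (N E (nat_lit 2224961632483) (nat_lit 2) E) (nat_lit 2224970283235) (nat_lit 2) E) (nat_lit 2229110061283) (nat_lit 2) (N E (nat_lit 2234732525795) (nat_lit 2) E)) (nat_lit 2236626254051) (nat_lit 2) (N (N E (nat_lit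 2285090701955) (nat_lit 1) E) (nat_lit 2285090701962) (nat_lit 2) (N E (nat_lit 2285090702858) (nat_lit 1) E))) (nat_lit 2285090702875) (nat_lit 2) (N (N (N (N E (nat_lit 2285090702880) (nat_lit 2) E) (nat_lit 2285090703043) (nat_lit 2) E) (nat_lit 2285090703132) (nat_lit 2) (N E (nat_lit 2285090703139) (nat_lit 2) E)) (nat_lit 2285090703587) (nat_lit 2) (N (N E (nat_lit 2285090706442) (nat_lit 2) E) (nat_lit 2285091165194) (nat_lit 1) (N E (nat_lit 2285091165211) (nat_lit 2) E))))))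
 (nat_lit 2285091165216) (nat_lit 2) (N (N (N (N (N (N (N E (nat_lit 2285091165379) (nat_lit 2) E) (nat_lit 2285091165468) (nat_lit 2) E) (nat_lit 2285091165475) (nat_lit 2) (N E (nat_lit 2285091172995) (nat_lit 2) E)) (nat_lit 2285091173898) (nat_lit 2) (N (N E (nat_lit 2285091176528) (nat_lit 2) E) (nat_lit 2285091259011) (nat_lit 2) (N E (nat_lit 2285091259914) (nat_lit 2) E))) (nat_lit 2285091291811) (nat_lit 2) (N (N (N (N E (nat_lit 2285091296284) (nat_lit 2) E) (nat_lit 2285091296291) (nat_lit 2) E) (nat_lit 2285091303508) (nat_lit 2) (N E (nat_lit 2285091305482) (nat_lit 2) E)) (nat_lit 2285091305552) (nat_lit 2) (N (N E (nat_lit 2285091305699) (nat_lit 1) E) (nat_lit 2285091308163) (nat_lit 2) (N E (nat_lit 2285091309066) (nat_lit 2) E)))) (nat_lit 2285091463395) (nat_lit 2) (N (N (N (N (N E (nat_lit 2285091521187) (nat_lit 2) E) (nat_lit 2285091537539) (nat_lit 2) E) (nat_lit 2285091538442) (nat_lit 2) (N E (nat_lit 2285093000202) (nat_lit 2) E)) (nat_lit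 2285093140707) (nat_lit 2) (N (N E (nat_lit 2285327881226) (nat_lit 1) E) (nat_lit 2285327881243) (nat_lit 2) (N E (nat_lit 2285327881248) (nat_lit 2) E))) (nat_lit 2285327881411) (nat_lit 2) (N (N (N (N E (nat_lit 2285327881500) (nat_lit 2) E) (nat_lit 2285327881507) (nat_lit 2) E) (nat_lit 2285327889027) (nat_lit 2) (N E (nat_lit 2285327889930) (nat_lit 2) E)) (nat_lit 2285327892560) (nat_lit 2) (N (N E (nat_lit 2285327975043) (nat_lit 2) E) (nat_lit 2285327975946) (nat_lit 2) (N E (nat_lit 2285328007843) (nat_lit 2) E))))) (nat_lit 2285328012316) (nat_lit 2) (N (N (N (N (N (N E (nat_lit 2285328012323) (nat_lit 2) E) (nat_lit 2285328019540) (nat_lit 2) E) (nat_lit 2285328021514) (nat_lit 2) (N E (nat_lit 2285328021584) (nat_lit 2) E)) (nat_lit 2285328021731) (nat_lit 1) (N (N E (nat_lit 2285328024195) (nat_lit 2) E) (nat_lit 2285328025098) (nat_lit 2) (N E (nat_lit 2285331874435) (nat_lit 2) E))) (nat_lit 2285331875338) (nat_lit 2) (N (N (N (N E (nat_lit 2285332337674)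 (nat_lit 2) E) (nat_lit 2285332478179) (nat_lit 2) E) (nat_lit 2285333684304) (nat_lit 2) (N E (nat_lit 2285333788899) (nat_lit 2) E)) (nat_lit 2285375914627) (nat_lit 2) (N (N E (nat_lit 2285375915530) (nat_lit 2) E) (nat_lit 2285376377866) (nat_lit 2) (N E (nat_lit 2285376518371) (nat_lit 2) E)))) (nat_lit 2285392691875) (nat_lit 2) (N (N (N (N (N E (nat_lit 2285392708227) (nat_lit 2) E) (nat_lit 2285392709130) (nat_lit 2) E) (nat_lit 2285393426659) (nat_lit 2) (N E (nat_lit 2285394990108) (nat_lit 2) E)) (nat_lit 2285394997332) (nat_lit 2) (N (N E (nat_lit 2285394999376) (nat_lit 2) E) (nat_lit 2285398696020) (nat_lit 2) (N E (nat_lit 2285398698064) (nat_lit 2) E))) (nat_lit 2285398788323) (nat_lit 2) (N (N (N E (nat_lit 2285399720163) (nat_lit 2) E) (nat_lit 2285399744592) (nat_lit 2) (N E (nat_lit 2285399803939) (nat_lit 2) E)) (nat_lit 2285399818499) (nat_lit 2) (N (N E (nat_lit 2285399819808) (nat_lit 2) E) (nat_lit 2285399820060) (nat_lit 2) (N E (nat_lit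 2285401080451) (nat_lit 2) E))))))
)
 (nat_lit 2285401081354) (nat_lit 2) (N (N (N (N (N (N (N (N E (nat_lit 2285401543690) (nat_lit 2) E) (nat_lit 2285401684195) (nat_lit 2) E) (nat_lit 2285480485091) (nat_lit 2) (N E (nat_lit 2285480542883) (nat_lit 2) E)) (nat_lit 2285480559235) (nat_lit 2) (N (N E (nat_lit 2285480560138) (nat_lit 2) E) (nat_lit 2285510132387) (nat_lit 2) (N E (nat_lit 2285510148739) (nat_lit 2) E))) (nat_lit 2285510149642) (nat_lit 2) (N (N (N (N E (nat_lit 2285510867171) (nat_lit 2) E) (nat_lit 2285518520963) (nat_lit 2) E) (nat_lit 2285518521866) (nat_lit 2) (N E (nat_lit 2285518984202) (nat_lit 2) E)) (nat_lit 2285519124707) (nat_lit 2) (N (N E (nat_lit 2286267405322) (nat_lit 2) E) (nat_lit 2286267545827) (nat_lit 2) (N E (nat_lit 2406526489610) (nat_lit 1) E)))) (nat_lit 2406526489627) (nat_lit 2) (N (N (N (N (N E (nat_lit 2406526489632) (nat_lit 2) E) (nat_lit 2406526489795) (nat_lit 2) E) (nat_lit 2406526489884) (nat_lit 2) (N E (nat_lit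 2406526489891) (nat_lit 2) E)) (nat_lit 2406526497411) (nat_lit 2) (N (N E (nat_lit 2406526498314) (nat_lit 2) E) (nat_lit 2406526500944) (nat_lit 2) (N E (nat_lit 2406526583427) (nat_lit 2) E))) (nat_lit 2406526584330) (nat_lit 2) (N (N (N (N E (nat_lit 2406526616227) (nat_lit 2) E) (nat_lit 2406526620700) (nat_lit 2) E) (nat_lit 2406526620707) (nat_lit 2) (N E (nat_lit 2406526627924) (nat_lit 2) E)) (nat_lit 2406526629898) (nat_lit 2) (N (N E (nat_lit 2406526629968) (nat_lit 2) E) (nat_lit 2406526630115) (nat_lit 1) (N E (nat_lit 2406526632579) (nat_lit 2) E))))) (nat_lit 2406526633482) (nat_lit 2) (N (N (N (N (N (N E (nat_lit 2406530482819) (nat_lit 2) E) (nat_lit 2406530483722) (nat_lit 2) E) (nat_lit 2406530946058) (nat_lit 2) (N E (nat_lit 2406531086563) (nat_lit 2) E)) (nat_lit 2406532292688) (nat_lit 2) (N (N E (nat_lit 2406532397283) (nat_lit 2) E) (nat_lit 2406574523011) (nat_lit 2) (N E (nat_lit 2406574523914) (nat_lit 2) E))) (nat_lit 2406574986250) (nat_lit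 2) (N (N (N (N E (nat_lit 2406575126755) (nat_lit 2) E) (nat_lit 2406591300259) (nat_lit 2) E) (nat_lit 2406591316611) (nat_lit 2) (N E (nat_lit 2406591317514) (nat_lit 2) E)) (nat_lit 2406592035043) (nat_lit 2) (N (N E (nat_lit 2406593598492) (nat_lit 2) E) (nat_lit 2406593605716) (nat_lit 2) (N E (nat_lit 2406593607760) (nat_lit 2) E)))) (nat_lit 2406597304404) (nat_lit 2) (N (N (N (N (N E (nat_lit 2406597306448) (nat_lit 2) E) (nat_lit 2406597396707) (nat_lit 2) E) (nat_lit 2406598328547) (nat_lit 2) (N E (nat_lit 2406598352976) (nat_lit 2) E)) (nat_lit 2406598412323) (nat_lit 2) (N (N E (nat_lit 2406598426883) (nat_lit 2) E) (nat_lit 2406598428192) (nat_lit 2) (N E (nat_lit 2406598428444) (nat_lit 2) E))) (nat_lit 2406599688835) (nat_lit 2) (N (N (N (N E (nat_lit 2406599689738) (nat_lit 2) E) (nat_lit 2406600152074) (nat_lit 2) E) (nat_lit 2406600292579) (nat_lit 2) (N E (nat_lit 2408571011715) (nat_lit 2) E)) (nat_lit 2408571012618) (nat_lit 2) (N (N E (nat_lit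 2408571474954) (nat_lit 2) E) (nat_lit 2408571615459) (nat_lit 2) (N E (nat_lit 2408808190986) (nat_lit 2) E))))))
 (nat_lit 2408808331491) (nat_lit 2) (N (N (N (N (N (N (N E (nat_lit 2409497665616) (nat_lit 2) E) (nat_lit 2431119590019) (nat_lit 2) E) (nat_lit 2431119590922) (nat_lit 2) (N E (nat_lit 2431120053258) (nat_lit 2) E)) (nat_lit 2431120193763) (nat_lit 2) (N (N E (nat_lit 2431356769290) (nat_lit 2) E) (nat_lit 2431356909795) (nat_lit 2) (N E (nat_lit 2439709524643) (nat_lit 2) E))) (nat_lit 2439709540995) (nat_lit 2) (N (N (N (N E (nat_lit 2439709541898) (nat_lit 2) E) (nat_lit 2439710259427) (nat_lit 2) E) (nat_lit 2439717913219) (nat_lit 2) (N E (nat_lit 2439717914122) (nat_lit 2) E)) (nat_lit 2439718376458) (nat_lit 2) (N (N E (nat_lit 2439718516963) (nat_lit 2) E) (nat_lit 2440886227996) (nat_lit 2) (N E (nat_lit 2440886235220) (nat_lit 2) E)))) (nat_lit 2440886237264) (nat_lit 2) (N (N (N (N (N E (nat_lit 2440889933908) (nat_lit 2) E) (nat_lit 2440889935952)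 (nat_lit 2) E) (nat_lit 2440890982480) (nat_lit 2) (N E (nat_lit 2440892922083) (nat_lit 2) E)) (nat_lit 2442783662164) (nat_lit 2) (N (N E (nat_lit 2442783664208) (nat_lit 2) E) (nat_lit 2442784710736) (nat_lit 2) (N E (nat_lit 2443302287587) (nat_lit 2) E))) (nat_lit 2443320533072) (nat_lit 2) (N (N (N (N E (nat_lit 2443320637667) (nat_lit 2) E) (nat_lit 2443358284003) (nat_lit 2) E) (nat_lit 2443358570723) (nat_lit 2) (N E (nat_lit 2443359043664) (nat_lit 2) E)) (nat_lit 2443359158947) (nat_lit 2) (N (N E (nat_lit 2443359163420) (nat_lit 2) E) (nat_lit 2443359163427) (nat_lit 2) (N E (nat_lit 2443359170644) (nat_lit 2) E))))) (nat_lit 2443359172618) (nat_lit 2) (N (N (N (N (N (N E (nat_lit 2443359172688) (nat_lit 2) E) (nat_lit 2443359172835) (nat_lit 1) E) (nat_lit 2444004491907) (nat_lit 2) (N E (nat_lit 2444004492810) (nat_lit 2) E)) (nat_lit 2444004955146) (nat_lit 2) (N (N E (nat_lit 2444005095651) (nat_lit 2) E) (nat_lit 2444241671178) (nat_lit 2) (N E (nat_lit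 2444241811683) (nat_lit 2) E))) (nat_lit 2484659593443) (nat_lit 2) (N (N (N (N E (nat_lit 2484659651235) (nat_lit 2) E) (nat_lit 2484659667587) (nat_lit 2) E) (nat_lit 2484659668490) (nat_lit 2) (N E (nat_lit 2484689240739) (nat_lit 2) E)) (nat_lit 2484689257091) (nat_lit 2) (N (N E (nat_lit 2484689257994) (nat_lit 2) E) (nat_lit 2484689975523) (nat_lit 2) (N E (nat_lit 2484697629315) (nat_lit 2) E)))) (nat_lit 2484697630218) (nat_lit 2) (N (N (N (N (N E (nat_lit 2484698092554) (nat_lit 2) E) (nat_lit 2484698233059) (nat_lit 2) E) (nat_lit 2499839066787) (nat_lit 2) (N E (nat_lit 2499839083139) (nat_lit 2) E)) (nat_lit 2499839084042) (nat_lit 2) (N (N E (nat_lit 2499839801571) (nat_lit 2) E) (nat_lit 2499847455363) (nat_lit 2) (N E (nat_lit 2499847456266) (nat_lit 2) E))) (nat_lit 2499847918602) (nat_lit 2) (N (N (N E (nat_lit 2499848059107) (nat_lit 2) E) (nat_lit 2504134034051) (nat_lit 2) (N E (nat_lit 2504134034954) (nat_lit 2) E)) (nat_lit 2504134497290) (nat_lit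 2) (N (N E (nat_lit 2504134637795) (nat_lit 2) E) (nat_lit 2504371213322) (nat_lit 2) (N E (nat_lit 2504371353827) (nat_lit 2) E))))))
)
)
)
)


end Pool.Agent.L5helper11.GP
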