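import Pool.Agent.L5helper11.GP.S3
import Pool.Agent.L5helper11.GP.S4
import Pool.Agent.L5helper11.GP.S5

/-! Checks of the certificate. -/

set_option autoImplicit false

namespace Pool.Agent.L5helper11.GP

theorem c3 : chk S3 S4 = true := by decide +kernel

theorem c4 : chk S4 S5 = true := by decide +kernel

end Pool.Agent.L5helper11.GP
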