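import Pool.Agent.L5helper11.GP.Def

/-! Certificate, level 10. -/

set_option autoImplicit false

namespace Pool.Agent.L5helper11.GP

open Tr in
/-- The words at level 10 with their values. -/
def S10 : Tr := (N (N (N (N (N (N (N (N E (nat_lit 86067463939) (nat_lit 2) E) (nat_lit 86075836163) (nat_lit 2) (N E (nat_lit 86076298499) (nat_lit 2) E)) (nat_lit 86376547864) (nat_lit 2) (N (N E (nat_lit 86442608152) (nat_lit 2) E) (nat_lit 89171701955) (nat_lit 2) E)) (nat_lit 89171702044) (nat_lit 2) (N (N (N E (nat_lit 89171704032) (nat_lit 2) E) (nat_lit 89171707672) (nat_lit 2) (N E (nat_lit 89171834904) (nat_lit 2) E)) (nat_lit 89172067864) (nat_lit 2) (N (N E (nat_lit 89180210712) (nat_lit 2) E) (nat_lit 89195120152) (nat_lit 2) E))) (nat_lit 89716262424) (nat_lit 2) (N (N (N (N E (nat_lit 90362414851) (nat_lit 2) E) (nat_lit 90362877187) (nat_lit 2) (N E (nat_lit 90599593219) (nat_lit 2) E)) (nat_lit 90670466584) (nat_lit 2) (N (N E (nat_lit 207508063768) (nat_lit 2) E) (nat_lit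 207509095960) (nat_lit 2) E)) (nat_lit 207551738051) (nat_lit 2) (N (N (N E (nat_lit 207551738140) (nat_lit 2) E) (nat_lit 207551740128) (nat_lit 2) (N E (nat_lit 207551743768) (nat_lit 2) E)) (nat_lit 207551871000) (nat_lit 2) (N (N E (nat_lit 207552103960) (nat_lit 2) E) (nat_lit 207560246808) (nat_lit 2) E)))) (nat_lit 207575156248) (nat_lit 2) (N (N (N (N (N E (nat_lit 209400743704) (nat_lit 2) E) (nat_lit 209400759832) (nat_lit 2) (N E (nat_lit 209401426115) (nat_lit 2) E)) (nat_lit 209401426204) (nat_lit 2) (N (N E (nat_lit 209401428192) (nat_lit 2) E) (nat_lit 209401431832) (nat_lit 2) E)) (nat_lit 209401559064) (nat_lit 2) (N (N (N E (nat_lit 209401792024) (nat_lit 2) E) (nat_lit 209430316828) (nat_lit 2) (N E (nat_lit 209430317080) (nat_lit 2) E)) (nat_lit 209430327491) (nat_lit 2) (N (N E (nat_lit 209430327580) (nat_lit 2) E) (nat_lit 209430329568) (nat_lit 2) E))) (nat_lit 209430333208) (nat_lit 2) (N (N (N (N E (nat_lit 209430778912) (nat_lit 2) E) (nat_lit 209430779075)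 (nat_lit 2) (N E (nat_lit 209430779164) (nat_lit 2) E)) (nat_lit 209430786131) (nat_lit 2) (N (N E (nat_lit 209430786243) (nat_lit 1) E) (nat_lit 209430786250) (nat_lit 2) E)) (nat_lit 209430786332) (nat_lit 1) (N (N (N E (nat_lit 209430786691) (nat_lit 2) E) (nat_lit 209430788320) (nat_lit 1) (N E (nat_lit 209430790224) (nat_lit 2) E)) (nat_lit 209430791946) (nat_lit 2) (N (N E (nat_lit 209430791960) (nat_lit 1) E) (nat_lit 209430814915) (nat_lit 2) E)))))
 (nat_lit 209430815004) (nat_lit 2) (N (N (N (N (N (N E (nat_lit 209430816992) (nat_lit 2) E) (nat_lit 209430909980) (nat_lit 2) (N E (nat_lit 209430917204) (nat_lit 2) E)) (nat_lit 209430919178) (nat_lit 2) (N (N E (nat_lit 209430919192) (nat_lit 1) E) (nat_lit 209430919248) (nat_lit 2) E)) (nat_lit 209431041048) (nat_lit 2) (N (N (N E (nat_lit 209431151235) (nat_lit 2) E) (nat_lit 209431151256) (nat_lit 2) (N E (nat_lit 209431152138) (nat_lit 2) E)) (nat_lit 209431152152) (nat_lit 1) (N (N E (nat_lit 209431152208) (nat_lit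 2) E) (nat_lit 209432621251) (nat_lit 2) E))) (nat_lit 209432621340) (nat_lit 2) (N (N (N (N E (nat_lit 209432623328) (nat_lit 2) E) (nat_lit 209432626968) (nat_lit 2) (N E (nat_lit 209432754200) (nat_lit 2) E)) (nat_lit 209438705411) (nat_lit 2) (N (N E (nat_lit 209438705432) (nat_lit 2) E) (nat_lit 209439167747) (nat_lit 2) E)) (nat_lit 209439167768) (nat_lit 2) (N (N (N E (nat_lit 209439294083) (nat_lit 2) E) (nat_lit 209439294104) (nat_lit 2) (N E (nat_lit 209439294986) (nat_lit 2) E)) (nat_lit 209439295000) (nat_lit 1) (N (N E (nat_lit 209439295056) (nat_lit 2) E) (nat_lit 209439298584) (nat_lit 2) E)))) (nat_lit 209439305808) (nat_lit 2) (N (N (N (N (N E (nat_lit 209447093784) (nat_lit 2) E) (nat_lit 209454147096) (nat_lit 2) (N E (nat_lit 209454203523) (nat_lit 2) E)) (nat_lit 209454203544) (nat_lit 2) (N (N E (nat_lit 209454204426) (nat_lit 2) E) (nat_lit 209454204440) (nat_lit 1) E)) (nat_lit 209454204496) (nat_lit 2) (N (N (N E (nat_lit 209454208024) (nat_lit 2)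 E) (nat_lit 209548226755) (nat_lit 2) (N E (nat_lit 209548226844) (nat_lit 2) E)) (nat_lit 209548228832) (nat_lit 2) (N (N E (nat_lit 209548232472) (nat_lit 2) E) (nat_lit 209548359704) (nat_lit 2) E))) (nat_lit 209548592664) (nat_lit 2) (N (N (N (N E (nat_lit 209556735512) (nat_lit 2) E) (nat_lit 209937614360) (nat_lit 2) (N E (nat_lit 209967203864) (nat_lit 2) E)) (nat_lit 209975289368) (nat_lit 2) (N (N E (nat_lit 209975345795) (nat_lit 2) E) (nat_lit 209975345816) (nat_lit 2) E)) (nat_lit 209975346698) (nat_lit 2) (N (N (N E (nat_lit 209975346712) (nat_lit 1) E) (nat_lit 209975346768) (nat_lit 2) E) (nat_lit 209975350296) (nat_lit 2) (N (N E (nat_lit 209975576088) (nat_lit 2) E) (nat_lit 209976038424) (nat_lit 2) E)))))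
)
 (nat_lit 210474468888) (nat_lit 2) (N (N (N (N (N (N (N E (nat_lit 210925880856) (nat_lit 2) E) (nat_lit 210929493528) (nat_lit 2) (N E (nat_lit 210929549955) (nat_lit 2) E)) (nat_lit 210929549976) (nat_lit 2) (N (N E (nat_lit 210929550858) (nat_lit 2) E) (nat_lit 210929550872) (nat_lit 1) E)) (nat_lit 210929550928) (nat_lit 2) (N (N (N E (nat_lit 210929554456) (nat_lit 2) E) (nat_lit 210929780248) (nat_lit 2) (N E (nat_lit 216946979011) (nat_lit 2) E)) (nat_lit 216946979100) (nat_lit 2) (N (N E (nat_lit 216946981088) (nat_lit 2) E) (nat_lit 216946984728) (nat_lit 2) E))) (nat_lit 216947111960) (nat_lit 2) (N (N (N (N E (nat_lit 216947344920) (nat_lit 2) E) (nat_lit 216955487768) (nat_lit 2) (N E (nat_lit 216970397208) (nat_lit 2) E)) (nat_lit 217491539480) (nat_lit 2) (N (N E (nat_lit 241867785752) (nat_lit 2) E) (nat_lit 243761514008) (nat_lit 2) E)) (nat_lit 244278986264) (nat_lit 2) (N (N (N E (nat_lit 244282598936) (nat_lit 2) E) (nat_lit 244282655363) (nat_lit 2)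 (N E (nat_lit 244282655384) (nat_lit 2) E)) (nat_lit 244282656266) (nat_lit 2) (N (N E (nat_lit 244282656280) (nat_lit 1) E) (nat_lit 244282656336) (nat_lit 2) E)))) (nat_lit 244282659864) (nat_lit 2) (N (N (N (N (N E (nat_lit 244282885656) (nat_lit 2) E) (nat_lit 244297336344) (nat_lit 2) (N E (nat_lit 244326925848) (nat_lit 2) E)) (nat_lit 276226475544) (nat_lit 2) (N (N E (nat_lit 305116841496) (nat_lit 2) E) (nat_lit 305348052504) (nat_lit 2) E)) (nat_lit 305351665176) (nat_lit 2) (N (N (N E (nat_lit 305351721603) (nat_lit 2) E) (nat_lit 305351721624) (nat_lit 2) (N E (nat_lit 305351722506) (nat_lit 2) E)) (nat_lit 305351722520) (nat_lit 1) (N (N E (nat_lit 305351722576) (nat_lit 2) E) (nat_lit 305351726104) (nat_lit 2) E))) (nat_lit 305351951896) (nat_lit 2) (N (N (N (N E (nat_lit 305366402584) (nat_lit 2) E) (nat_lit 690467123395) (nat_lit 2) (N E (nat_lit 690467123484) (nat_lit 2) E)) (nat_lit 690467125472) (nat_lit 2) (N (N E (nat_lit 690467129112) (nat_lit 2) E) (nat_lit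 690467256344) (nat_lit 2) E)) (nat_lit 690467489304) (nat_lit 2) (N (N (N E (nat_lit 690475632152) (nat_lit 2) E) (nat_lit 690490541592) (nat_lit 2) E) (nat_lit 691011683864) (nat_lit 2) (N (N E (nat_lit 691965888024) (nat_lit 2) E) (nat_lit 713373615640) (nat_lit 2) E)))))
 (nat_lit 725318993432) (nat_lit 2) (N (N (N (N (N (N E (nat_lit 1660055990467) (nat_lit 2) E) (nat_lit 1660055990556) (nat_lit 2) (N E (nat_lit 1660055992544) (nat_lit 2) E)) (nat_lit 1660055996184) (nat_lit 2) (N (N E (nat_lit 1660056123416) (nat_lit 2) E) (nat_lit 1660056356376) (nat_lit 2) E)) (nat_lit 1660064499224) (nat_lit 2) (N (N (N E (nat_lit 1660079408664) (nat_lit 2) E) (nat_lit 1660413904408) (nat_lit 2) (N E (nat_lit 1660600550936) (nat_lit 2) E)) (nat_lit 1675211408920) (nat_lit 2) (N (N E (nat_lit 1675442619928) (nat_lit 2) E) (nat_lit 1675446232600) (nat_lit 2) E))) (nat_lit 1675446289027) (nat_lit 2) (N (N (N (N E (nat_lit 1675446289048) (nat_lit 2) E) (nat_lit 1675446289930) (nat_lit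 2) (N E (nat_lit 1675446289944) (nat_lit 1) E)) (nat_lit 1675446290000) (nat_lit 2) (N (N E (nat_lit 1675446293528) (nat_lit 2) E) (nat_lit 1675446519320) (nat_lit 2) E)) (nat_lit 1675460970008) (nat_lit 2) (N (N (N E (nat_lit 1676385814040) (nat_lit 2) E) (nat_lit 1684971983900) (nat_lit 2) (N E (nat_lit 1684971991124) (nat_lit 2) E)) (nat_lit 1684971993168) (nat_lit 2) (N (N E (nat_lit 1684975689812) (nat_lit 2) E) (nat_lit 1684975691856) (nat_lit 2) E)))) (nat_lit 1684976738384) (nat_lit 2) (N (N (N (N (N E (nat_lit 1684976797208) (nat_lit 2) E) (nat_lit 1686869418068) (nat_lit 2) (N E (nat_lit 1686869420112) (nat_lit 2) E)) (nat_lit 1686870466640) (nat_lit 2) (N (N E (nat_lit 1686870525464) (nat_lit 2) E) (nat_lit 1687406288976) (nat_lit 2) E)) (nat_lit 1735575832088) (nat_lit 2) (N (N (N E (nat_lit 2285090703107) (nat_lit 2) E) (nat_lit 2285091165443) (nat_lit 2) (N E (nat_lit 2285327881475) (nat_lit 2) E)) (nat_lit 2285398754840) (nat_lit 2) (N (N E (nat_lit 2406526489859)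 (nat_lit 2) E) (nat_lit 2406597363224) (nat_lit 2) E))) (nat_lit 2439715587608) (nat_lit 2) (N (N (N (N E (nat_lit 2439946798616) (nat_lit 2) E) (nat_lit 2439950411288) (nat_lit 2) (N E (nat_lit 2439950467715) (nat_lit 2) E)) (nat_lit 2439950467736) (nat_lit 2) (N (N E (nat_lit 2439950468618) (nat_lit 2) E) (nat_lit 2439950468632) (nat_lit 1) E)) (nat_lit 2439950468688) (nat_lit 2) (N (N (N E (nat_lit 2439950472216) (nat_lit 2) E) (nat_lit 2439950698008) (nat_lit 2) E) (nat_lit 2439965148696) (nat_lit 2) (N (N E (nat_lit 2440889992728) (nat_lit 2) E) (nat_lit 2442783720984) (nat_lit 2) E)))))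
)
)


end Pool.Agent.L5helper11.GP
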