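import Pool.Agent.L5helper11.GP.Def

/-! Certificate, level 12. -/

set_option autoImplicit false

namespace Pool.Agent.L5helper11.GP

open Tr in
/-- The words at level 12 with their values. -/
def S12 : Tr := (N (N (N (N (N (N (N E (nat_lit 86309355780) (nat_lit 2) E) (nat_lit 86442623236) (nat_lit 2) E) (nat_lit 86444705540) (nat_lit 2) (N (N E (nat_lit 86444738076) (nat_lit 2) E) (nat_lit 86444738592) (nat_lit 2) E)) (nat_lit 86444738755) (nat_lit 2) (N (N (N E (nat_lit 86444748996) (nat_lit 2) E) (nat_lit 86445404420) (nat_lit 2) E) (nat_lit 86487351556) (nat_lit 2) (N (N E (nat_lit 90245447940) (nat_lit 2) E) (nat_lit 90665140484) (nat_lit 2) E))) (nat_lit 279241048144) (nat_lit 2) (N (N (N (N E (nat_lit 279241048324) (nat_lit 1) E) (nat_lit 285666459908) (nat_lit 2) E) (nat_lit 300816285956) (nat_lit 2) (N (N E (nat_lit 690467389700) (nat_lit 2) E) (nat_lit 717327712516) (nat_lit 2) E)) (nat_lit 1660056256772) (nat_lit 2) (N (N (N E (nat_lit 1675206082820) (nat_lit 2)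 E) (nat_lit 1679400386640) (nat_lit 2) E) (nat_lit 1679400386820) (nat_lit 1) (N E (nat_lit 1739529928964) (nat_lit 2) E)))) (nat_lit 2209811808516) (nat_lit 2) (N (N (N (N (N E (nat_lit 2210231501060) (nat_lit 2) E) (nat_lit 2224961634564) (nat_lit 2) E) (nat_lit 2225198350596) (nat_lit 2) (N (N E (nat_lit 2225263886416) (nat_lit 2) E) (nat_lit 2225263886596) (nat_lit 1) E)) (nat_lit 2226203410692) (nat_lit 2) (N (N (N E (nat_lit 2233551565060) (nat_lit 2) E) (nat_lit 2233558122756) (nat_lit 2) E) (nat_lit 2233788281092) (nat_lit 2) (N E (nat_lit 2233791979780) (nat_lit 2) E))) (nat_lit 2233793003600) (nat_lit 2) (N (N (N (N E (nat_lit 2233793003780) (nat_lit 1) E) (nat_lit 2233807683844) (nat_lit 2) E) (nat_lit 2233922498756) (nat_lit 2) (N (N E (nat_lit 2233922601220) (nat_lit 2) E) (nat_lit 2233926197444) (nat_lit 2) E)) (nat_lit 2233926197472) (nat_lit 2) (N (N (N E (nat_lit 2233926255236) (nat_lit 2) E) (nat_lit 2233926255264) (nat_lit 2) E) (nat_lit 2233926256720)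 (nat_lit 2) (N E (nat_lit 2233926271056) (nat_lit 2) E)))))
 (nat_lit 2233926271236) (nat_lit 1) (N (N (N (N (N (N E (nat_lit 2233926500612) (nat_lit 2) E) (nat_lit 2233928294595) (nat_lit 2) E) (nat_lit 2233928296196) (nat_lit 2) (N (N E (nat_lit 2233928352387) (nat_lit 2) E) (nat_lit 2233928353290) (nat_lit 2) E)) (nat_lit 2233928353540) (nat_lit 1) (N (N (N E (nat_lit 2233928357124) (nat_lit 2) E) (nat_lit 2233928385180) (nat_lit 2) E) (nat_lit 2233928386076) (nat_lit 1) (N (N E (nat_lit 2233928386132) (nat_lit 2) E) (nat_lit 2233928386592) (nat_lit 1) E))) (nat_lit 2233928386643) (nat_lit 2) (N (N (N (N E (nat_lit 2233928386755) (nat_lit 1) E) (nat_lit 2233928386762) (nat_lit 2) E) (nat_lit 2233928389660) (nat_lit 2) (N (N E (nat_lit 2233928389828) (nat_lit 2) E) (nat_lit 2233928396884) (nat_lit 2) E)) (nat_lit 2233928396996) (nat_lit 1) (N (N (N E (nat_lit 2233928397444) (nat_lit 2) E) (nat_lit 2233928398928) (nat_lit 2) E) (nat_lit 2233928582916) (nat_lit 2) (N E (nat_lit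 2233928593668) (nat_lit 2) E)))) (nat_lit 2233929045252) (nat_lit 2) (N (N (N (N (N E (nat_lit 2233929052240) (nat_lit 2) E) (nat_lit 2233929052420) (nat_lit 1) E) (nat_lit 2233929081092) (nat_lit 2) (N (N E (nat_lit 2233940951300) (nat_lit 2) E) (nat_lit 2233941639428) (nat_lit 2) E)) (nat_lit 2233970540804) (nat_lit 2) (N (N (N E (nat_lit 2233970999376) (nat_lit 2) E) (nat_lit 2233970999556) (nat_lit 1) E) (nat_lit 2233972834564) (nat_lit 2) (N E (nat_lit 2234732527876) (nat_lit 2) E))) (nat_lit 2234776568068) (nat_lit 2) (N (N (N (N E (nat_lit 2236626256132) (nat_lit 2) E) (nat_lit 2236655616080) (nat_lit 2) E) (nat_lit 2236655616260) (nat_lit 1) (N (N E (nat_lit 2236773056772) (nat_lit 2) E) (nat_lit 2285393428740) (nat_lit 2) E)) (nat_lit 2288212001028) (nat_lit 2) (N (N (N E (nat_lit 2406592037124) (nat_lit 2) E) (nat_lit 2408471085136) (nat_lit 2) E) (nat_lit 2408471085316) (nat_lit 1) (N E (nat_lit 2415987278084) (nat_lit 2) E)))))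
)


end Pool.Agent.L5helper11.GP
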