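import Pool.Agent.L5helper11.GP.Def

/-! Certificate, level 14. -/

set_option autoImplicit false

namespace Pool.Agent.L5helper11.GP

open Tr in
/-- The words at level 14 with their values. -/
def S14 : Tr := (N (N (N (N (N (N (N (N E (nat_lit 86445537507) (nat_lit 2) E) (nat_lit 90262354147) (nat_lit 2) (N E (nat_lit 90605500643) (nat_lit 2) E)) (nat_lit 90665138403) (nat_lit 2) (N (N E (nat_lit 90670500067) (nat_lit 2) E) (nat_lit 90671431907) (nat_lit 2) E)) (nat_lit 90671515683) (nat_lit 2) (N (N (N E (nat_lit 90671530243) (nat_lit 2) E) (nat_lit 90671531552) (nat_lit 2) E) (nat_lit 90671531804) (nat_lit 2) (N (N E (nat_lit 276229404899) (nat_lit 2) E) (nat_lit 278638770403) (nat_lit 2) E))) (nat_lit 278657120483) (nat_lit 2) (N (N (N (N E (nat_lit 278694766819) (nat_lit 2) E) (nat_lit 278695053539) (nat_lit 2) (N E (nat_lit 278695641763) (nat_lit 2) E)) (nat_lit 278695646236) (nat_lit 2) (N (N E (nat_lit 278695646243) (nat_lit 2) E) (nat_lit 278695653460) (nat_lit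 2) E)) (nat_lit 278695655434) (nat_lit 2) (N (N (N E (nat_lit 278695655504) (nat_lit 2) E) (nat_lit 278695655651) (nat_lit 1) E) (nat_lit 279341578467) (nat_lit 2) (N (N E (nat_lit 279578294499) (nat_lit 2) E) (nat_lit 286211848419) (nat_lit 2) E)))) (nat_lit 690475645155) (nat_lit 2) (N (N (N (N (N E (nat_lit 690961397987) (nat_lit 2) E) (nat_lit 691557775587) (nat_lit 2) (N E (nat_lit 691900922083) (nat_lit 2) E)) (nat_lit 691960559843) (nat_lit 2) (N (N E (nat_lit 691965921507) (nat_lit 2) E) (nat_lit 691966853347) (nat_lit 2) E)) (nat_lit 691966937123) (nat_lit 2) (N (N (N E (nat_lit 691966951683) (nat_lit 2) E) (nat_lit 691966952992) (nat_lit 2) E) (nat_lit 691966953244) (nat_lit 2) (N (N E (nat_lit 722151028963) (nat_lit 2) E) (nat_lit 1660064512227) (nat_lit 2) E))) (nat_lit 1660550265059) (nat_lit 2) (N (N (N (N E (nat_lit 1675214338275) (nat_lit 2) E) (nat_lit 1684166818019) (nat_lit 2) E) (nat_lit 1684185168099) (nat_lit 2) (N (N E (nat_lit 1684222814435)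 (nat_lit 2) E) (nat_lit 1684223101155) (nat_lit 2) E)) (nat_lit 1684223689379) (nat_lit 2) (N (N (N E (nat_lit 1684223693852) (nat_lit 2) E) (nat_lit 1684223693859) (nat_lit 2) E) (nat_lit 1684223701076) (nat_lit 2) (N (N E (nat_lit 1684223703050) (nat_lit 2) E) (nat_lit 1684223703120) (nat_lit 2) E)))))
 (nat_lit 1684223703267) (nat_lit 1) (N (N (N (N (N (N E (nat_lit 1925496060131) (nat_lit 2) E) (nat_lit 1925555697891) (nat_lit 2) (N E (nat_lit 1925561059555) (nat_lit 2) E)) (nat_lit 1925561991395) (nat_lit 2) (N (N E (nat_lit 1925562075171) (nat_lit 2) E) (nat_lit 1925562089731) (nat_lit 2) E)) (nat_lit 1925562091040) (nat_lit 2) (N (N (N E (nat_lit 1925562091292) (nat_lit 2) E) (nat_lit 1928461433059) (nat_lit 2) E) (nat_lit 1928499079395) (nat_lit 2) (N (N E (nat_lit 1928499366115) (nat_lit 2) E) (nat_lit 1928499954339) (nat_lit 2) E))) (nat_lit 1928499958812) (nat_lit 2) (N (N (N (N E (nat_lit 1928499958819) (nat_lit 2) E) (nat_lit 1928499966036) (nat_lit 2)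 (N E (nat_lit 1928499968010) (nat_lit 2) E)) (nat_lit 1928499968080) (nat_lit 2) (N (N E (nat_lit 1928499968227) (nat_lit 1) E) (nat_lit 1928510060771) (nat_lit 2) E)) (nat_lit 1928513759459) (nat_lit 2) (N (N (N E (nat_lit 1928617408739) (nat_lit 2) E) (nat_lit 1934934030563) (nat_lit 2) E) (nat_lit 1934941620451) (nat_lit 2) (N (N E (nat_lit 1934950938851) (nat_lit 2) E) (nat_lit 1934956300515) (nat_lit 2) E)))) (nat_lit 1934957232355) (nat_lit 2) (N (N (N (N (N E (nat_lit 1934957316131) (nat_lit 2) E) (nat_lit 1934957330691) (nat_lit 2) (N E (nat_lit 1934957332000) (nat_lit 2) E)) (nat_lit 1934957332252) (nat_lit 2) (N (N E (nat_lit 1935428958435) (nat_lit 2) E) (nat_lit 1950083856611) (nat_lit 2) E)) (nat_lit 1950091446499) (nat_lit 2) (N (N (N E (nat_lit 1950320572643) (nat_lit 2) E) (nat_lit 1950460455139) (nat_lit 2) E) (nat_lit 1950460741859) (nat_lit 2) (N (N E (nat_lit 1950461330083) (nat_lit 2) E) (nat_lit 1950461334556) (nat_lit 2) E))) (nat_lit 1950461334563)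 (nat_lit 2) (N (N (N (N E (nat_lit 1950461341780) (nat_lit 2) E) (nat_lit 1950461343754) (nat_lit 2) E) (nat_lit 1950461343824) (nat_lit 2) (N (N E (nat_lit 1950461343971) (nat_lit 1) E) (nat_lit 1954231224547) (nat_lit 2) E)) (nat_lit 1954232156387) (nat_lit 2) (N (N (N E (nat_lit 1954232240163) (nat_lit 2) E) (nat_lit 1954232254723) (nat_lit 2) E) (nat_lit 1954232256032) (nat_lit 2) (N (N E (nat_lit 1954232256284) (nat_lit 2) E) (nat_lit 1954277558499) (nat_lit 2) E)))))
)
 (nat_lit 1954278146723) (nat_lit 2) (N (N (N (N (N (N (N E (nat_lit 1954278151196) (nat_lit 2) E) (nat_lit 1954278151203) (nat_lit 2) (N E (nat_lit 1954278158420) (nat_lit 2) E)) (nat_lit 1954278160394) (nat_lit 2) (N (N E (nat_lit 1954278160464) (nat_lit 2) E) (nat_lit 1954278160611) (nat_lit 1) E)) (nat_lit 1954278318307) (nat_lit 2) (N (N (N E (nat_lit 1954278376099) (nat_lit 2) E) (nat_lit 1954279995619) (nat_lit 2) E) (nat_lit 1954378692835) (nat_lit 2) (N (N E (nat_lit 1954378811427) (nat_lit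 2) E) (nat_lit 1954378957027) (nat_lit 2) E))) (nat_lit 1954379040803) (nat_lit 2) (N (N (N (N E (nat_lit 1954379055363) (nat_lit 2) E) (nat_lit 1954379056672) (nat_lit 2) (N E (nat_lit 1954379056924) (nat_lit 2) E)) (nat_lit 1954386426083) (nat_lit 2) (N (N E (nat_lit 1954615408867) (nat_lit 2) E) (nat_lit 1954615527459) (nat_lit 2) E)) (nat_lit 1954619107555) (nat_lit 2) (N (N (N E (nat_lit 1954621293219) (nat_lit 2) E) (nat_lit 1954621297692) (nat_lit 2) E) (nat_lit 1954621297699) (nat_lit 2) (N (N E (nat_lit 1954621304916) (nat_lit 2) E) (nat_lit 1954621306890) (nat_lit 2) E)))) (nat_lit 1954621306960) (nat_lit 2) (N (N (N (N (N E (nat_lit 1954621307107) (nat_lit 1) E) (nat_lit 1954680211491) (nat_lit 2) (N E (nat_lit 1954680226051) (nat_lit 2) E)) (nat_lit 1954680227360) (nat_lit 2) (N (N E (nat_lit 1954680227612) (nat_lit 2) E) (nat_lit 1954680935452) (nat_lit 2) E)) (nat_lit 1954680935459) (nat_lit 2) (N (N (N E (nat_lit 1954680942676) (nat_lit 2) E) (nat_lit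 1954680944650) (nat_lit 2) E) (nat_lit 1954680944720) (nat_lit 2) (N (N E (nat_lit 1954680944867) (nat_lit 1) E) (nat_lit 1954680947331) (nat_lit 2) E))) (nat_lit 1954680948234) (nat_lit 2) (N (N (N (N E (nat_lit 1954680973539) (nat_lit 2) E) (nat_lit 1954682515683) (nat_lit 2) E) (nat_lit 1954682517536) (nat_lit 2) (N (N E (nat_lit 1954682519811) (nat_lit 2) E) (nat_lit 1954682521120) (nat_lit 2) E)) (nat_lit 1954682521372) (nat_lit 2) (N (N (N E (nat_lit 1954682636515) (nat_lit 2) E) (nat_lit 1954686214371) (nat_lit 2) E) (nat_lit 1954686216224) (nat_lit 2) (N (N E (nat_lit 1954686272163) (nat_lit 2) E) (nat_lit 1954686306314) (nat_lit 2) E)))))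
 (nat_lit 1954686306384) (nat_lit 2) (N (N (N (N (N (N E (nat_lit 1954686306531) (nat_lit 1) E) (nat_lit 1954687226912) (nat_lit 2) (N E (nat_lit 1954687227164) (nat_lit 2) E)) (nat_lit 1954687238224) (nat_lit 2) (N (N E (nat_lit 1954687238371) (nat_lit 1) E) (nat_lit 1954687238819) (nat_lit 2) E)) (nat_lit 1954687262915) (nat_lit 2) (N (N (N E (nat_lit 1954687263004) (nat_lit 2) E) (nat_lit 1954687264803) (nat_lit 2) E) (nat_lit 1954687320707) (nat_lit 2) (N (N E (nat_lit 1954687321610) (nat_lit 2) E) (nat_lit 1954687322147) (nat_lit 1) E))) (nat_lit 1954687336532) (nat_lit 2) (N (N (N (N E (nat_lit 1954687336707) (nat_lit 1) E) (nat_lit 1954687336714) (nat_lit 2) (N E (nat_lit 1954687337092) (nat_lit 2) E)) (nat_lit 1954687337120) (nat_lit 2) (N (N E (nat_lit 1954687338016) (nat_lit 1) E) (nat_lit 1954687338268) (nat_lit 1) E)) (nat_lit 2210357197027) (nat_lit 2) (N (N (N E (nat_lit 2285333788899) (nat_lit 2) E) (nat_lit 2285393426659) (nat_lit 2) E) (nat_lit 2285398788323)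 (nat_lit 2) (N (N E (nat_lit 2285399720163) (nat_lit 2) E) (nat_lit 2285399803939) (nat_lit 2) E)))) (nat_lit 2285399818499) (nat_lit 2) (N (N (N (N (N E (nat_lit 2285399819808) (nat_lit 2) E) (nat_lit 2285399820060) (nat_lit 2) (N E (nat_lit 2285519124707) (nat_lit 2) E)) (nat_lit 2406532397283) (nat_lit 2) (N (N E (nat_lit 2406592035043) (nat_lit 2) E) (nat_lit 2406597396707) (nat_lit 2) E)) (nat_lit 2406598328547) (nat_lit 2) (N (N (N E (nat_lit 2406598412323) (nat_lit 2) E) (nat_lit 2406598426883) (nat_lit 2) E) (nat_lit 2406598428192) (nat_lit 2) (N (N E (nat_lit 2406598428444) (nat_lit 2) E) (nat_lit 2439718516963) (nat_lit 2) E))) (nat_lit 2440892922083) (nat_lit 2) (N (N (N (N E (nat_lit 2443302287587) (nat_lit 2) E) (nat_lit 2443320637667) (nat_lit 2) E) (nat_lit 2443358284003) (nat_lit 2) (N (N E (nat_lit 2443358570723) (nat_lit 2) E) (nat_lit 2443359158947) (nat_lit 2) E)) (nat_lit 2443359163420) (nat_lit 2) (N (N (N E (nat_lit 2443359163427) (nat_lit 2)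 E) (nat_lit 2443359170644) (nat_lit 2) E) (nat_lit 2443359172618) (nat_lit 2) (N (N E (nat_lit 2443359172688) (nat_lit 2) E) (nat_lit 2443359172835) (nat_lit 1) E)))))
)
)


end Pool.Agent.L5helper11.GP
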