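import Pool.Agent.L5helper11.GP.Def

/-! Certificate, level 6. -/

set_option autoImplicit false

namespace Pool.Agent.L5helper11.GP

open Tr in
/-- The words at level 6 with their values. -/
def S6 : Tr := (N (N (N (N (N (N (N (N (N (N E (nat_lit 86067446432) (nat_lit 1) E) (nat_lit 86067447520) (nat_lit 2) E) (nat_lit 86067458272) (nat_lit 2) (N E (nat_lit 86067462339) (nat_lit 2) E)) (nat_lit 86067462428) (nat_lit 2) (N (N E (nat_lit 86067462435) (nat_lit 2) E) (nat_lit 86067463704) (nat_lit 2) (N E (nat_lit 86067463940) (nat_lit 2) E))) (nat_lit 86067463968) (nat_lit 2) (N (N (N E (nat_lit 86067464416) (nat_lit 2) E) (nat_lit 86067945696) (nat_lit 2) (N E (nat_lit 86068003488) (nat_lit 2) E)) (nat_lit 86073450720) (nat_lit 2) (N (N E (nat_lit 86073508512) (nat_lit 2) E) (nat_lit 86075605635) (nat_lit 2) (N E (nat_lit 86075606538) (nat_lit 2) E)))) (nat_lit 86075642908) (nat_lit 2) (N (N (N (N (N E (nat_lit 86075642915) (nat_lit 2) E) (nat_lit 86075650132) (nat_lit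 2) E) (nat_lit 86075652106) (nat_lit 2) (N E (nat_lit 86075654787) (nat_lit 2) E)) (nat_lit 86075655690) (nat_lit 2) (N (N E (nat_lit 86075835928) (nat_lit 2) E) (nat_lit 86075836164) (nat_lit 2) (N E (nat_lit 86075836192) (nat_lit 2) E))) (nat_lit 86075836640) (nat_lit 2) (N (N (N E (nat_lit 86076298264) (nat_lit 2) E) (nat_lit 86076298500) (nat_lit 2) (N E (nat_lit 86076298528) (nat_lit 2) E)) (nat_lit 86076424864) (nat_lit 2) (N (N E (nat_lit 86076596448) (nat_lit 2) E) (nat_lit 86076654240) (nat_lit 2) (N E (nat_lit 86309355780) (nat_lit 2) E))))) (nat_lit 86310502660) (nat_lit 2) (N (N (N (N (N (N E (nat_lit 86323011808) (nat_lit 2) E) (nat_lit 86323069600) (nat_lit 2) E) (nat_lit 86352659104) (nat_lit 2) (N E (nat_lit 86376562948) (nat_lit 2) E)) (nat_lit 86442623236) (nat_lit 2) (N (N E (nat_lit 86444705540) (nat_lit 2) E) (nat_lit 86444738076) (nat_lit 2) (N E (nat_lit 86444738592) (nat_lit 2) E))) (nat_lit 86444738755) (nat_lit 2) (N (N (N E (nat_lit 86444748996)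 (nat_lit 2) E) (nat_lit 86445404420) (nat_lit 2) (N E (nat_lit 86486876803) (nat_lit 2) E)) (nat_lit 86486877706) (nat_lit 2) (N (N E (nat_lit 86487340042) (nat_lit 2) E) (nat_lit 86487351556) (nat_lit 2) (N E (nat_lit 89141584096) (nat_lit 2) E)))) (nat_lit 89141641888) (nat_lit 2) (N (N (N (N E (nat_lit 89171231392) (nat_lit 2) E) (nat_lit 90244973187) (nat_lit 2) (N E (nat_lit 90244974090) (nat_lit 2) E)) (nat_lit 90245436426) (nat_lit 2) (N (N E (nat_lit 90245447940) (nat_lit 2) E) (nat_lit 90264048668) (nat_lit 2) (N E (nat_lit 90264048675) (nat_lit 2) E))) (nat_lit 90264055892) (nat_lit 2) (N (N (N E (nat_lit 90264057866) (nat_lit 2) E) (nat_lit 90264060547) (nat_lit 2) (N E (nat_lit 90264061450) (nat_lit 2) E)) (nat_lit 90267754580) (nat_lit 2) (N (N E (nat_lit 90267756554) (nat_lit 2) E) (nat_lit 90268767242) (nat_lit 2) (N E (nat_lit 90268778756) (nat_lit 2) E))))))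
 (nat_lit 90270139011) (nat_lit 2) (N (N (N (N (N (N (N E (nat_lit 90270139914) (nat_lit 2) E) (nat_lit 90270602250) (nat_lit 2) E) (nat_lit 90362414616) (nat_lit 2) (N E (nat_lit 90362414852) (nat_lit 2) E)) (nat_lit 90362414880) (nat_lit 2) (N (N E (nat_lit 90362415328) (nat_lit 2) E) (nat_lit 90362876952) (nat_lit 2) (N E (nat_lit 90362877188) (nat_lit 2) E))) (nat_lit 90362877216) (nat_lit 2) (N (N (N E (nat_lit 90363003552) (nat_lit 2) E) (nat_lit 90363175136) (nat_lit 2) (N E (nat_lit 90363232928) (nat_lit 2) E)) (nat_lit 90599592984) (nat_lit 2) (N (N E (nat_lit 90599593220) (nat_lit 2) E) (nat_lit 90599593248) (nat_lit 2) (N E (nat_lit 90599719584) (nat_lit 2) E)))) (nat_lit 90664403616) (nat_lit 2) (N (N (N (N (N E (nat_lit 90665140484) (nat_lit 2) E) (nat_lit 90752196832) (nat_lit 2) E) (nat_lit 90752254624) (nat_lit 2) (N E (nat_lit 90781844128) (nat_lit 2) E)) (nat_lit 207503234076) (nat_lit 2) (N (N E (nat_lit 207503241300) (nat_lit 2) E) (nat_lit 207503243344)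 (nat_lit 2) (N E (nat_lit 207506939988) (nat_lit 2) E))) (nat_lit 207506942032) (nat_lit 2) (N (N (N E (nat_lit 207507964164) (nat_lit 2) E) (nat_lit 207507988560) (nat_lit 2) (N E (nat_lit 207509111044) (nat_lit 2) E)) (nat_lit 207575171332) (nat_lit 2) (N (N E (nat_lit 209400668244) (nat_lit 2) E) (nat_lit 209400670288) (nat_lit 2) (N E (nat_lit 209401692420) (nat_lit 2) E))))) (nat_lit 209401716816) (nat_lit 2) (N (N (N (N (N (N E (nat_lit 209937539152) (nat_lit 2) E) (nat_lit 216916861152) (nat_lit 2) E) (nat_lit 216916918944) (nat_lit 2) (N E (nat_lit 216946508448) (nat_lit 2) E)) (nat_lit 232096334496) (nat_lit 2) (N (N E (nat_lit 241867800836) (nat_lit 2) E) (nat_lit 243761529092) (nat_lit 2) (N E (nat_lit 276226490628) (nat_lit 2) E))) (nat_lit 278120218884) (nat_lit 2) (N (N (N E (nat_lit 279241048144) (nat_lit 2) E) (nat_lit 279241048324) (nat_lit 1) (N E (nat_lit 279241130627) (nat_lit 2) E)) (nat_lit 279241131530) (nat_lit 2) (N (N E (nat_lit 285636337744)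 (nat_lit 1) E) (nat_lit 285636337859) (nat_lit 2) (N E (nat_lit 285636337880) (nat_lit 2) E)))) (nat_lit 285636337892) (nat_lit 2) (N (N (N (N E (nat_lit 285636337948) (nat_lit 2) E) (nat_lit 285636395651) (nat_lit 2) (N E (nat_lit 285636395672) (nat_lit 2) E)) (nat_lit 285636395684) (nat_lit 2) (N (N E (nat_lit 285636396554) (nat_lit 2) E) (nat_lit 285636396624) (nat_lit 2) (N E (nat_lit 285636407376) (nat_lit 2) E))) (nat_lit 285636411476) (nat_lit 2) (N (N (N E (nat_lit 285636413520) (nat_lit 2) E) (nat_lit 285636432924) (nat_lit 2) (N E (nat_lit 285636440148) (nat_lit 2) E)) (nat_lit 285636442192) (nat_lit 2) (N (N E (nat_lit 285665985155) (nat_lit 2) E) (nat_lit 285665985176) (nat_lit 2) (N E (nat_lit 285665985188) (nat_lit 2) E))))))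
)
 (nat_lit 285665986058) (nat_lit 2) (N (N (N (N (N (N (N (N E (nat_lit 285665986128) (nat_lit 2) E) (nat_lit 285665996880) (nat_lit 2) E) (nat_lit 285666000980) (nat_lit 2) (N E (nat_lit 285666003024) (nat_lit 2) E)) (nat_lit 285666448394) (nat_lit 2) (N (N E (nat_lit 285666459908) (nat_lit 2) E) (nat_lit 285666484304) (nat_lit 2) (N E (nat_lit 285671989328) (nat_lit 2) E))) (nat_lit 285674086484) (nat_lit 2) (N (N (N E (nat_lit 285674088528) (nat_lit 2) E) (nat_lit 285675110660) (nat_lit 2) (N E (nat_lit 285675135056) (nat_lit 2) E)) (nat_lit 285685060636) (nat_lit 2) (N (N E (nat_lit 285685067860) (nat_lit 2) E) (nat_lit 285685069904) (nat_lit 2) (N E (nat_lit 285688766548) (nat_lit 2) E)))) (nat_lit 285688768592) (nat_lit 2) (N (N (N (N (N E (nat_lit 285689790724) (nat_lit 2) E) (nat_lit 285689815120) (nat_lit 2) E) (nat_lit 300815811203) (nat_lit 2) (N E (nat_lit 300815811224) (nat_lit 2) E)) (nat_lit 300815811236) (nat_lit 2) (N (N E (nat_lit 300815812106) (nat_lit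 2) E) (nat_lit 300815812176) (nat_lit 2) (N E (nat_lit 300815822928) (nat_lit 2) E))) (nat_lit 300815827028) (nat_lit 2) (N (N (N E (nat_lit 300815829072) (nat_lit 2) E) (nat_lit 300816274442) (nat_lit 2) (N E (nat_lit 300816285956) (nat_lit 2) E)) (nat_lit 300816310352) (nat_lit 2) (N (N E (nat_lit 300821815376) (nat_lit 2) E) (nat_lit 300823912532) (nat_lit 2) (N E (nat_lit 300823914576) (nat_lit 2) E))))) (nat_lit 300824936708) (nat_lit 2) (N (N (N (N (N (N E (nat_lit 300824961104) (nat_lit 2) E) (nat_lit 301052990474) (nat_lit 2) E) (nat_lit 301071376464) (nat_lit 2) (N E (nat_lit 303889948752) (nat_lit 2) E)) (nat_lit 304963690580) (nat_lit 2) (N (N E (nat_lit 304963692624) (nat_lit 2) E) (nat_lit 304964714756) (nat_lit 2) (N E (nat_lit 304964739152) (nat_lit 2) E))) (nat_lit 305500561488) (nat_lit 2) (N (N (N E (nat_lit 310582449180) (nat_lit 2) E) (nat_lit 310582456404) (nat_lit 2) (N E (nat_lit 310582458448) (nat_lit 2) E)) (nat_lit 310586155092) (nat_lit 2)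 (N (N E (nat_lit 310586157136) (nat_lit 2) E) (nat_lit 310587179268) (nat_lit 2) (N E (nat_lit 310587203664) (nat_lit 2) E)))) (nat_lit 312479883348) (nat_lit 2) (N (N (N (N E (nat_lit 312479885392) (nat_lit 2) E) (nat_lit 312480907524) (nat_lit 2) (N E (nat_lit 312480931920) (nat_lit 2) E)) (nat_lit 313016754256) (nat_lit 2) (N (N E (nat_lit 688539578564) (nat_lit 2) E) (nat_lit 688539578592) (nat_lit 2) (N E (nat_lit 688539580676) (nat_lit 2) E))) (nat_lit 688539584260) (nat_lit 2) (N (N (N E (nat_lit 688539681028) (nat_lit 2) E) (nat_lit 688543277252) (nat_lit 2) (N E (nat_lit 688543277280) (nat_lit 2) E)) (nat_lit 688543279364) (nat_lit 2) (N (N E (nat_lit 688543335044) (nat_lit 2) E) (nat_lit 688543335072) (nat_lit 2) (N E (nat_lit 688543336528) (nat_lit 2) E))))))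
 (nat_lit 688543350864) (nat_lit 2) (N (N (N (N (N (N (N E (nat_lit 688543351044) (nat_lit 1) E) (nat_lit 688543580420) (nat_lit 2) E) (nat_lit 688544290052) (nat_lit 2) (N E (nat_lit 688544417872) (nat_lit 2) E)) (nat_lit 688545662724) (nat_lit 2) (N (N E (nat_lit 688546125060) (nat_lit 2) E) (nat_lit 688546252880) (nat_lit 2) (N E (nat_lit 688558031108) (nat_lit 2) E))) (nat_lit 690437005508) (nat_lit 2) (N (N (N E (nat_lit 690437005536) (nat_lit 2) E) (nat_lit 690437007620) (nat_lit 2) (N E (nat_lit 690437063300) (nat_lit 2) E)) (nat_lit 690437063328) (nat_lit 2) (N (N E (nat_lit 690437064784) (nat_lit 2) E) (nat_lit 690437079120) (nat_lit 2) (N E (nat_lit 690437079300) (nat_lit 1) E)))) (nat_lit 690437308676) (nat_lit 2) (N (N (N (N (N E (nat_lit 690438018308) (nat_lit 2) E) (nat_lit 690438146128) (nat_lit 2) E) (nat_lit 690466652832) (nat_lit 2) (N E (nat_lit 690467389700) (nat_lit 2) E)) (nat_lit 690467414096) (nat_lit 2) (N (N E (nat_lit 690472730884) (nat_lit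 2) E) (nat_lit 690474813188) (nat_lit 2) (N E (nat_lit 690474845724) (nat_lit 2) E))) (nat_lit 690474846240) (nat_lit 2) (N (N (N E (nat_lit 690474846403) (nat_lit 2) E) (nat_lit 690474856644) (nat_lit 2) (N E (nat_lit 690475512068) (nat_lit 2) E)) (nat_lit 690490556676) (nat_lit 2) (N (N E (nat_lit 690825052420) (nat_lit 2) E) (nat_lit 690955490564) (nat_lit 2) (N E (nat_lit 690955618384) (nat_lit 2) E))))) (nat_lit 691011698948) (nat_lit 2) (N (N (N (N (N (N E (nat_lit 691021037828) (nat_lit 2) E) (nat_lit 691021062224) (nat_lit 2) E) (nat_lit 691026379012) (nat_lit 2) (N E (nat_lit 691657836292) (nat_lit 2) E)) (nat_lit 691658298628) (nat_lit 2) (N (N E (nat_lit 691658426448) (nat_lit 2) E) (nat_lit 691895014660) (nat_lit 2) (N E (nat_lit 691895142480) (nat_lit 2) E))) (nat_lit 691960561924) (nat_lit 2) (N (N (N E (nat_lit 691960586320) (nat_lit 2) E) (nat_lit 691965903108) (nat_lit 2) (N E (nat_lit 697953272068) (nat_lit 2) E)) (nat_lit 717327712516) (nat_lit 2)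 (N (N E (nat_lit 1660025872580) (nat_lit 2) E) (nat_lit 1660025872608) (nat_lit 2) (N E (nat_lit 1660025874692) (nat_lit 2) E)))) (nat_lit 1660025930372) (nat_lit 2) (N (N (N (N E (nat_lit 1660025930400) (nat_lit 2) E) (nat_lit 1660025931856) (nat_lit 2) (N E (nat_lit 1660025946192) (nat_lit 2) E)) (nat_lit 1660025946372) (nat_lit 1) (N (N E (nat_lit 1660026175748) (nat_lit 2) E) (nat_lit 1660026885380) (nat_lit 2) (N E (nat_lit 1660027013200) (nat_lit 2) E))) (nat_lit 1660055519904) (nat_lit 2) (N (N (N E (nat_lit 1660056256772) (nat_lit 2) E) (nat_lit 1660056281168) (nat_lit 2) (N E (nat_lit 1660061597956) (nat_lit 2) E)) (nat_lit 1660063680260) (nat_lit 2) (N (N E (nat_lit 1660063712796) (nat_lit 2) E) (nat_lit 1660063713312) (nat_lit 2) (N E (nat_lit 1660063713475) (nat_lit 2) E))))))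
)
)
 (nat_lit 1660063723716) (nat_lit 2) (N (N (N (N (N (N (N (N (N E (nat_lit 1660064379140) (nat_lit 2) E) (nat_lit 1660079423748) (nat_lit 2) E) (nat_lit 1660413919492) (nat_lit 2) (N E (nat_lit 1660544357636) (nat_lit 2) E)) (nat_lit 1660544485456) (nat_lit 2) (N (N E (nat_lit 1660600566020) (nat_lit 2) E) (nat_lit 1660609904900) (nat_lit 2) (N E (nat_lit 1660609929296) (nat_lit 2) E))) (nat_lit 1660615246084) (nat_lit 2) (N (N (N E (nat_lit 1675205345952) (nat_lit 2) E) (nat_lit 1675206082820) (nat_lit 2) (N E (nat_lit 1675595128912) (nat_lit 2) E)) (nat_lit 1676385829124) (nat_lit 2) (N (N E (nat_lit 1678279557380) (nat_lit 2) E) (nat_lit 1679400386640) (nat_lit 2) (N E (nat_lit 1679400386820) (nat_lit 1) E)))) (nat_lit 1679400469123) (nat_lit 2) (N (N (N (N (N E (nat_lit 1679400470026) (nat_lit 2) E) (nat_lit 1684976812292) (nat_lit 2) E) (nat_lit 1686870540548) (nat_lit 2) (N E (nat_lit 1739529928964) (nat_lit 2) E)) (nat_lit 1856774455556) (nat_lit 2) (N (N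 E (nat_lit 1858668183812) (nat_lit 2) E) (nat_lit 1925490152708) (nat_lit 2) (N E (nat_lit 1925490280528) (nat_lit 2) E))) (nat_lit 1925555699972) (nat_lit 2) (N (N (N E (nat_lit 1925555724368) (nat_lit 2) E) (nat_lit 1925561041156) (nat_lit 2) (N E (nat_lit 1934941602052) (nat_lit 2) E)) (nat_lit 1950091428100) (nat_lit 2) (N (N E (nat_lit 1959062970448) (nat_lit 2) E) (nat_lit 1959853670660) (nat_lit 2) (N E (nat_lit 1961747398916) (nat_lit 2) E))))) (nat_lit 2209811333763) (nat_lit 2) (N (N (N (N (N (N E (nat_lit 2209811334666) (nat_lit 2) E) (nat_lit 2209811797002) (nat_lit 2) E) (nat_lit 2209811808516) (nat_lit 2) (N E (nat_lit 2210231501060) (nat_lit 2) E)) (nat_lit 2224961159811) (nat_lit 2) (N (N E (nat_lit 2224961160714) (nat_lit 2) E) (nat_lit 2224961623050) (nat_lit 2) (N E (nat_lit 2224961634564) (nat_lit 2) E))) (nat_lit 2225198339082) (nat_lit 2) (N (N (N E (nat_lit 2225198350596) (nat_lit 2) E) (nat_lit 2225263886416) (nat_lit 2) (N E (nat_lit 2225263886596)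 (nat_lit 1) E)) (nat_lit 2225263968899) (nat_lit 2) (N (N E (nat_lit 2225263969802) (nat_lit 2) E) (nat_lit 2225351018244) (nat_lit 2) (N E (nat_lit 2225380607748) (nat_lit 2) E)))) (nat_lit 2226203410692) (nat_lit 2) (N (N (N (N E (nat_lit 2229256718084) (nat_lit 2) E) (nat_lit 2229493434116) (nat_lit 2) (N E (nat_lit 2233551565060) (nat_lit 2) E)) (nat_lit 2233558122756) (nat_lit 2) (N (N E (nat_lit 2233788281092) (nat_lit 2) E) (nat_lit 2233791979780) (nat_lit 2) (N E (nat_lit 2233793003600) (nat_lit 2) E))) (nat_lit 2233793003780) (nat_lit 1) (N (N (N E (nat_lit 2233793086083) (nat_lit 2) E) (nat_lit 2233793086986) (nat_lit 2) (N E (nat_lit 2233794365212) (nat_lit 2) E)) (nat_lit 2233794827548) (nat_lit 2) (N (N E (nat_lit 2233807683844) (nat_lit 2) E) (nat_lit 2233855391772) (nat_lit 2) (N E (nat_lit 2233859090460) (nat_lit 2) E))))))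
 (nat_lit 2233922498756) (nat_lit 2) (N (N (N (N (N (N (N E (nat_lit 2233922601220) (nat_lit 2) E) (nat_lit 2233926197444) (nat_lit 2) E) (nat_lit 2233926197472) (nat_lit 2) (N E (nat_lit 2233926255236) (nat_lit 2) E)) (nat_lit 2233926255264) (nat_lit 2) (N (N E (nat_lit 2233926256720) (nat_lit 2) E) (nat_lit 2233926271056) (nat_lit 2) (N E (nat_lit 2233926271236) (nat_lit 1) E))) (nat_lit 2233926500612) (nat_lit 2) (N (N (N E (nat_lit 2233928294595) (nat_lit 2) E) (nat_lit 2233928296196) (nat_lit 2) (N E (nat_lit 2233928352387) (nat_lit 2) E)) (nat_lit 2233928353290) (nat_lit 2) (N (N E (nat_lit 2233928353540) (nat_lit 1) E) (nat_lit 2233928357124) (nat_lit 2) (N E (nat_lit 2233928385180) (nat_lit 2) E)))) (nat_lit 2233928386076) (nat_lit 1) (N (N (N (N (N E (nat_lit 2233928386132) (nat_lit 2) E) (nat_lit 2233928386592) (nat_lit 1) E) (nat_lit 2233928386643) (nat_lit 2) (N E (nat_lit 2233928386755) (nat_lit 1) E)) (nat_lit 2233928386762) (nat_lit 2) (N (N E (nat_lit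 2233928389660) (nat_lit 2) E) (nat_lit 2233928389667) (nat_lit 2) (N E (nat_lit 2233928389828) (nat_lit 2) E))) (nat_lit 2233928396884) (nat_lit 2) (N (N (N E (nat_lit 2233928396996) (nat_lit 1) E) (nat_lit 2233928397444) (nat_lit 2) (N E (nat_lit 2233928398858) (nat_lit 2) E)) (nat_lit 2233928398928) (nat_lit 2) (N (N E (nat_lit 2233928401539) (nat_lit 2) E) (nat_lit 2233928402442) (nat_lit 2) (N E (nat_lit 2233928582680) (nat_lit 2) E))))) (nat_lit 2233928582916) (nat_lit 2) (N (N (N (N (N (N E (nat_lit 2233928582944) (nat_lit 2) E) (nat_lit 2233928583392) (nat_lit 2) E) (nat_lit 2233928593668) (nat_lit 2) (N E (nat_lit 2233929045016) (nat_lit 2) E)) (nat_lit 2233929045252) (nat_lit 2) (N (N E (nat_lit 2233929045280) (nat_lit 2) E) (nat_lit 2233929052240) (nat_lit 2) (N E (nat_lit 2233929052420) (nat_lit 1) E))) (nat_lit 2233929081092) (nat_lit 2) (N (N (N E (nat_lit 2233929171616) (nat_lit 2) E) (nat_lit 2233929173072) (nat_lit 2) (N E (nat_lit 2233929343200) (nat_lit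 2) E)) (nat_lit 2233929400992) (nat_lit 2) (N (N E (nat_lit 2233940951300) (nat_lit 2) E) (nat_lit 2233940952604) (nat_lit 2) (N E (nat_lit 2233941164675) (nat_lit 2) E)))) (nat_lit 2233941165578) (nat_lit 2) (N (N (N (N E (nat_lit 2233941627914) (nat_lit 2) E) (nat_lit 2233941639428) (nat_lit 2) (N E (nat_lit 2233970524803) (nat_lit 1) E)) (nat_lit 2233970524810) (nat_lit 2) (N (N E (nat_lit 2233970525706) (nat_lit 1) E) (nat_lit 2233970525723) (nat_lit 2) (N E (nat_lit 2233970525728) (nat_lit 2) E))) (nat_lit 2233970525891) (nat_lit 2) (N (N (N E (nat_lit 2233970525980) (nat_lit 2) E) (nat_lit 2233970525987) (nat_lit 2) (N E (nat_lit 2233970529290) (nat_lit 2) E)) (nat_lit 2233970540804) (nat_lit 2) (N (N E (nat_lit 2233970542108) (nat_lit 2) E) (nat_lit 2233970988042) (nat_lit 1) (N E (nat_lit 2233970988059) (nat_lit 2) E))))))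
)
 (nat_lit 2233970988064) (nat_lit 2) (N (N (N (N (N (N (N (N E (nat_lit 2233970988227) (nat_lit 2) E) (nat_lit 2233970988316) (nat_lit 2) E) (nat_lit 2233970988323) (nat_lit 2) (N E (nat_lit 2233970995843) (nat_lit 2) E)) (nat_lit 2233970996746) (nat_lit 2) (N (N E (nat_lit 2233970999376) (nat_lit 2) E) (nat_lit 2233970999556) (nat_lit 1) (N E (nat_lit 2233971081859) (nat_lit 2) E))) (nat_lit 2233971082762) (nat_lit 2) (N (N (N E (nat_lit 2233971119132) (nat_lit 2) E) (nat_lit 2233971119139) (nat_lit 2) (N E (nat_lit 2233971126356) (nat_lit 2) E)) (nat_lit 2233971128330) (nat_lit 2) (N (N E (nat_lit 2233971131011) (nat_lit 2) E) (nat_lit 2233971131914) (nat_lit 2) (N E (nat_lit 2233971250200) (nat_lit 2) E)))) (nat_lit 2233971257424) (nat_lit 2) (N (N (N (N (N E (nat_lit 2233971286243) (nat_lit 2) E) (nat_lit 2233971344035) (nat_lit 2) E) (nat_lit 2233971360387) (nat_lit 2) (N E (nat_lit 2233971361290) (nat_lit 2) E)) (nat_lit 2233972823050) (nat_lit 2) (N (N E (nat_lit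 2233972834564) (nat_lit 2) E) (nat_lit 2233978914332) (nat_lit 2) (N E (nat_lit 2233978914563) (nat_lit 2) E))) (nat_lit 2233978914584) (nat_lit 2) (N (N (N E (nat_lit 2233979376668) (nat_lit 2) E) (nat_lit 2233979376899) (nat_lit 2) (N E (nat_lit 2233979376920) (nat_lit 2) E)) (nat_lit 2233979503235) (nat_lit 2) (N (N E (nat_lit 2233979504138) (nat_lit 2) E) (nat_lit 2233979507736) (nat_lit 2) (N E (nat_lit 2233979514960) (nat_lit 2) E))))) (nat_lit 2234727797788) (nat_lit 2) (N (N (N (N (N (N E (nat_lit 2234727797795) (nat_lit 2) E) (nat_lit 2234727805012) (nat_lit 2) E) (nat_lit 2234727806986) (nat_lit 2) (N E (nat_lit 2234727807056) (nat_lit 2) E)) (nat_lit 2234727809667) (nat_lit 2) (N (N E (nat_lit 2234727810570) (nat_lit 2) E) (nat_lit 2234731503700) (nat_lit 2) (N E (nat_lit 2234731505674) (nat_lit 2) E))) (nat_lit 2234731505744) (nat_lit 2) (N (N (N E (nat_lit 2234732516362) (nat_lit 2) E) (nat_lit 2234732527876) (nat_lit 2) (N E (nat_lit 2234732552272) (nat_lit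 2) E)) (nat_lit 2234732611332) (nat_lit 2) (N (N E (nat_lit 2234733888131) (nat_lit 2) E) (nat_lit 2234733889034) (nat_lit 2) (N E (nat_lit 2234734351370) (nat_lit 2) E)))) (nat_lit 2234776568068) (nat_lit 2) (N (N (N (N E (nat_lit 2236625231956) (nat_lit 2) E) (nat_lit 2236625233930) (nat_lit 2) (N E (nat_lit 2236625234000) (nat_lit 2) E)) (nat_lit 2236625307396) (nat_lit 2) (N (N E (nat_lit 2236626244618) (nat_lit 2) E) (nat_lit 2236626256132) (nat_lit 2) (N E (nat_lit 2236626280528) (nat_lit 2) E))) (nat_lit 2236626339588) (nat_lit 2) (N (N (N E (nat_lit 2236654896900) (nat_lit 2) E) (nat_lit 2236655616080) (nat_lit 2) (N E (nat_lit 2236655616260) (nat_lit 1) E)) (nat_lit 2236655698563) (nat_lit 2) (N (N E (nat_lit 2236655699466) (nat_lit 2) E) (nat_lit 2236663269124) (nat_lit 2) (N E (nat_lit 2236663731460) (nat_lit 2) E))))))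
 (nat_lit 2236673964228) (nat_lit 2) (N (N (N (N (N (N (N E (nat_lit 2236677662916) (nat_lit 2) E) (nat_lit 2236773056772) (nat_lit 2) E) (nat_lit 2237143716874) (nat_lit 2) (N E (nat_lit 2237162102864) (nat_lit 2) E)) (nat_lit 2237162161924) (nat_lit 2) (N (N E (nat_lit 2237162176708) (nat_lit 2) E) (nat_lit 2237191751428) (nat_lit 2) (N E (nat_lit 2237191766212) (nat_lit 2) E))) (nat_lit 2237846061699) (nat_lit 2) (N (N (N E (nat_lit 2237846062602) (nat_lit 2) E) (nat_lit 2237846524938) (nat_lit 2) (N E (nat_lit 2238083240970) (nat_lit 2) E)) (nat_lit 2285090702872) (nat_lit 2) (N (N E (nat_lit 2285090703108) (nat_lit 2) E) (nat_lit 2285090703136) (nat_lit 2) (N E (nat_lit 2285090703584) (nat_lit 2) E)))) (nat_lit 2285091165208) (nat_lit 2) (N (N (N (N (N E (nat_lit 2285091165444) (nat_lit 2) E) (nat_lit 2285091165472) (nat_lit 2) E) (nat_lit 2285091291808) (nat_lit 2) (N E (nat_lit 2285091293264) (nat_lit 2) E)) (nat_lit 2285091463392) (nat_lit 2) (N (N E (nat_lit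 2285091521184) (nat_lit 2) E) (nat_lit 2285327881240) (nat_lit 2) (N E (nat_lit 2285327881476) (nat_lit 2) E))) (nat_lit 2285327881504) (nat_lit 2) (N (N (N E (nat_lit 2285328007840) (nat_lit 2) E) (nat_lit 2285328009296) (nat_lit 2) (N E (nat_lit 2285392691872) (nat_lit 2) E)) (nat_lit 2285393428740) (nat_lit 2) (N (N E (nat_lit 2285393453136) (nat_lit 2) E) (nat_lit 2285398769924) (nat_lit 2) (N E (nat_lit 2285480485088) (nat_lit 2) E))))) (nat_lit 2285480542880) (nat_lit 2) (N (N (N (N (N (N E (nat_lit 2285510132384) (nat_lit 2) E) (nat_lit 2288212001028) (nat_lit 2) E) (nat_lit 2406526489624) (nat_lit 2) (N E (nat_lit 2406526489860) (nat_lit 2) E)) (nat_lit 2406526489888) (nat_lit 2) (N (N E (nat_lit 2406526616224) (nat_lit 2) E) (nat_lit 2406526617680) (nat_lit 2) (N E (nat_lit 2406531318020) (nat_lit 2) E))) (nat_lit 2406591300256) (nat_lit 2) (N (N (N E (nat_lit 2406592037124) (nat_lit 2) E) (nat_lit 2406592061520) (nat_lit 2) (N E (nat_lit 2406597378308) (nat_lit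 2) E)) (nat_lit 2408425046276) (nat_lit 2) (N (N E (nat_lit 2408471085136) (nat_lit 2) E) (nat_lit 2408471085316) (nat_lit 1) (N E (nat_lit 2408471167619) (nat_lit 2) E)))) (nat_lit 2408471168522) (nat_lit 2) (N (N (N (N E (nat_lit 2408960868612) (nat_lit 2) E) (nat_lit 2408990458116) (nat_lit 2) (N E (nat_lit 2409645355268) (nat_lit 2) E)) (nat_lit 2409882071300) (nat_lit 2) (N (N E (nat_lit 2415987278084) (nat_lit 2) E) (nat_lit 2439709524640) (nat_lit 2) (N E (nat_lit 2440099307600) (nat_lit 2) E))) (nat_lit 2440890007812) (nat_lit 2) (N (N (N E (nat_lit 2440890953988) (nat_lit 2) E) (nat_lit 2442783736068) (nat_lit 2) (N E (nat_lit 2442784682244) (nat_lit 2) E)) (nat_lit 2484659593440) (nat_lit 2) (N (N E (nat_lit 2484659651232) (nat_lit 2) E) (nat_lit 2484689240736) (nat_lit 2) (N E (nat_lit 2499839066784) (nat_lit 2) E))))))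
)
)
)


end Pool.Agent.L5helper11.GP
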