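import Pool.Agent.L5helper11.GP.Def

/-! Certificate, level 7. -/

set_option autoImplicit false

namespace Pool.Agent.L5helper11.GP

open Tr in
/-- The words at level 7 with their values. -/
def S7 : Tr := (N (N (N (N (N (N (N (N (N (N E (nat_lit 86067447832) (nat_lit 2) E) (nat_lit 86067463939) (nat_lit 2) E) (nat_lit 86067463960) (nat_lit 2) (N E (nat_lit 86075836163) (nat_lit 2) E)) (nat_lit 86075836184) (nat_lit 2) (N (N E (nat_lit 86076298499) (nat_lit 2) E) (nat_lit 86076298520) (nat_lit 2) (N E (nat_lit 86076424835) (nat_lit 2) E))) (nat_lit 86076424856) (nat_lit 2) (N (N (N E (nat_lit 86076425738) (nat_lit 2) E) (nat_lit 86076425752) (nat_lit 1) (N E (nat_lit 86076425808) (nat_lit 2) E)) (nat_lit 86076429336) (nat_lit 2) (N (N E (nat_lit 86076436560) (nat_lit 2) E) (nat_lit 86361638424) (nat_lit 2) (N E (nat_lit 86371734556) (nat_lit 2) E)))) (nat_lit 86371741780) (nat_lit 2) (N (N (N (N E (nat_lit 86371743824) (nat_lit 2) E) (nat_lit 86375440468) (nat_lit 2) (N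 E (nat_lit 86375442512) (nat_lit 2) E)) (nat_lit 86376489040) (nat_lit 2) (N (N E (nat_lit 86376547864) (nat_lit 2) E) (nat_lit 86442608152) (nat_lit 2) (N E (nat_lit 86445524504) (nat_lit 2) E))) (nat_lit 89171701955) (nat_lit 2) (N (N (N E (nat_lit 89171702044) (nat_lit 2) E) (nat_lit 89171704032) (nat_lit 2) (N E (nat_lit 89171707672) (nat_lit 2) E)) (nat_lit 89171834904) (nat_lit 2) (N (N E (nat_lit 89172067864) (nat_lit 2) E) (nat_lit 89180210712) (nat_lit 2) (N E (nat_lit 89190306844) (nat_lit 2) E))))) (nat_lit 89190314068) (nat_lit 2) (N (N (N (N (N E (nat_lit 89190316112) (nat_lit 2) E) (nat_lit 89194012756) (nat_lit 2) (N E (nat_lit 89194014800) (nat_lit 2) E)) (nat_lit 89195061328) (nat_lit 2) (N (N E (nat_lit 89195120152) (nat_lit 2) E) (nat_lit 89716262424) (nat_lit 2) (N E (nat_lit 90262341144) (nat_lit 2) E))) (nat_lit 90362414851) (nat_lit 2) (N (N (N E (nat_lit 90362414872) (nat_lit 2) E) (nat_lit 90362877187) (nat_lit 2) (N E (nat_lit 90362877208) (nat_lit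 2) E)) (nat_lit 90363003523) (nat_lit 2) (N (N E (nat_lit 90363003544) (nat_lit 2) E) (nat_lit 90363004426) (nat_lit 2) (N E (nat_lit 90363004440) (nat_lit 1) E)))) (nat_lit 90363004496) (nat_lit 2) (N (N (N (N E (nat_lit 90363008024) (nat_lit 2) E) (nat_lit 90363015248) (nat_lit 2) (N E (nat_lit 90364839448) (nat_lit 2) E)) (nat_lit 90599593219) (nat_lit 2) (N (N E (nat_lit 90599593240) (nat_lit 2) E) (nat_lit 90599719555) (nat_lit 2) (N E (nat_lit 90599719576) (nat_lit 2) E))) (nat_lit 90599720458) (nat_lit 2) (N (N (N E (nat_lit 90599720472) (nat_lit 1) E) (nat_lit 90599720528) (nat_lit 2) (N E (nat_lit 90599724056) (nat_lit 2) E)) (nat_lit 90599731280) (nat_lit 2) (N (N E (nat_lit 90604176920) (nat_lit 2) E) (nat_lit 90605487640) (nat_lit 2) (N E (nat_lit 90648217112) (nat_lit 2) E))))))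
 (nat_lit 90664874179) (nat_lit 2) (N (N (N (N (N (N E (nat_lit 90664874268) (nat_lit 2) E) (nat_lit 90664876256) (nat_lit 2) (N E (nat_lit 90664879896) (nat_lit 2) E)) (nat_lit 90665007128) (nat_lit 2) (N (N E (nat_lit 90665240088) (nat_lit 2) E) (nat_lit 90670466584) (nat_lit 2) (N E (nat_lit 90673382936) (nat_lit 2) E))) (nat_lit 90790823448) (nat_lit 2) (N (N (N E (nat_lit 207508063768) (nat_lit 2) E) (nat_lit 207509095960) (nat_lit 2) (N E (nat_lit 207551738051) (nat_lit 2) E)) (nat_lit 207551738140) (nat_lit 2) (N (N E (nat_lit 207551740128) (nat_lit 2) E) (nat_lit 207551743768) (nat_lit 2) (N E (nat_lit 207551871000) (nat_lit 2) E)))) (nat_lit 207552103960) (nat_lit 2) (N (N (N (N E (nat_lit 207560246808) (nat_lit 2) E) (nat_lit 207570342940) (nat_lit 2) (N E (nat_lit 207570350164) (nat_lit 2) E)) (nat_lit 207570352208) (nat_lit 2) (N (N E (nat_lit 207574048852) (nat_lit 2) E) (nat_lit 207574050896) (nat_lit 2) (N E (nat_lit 207575097424) (nat_lit 2) E))) (nat_lit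 207575156248) (nat_lit 2) (N (N (N E (nat_lit 209400743704) (nat_lit 2) E) (nat_lit 209400759832) (nat_lit 2) (N E (nat_lit 209401426115) (nat_lit 2) E)) (nat_lit 209401426204) (nat_lit 2) (N (N E (nat_lit 209401428192) (nat_lit 2) E) (nat_lit 209401431832) (nat_lit 2) (N E (nat_lit 209401559064) (nat_lit 2) E))))) (nat_lit 209401792024) (nat_lit 2) (N (N (N (N (N E (nat_lit 209430316828) (nat_lit 2) E) (nat_lit 209430317080) (nat_lit 2) (N E (nat_lit 209430327491) (nat_lit 2) E)) (nat_lit 209430327580) (nat_lit 2) (N (N E (nat_lit 209430329568) (nat_lit 2) E) (nat_lit 209430333208) (nat_lit 2) (N E (nat_lit 209430778912) (nat_lit 2) E))) (nat_lit 209430779075) (nat_lit 2) (N (N (N E (nat_lit 209430779164) (nat_lit 2) E) (nat_lit 209430786131) (nat_lit 2) (N E (nat_lit 209430786243) (nat_lit 1) E)) (nat_lit 209430786250) (nat_lit 2) (N (N E (nat_lit 209430786332) (nat_lit 1) E) (nat_lit 209430786691) (nat_lit 2) (N E (nat_lit 209430788320) (nat_lit 1) E)))) (nat_lit 209430790224)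 (nat_lit 2) (N (N (N (N E (nat_lit 209430791946) (nat_lit 2) E) (nat_lit 209430791960) (nat_lit 1) (N E (nat_lit 209430814915) (nat_lit 2) E)) (nat_lit 209430815004) (nat_lit 2) (N (N E (nat_lit 209430816992) (nat_lit 2) E) (nat_lit 209430909980) (nat_lit 2) (N E (nat_lit 209430917204) (nat_lit 2) E))) (nat_lit 209430919178) (nat_lit 2) (N (N (N E (nat_lit 209430919192) (nat_lit 1) E) (nat_lit 209430919248) (nat_lit 2) (N E (nat_lit 209431041048) (nat_lit 2) E)) (nat_lit 209431077091) (nat_lit 2) (N (N E (nat_lit 209431134883) (nat_lit 2) E) (nat_lit 209431151235) (nat_lit 2) (N E (nat_lit 209431151256) (nat_lit 2) E))))))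
)
 (nat_lit 209431152138) (nat_lit 2) (N (N (N (N (N (N (N E (nat_lit 209431152152) (nat_lit 1) E) (nat_lit 209431152208) (nat_lit 2) (N E (nat_lit 209432621251) (nat_lit 2) E)) (nat_lit 209432621340) (nat_lit 2) (N (N E (nat_lit 209432623328) (nat_lit 2) E) (nat_lit 209432626968) (nat_lit 2) (N E (nat_lit 209432754200) (nat_lit 2) E))) (nat_lit 209438705411) (nat_lit 2) (N (N (N E (nat_lit 209438705432) (nat_lit 2) E) (nat_lit 209439167747) (nat_lit 2) (N E (nat_lit 209439167768) (nat_lit 2) E)) (nat_lit 209439294083) (nat_lit 2) (N (N E (nat_lit 209439294104) (nat_lit 2) E) (nat_lit 209439294986) (nat_lit 2) (N E (nat_lit 209439295000) (nat_lit 1) E)))) (nat_lit 209439295056) (nat_lit 2) (N (N (N (N E (nat_lit 209439298584) (nat_lit 2) E) (nat_lit 209439305808) (nat_lit 2) (N E (nat_lit 209447093784) (nat_lit 2) E)) (nat_lit 209447818268) (nat_lit 2) (N (N E (nat_lit 209447825492) (nat_lit 2) E) (nat_lit 209447827536) (nat_lit 2) (N E (nat_lit 209447830147) (nat_lit 2)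 E))) (nat_lit 209447831050) (nat_lit 2) (N (N (N E (nat_lit 209447854304) (nat_lit 2) E) (nat_lit 209447912096) (nat_lit 2) (N E (nat_lit 209449391132) (nat_lit 1) E)) (nat_lit 209449391188) (nat_lit 2) (N (N E (nat_lit 209449398356) (nat_lit 1) E) (nat_lit 209449398492) (nat_lit 2) (N E (nat_lit 209449399836) (nat_lit 2) E))))) (nat_lit 209449400352) (nat_lit 2) (N (N (N (N (N E (nat_lit 209449400400) (nat_lit 1) E) (nat_lit 209449400515) (nat_lit 2) (N E (nat_lit 209449400536) (nat_lit 2) E)) (nat_lit 209449400548) (nat_lit 2) (N (N E (nat_lit 209449400604) (nat_lit 2) E) (nat_lit 209449427028) (nat_lit 2) (N E (nat_lit 209449429072) (nat_lit 2) E))) (nat_lit 209453097044) (nat_lit 1) (N (N (N E (nat_lit 209453097180) (nat_lit 2) E) (nat_lit 209453097187) (nat_lit 2) (N E (nat_lit 209453098524) (nat_lit 2) E)) (nat_lit 209453099040) (nat_lit 2) (N (N E (nat_lit 209453099088) (nat_lit 1) E) (nat_lit 209453099203) (nat_lit 2) (N E (nat_lit 209453099224) (nat_lit 2) E))))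 (nat_lit 209453099236) (nat_lit 2) (N (N (N (N E (nat_lit 209453099292) (nat_lit 2) E) (nat_lit 209453154979) (nat_lit 2) (N E (nat_lit 209453159452) (nat_lit 2) E)) (nat_lit 209453166676) (nat_lit 2) (N (N E (nat_lit 209453168720) (nat_lit 2) E) (nat_lit 209453171331) (nat_lit 2) (N E (nat_lit 209453172234) (nat_lit 2) E))) (nat_lit 209453189200) (nat_lit 2) (N (N (N E (nat_lit 209453847580) (nat_lit 2) E) (nat_lit 209453854804) (nat_lit 2) (N E (nat_lit 209453856848) (nat_lit 2) E)) (nat_lit 209454121040) (nat_lit 2) (N (N E (nat_lit 209454145616) (nat_lit 1) E) (nat_lit 209454145731) (nat_lit 2) (N E (nat_lit 209454145752) (nat_lit 2) E))))))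
 (nat_lit 209454145764) (nat_lit 2) (N (N (N (N (N (N E (nat_lit 209454145820) (nat_lit 2) E) (nat_lit 209454147096) (nat_lit 2) (N E (nat_lit 209454203523) (nat_lit 2) E)) (nat_lit 209454203544) (nat_lit 2) (N (N E (nat_lit 209454203556) (nat_lit 2) E) (nat_lit 209454204426) (nat_lit 2) (N E (nat_lit 209454204440) (nat_lit 1) E))) (nat_lit 209454204496) (nat_lit 2) (N (N (N E (nat_lit 209454208024) (nat_lit 2) E) (nat_lit 209454215248) (nat_lit 2) (N E (nat_lit 209454219348) (nat_lit 2) E)) (nat_lit 209454221392) (nat_lit 2) (N (N E (nat_lit 209454240796) (nat_lit 2) E) (nat_lit 209454248020) (nat_lit 2) (N E (nat_lit 209454250064) (nat_lit 2) E)))) (nat_lit 209548226755) (nat_lit 2) (N (N (N (N E (nat_lit 209548226844) (nat_lit 2) E) (nat_lit 209548228832) (nat_lit 2) (N E (nat_lit 209548232472) (nat_lit 2) E)) (nat_lit 209548359704) (nat_lit 2) (N (N E (nat_lit 209548592664) (nat_lit 2) E) (nat_lit 209556735512) (nat_lit 2) (N E (nat_lit 209937614360) (nat_lit 2) E)))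 (nat_lit 209967203864) (nat_lit 2) (N (N (N E (nat_lit 209975289368) (nat_lit 2) E) (nat_lit 209975345795) (nat_lit 2) (N E (nat_lit 209975345816) (nat_lit 2) E)) (nat_lit 209975346698) (nat_lit 2) (N (N E (nat_lit 209975346712) (nat_lit 1) E) (nat_lit 209975346768) (nat_lit 2) (N E (nat_lit 209975350296) (nat_lit 2) E))))) (nat_lit 209975383068) (nat_lit 2) (N (N (N (N (N E (nat_lit 209975390292) (nat_lit 2) E) (nat_lit 209975392336) (nat_lit 2) (N E (nat_lit 209975576088) (nat_lit 2) E)) (nat_lit 209976038424) (nat_lit 2) (N (N E (nat_lit 210474410064) (nat_lit 2) E) (nat_lit 210474468888) (nat_lit 2) (N E (nat_lit 210523142168) (nat_lit 2) E))) (nat_lit 210526840856) (nat_lit 2) (N (N (N E (nat_lit 210622089240) (nat_lit 2) E) (nat_lit 210858805272) (nat_lit 2) (N E (nat_lit 210925880856) (nat_lit 2) E)) (nat_lit 210929493528) (nat_lit 2) (N (N E (nat_lit 210929549955) (nat_lit 2) E) (nat_lit 210929549976) (nat_lit 2) (N E (nat_lit 210929550858) (nat_lit 2) E)))) (nat_lit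 210929550872) (nat_lit 1) (N (N (N (N E (nat_lit 210929550928) (nat_lit 2) E) (nat_lit 210929554456) (nat_lit 2) (N E (nat_lit 210929587228) (nat_lit 2) E)) (nat_lit 210929594452) (nat_lit 2) (N (N E (nat_lit 210929596496) (nat_lit 2) E) (nat_lit 210929780248) (nat_lit 2) (N E (nat_lit 216946979011) (nat_lit 2) E))) (nat_lit 216946979100) (nat_lit 2) (N (N (N E (nat_lit 216946981088) (nat_lit 2) E) (nat_lit 216946984728) (nat_lit 2) (N E (nat_lit 216947111960) (nat_lit 2) E)) (nat_lit 216947344920) (nat_lit 2) (N (N E (nat_lit 216955487768) (nat_lit 2) E) (nat_lit 216965583900) (nat_lit 2) (N E (nat_lit 216965591124) (nat_lit 2) E))))))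
)
)
 (nat_lit 216965593168) (nat_lit 2) (N (N (N (N (N (N (N (N (N E (nat_lit 216969289812) (nat_lit 2) E) (nat_lit 216969291856) (nat_lit 2) E) (nat_lit 216970338384) (nat_lit 2) (N E (nat_lit 216970397208) (nat_lit 2) E)) (nat_lit 217491539480) (nat_lit 2) (N (N E (nat_lit 232105313816) (nat_lit 2) E) (nat_lit 236391892504) (nat_lit 2) (N E (nat_lit 236628608536) (nat_lit 2) E))) (nat_lit 241862972444) (nat_lit 2) (N (N (N E (nat_lit 241862979668) (nat_lit 2) E) (nat_lit 241862981712) (nat_lit 2) (N E (nat_lit 241866678356) (nat_lit 2) E)) (nat_lit 241866680400) (nat_lit 2) (N (N E (nat_lit 241867726928) (nat_lit 2) E) (nat_lit 241867785752) (nat_lit 2) (N E (nat_lit 243760406612) (nat_lit 2) E)))) (nat_lit 243760408656) (nat_lit 2) (N (N (N (N E (nat_lit 243761455184) (nat_lit 2) E) (nat_lit 243761514008) (nat_lit 2) (N E (nat_lit 244278986264) (nat_lit 2) E)) (nat_lit 244282598936) (nat_lit 2) (N (N E (nat_lit 244282655363) (nat_lit 2) E) (nat_lit 244282655384) (nat_lit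 2) (N E (nat_lit 244282656266) (nat_lit 2) E))) (nat_lit 244282656280) (nat_lit 1) (N (N (N E (nat_lit 244282656336) (nat_lit 2) E) (nat_lit 244282659864) (nat_lit 2) (N E (nat_lit 244282692636) (nat_lit 2) E)) (nat_lit 244282699860) (nat_lit 2) (N (N E (nat_lit 244282701904) (nat_lit 2) E) (nat_lit 244282885656) (nat_lit 2) (N E (nat_lit 244297277520) (nat_lit 2) E))))) (nat_lit 244297336344) (nat_lit 2) (N (N (N (N (N E (nat_lit 244326925848) (nat_lit 2) E) (nat_lit 276226475544) (nat_lit 2) (N E (nat_lit 279341565464) (nat_lit 2) E)) (nat_lit 279578281496) (nat_lit 2) (N (N E (nat_lit 285636337891) (nat_lit 2) E) (nat_lit 285636395683) (nat_lit 2) (N E (nat_lit 285665985187) (nat_lit 2) E))) (nat_lit 285674178072) (nat_lit 2) (N (N (N E (nat_lit 300815811235) (nat_lit 2) E) (nat_lit 300824004120) (nat_lit 2) (N E (nat_lit 305116841496) (nat_lit 2) E)) (nat_lit 305348052504) (nat_lit 2) (N (N E (nat_lit 305351665176) (nat_lit 2) E) (nat_lit 305351721603) (nat_lit 2) (N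 E (nat_lit 305351721624) (nat_lit 2) E)))) (nat_lit 305351722506) (nat_lit 2) (N (N (N (N E (nat_lit 305351722520) (nat_lit 1) E) (nat_lit 305351722576) (nat_lit 2) (N E (nat_lit 305351726104) (nat_lit 2) E)) (nat_lit 305351758876) (nat_lit 2) (N (N E (nat_lit 305351766100) (nat_lit 2) E) (nat_lit 305351768144) (nat_lit 2) (N E (nat_lit 305351951896) (nat_lit 2) E))) (nat_lit 305366402584) (nat_lit 2) (N (N (N E (nat_lit 688539571210) (nat_lit 2) E) (nat_lit 688539578563) (nat_lit 2) (N E (nat_lit 688539580675) (nat_lit 2) E)) (nat_lit 688539584259) (nat_lit 2) (N (N E (nat_lit 688543277251) (nat_lit 2) E) (nat_lit 688543279363) (nat_lit 2) (N E (nat_lit 688544290051) (nat_lit 2) E))))))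
 (nat_lit 688545662723) (nat_lit 2) (N (N (N (N (N (N E (nat_lit 688546125059) (nat_lit 2) E) (nat_lit 690437005507) (nat_lit 2) (N E (nat_lit 690437007619) (nat_lit 2) E)) (nat_lit 690438018307) (nat_lit 2) (N (N E (nat_lit 690467123395) (nat_lit 2) E) (nat_lit 690467123484) (nat_lit 2) (N E (nat_lit 690467125472) (nat_lit 2) E))) (nat_lit 690467129112) (nat_lit 2) (N (N (N E (nat_lit 690467256344) (nat_lit 2) E) (nat_lit 690467489304) (nat_lit 2) (N E (nat_lit 690475632152) (nat_lit 2) E)) (nat_lit 690485728284) (nat_lit 2) (N (N E (nat_lit 690485735508) (nat_lit 2) E) (nat_lit 690485737552) (nat_lit 2) (N E (nat_lit 690489434196) (nat_lit 2) E)))) (nat_lit 690489436240) (nat_lit 2) (N (N (N (N E (nat_lit 690490482768) (nat_lit 2) E) (nat_lit 690490541592) (nat_lit 2) (N E (nat_lit 690955490563) (nat_lit 2) E)) (nat_lit 690961384984) (nat_lit 2) (N (N E (nat_lit 691004114456) (nat_lit 2) E) (nat_lit 691011683864) (nat_lit 2) (N E (nat_lit 691657836291) (nat_lit 2) E)))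 (nat_lit 691658298627) (nat_lit 2) (N (N (N E (nat_lit 691895014659) (nat_lit 2) E) (nat_lit 691965888024) (nat_lit 2) (N E (nat_lit 713373615640) (nat_lit 2) E)) (nat_lit 725318993432) (nat_lit 2) (N (N E (nat_lit 1660025872579) (nat_lit 2) E) (nat_lit 1660025874691) (nat_lit 2) (N E (nat_lit 1660026885379) (nat_lit 2) E))))) (nat_lit 1660055990467) (nat_lit 2) (N (N (N (N (N E (nat_lit 1660055990556) (nat_lit 2) E) (nat_lit 1660055992544) (nat_lit 2) (N E (nat_lit 1660055996184) (nat_lit 2) E)) (nat_lit 1660056123416) (nat_lit 2) (N (N E (nat_lit 1660056356376) (nat_lit 2) E) (nat_lit 1660064499224) (nat_lit 2) (N E (nat_lit 1660074595356) (nat_lit 2) E))) (nat_lit 1660074602580) (nat_lit 2) (N (N (N E (nat_lit 1660074604624) (nat_lit 2) E) (nat_lit 1660078301268) (nat_lit 2) (N E (nat_lit 1660078303312) (nat_lit 2) E)) (nat_lit 1660079349840) (nat_lit 2) (N (N E (nat_lit 1660079408664) (nat_lit 2) E) (nat_lit 1660413904408) (nat_lit 2) (N E (nat_lit 1660544357635) (nat_lit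 2) E)))) (nat_lit 1660550252056) (nat_lit 2) (N (N (N (N E (nat_lit 1660592981528) (nat_lit 2) E) (nat_lit 1660600550936) (nat_lit 2) (N E (nat_lit 1675205345923) (nat_lit 2) E)) (nat_lit 1675205346826) (nat_lit 2) (N (N E (nat_lit 1675205809162) (nat_lit 2) E) (nat_lit 1675211408920) (nat_lit 2) (N E (nat_lit 1675214325272) (nat_lit 2) E))) (nat_lit 1675442525194) (nat_lit 2) (N (N (N E (nat_lit 1675442619928) (nat_lit 2) E) (nat_lit 1675446232600) (nat_lit 2) (N E (nat_lit 1675446289027) (nat_lit 2) E)) (nat_lit 1675446289048) (nat_lit 2) (N (N E (nat_lit 1675446289930) (nat_lit 2) E) (nat_lit 1675446289944) (nat_lit 1) (N E (nat_lit 1675446290000) (nat_lit 2) E))))))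
)
 (nat_lit 1675446293528) (nat_lit 2) (N (N (N (N (N (N (N E (nat_lit 1675446326300) (nat_lit 2) E) (nat_lit 1675446333524) (nat_lit 2) (N E (nat_lit 1675446335568) (nat_lit 2) E)) (nat_lit 1675446519320) (nat_lit 2) (N (N E (nat_lit 1675460970008) (nat_lit 2) E) (nat_lit 1676385814040) (nat_lit 2) (N E (nat_lit 1679500903960) (nat_lit 2) E))) (nat_lit 1679737619992) (nat_lit 2) (N (N (N E (nat_lit 1684971983900) (nat_lit 2) E) (nat_lit 1684971983907) (nat_lit 2) (N E (nat_lit 1684971991124) (nat_lit 2) E)) (nat_lit 1684971993098) (nat_lit 2) (N (N E (nat_lit 1684971993168) (nat_lit 2) E) (nat_lit 1684971995779) (nat_lit 2) (N E (nat_lit 1684971996682) (nat_lit 2) E)))) (nat_lit 1684975689812) (nat_lit 2) (N (N (N (N E (nat_lit 1684975691786) (nat_lit 2) E) (nat_lit 1684975691856) (nat_lit 2) (N E (nat_lit 1684976702474) (nat_lit 2) E)) (nat_lit 1684976738384) (nat_lit 2) (N (N E (nat_lit 1684976797208) (nat_lit 2) E) (nat_lit 1684978074243) (nat_lit 2) (N E (nat_lit 1684978075146)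 (nat_lit 2) E))) (nat_lit 1684978537482) (nat_lit 2) (N (N (N E (nat_lit 1686869418068) (nat_lit 2) E) (nat_lit 1686869420042) (nat_lit 2) (N E (nat_lit 1686869420112) (nat_lit 2) E)) (nat_lit 1686870430730) (nat_lit 2) (N (N E (nat_lit 1686870466640) (nat_lit 2) E) (nat_lit 1686870525464) (nat_lit 2) (N E (nat_lit 1687387902986) (nat_lit 2) E))))) (nat_lit 1687406288976) (nat_lit 2) (N (N (N (N (N E (nat_lit 1688090247811) (nat_lit 2) E) (nat_lit 1688090248714) (nat_lit 2) (N E (nat_lit 1688090711050) (nat_lit 2) E)) (nat_lit 1688327427082) (nat_lit 2) (N (N E (nat_lit 1735575832088) (nat_lit 2) E) (nat_lit 1925490152707) (nat_lit 2) (N E (nat_lit 1934903779552) (nat_lit 2) E))) (nat_lit 1934903837344) (nat_lit 2) (N (N (N E (nat_lit 1934933426848) (nat_lit 2) E) (nat_lit 1934934017560) (nat_lit 2) (N E (nat_lit 1934941586968) (nat_lit 2) E)) (nat_lit 1950083252896) (nat_lit 2) (N (N E (nat_lit 1950083843608) (nat_lit 2) E) (nat_lit 1950091413016) (nat_lit 2) (N E (nat_lit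 2285090703107) (nat_lit 2) E)))) (nat_lit 2285090703128) (nat_lit 2) (N (N (N (N E (nat_lit 2285091165443) (nat_lit 2) E) (nat_lit 2285091165464) (nat_lit 2) (N E (nat_lit 2285091291779) (nat_lit 2) E)) (nat_lit 2285091291800) (nat_lit 2) (N (N E (nat_lit 2285091292682) (nat_lit 2) E) (nat_lit 2285091292696) (nat_lit 1) (N E (nat_lit 2285091292752) (nat_lit 2) E))) (nat_lit 2285091296280) (nat_lit 2) (N (N (N E (nat_lit 2285091303504) (nat_lit 2) E) (nat_lit 2285093127704) (nat_lit 2) (N E (nat_lit 2285327881475) (nat_lit 2) E)) (nat_lit 2285327881496) (nat_lit 2) (N (N E (nat_lit 2285328007811) (nat_lit 2) E) (nat_lit 2285328007832) (nat_lit 2) (N E (nat_lit 2285328008714) (nat_lit 2) E))))))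
 (nat_lit 2285328008728) (nat_lit 1) (N (N (N (N (N (N E (nat_lit 2285328008784) (nat_lit 2) E) (nat_lit 2285328012312) (nat_lit 2) (N E (nat_lit 2285328019536) (nat_lit 2) E)) (nat_lit 2285332465176) (nat_lit 2) (N (N E (nat_lit 2285333775896) (nat_lit 2) E) (nat_lit 2285376505368) (nat_lit 2) (N E (nat_lit 2285393162435) (nat_lit 2) E))) (nat_lit 2285393162524) (nat_lit 2) (N (N (N E (nat_lit 2285393164512) (nat_lit 2) E) (nat_lit 2285393168152) (nat_lit 2) (N E (nat_lit 2285393295384) (nat_lit 2) E)) (nat_lit 2285393528344) (nat_lit 2) (N (N E (nat_lit 2285398754840) (nat_lit 2) E) (nat_lit 2285401671192) (nat_lit 2) (N E (nat_lit 2285519111704) (nat_lit 2) E)))) (nat_lit 2286267532824) (nat_lit 2) (N (N (N (N E (nat_lit 2406526489859) (nat_lit 2) E) (nat_lit 2406526489880) (nat_lit 2) (N E (nat_lit 2406526616195) (nat_lit 2) E)) (nat_lit 2406526616216) (nat_lit 2) (N (N E (nat_lit 2406526617098) (nat_lit 2) E) (nat_lit 2406526617112) (nat_lit 1) (N E (nat_lit 2406526617168)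 (nat_lit 2) E))) (nat_lit 2406526620696) (nat_lit 2) (N (N (N E (nat_lit 2406526627920) (nat_lit 2) E) (nat_lit 2406531073560) (nat_lit 2) (N E (nat_lit 2406532384280) (nat_lit 2) E)) (nat_lit 2406575113752) (nat_lit 2) (N (N E (nat_lit 2406591770819) (nat_lit 2) E) (nat_lit 2406591770908) (nat_lit 2) (N E (nat_lit 2406591772896) (nat_lit 2) E))))) (nat_lit 2406591776536) (nat_lit 2) (N (N (N (N (N E (nat_lit 2406591903768) (nat_lit 2) E) (nat_lit 2406592136728) (nat_lit 2) (N E (nat_lit 2406597363224) (nat_lit 2) E)) (nat_lit 2406600279576) (nat_lit 2) (N (N E (nat_lit 2408571602456) (nat_lit 2) E) (nat_lit 2408808318488) (nat_lit 2) (N E (nat_lit 2431120180760) (nat_lit 2) E))) (nat_lit 2431356896792) (nat_lit 2) (N (N (N E (nat_lit 2439715587608) (nat_lit 2) E) (nat_lit 2439718503960) (nat_lit 2) (N E (nat_lit 2439946798616) (nat_lit 2) E)) (nat_lit 2439950411288) (nat_lit 2) (N (N E (nat_lit 2439950467715) (nat_lit 2) E) (nat_lit 2439950467736) (nat_lit 2) (N E (nat_lit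 2439950468618) (nat_lit 2) E)))) (nat_lit 2439950468632) (nat_lit 1) (N (N (N (N E (nat_lit 2439950468688) (nat_lit 2) E) (nat_lit 2439950472216) (nat_lit 2) (N E (nat_lit 2439950504988) (nat_lit 2) E)) (nat_lit 2439950512212) (nat_lit 2) (N (N E (nat_lit 2439950514256) (nat_lit 2) E) (nat_lit 2439950698008) (nat_lit 2) (N E (nat_lit 2439965148696) (nat_lit 2) E))) (nat_lit 2440889992728) (nat_lit 2) (N (N (N E (nat_lit 2442783720984) (nat_lit 2) E) (nat_lit 2444005082648) (nat_lit 2) (N E (nat_lit 2444241798680) (nat_lit 2) E)) (nat_lit 2484698220056) (nat_lit 2) (N (N E (nat_lit 2499848046104) (nat_lit 2) E) (nat_lit 2504134624792) (nat_lit 2) (N E (nat_lit 2504371340824) (nat_lit 2) E))))))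
)
)
)


end Pool.Agent.L5helper11.GP
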