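import Pool.Agent.L5helper11.GP.Def

/-! Certificate, level 9. -/

set_option autoImplicit false

namespace Pool.Agent.L5helper11.GP

open Tr in
/-- The words at level 9 with their values. -/
def S9 : Tr := (N (N (N (N (N (N (N (N E (nat_lit 86067463940) (nat_lit 2) E) (nat_lit 86075836164) (nat_lit 2) E) (nat_lit 86076298500) (nat_lit 2) (N E (nat_lit 86309355780) (nat_lit 2) E)) (nat_lit 86442623236) (nat_lit 2) (N (N E (nat_lit 86444705540) (nat_lit 2) E) (nat_lit 86444738076) (nat_lit 2) (N E (nat_lit 86444738592) (nat_lit 2) E))) (nat_lit 86444738755) (nat_lit 2) (N (N (N E (nat_lit 86444748996) (nat_lit 2) E) (nat_lit 86445404420) (nat_lit 2) (N E (nat_lit 86487351556) (nat_lit 2) E)) (nat_lit 90245447940) (nat_lit 2) (N (N E (nat_lit 90362414852) (nat_lit 2) E) (nat_lit 90362877188) (nat_lit 2) (N E (nat_lit 90599593220) (nat_lit 2) E)))) (nat_lit 90665140484) (nat_lit 2) (N (N (N (N E (nat_lit 90670481668) (nat_lit 2) E) (nat_lit 279241048144) (nat_lit 2) (N E (nat_lit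 279241048324) (nat_lit 1) E)) (nat_lit 285666459908) (nat_lit 2) (N (N E (nat_lit 300815811203) (nat_lit 2) E) (nat_lit 300815812106) (nat_lit 2) (N E (nat_lit 300816274442) (nat_lit 2) E))) (nat_lit 300816285956) (nat_lit 2) (N (N (N E (nat_lit 301052990474) (nat_lit 2) E) (nat_lit 688539578592) (nat_lit 2) (N E (nat_lit 688543277280) (nat_lit 2) E)) (nat_lit 690437005536) (nat_lit 2) (N (N E (nat_lit 690467389700) (nat_lit 2) E) (nat_lit 717327712516) (nat_lit 2) (N E (nat_lit 1660025872608) (nat_lit 2) E))))) (nat_lit 1660056256772) (nat_lit 2) (N (N (N (N (N (N E (nat_lit 1675206082820) (nat_lit 2) E) (nat_lit 1679400386640) (nat_lit 2) E) (nat_lit 1679400386820) (nat_lit 1) (N E (nat_lit 1684976812292) (nat_lit 2) E)) (nat_lit 1686870540548) (nat_lit 2) (N (N E (nat_lit 1739529928964) (nat_lit 2) E) (nat_lit 1934941602052) (nat_lit 2) (N E (nat_lit 1950091428100) (nat_lit 2) E))) (nat_lit 2209811808516) (nat_lit 2) (N (N (N E (nat_lit 2210231501060) (nat_lit 2) E)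 (nat_lit 2224961634564) (nat_lit 2) (N E (nat_lit 2225198350596) (nat_lit 2) E)) (nat_lit 2225263886416) (nat_lit 2) (N (N E (nat_lit 2225263886596) (nat_lit 1) E) (nat_lit 2226203410692) (nat_lit 2) (N E (nat_lit 2233551565060) (nat_lit 2) E)))) (nat_lit 2233558122756) (nat_lit 2) (N (N (N (N E (nat_lit 2233788281092) (nat_lit 2) E) (nat_lit 2233791979780) (nat_lit 2) (N E (nat_lit 2233793003600) (nat_lit 2) E)) (nat_lit 2233793003780) (nat_lit 1) (N (N E (nat_lit 2233807683844) (nat_lit 2) E) (nat_lit 2233922498756) (nat_lit 2) (N E (nat_lit 2233922601220) (nat_lit 2) E))) (nat_lit 2233926197444) (nat_lit 2) (N (N (N E (nat_lit 2233926197472) (nat_lit 2) E) (nat_lit 2233926255236) (nat_lit 2) (N E (nat_lit 2233926255264) (nat_lit 2) E)) (nat_lit 2233926256720) (nat_lit 2) (N (N E (nat_lit 2233926271056) (nat_lit 2) E) (nat_lit 2233926271236) (nat_lit 1) (N E (nat_lit 2233926500612) (nat_lit 2) E))))))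
 (nat_lit 2233928294595) (nat_lit 2) (N (N (N (N (N (N (N E (nat_lit 2233928296196) (nat_lit 2) E) (nat_lit 2233928352387) (nat_lit 2) E) (nat_lit 2233928353290) (nat_lit 2) (N E (nat_lit 2233928353540) (nat_lit 1) E)) (nat_lit 2233928357124) (nat_lit 2) (N (N E (nat_lit 2233928385180) (nat_lit 2) E) (nat_lit 2233928386076) (nat_lit 1) (N E (nat_lit 2233928386132) (nat_lit 2) E))) (nat_lit 2233928386592) (nat_lit 1) (N (N (N E (nat_lit 2233928386643) (nat_lit 2) E) (nat_lit 2233928386755) (nat_lit 1) (N E (nat_lit 2233928386762) (nat_lit 2) E)) (nat_lit 2233928389660) (nat_lit 2) (N (N E (nat_lit 2233928389828) (nat_lit 2) E) (nat_lit 2233928396884) (nat_lit 2) (N E (nat_lit 2233928396996) (nat_lit 1) E)))) (nat_lit 2233928397444) (nat_lit 2) (N (N (N (N E (nat_lit 2233928398928) (nat_lit 2) E) (nat_lit 2233928582916) (nat_lit 2) (N E (nat_lit 2233928593668) (nat_lit 2) E)) (nat_lit 2233929045252) (nat_lit 2) (N (N E (nat_lit 2233929052240) (nat_lit 2) E) (nat_lit 2233929052420)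 (nat_lit 1) (N E (nat_lit 2233929081092) (nat_lit 2) E))) (nat_lit 2233940951300) (nat_lit 2) (N (N (N E (nat_lit 2233941639428) (nat_lit 2) E) (nat_lit 2233970540804) (nat_lit 2) (N E (nat_lit 2233970999376) (nat_lit 2) E)) (nat_lit 2233970999556) (nat_lit 1) (N (N E (nat_lit 2233971119132) (nat_lit 2) E) (nat_lit 2233971126356) (nat_lit 2) (N E (nat_lit 2233971128400) (nat_lit 2) E))))) (nat_lit 2233971286243) (nat_lit 2) (N (N (N (N (N (N E (nat_lit 2233971344035) (nat_lit 2) E) (nat_lit 2233972834564) (nat_lit 2) E) (nat_lit 2233978914563) (nat_lit 2) (N E (nat_lit 2233979376899) (nat_lit 2) E)) (nat_lit 2234727797788) (nat_lit 2) (N (N E (nat_lit 2234727805012) (nat_lit 2) E) (nat_lit 2234727807056) (nat_lit 2) (N E (nat_lit 2234731503700) (nat_lit 2) E))) (nat_lit 2234731505744) (nat_lit 2) (N (N (N E (nat_lit 2234732527876) (nat_lit 2) E) (nat_lit 2234732552272) (nat_lit 2) (N E (nat_lit 2234776568068) (nat_lit 2) E)) (nat_lit 2236625231956) (nat_lit 2) (N (N E (nat_lit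 2236625234000) (nat_lit 2) E) (nat_lit 2236626256132) (nat_lit 2) (N E (nat_lit 2236626280528) (nat_lit 2) E)))) (nat_lit 2236655616080) (nat_lit 2) (N (N (N (N E (nat_lit 2236655616260) (nat_lit 1) E) (nat_lit 2236773056772) (nat_lit 2) (N E (nat_lit 2237162102864) (nat_lit 2) E)) (nat_lit 2285090703108) (nat_lit 2) (N (N E (nat_lit 2285091165444) (nat_lit 2) E) (nat_lit 2285327881476) (nat_lit 2) (N E (nat_lit 2285393428740) (nat_lit 2) E))) (nat_lit 2285398769924) (nat_lit 2) (N (N (N E (nat_lit 2288212001028) (nat_lit 2) E) (nat_lit 2406526489860) (nat_lit 2) (N E (nat_lit 2406592037124) (nat_lit 2) E)) (nat_lit 2406597378308) (nat_lit 2) (N (N E (nat_lit 2408471085136) (nat_lit 2) E) (nat_lit 2408471085316) (nat_lit 1) (N E (nat_lit 2415987278084) (nat_lit 2) E))))))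
)


end Pool.Agent.L5helper11.GP
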