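import Pool.Agent.L5helper11.GP.S5
import Pool.Agent.L5helper11.GP.S6
import Pool.Agent.L5helper11.GP.S7
import Pool.Agent.L5helper11.GP.S8
import Pool.Agent.L5helper11.GP.S9
import Pool.Agent.L5helper11.GP.S10
import Pool.Agent.L5helper11.GP.S11
import Pool.Agent.L5helper11.GP.S12
import Pool.Agent.L5helper11.GP.S13
import Pool.Agent.L5helper11.GP.S14
import Pool.Agent.L5helper11.GP.S15

/-! Checks of the certificate. -/

set_option autoImplicit false

namespace Pool.Agent.L5helper11.GP

theorem c5 : chk S5 S6 = true := by decide +kernel

theorem c6 : chk S6 S7 = true := by decide +kernel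

theorem c7 : chk S7 S8 = true := by decide +kernel

theorem c8 : chk S8 S9 = true := by decide +kernel

theorem c9 : chk S9 S10 = true := by decide +kernel

theorem c10 : chk S10 S11 = true := by decide +kernel

theorem c11 : chk S11 S12 = true := by decide +kernel

theorem c12 : chk S12 S13 = true := by decide +kernel

theorem c13 : chk S13 S14 = true := by decide +kernel

theorem c14 : chk S14 S15 = true := by decide +kernel

end Pool.Agent.L5helper11.GP
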