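import Pool.Agent.L5helper11.GP.S2
import Pool.Agent.L5helper11.GP.S3
import Pool.Agent.L5helper11.GP.S4
import Pool.Agent.L5helper11.GP.S5
import Pool.Agent.L5helper11.GP.S6
import Pool.Agent.L5helper11.GP.S7
import Pool.Agent.L5helper11.GP.S8
import Pool.Agent.L5helper11.GP.S9
import Pool.Agent.L5helper11.GP.S10
import Pool.Agent.L5helper11.GP.S11
import Pool.Agent.L5helper11.GP.S12
import Pool.Agent.L5helper11.GP.S13
import Pool.Agent.L5helper11.GP.S14
import Pool.Agent.L5helper11.GP.S15

/-! Checks of the certificate. -/

set_option autoImplicit false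

namespace Pool.Agent.L5helper11.GP

theorem p8 : chkP S8 S8 = true := by decide +kernel

theorem p9 : chkP S9 S7 = true := by decide +kernel

theorem p10 : chkP S10 S6 = true := by decide +kernel

theorem p11 : chkP S11 S5 = true := by decide +kernel

theorem p12 : chkP S12 S4 = true := by decide +kernel

theorem p13 : chkR S13 S3 = true := by decide +kernel

theorem p14 : chkR S14 S2 = true := by decide +kernel

theorem p15 : chkE S15 = true := by decide +kernel

end Pool.Agent.L5helper11.GP
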