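import Pool.Agent.L5helper11.GP.Rows
import Pool.Agent.L5helper11.GP.K1
import Pool.Agent.L5helper11.GP.K2
import Pool.Agent.L5helper11.GP.K3
import Pool.Agent.L5helper11.GP.K4
import Pool.Agent.L5helper11.GP.K5

/-!
There is no configuration with `74` holes on the board with `16` rows and `14` columns.
-/

set_option autoImplicit false

namespace Pool.Agent.L5helper11.GP

open Finset

/-- The code of a row. -/
def cd (g : ℕ → C) : ℕ := code num (word g)

theorem cd_fl (g : ℕ → C) : cd (fun j => fl (g j)) = code numF (word g) := by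
  have h : ∀ c, num (fl c) = numF c := by intro c; cases c <;> rfl
  have h2 : ∀ (l : List ℕ) (a : ℕ), (l.map fun j => fl (g j)).foldl (fun a c => a * 8 + num c) a =
      (l.map g).foldl (fun a c => a * 8 + numF c) a := by
    intro l
    induction l with
    | nil => intro a; rfl
    | cons x l ih =>
      intro a
      simp only [List.map_cons, List.foldl_cons]
      rw [ih, h]
  exact h2 _ 0

theorem wd_row (f : List C → Bool) (g : ℕ → C) : wd (cd g) f 14 0 [] = f (word g) := by
  have h := wd_code f (cd g) (word g) 0 [] (by simp [cd])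
  rw [word_length] at h
  simpa using h

theorem ok_rows {f g : ℕ → C} (hg : RowOK g) (h : PairOK f g) :
    ∀ i, 0 ≤ i → i < 0 + 14 → okA (mem (f i) (g i)) (f (i + 1)) (g (i + 1)) :=
  fun i _ hi => okA_row hg h (by omega)

theorem mem_last {x y : C} (hy : y ≠ C.L) : mem x y = Q.H ∧ y = C.O ∨ mem x y = Q.N ∧ y ≠ C.O := by
  revert hy; cases y <;> cases x <;> simp [mem]

/-- One step of the closure. -/
theorem step {S S' : Tr} (hc : chk S S' = true) {f g : ℕ → C} (hg : RowOK g) (h : PairOK f g) {v : ℕ}
    (hv : S.look (cd f) v = true) (h2 : v + costA f g ≤ 2) : S'.look (cd g) (v + costA f g) = true := by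
  obtain ⟨v', hv', h1⟩ := all_sound hc hv
  rw [wd_row] at h1
  have h3 : mem (f 0) (g 0) = Q.N := by rw [hg.z]; rfl
  have h4 : go tblA num (leafA S') ((List.range' (0 + 1) 14).map f) (mem (f 0) (g 0)) (bud2 v') 0 = true := by
    rw [h3]; exact h1
  have h5 : ∑ i ∈ range 14, cA (mem (f (0 + i)) (g (0 + i))) (f (0 + i + 1)) (g (0 + i + 1)) = costA f g := by
    simp [costA]
  obtain ⟨b', hb1, hb2⟩ := go_sound complete_A num (leafA S') f g 14 0 (bud2 v') 0 (ok_rows hg h) h4
    (by rw [h5, bud2_val]; omega)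
  rw [h5, bud2_val] at hb1
  have h6 : S'.look (cd g) (2 - b'.val) = true := by
    have h7 : leafA S' (mem (f 14) (g 14)) b' (cd g) = true := hb2
    rcases mem_last hg.last (x := f 14) with h8 | h8 <;> rw [h8.1] at h7 <;>
      simp only [leafA, force_eq] at h7 <;> exact h7
  exact look_mono h6 (by omega)

/-- The first level. -/
theorem first {g : ℕ → C} (hg : RowOK g) (hB : ∀ j ≤ 14, g j ≠ C.B) (h : tv g ≤ 2) :
    S1.look (cd g) (tv g) = true := by
  have h1 := c0
  unfold tv at h ⊢
  have h3 : mem C.O (g 0) = Q.N := by rw [hg.z]; rfl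
  have h4 : go tblF num (leafF S1) ((List.range' (0 + 1) 14).map fun _ => C.O) (mem C.O (g 0)) Bd.b2 0 = true := by
    rw [h3]; exact h1
  have h5 : ∑ i ∈ range 14, cF (mem C.O (g (0 + i))) C.O (g (0 + i + 1)) = costF g := by
    simp [costF]
  have hle : costF g ≤ 2 := by omega
  obtain ⟨b', hb1, hb2⟩ := go_sound complete_F num (leafF S1) (fun _ => C.O) g 14 0 Bd.b2 0
    (fun i _ hi => okF_of _ _ (hB _ (by omega)) (hg.lr i (by omega)) (hg.oh i (by omega))) h4
    (by show ∑ i ∈ range 14, cF (mem C.O (g (0 + i))) C.O (g (0 + i + 1)) ≤ 2; rw [h5]; exact hle)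
  have hb3 : b'.val + costF g = 2 := by rw [← h5]; exact hb1
  have h7 : leafF S1 (mem C.O (g 14)) b' (cd g) = true := hb2
  rcases mem_last hg.last (x := C.O) with h8 | h8
  · rw [h8.1] at h7
    simp only [leafF, force_eq] at h7
    rw [if_pos h8.2] at h ⊢
    exact look_mono h7 (by show 2 - b'.val ≤ _; omega)
  · rw [h8.1] at h7
    rw [if_neg h8.2] at h ⊢
    have hb4 : b'.val ≠ 0 := by omega
    have h9 : S1.look (cd g) (3 - b'.val) = true := by
      cases b' with
      | b0 => exact absurd rfl hb4
      | b1 => simp only [leafF, force_eq] at h7; exact h7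
      | b2 => simp only [leafF, force_eq] at h7; exact h7
      | b3 => simp only [leafF, force_eq] at h7; exact h7
      | b4 => simp only [leafF, force_eq] at h7; exact h7
    exact look_mono h9 (by omega)

/-- The last level. -/
theorem lastE {S : Tr} (hc : chkE S = true) {f g : ℕ → C} (hg : RowOK g) (h : PairOK f g)
    (hT : ∀ j ≤ 14, g j ≠ C.T) {v : ℕ} (hv : S.look (cd f) v = true) :
    4 < v + costE f g + if g 14 = C.O then 0 else 1 := by
  by_contra hcon
  obtain ⟨v', hv', h1⟩ := all_sound hc hv
  rw [wd_row] at h1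
  have h3 : mem (f 0) (g 0) = Q.N := by rw [hg.z]; rfl
  have h4 : go tblE num leafE ((List.range' (0 + 1) 14).map f) (mem (f 0) (g 0)) (bud4 v') 0 = true := by
    rw [h3]; exact h1
  have h5 : ∑ i ∈ range 14, cE (mem (f (0 + i)) (g (0 + i))) (f (0 + i + 1)) (g (0 + i + 1)) = costE f g := by
    simp [costE]
  obtain ⟨b', hb1, hb2⟩ := go_sound complete_E num leafE f g 14 0 (bud4 v') 0
    (fun i _ hi => ⟨okA_row hg h (by omega), hT _ (by omega)⟩) h4
    (by rw [h5, bud4_val]; omega)
  rw [h5, bud4_val] at hb1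
  have h7 : leafE (mem (f 14) (g 14)) b' (cd g) = true := hb2
  rcases mem_last hg.last (x := f 14) with h8 | h8
  · rw [h8.1] at h7
    simp [leafE] at h7
  · rw [h8.1] at h7
    rw [if_neg h8.2] at hcon
    have hb4 : b'.val ≠ 0 := by omega
    cases b' with
    | b0 => exact absurd rfl hb4
    | b1 => simp [leafE] at h7
    | b2 => simp [leafE] at h7
    | b3 => simp [leafE] at h7
    | b4 => simp [leafE] at h7

/-- Pairs, total three. -/
theorem pairP {S S' : Tr} (hc : chkP S S' = true) {f g : ℕ → C} (hg : RowOK g) (h : PairOK f g) {v w : ℕ}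
    (hv : S.look (cd f) v = true) (hw : S'.look (cd fun j => fl (g j)) w = true) (hw1 : w ≤ 1) :
    4 < v + costA f g + w := by
  by_contra hcon
  have hc2 : (S'.all fun _ v => Nat.ble 1 v) = true ∧
      (S.all fun k v => wd k (fun p => go tblA numF (leafP S') p Q.N (bud3 v) 0) 14 0 []) = true := by
    unfold chkP at hc
    revert hc
    generalize (S'.all fun _ v => Nat.ble 1 v) = u
    generalize (S.all fun k v => wd k (fun p => go tblA numF (leafP S') p Q.N (bud3 v) 0) 14 0 []) = w
    cases u <;> cases w <;> simp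
  obtain ⟨w', hw', h0⟩ := all_sound hc2.1 hw
  rw [Nat.ble_eq] at h0
  obtain ⟨v', hv', h1⟩ := all_sound hc2.2 hv
  rw [wd_row] at h1
  have h3 : mem (f 0) (g 0) = Q.N := by rw [hg.z]; rfl
  have h4 : go tblA numF (leafP S') ((List.range' (0 + 1) 14).map f) (mem (f 0) (g 0)) (bud3 v') 0 = true := by
    rw [h3]; exact h1
  have h5 : ∑ i ∈ range 14, cA (mem (f (0 + i)) (g (0 + i))) (f (0 + i + 1)) (g (0 + i + 1)) = costA f g := by
    simp [costA]
  obtain ⟨b', hb1, hb2⟩ := go_sound complete_A numF (leafP S') f g 14 0 (bud3 v') 0 (ok_rows hg h) h4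
    (by rw [h5, bud3_val]; omega)
  have h7 : leafP S' (mem (f 14) (g 14)) b' (cd fun j => fl (g j)) = true := by rw [cd_fl]; exact hb2
  have h9 : S'.look (cd fun j => fl (g j)) 1 = false := by
    rcases mem_last hg.last (x := f 14) with h8 | h8 <;> rw [h8.1] at h7 <;>
      simpa only [leafP, force_eq, Bool.not_eq_true'] using h7
  rw [look_mono hw hw1] at h9
  exact absurd h9 (by decide)

/-- Pairs, total four. -/
theorem pairR {S S' : Tr} (hc : chkR S S' = true) {f g : ℕ → C} (hg : RowOK g) (h : PairOK f g) {v w : ℕ}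
    (hv : S.look (cd f) v = true) (hw : S'.look (cd fun j => fl (g j)) w = true) (hw1 : w ≤ 1) :
    4 < v + costA f g + w := by
  by_contra hcon
  obtain ⟨v', hv', h1⟩ := all_sound hc hv
  rw [wd_row] at h1
  have h3 : mem (f 0) (g 0) = Q.N := by rw [hg.z]; rfl
  have h4 : go tblA numF (leafR S') ((List.range' (0 + 1) 14).map f) (mem (f 0) (g 0)) (bud4 v') 0 = true := by
    rw [h3]; exact h1
  have h5 : ∑ i ∈ range 14, cA (mem (f (0 + i)) (g (0 + i))) (f (0 + i + 1)) (g (0 + i + 1)) = costA f g := by
    simp [costA]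
  obtain ⟨b', hb1, hb2⟩ := go_sound complete_A numF (leafR S') f g 14 0 (bud4 v') 0 (ok_rows hg h) h4
    (by rw [h5, bud4_val]; omega)
  rw [h5, bud4_val] at hb1
  have h7 : leafR S' (mem (f 14) (g 14)) b' (cd fun j => fl (g j)) = true := by rw [cd_fl]; exact hb2
  by_cases hb0 : b' = Bd.b0
  · subst hb0
    have hw0 : w = 0 := by simp only [Bd.val] at hb1; omega
    subst hw0
    have h9 : S'.look (cd fun j => fl (g j)) 0 = false := by
      rcases mem_last hg.last (x := f 14) with h8 | h8 <;> rw [h8.1] at h7 <;>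
        simpa only [leafR, force_eq, Bool.not_eq_true'] using h7
    rw [hw] at h9
    exact absurd h9 (by decide)
  · have h9 : S'.look (cd fun j => fl (g j)) 1 = false := by
      rcases mem_last hg.last (x := f 14) with h8 | h8 <;> rw [h8.1] at h7 <;>
        cases b' <;> first | exact absurd rfl hb0 | simpa only [leafR, force_eq, Bool.not_eq_true'] using h7
    rw [look_mono hw hw1] at h9
    exact absurd h9 (by decide)

/-- The search trees. -/
def SS : ℕ → Tr
  | 0 => S1
  | 1 => S2
  | 2 => S3
  | 3 => S4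
  | 4 => S5
  | 5 => S6
  | 6 => S7
  | 7 => S8
  | 8 => S9
  | 9 => S10
  | 10 => S11
  | 11 => S12
  | 12 => S13
  | 13 => S14
  | _ => S15

theorem chk_SS : ∀ k < 14, chk (SS k) (SS (k + 1)) = true := by
  intro k hk
  interval_cases k
  · exact c1
  · exact c2
  · exact c3
  · exact c4
  · exact c5
  · exact c6
  · exact c7
  · exact c8
  · exact c9
  · exact c10
  · exact c11
  · exact c12
  · exact c13
  · exact c14

theorem level {t : ℕ → ℕ → C} (h : Good t) : ∀ k ≤ 14, av t k ≤ 2 → (SS k).look (cd (t k)) (av t k) = true := by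
  intro k
  induction k with
  | zero =>
    intro _ h1
    exact first (h.row 0 (by omega)) h.top h1
  | succ k ih =>
    intro hk h1
    have h2 : av t (k + 1) = av t k + costA (t k) (t (k + 1)) := rfl
    rw [h2] at h1 ⊢
    exact step (chk_SS k (by omega)) (h.row (k + 1) (by omega)) (h.pair k (by omega))
      (ih (by omega) (by omega)) h1

theorem half {t : ℕ → ℕ → C} (h : Good t) (hO : ∑ i ∈ range 16, ct C.O (t i) 14 = 74) (h7 : av t 7 ≤ 2) : False := by
  have hmono : ∀ k, av t k ≤ av t (k + 1) := fun k => Nat.le_add_right _ _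
  -- pairs
  have hpair : ∀ i, 7 ≤ i → i ≤ 13 → av t i ≤ 2 → av t (i + 1) ≤ 2 := by
    intro i hi1 hi2 hi3
    by_contra hcon
    have h1 := split h hO i (by omega)
    have h2 : av (flip t) (14 - i) ≤ 1 := by omega
    have h3 := level (good_flip h) (14 - i) (by omega) (by omega)
    have h4 := level h i (by omega) hi3
    have h5 : flip t (14 - i) = fun j => fl (t (i + 1) j) := by
      funext j
      show fl (t (15 - (14 - i)) j) = fl (t (i + 1) j)
      congr 2
      omega
    rw [h5] at h3
    have h6 : av t (i + 1) = av t i + costA (t i) (t (i + 1)) := rfl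
    have hg := h.row (i + 1) (by omega)
    have hp := h.pair i (by omega)
    have h8 : 4 < av t i + costA (t i) (t (i + 1)) + av (flip t) (14 - i) := by
      interval_cases i
      · exact pairP p8 hg hp h4 h3 h2
      · exact pairP p9 hg hp h4 h3 h2
      · exact pairP p10 hg hp h4 h3 h2
      · exact pairP p11 hg hp h4 h3 h2
      · exact pairP p12 hg hp h4 h3 h2
      · exact pairR p13 hg hp h4 h3 h2
      · exact pairR p14 hg hp h4 h3 h2
    omega
  have h8 := hpair 7 (by omega) (by omega) h7
  have h9 := hpair 8 (by omega) (by omega) h8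
  have h10 := hpair 9 (by omega) (by omega) h9
  have h11 := hpair 10 (by omega) (by omega) h10
  have h12 := hpair 11 (by omega) (by omega) h11
  have h13 := hpair 12 (by omega) (by omega) h12
  have h14 := hpair 13 (by omega) (by omega) h13
  have hl := level h 14 (by omega) h14
  have h15 := lastE p15 (h.row 15 (by omega)) (h.pair 14 (by omega)) h.bot hl
  have hT := total h hO
  have h16 : av t 15 = av t 14 + costA (t 14) (t 15) := rfl
  have h17 := costE_eq (h.row 15 (by omega)) (h.pair 14 (by omega)) h.bot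
  have h18 := tv_eq ((good_flip h).row 0 (by omega)) (good_flip h).top
  have h19 : flip t 0 = fun j => fl (t 15 j) := rfl
  rw [h19] at h18 hT
  rw [ct_flT, ct_flL, ct_flO] at h18
  have h20 : (costE (t 14) (t 15) : ℤ) + (if t 15 14 = C.O then 0 else 1) =
      costA (t 14) (t 15) + tv (fun j => fl (t 15 j)) := by
    rw [h17, h18]
    split_ifs <;> ring
  have h21 : ((4 : ℕ) : ℤ) < ((av t 14 + costE (t 14) (t 15) + if t 15 14 = C.O then 0 else 1 : ℕ) : ℤ) := by
    exact_mod_cast h15
  push_cast at h21
  have h22 : ((av t 15 + tv (fun j => fl (t 15 j)) : ℕ) : ℤ) = 4 := by exact_mod_cast hT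
  rw [h16] at h22
  push_cast at h22
  linarith

/-- **No configuration has `74` holes.** -/
theorem main {t : ℕ → ℕ → C} (h : Good t) : ∑ i ∈ range 16, ct C.O (t i) 14 ≠ 74 := by
  intro hO
  have h1 := split h hO 7 (by omega)
  have hmono : av t 7 ≤ av t (7 + 1) := Nat.le_add_right _ _
  by_cases h2 : av t 7 ≤ 2
  · exact half h hO h2
  · refine half (good_flip h) ?_ (by show av (flip t) (14 - 7) ≤ 2; omega)
    rw [← hO]
    refine Finset.sum_bij (fun i _ => 15 - i) ?_ ?_ ?_ ?_
    · intro i hi
      have := Finset.mem_range.1 hi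
      exact Finset.mem_range.2 (by omega)
    · intro a ha b hb hab
      have h3 := Finset.mem_range.1 ha
      have h4 := Finset.mem_range.1 hb
      omega
    · intro b hb
      have h4 := Finset.mem_range.1 hb
      exact ⟨15 - b, Finset.mem_range.2 (by omega), by omega⟩
    · intro i _
      exact ct_flO (t (15 - i)) 14

/-- At most `72` holes. -/
theorem bound {t : ℕ → ℕ → C} (h : Good t) : ∑ i ∈ range 16, ct C.O (t i) 14 ≤ 72 := by
  have h1 := total_gen h
  obtain ⟨k, hk⟩ := even_holes h
  have h2 := main h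
  have h3 : (0 : ℤ) ≤ (av t 15 : ℤ) + tv (flip t 0) := add_nonneg (Int.natCast_nonneg _) (Int.natCast_nonneg _)
  rw [h1] at h3
  generalize ∑ i ∈ range 16, ct C.O (t i) 14 = z at *
  by_contra hcon
  apply h2
  omega

end Pool.Agent.L5helper11.GP
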