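import Pool.Agent.L5helper11.GP.Sound

/-!
Rows of gunport configurations on the board with `16` rows and `14` columns. The columns are numbered `1, …, 14`;
column `0` is filled with the letter `R`.
-/

set_option autoImplicit false

namespace Pool.Agent.L5helper11.GP

open Finset

/-- Turn a letter upside down. -/
def fl : C → C
  | C.T => C.B
  | C.B => C.T
  | c => c

/-- Conditions on one row. -/
structure RowOK (g : ℕ → C) : Prop where
  z : g 0 = C.R
  last : g 14 ≠ C.L
  lr : ∀ j < 14, (g j = C.L ↔ g (j + 1) = C.R)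
  oh : ∀ j < 14, ¬ (g j = C.O ∧ g (j + 1) = C.O)

/-- Conditions on two consecutive rows. -/
structure PairOK (f g : ℕ → C) : Prop where
  tb : ∀ j ≤ 14, (f j = C.T ↔ g j = C.B)
  ov : ∀ j ≤ 14, ¬ (f j = C.O ∧ g j = C.O)

/-- Number of letters `c` in the columns `1, …, J`. -/
def ct (c : C) (g : ℕ → C) (J : ℕ) : ℤ := ∑ i ∈ range J, if g (i + 1) = c then 1 else 0

/-- The word of a row. -/
def word (g : ℕ → C) : List C := (List.range' 1 14).map g

theorem word_length (g : ℕ → C) : (word g).length = 14 := by simp [word]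

/-- Costs of two consecutive rows. -/
def costA (f g : ℕ → C) : ℕ := ∑ i ∈ range 14, cA (mem (f i) (g i)) (f (i + 1)) (g (i + 1))

/-- Costs of the last two rows. -/
def costE (f g : ℕ → C) : ℕ := ∑ i ∈ range 14, cE (mem (f i) (g i)) (f (i + 1)) (g (i + 1))

/-- Costs of the first row. -/
def costF (g : ℕ → C) : ℕ := ∑ i ∈ range 14, cF (mem C.O (g i)) C.O (g (i + 1))

theorem ct_succ (c : C) (g : ℕ → C) (J : ℕ) : ct c g (J + 1) = ct c g J + if g (J + 1) = c then 1 else 0 := by
  unfold ct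
  rw [Finset.sum_range_succ]

set_option maxRecDepth 10000 in
theorem okA_of : ∀ x' y' x y : C, (x = C.T ↔ y = C.B) → ¬ (x = C.O ∧ y = C.O) → (y' = C.L ↔ y = C.R) →
    ¬ (y' = C.O ∧ y = C.O) → okA (mem x' y') x y := by decide +kernel

set_option maxRecDepth 10000 in
theorem okF_of : ∀ y' y : C, y ≠ C.B → (y' = C.L ↔ y = C.R) →
    ¬ (y' = C.O ∧ y = C.O) → okF (mem C.O y') C.O y := by decide +kernel

set_option maxRecDepth 10000 in
theorem stepA : ∀ x' y' x y : C, (x' = C.T ↔ y' = C.B) → ¬ (x' = C.O ∧ y' = C.O) → (x' = C.L ↔ x = C.R) →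
    ¬ (x' = C.O ∧ x = C.O) → okA (mem x' y') x y →
    (cA (mem x' y') x y : ℤ) = (if y = C.T then 1 else 0) + (if y = C.R then 1 else 0) - (if x = C.O then 1 else 0)
      + (if x = C.B then 1 else 0) + (if x = C.R then 1 else 0) - (if y = C.O then 1 else 0)
      + (if y = C.L ∧ x = C.O then 1 else 0) + (if x = C.L ∧ y = C.O then 1 else 0)
      - (if y' = C.L ∧ x' = C.O then 1 else 0) - (if x' = C.L ∧ y' = C.O then 1 else 0) := by decide +kernel

set_option maxRecDepth 10000 in
theorem stepE : ∀ x' y' x y : C, okE (mem x' y') x y →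
    (cE (mem x' y') x y : ℤ) = cA (mem x' y') x y + (if y = C.B then 1 else 0) + (if y = C.L then 1 else 0)
      - (if y = C.O then 1 else 0) + (if y = C.O then 1 else 0) - (if y' = C.O then 1 else 0) := by decide +kernel

set_option maxRecDepth 10000 in
theorem stepF : ∀ y' y : C, okF (mem C.O y') C.O y →
    (cF (mem C.O y') C.O y : ℤ) = (if y = C.T then 1 else 0) + (if y = C.L then 1 else 0)
      - (if y = C.O then 1 else 0) + (if y = C.O then 1 else 0) - (if y' = C.O then 1 else 0) := by decide +kernel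

theorem okA_row {f g : ℕ → C} (hg : RowOK g) (h : PairOK f g) {i : ℕ} (hi : i < 14) :
    okA (mem (f i) (g i)) (f (i + 1)) (g (i + 1)) :=
  okA_of _ _ _ _ (h.tb _ (by omega)) (h.ov _ (by omega)) (hg.lr i hi) (hg.oh i hi)

theorem ct_LR {g : ℕ → C} (hg : RowOK g) : ct C.L g 14 = ct C.R g 14 := by
  have h : ∀ J ≤ 14, ct C.L g J = ct C.R g J + if g J = C.L then 1 else 0 := by
    intro J
    induction J with
    | zero => intro _; simp [ct, hg.z]
    | succ J ih =>
      intro hJ
      rw [ct_succ, ct_succ, ih (by omega)]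
      have h1 := hg.lr J (by omega)
      by_cases h2 : g J = C.L
      · have h3 := h1.1 h2
        simp [h2, h3]
      · have h3 : g (J + 1) ≠ C.R := fun h => h2 (h1.2 h)
        simp [h2, h3]
  have h2 := h 14 le_rfl
  rw [if_neg hg.last] at h2
  simpa using h2

theorem costA_eq {f g : ℕ → C} (hf : RowOK f) (hg : RowOK g) (h : PairOK f g) :
    (costA f g : ℤ) = ct C.T g 14 + ct C.L g 14 - ct C.O f 14 + ct C.B f 14 + ct C.L f 14 - ct C.O g 14 := by
  have key : ∀ J ≤ 14, ((∑ i ∈ range J, cA (mem (f i) (g i)) (f (i + 1)) (g (i + 1)) : ℕ) : ℤ) =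
      ct C.T g J + ct C.R g J - ct C.O f J + ct C.B f J + ct C.R f J - ct C.O g J
        + (if g J = C.L ∧ f J = C.O then 1 else 0) + (if f J = C.L ∧ g J = C.O then 1 else 0) := by
    intro J
    induction J with
    | zero => intro _; simp [ct, hf.z, hg.z]
    | succ J ih =>
      intro hJ
      rw [Finset.sum_range_succ]
      push_cast
      have h1 := stepA (f J) (g J) (f (J + 1)) (g (J + 1)) (h.tb J (by omega)) (h.ov J (by omega))
        (hf.lr J (by omega)) (hf.oh J (by omega)) (okA_row hg h (by omega))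
      have h2 := ih (by omega)
      push_cast at h2
      rw [h2, h1]
      simp only [ct_succ]
      ring
  have h1 := key 14 le_rfl
  rw [if_neg (fun h => hg.last h.1), if_neg (fun h => hf.last h.1)] at h1
  rw [ct_LR hf, ct_LR hg]
  unfold costA
  rw [h1]
  ring

theorem costE_eq {f g : ℕ → C} (hg : RowOK g) (h : PairOK f g) (hT : ∀ j ≤ 14, g j ≠ C.T) :
    (costE f g : ℤ) = costA f g + ct C.B g 14 + ct C.L g 14 - ct C.O g 14 + if g 14 = C.O then 1 else 0 := by
  have key : ∀ J ≤ 14, ((∑ i ∈ range J, cE (mem (f i) (g i)) (f (i + 1)) (g (i + 1)) : ℕ) : ℤ) =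
      ((∑ i ∈ range J, cA (mem (f i) (g i)) (f (i + 1)) (g (i + 1)) : ℕ) : ℤ) +
      ct C.B g J + ct C.L g J - ct C.O g J + (if g J = C.O then 1 else 0) := by
    intro J
    induction J with
    | zero => intro _; simp [ct, hg.z]
    | succ J ih =>
      intro hJ
      rw [Finset.sum_range_succ, Finset.sum_range_succ]
      push_cast
      have h1 := stepE (f J) (g J) (f (J + 1)) (g (J + 1)) ⟨okA_row hg h (by omega), hT _ (by omega)⟩
      have h2 := ih (by omega)
      push_cast at h2
      rw [h2, h1]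
      simp only [ct_succ]
      ring
  exact key 14 le_rfl

theorem costF_eq {g : ℕ → C} (hg : RowOK g) (hB : ∀ j ≤ 14, g j ≠ C.B) :
    (costF g : ℤ) = ct C.T g 14 + ct C.L g 14 - ct C.O g 14 + if g 14 = C.O then 1 else 0 := by
  have key : ∀ J ≤ 14, ((∑ i ∈ range J, cF (mem C.O (g i)) C.O (g (i + 1)) : ℕ) : ℤ) =
      ct C.T g J + ct C.L g J - ct C.O g J + (if g J = C.O then 1 else 0) := by
    intro J
    induction J with
    | zero => intro _; simp [ct, hg.z]
    | succ J ih =>
      intro hJ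
      rw [Finset.sum_range_succ]
      push_cast
      have h1 := stepF (g J) (g (J + 1)) (okF_of _ _ (hB _ (by omega)) (hg.lr J (by omega)) (hg.oh J (by omega)))
      have h2 := ih (by omega)
      push_cast at h2
      rw [h2, h1]
      simp only [ct_succ]
      ring
  exact key 14 le_rfl

theorem ct_sum (g : ℕ → C) (J : ℕ) : ct C.O g J + ct C.L g J + ct C.R g J + ct C.T g J + ct C.B g J = J := by
  induction J with
  | zero => simp [ct]
  | succ J ih =>
    simp only [ct_succ]
    push_cast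
    rw [← ih]
    cases g (J + 1) <;> simp <;> ring

theorem ct_pair {f g : ℕ → C} (h : PairOK f g) : ct C.T f 14 = ct C.B g 14 := by
  unfold ct
  refine Finset.sum_congr rfl fun i hi => ?_
  have := h.tb (i + 1) (by have := Finset.mem_range.1 hi; omega)
  by_cases h1 : f (i + 1) = C.T
  · rw [if_pos h1, if_pos (this.1 h1)]
  · rw [if_neg h1, if_neg (fun h => h1 (this.2 h))]

theorem ct_zero {g : ℕ → C} {c : C} (h : ∀ j ≤ 14, g j ≠ c) : ct c g 14 = 0 := by
  unfold ct
  refine Finset.sum_eq_zero fun i hi => ?_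
  rw [if_neg (h (i + 1) (by have := Finset.mem_range.1 hi; omega))]

theorem fl_eq (c d : C) : fl c = d ↔ c = fl d := by cases c <;> cases d <;> decide

theorem ct_fl (c : C) (g : ℕ → C) (J : ℕ) : ct c (fun j => fl (g j)) J = ct (fl c) g J := by
  unfold ct
  refine Finset.sum_congr rfl fun i _ => ?_
  simp only [fl_eq]

theorem ct_flO (g : ℕ → C) (J : ℕ) : ct C.O (fun j => fl (g j)) J = ct C.O g J := ct_fl C.O g J

theorem ct_flL (g : ℕ → C) (J : ℕ) : ct C.L (fun j => fl (g j)) J = ct C.L g J := ct_fl C.L g J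

theorem ct_flT (g : ℕ → C) (J : ℕ) : ct C.T (fun j => fl (g j)) J = ct C.B g J := ct_fl C.T g J

theorem ct_flB (g : ℕ → C) (J : ℕ) : ct C.B (fun j => fl (g j)) J = ct C.T g J := ct_fl C.B g J

/-- Value of a first row. -/
def tv (g : ℕ → C) : ℕ := costF g + if g 14 = C.O then 0 else 1

theorem tv_eq {g : ℕ → C} (hg : RowOK g) (hB : ∀ j ≤ 14, g j ≠ C.B) :
    (tv g : ℤ) = ct C.T g 14 + ct C.L g 14 - ct C.O g 14 + 1 := by
  unfold tv
  push_cast
  rw [costF_eq hg hB]
  split_ifs <;> ring

/-- The value of the rows `0, …, k`. -/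
def av (t : ℕ → ℕ → C) : ℕ → ℕ
  | 0 => tv (t 0)
  | k + 1 => av t k + costA (t k) (t (k + 1))

/-- The conditions on a configuration with `16` rows. -/
structure Good (t : ℕ → ℕ → C) : Prop where
  row : ∀ i < 16, RowOK (t i)
  pair : ∀ i < 15, PairOK (t i) (t (i + 1))
  top : ∀ j ≤ 14, t 0 j ≠ C.B
  bot : ∀ j ≤ 14, t 15 j ≠ C.T

/-- Turn upside down. -/
def flip (t : ℕ → ℕ → C) : ℕ → ℕ → C := fun i j => fl (t (15 - i) j)

theorem fl_fl (c : C) : fl (fl c) = c := by cases c <;> rfl

theorem rowOK_fl {g : ℕ → C} (h : RowOK g) : RowOK (fun j => fl (g j)) := by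
  refine ⟨?_, ?_, ?_, ?_⟩
  · show fl (g 0) = C.R
    rw [h.z]; rfl
  · show fl (g 14) ≠ C.L
    rw [Ne, fl_eq]; exact h.last
  · intro j hj
    show fl (g j) = C.L ↔ fl (g (j + 1)) = C.R
    rw [fl_eq, fl_eq]; exact h.lr j hj
  · intro j hj
    show ¬ (fl (g j) = C.O ∧ fl (g (j + 1)) = C.O)
    rw [fl_eq, fl_eq]; exact h.oh j hj

theorem pairOK_fl {f g : ℕ → C} (h : PairOK f g) : PairOK (fun j => fl (g j)) (fun j => fl (f j)) := by
  refine ⟨?_, ?_⟩
  · intro j hj
    show fl (g j) = C.T ↔ fl (f j) = C.B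
    rw [fl_eq, fl_eq]; exact (h.tb j hj).symm
  · intro j hj
    show ¬ (fl (g j) = C.O ∧ fl (f j) = C.O)
    rw [fl_eq, fl_eq]; exact fun h1 => h.ov j hj ⟨h1.2, h1.1⟩

theorem good_flip {t : ℕ → ℕ → C} (h : Good t) : Good (flip t) := by
  refine ⟨?_, ?_, ?_, ?_⟩
  · intro i hi
    exact rowOK_fl (h.row (15 - i) (by omega))
  · intro i hi
    have h1 := pairOK_fl (h.pair (14 - i) (by omega))
    have h2 : 14 - i + 1 = 15 - i := by omega
    rw [h2] at h1
    have h3 : 15 - (i + 1) = 14 - i := by omega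
    show PairOK (fun j => fl (t (15 - i) j)) (fun j => fl (t (15 - (i + 1)) j))
    rw [h3]
    exact h1
  · intro j hj
    show fl (t (15 - 0) j) ≠ C.B
    rw [Ne, fl_eq]
    exact h.bot j hj
  · intro j hj
    show fl (t (15 - 15) j) ≠ C.T
    rw [Ne, fl_eq]
    exact h.top j hj

theorem flip_flip (t : ℕ → ℕ → C) {i : ℕ} (hi : i ≤ 15) : flip (flip t) i = t i := by
  funext j
  show fl (fl (t (15 - (15 - i)) j)) = t i j
  rw [fl_fl]
  congr 1
  omega

/-- Costs are symmetric. -/
theorem costA_fl {f g : ℕ → C} (hf : RowOK f) (hg : RowOK g) (h : PairOK f g) :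
    costA (fun j => fl (g j)) (fun j => fl (f j)) = costA f g := by
  have h1 := costA_eq hf hg h
  have h2 := costA_eq (rowOK_fl hg) (rowOK_fl hf) (pairOK_fl h)
  rw [ct_flT, ct_flL, ct_flO, ct_flB, ct_flL, ct_flO] at h2
  have : (costA (fun j => fl (g j)) (fun j => fl (f j)) : ℤ) = costA f g := by
    rw [h1, h2]; ring
  exact_mod_cast this

theorem av_eq {t : ℕ → ℕ → C} (h : Good t) : ∀ k ≤ 15, (av t k : ℤ) =
    ∑ i ∈ range (k + 1), (14 - 3 * ct C.O (t i) 14) + 1 + ct C.O (t k) 14 - ct C.L (t k) 14 - ct C.B (t k) 14 := by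
  intro k
  induction k with
  | zero =>
    intro _
    have h1 := tv_eq (h.row 0 (by omega)) h.top
    have h2 := ct_zero h.top
    have h3 := ct_sum (t 0) 14
    have h4 := ct_LR (h.row 0 (by omega))
    simp only [av, zero_add, Finset.sum_range_one]
    push_cast at h3
    linarith
  | succ k ih =>
    intro hk
    have h1 := costA_eq (h.row k (by omega)) (h.row (k + 1) (by omega)) (h.pair k (by omega))
    have h3 := ct_sum (t (k + 1)) 14
    have h4 := ct_LR (h.row (k + 1) (by omega))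
    have h5 := ih (by omega)
    rw [Finset.sum_range_succ]
    simp only [av]
    push_cast at h3 ⊢
    linarith

theorem total_gen {t : ℕ → ℕ → C} (h : Good t) :
    (av t 15 : ℤ) + tv (flip t 0) = 226 - 3 * ∑ i ∈ range 16, ct C.O (t i) 14 := by
  have h1 := av_eq h 15 le_rfl
  have h2 := tv_eq ((good_flip h).row 0 (by omega)) (good_flip h).top
  have h3 : flip t 0 = fun j => fl (t 15 j) := rfl
  rw [h3] at h2 ⊢
  rw [ct_flT, ct_flL, ct_flO] at h2
  have h4 : ∑ i ∈ range (15 + 1), ((14 : ℤ) - 3 * ct C.O (t i) 14) =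
      224 - 3 * ∑ i ∈ range 16, ct C.O (t i) 14 := by
    rw [Finset.sum_sub_distrib, ← Finset.mul_sum]
    simp
  rw [h4] at h1
  rw [h1, h2]; ring

theorem total {t : ℕ → ℕ → C} (h : Good t) (hO : ∑ i ∈ range 16, ct C.O (t i) 14 = 74) :
    av t 15 + tv (flip t 0) = 4 := by
  have h1 := total_gen h
  rw [hO] at h1
  have h5 : (av t 15 : ℤ) + tv (flip t 0) = 4 := by rw [h1]; norm_num
  exact_mod_cast h5

/-- The number of holes is even. -/
theorem even_holes {t : ℕ → ℕ → C} (h : Good t) : ∃ k : ℤ, ∑ i ∈ range 16, ct C.O (t i) 14 = 224 - 2 * k := by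
  refine ⟨∑ i ∈ range 16, (ct C.L (t i) 14 + ct C.T (t i) 14), ?_⟩
  have h1 : ∑ i ∈ range 16, ct C.T (t i) 14 = ∑ i ∈ range 16, ct C.B (t i) 14 := by
    rw [Finset.sum_range_succ, Finset.sum_range_succ' (fun i => ct C.B (t i) 14), ct_zero h.bot, ct_zero h.top]
    congr 1
    exact Finset.sum_congr rfl fun i hi => ct_pair (h.pair i (Finset.mem_range.1 hi))
  have h2 : ∀ i ∈ range 16, ct C.O (t i) 14 = 14 - 2 * ct C.L (t i) 14 - ct C.T (t i) 14 - ct C.B (t i) 14 := by
    intro i hi
    have h3 := ct_sum (t i) 14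
    have h4 := ct_LR (h.row i (Finset.mem_range.1 hi))
    push_cast at h3
    linarith
  rw [Finset.sum_congr rfl h2, Finset.sum_sub_distrib, Finset.sum_sub_distrib, Finset.sum_sub_distrib,
    ← Finset.mul_sum, ← h1, Finset.sum_add_distrib]
  simp
  ring

theorem split {t : ℕ → ℕ → C} (h : Good t) (hO : ∑ i ∈ range 16, ct C.O (t i) 14 = 74) :
    ∀ i ≤ 14, av t (i + 1) + av (flip t) (14 - i) = 4 := by
  have key : ∀ r ≤ 14, av t (14 - r + 1) + av (flip t) r = 4 := by
    intro r
    induction r with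
    | zero =>
      intro _
      exact total h hO
    | succ r ih =>
      intro hr
      have h1 := ih (by omega)
      have h2 : av (flip t) (r + 1) = av (flip t) r + costA (flip t r) (flip t (r + 1)) := rfl
      have h3 : costA (flip t r) (flip t (r + 1)) = costA (t (14 - r)) (t (14 - r + 1)) := by
        have h4 := costA_fl (h.row (14 - r) (by omega)) (h.row (14 - r + 1) (by omega)) (h.pair (14 - r) (by omega))
        rw [← h4]
        have h5 : 14 - r + 1 = 15 - r := by omega
        have h6 : 15 - (r + 1) = 14 - r := by omega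
        show costA (fun j => fl (t (15 - r) j)) (fun j => fl (t (15 - (r + 1)) j)) = _
        rw [h5, h6]
      have h7 : 14 - r + 1 = (14 - (r + 1) + 1) + 1 := by omega
      have h8 : av t (14 - r + 1) = av t (14 - r) + costA (t (14 - r)) (t (14 - r + 1)) := rfl
      have h9 : 14 - (r + 1) + 1 = 14 - r := by omega
      rw [h9, h2, h3]
      omega
  intro i hi
  have h1 := key (14 - i) (by omega)
  have h2 : 14 - (14 - i) = i := by omega
  rwa [h2] at h1

end Pool.Agent.L5helper11.GP
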