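import Pool.Agent.L5helper11.GP.Def

/-! Certificate, level 1. -/

set_option autoImplicit false

namespace Pool.Agent.L5helper11.GP

open Tr in
/-- The words at level 1 with their values. -/
def S1 : Tr := (N (N (N (N (N (N (N (N (N (N E (nat_lit 86067446403) (nat_lit 1) E) (nat_lit 86067446410) (nat_lit 2) (N E (nat_lit 86067446424) (nat_lit 1) E)) (nat_lit 86067447306) (nat_lit 1) (N (N E (nat_lit 86067447320) (nat_lit 0) E) (nat_lit 86067447323) (nat_lit 2) E)) (nat_lit 86067447376) (nat_lit 1) (N (N (N E (nat_lit 86067447491) (nat_lit 2) E) (nat_lit 86067447512) (nat_lit 2) E) (nat_lit 86067450890) (nat_lit 2) (N (N E (nat_lit 86067450904) (nat_lit 1) E) (nat_lit 86067450960) (nat_lit 2) E))) (nat_lit 86067458128) (nat_lit 1) (N (N (N (N E (nat_lit 86067458243) (nat_lit 2) E) (nat_lit 86067458264) (nat_lit 2) E) (nat_lit 86067459608) (nat_lit 2) (N (N E (nat_lit 86067909642) (nat_lit 1) E) (nat_lit 86067909656) (nat_lit 0) E)) (nat_lit 86067909659) (nat_lit 2)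 (N (N (N E (nat_lit 86067909712) (nat_lit 1) E) (nat_lit 86067909827) (nat_lit 2) E) (nat_lit 86067909848) (nat_lit 2) (N (N E (nat_lit 86067916880) (nat_lit 0) E) (nat_lit 86067916883) (nat_lit 2) E)))) (nat_lit 86067916995) (nat_lit 1) (N (N (N (N (N E (nat_lit 86067917002) (nat_lit 2) E) (nat_lit 86067917016) (nat_lit 1) (N E (nat_lit 86067917443) (nat_lit 2) E)) (nat_lit 86067917464) (nat_lit 2) (N (N E (nat_lit 86067918346) (nat_lit 2) E) (nat_lit 86067918360) (nat_lit 1) E)) (nat_lit 86067918416) (nat_lit 2) (N (N (N E (nat_lit 86067945552) (nat_lit 1) E) (nat_lit 86067945667) (nat_lit 2) E) (nat_lit 86067945688) (nat_lit 2) (N (N E (nat_lit 86067947032) (nat_lit 2) E) (nat_lit 86068003459) (nat_lit 2) E))) (nat_lit 86068003480) (nat_lit 2) (N (N (N (N E (nat_lit 86068004362) (nat_lit 2) E) (nat_lit 86068004376) (nat_lit 1) E) (nat_lit 86068004432) (nat_lit 2) (N (N E (nat_lit 86068007960) (nat_lit 2) E) (nat_lit 86068015184) (nat_lit 2) E)) (nat_lit 86069744650)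 (nat_lit 2) (N (N (N E (nat_lit 86069744664) (nat_lit 1) E) (nat_lit 86069744720) (nat_lit 2) E) (nat_lit 86069751888) (nat_lit 1) (N (N E (nat_lit 86069752003) (nat_lit 2) E) (nat_lit 86069752024) (nat_lit 2) E)))))
 (nat_lit 86069753368) (nat_lit 2) (N (N (N (N (N (N E (nat_lit 86069780560) (nat_lit 2) E) (nat_lit 86069839384) (nat_lit 2) (N E (nat_lit 86073450576) (nat_lit 1) E)) (nat_lit 86073450691) (nat_lit 2) (N (N E (nat_lit 86073450712) (nat_lit 2) E) (nat_lit 86073452056) (nat_lit 2) E)) (nat_lit 86073508483) (nat_lit 2) (N (N (N E (nat_lit 86073508504) (nat_lit 2) E) (nat_lit 86073509386) (nat_lit 2) E) (nat_lit 86073509400) (nat_lit 1) (N (N E (nat_lit 86073509456) (nat_lit 2) E) (nat_lit 86073512984) (nat_lit 2) E))) (nat_lit 86073520208) (nat_lit 2) (N (N (N (N E (nat_lit 86073738776) (nat_lit 2) E) (nat_lit 86074201112) (nat_lit 2) E) (nat_lit 86074208336) (nat_lit 2) (N (N E (nat_lit 86304625674) (nat_lit 1) E) (nat_lit 86304625688) (nat_lit 0) E))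 (nat_lit 86304625691) (nat_lit 2) (N (N (N E (nat_lit 86304625744) (nat_lit 1) E) (nat_lit 86304625859) (nat_lit 2) E) (nat_lit 86304625880) (nat_lit 2) (N (N E (nat_lit 86304632912) (nat_lit 0) E) (nat_lit 86304632915) (nat_lit 2) E)))) (nat_lit 86304633027) (nat_lit 1) (N (N (N (N (N E (nat_lit 86304633034) (nat_lit 2) E) (nat_lit 86304633048) (nat_lit 1) E) (nat_lit 86304633475) (nat_lit 2) (N (N E (nat_lit 86304633496) (nat_lit 2) E) (nat_lit 86304634378) (nat_lit 2) E)) (nat_lit 86304634392) (nat_lit 1) (N (N (N E (nat_lit 86304634448) (nat_lit 2) E) (nat_lit 86304661584) (nat_lit 1) E) (nat_lit 86304661699) (nat_lit 2) (N (N E (nat_lit 86304661720) (nat_lit 2) E) (nat_lit 86304663064) (nat_lit 2) E))) (nat_lit 86304719491) (nat_lit 2) (N (N (N (N E (nat_lit 86304719512) (nat_lit 2) E) (nat_lit 86304720394) (nat_lit 2) E) (nat_lit 86304720408) (nat_lit 1) (N (N E (nat_lit 86304720464) (nat_lit 2) E) (nat_lit 86304723992) (nat_lit 2) E)) (nat_lit 86304731216) (nat_lit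 2) (N (N (N E (nat_lit 86308331600) (nat_lit 0) E) (nat_lit 86308331603) (nat_lit 2) E) (nat_lit 86308331715) (nat_lit 1) (N (N E (nat_lit 86308331722) (nat_lit 2) E) (nat_lit 86308331736) (nat_lit 1) E)))))
)
 (nat_lit 86308332163) (nat_lit 2) (N (N (N (N (N (N (N E (nat_lit 86308332184) (nat_lit 2) E) (nat_lit 86308333066) (nat_lit 2) (N E (nat_lit 86308333080) (nat_lit 1) E)) (nat_lit 86308333136) (nat_lit 2) (N (N E (nat_lit 86308389507) (nat_lit 1) E) (nat_lit 86308389514) (nat_lit 2) E)) (nat_lit 86308389528) (nat_lit 1) (N (N (N E (nat_lit 86308390410) (nat_lit 1) E) (nat_lit 86308390424) (nat_lit 0) E) (nat_lit 86308390427) (nat_lit 2) (N (N E (nat_lit 86308390480) (nat_lit 1) E) (nat_lit 86308390595) (nat_lit 2) E))) (nat_lit 86308390616) (nat_lit 2) (N (N (N (N E (nat_lit 86308393994) (nat_lit 2) E) (nat_lit 86308394008) (nat_lit 1) E) (nat_lit 86308394064) (nat_lit 2) (N (N E (nat_lit 86308401232) (nat_lit 1) E) (nat_lit 86308401347) (nat_lit 2) E)) (nat_lit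 86308401368) (nat_lit 2) (N (N (N E (nat_lit 86308402712) (nat_lit 2) E) (nat_lit 86308618883) (nat_lit 2) E) (nat_lit 86308618904) (nat_lit 2) (N (N E (nat_lit 86308619786) (nat_lit 2) E) (nat_lit 86308619800) (nat_lit 1) E)))) (nat_lit 86308619856) (nat_lit 2) (N (N (N (N (N E (nat_lit 86308623384) (nat_lit 2) E) (nat_lit 86308630608) (nat_lit 2) (N E (nat_lit 86309082122) (nat_lit 2) E)) (nat_lit 86309082136) (nat_lit 1) (N (N E (nat_lit 86309082192) (nat_lit 2) E) (nat_lit 86309089360) (nat_lit 1) E)) (nat_lit 86309089475) (nat_lit 2) (N (N (N E (nat_lit 86309089496) (nat_lit 2) E) (nat_lit 86309090840) (nat_lit 2) E) (nat_lit 86309118032) (nat_lit 2) (N (N E (nat_lit 86309176856) (nat_lit 2) E) (nat_lit 86323011664) (nat_lit 1) E))) (nat_lit 86323011779) (nat_lit 2) (N (N (N (N E (nat_lit 86323011800) (nat_lit 2) E) (nat_lit 86323013144) (nat_lit 2) E) (nat_lit 86323069571) (nat_lit 2) (N (N E (nat_lit 86323069592) (nat_lit 2) E) (nat_lit 86323070474) (nat_lit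 2) E)) (nat_lit 86323070488) (nat_lit 1) (N (N (N E (nat_lit 86323070544) (nat_lit 2) E) (nat_lit 86323074072) (nat_lit 2) E) (nat_lit 86323081296) (nat_lit 2) (N (N E (nat_lit 86323299864) (nat_lit 2) E) (nat_lit 86323762200) (nat_lit 2) E)))))
 (nat_lit 86323769424) (nat_lit 2) (N (N (N (N (N (N E (nat_lit 86352659075) (nat_lit 2) E) (nat_lit 86352659096) (nat_lit 2) (N E (nat_lit 86352659978) (nat_lit 2) E)) (nat_lit 86352659992) (nat_lit 1) (N (N E (nat_lit 86352660048) (nat_lit 2) E) (nat_lit 86352663576) (nat_lit 2) E)) (nat_lit 86352670800) (nat_lit 2) (N (N (N E (nat_lit 86353122314) (nat_lit 2) E) (nat_lit 86353122328) (nat_lit 1) E) (nat_lit 86353122384) (nat_lit 2) (N (N E (nat_lit 86353129552) (nat_lit 1) E) (nat_lit 86353129667) (nat_lit 2) E))) (nat_lit 86353129688) (nat_lit 2) (N (N (N (N E (nat_lit 86353131032) (nat_lit 2) E) (nat_lit 86353158224) (nat_lit 2) E) (nat_lit 86353217048) (nat_lit 2) (N (N E (nat_lit 86354957336) (nat_lit 2) E) (nat_lit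 86354964560) (nat_lit 2) E)) (nat_lit 86358663248) (nat_lit 2) (N (N (N E (nat_lit 86358722072) (nat_lit 2) E) (nat_lit 87244149770) (nat_lit 2) E) (nat_lit 87244149784) (nat_lit 1) (N (N E (nat_lit 87244149840) (nat_lit 2) E) (nat_lit 87244157008) (nat_lit 1) E)))) (nat_lit 87244157123) (nat_lit 2) (N (N (N (N (N E (nat_lit 87244157144) (nat_lit 2) E) (nat_lit 87244158488) (nat_lit 2) E) (nat_lit 87244185680) (nat_lit 2) (N (N E (nat_lit 87244244504) (nat_lit 2) E) (nat_lit 87247855696) (nat_lit 1) E)) (nat_lit 87247855811) (nat_lit 2) (N (N (N E (nat_lit 87247855832) (nat_lit 2) E) (nat_lit 87247857176) (nat_lit 2) E) (nat_lit 87247913603) (nat_lit 2) (N (N E (nat_lit 87247913624) (nat_lit 2) E) (nat_lit 87247914506) (nat_lit 2) E))) (nat_lit 87247914520) (nat_lit 1) (N (N (N (N E (nat_lit 87247914576) (nat_lit 2) E) (nat_lit 87247918104) (nat_lit 2) E) (nat_lit 87247925328) (nat_lit 2) (N (N E (nat_lit 87248143896) (nat_lit 2) E) (nat_lit 87248606232) (nat_lit 2)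 E)) (nat_lit 87248613456) (nat_lit 2) (N (N (N E (nat_lit 87262535760) (nat_lit 2) E) (nat_lit 87262594584) (nat_lit 2) E) (nat_lit 87292184088) (nat_lit 2) (N (N E (nat_lit 87292646424) (nat_lit 2) E) (nat_lit 87292653648) (nat_lit 2) E)))))
)
)
 (nat_lit 89141583952) (nat_lit 1) (N (N (N (N (N (N (N (N E (nat_lit 89141584067) (nat_lit 2) E) (nat_lit 89141584088) (nat_lit 2) (N E (nat_lit 89141585432) (nat_lit 2) E)) (nat_lit 89141641859) (nat_lit 2) (N (N E (nat_lit 89141641880) (nat_lit 2) E) (nat_lit 89141642762) (nat_lit 2) E)) (nat_lit 89141642776) (nat_lit 1) (N (N (N E (nat_lit 89141642832) (nat_lit 2) E) (nat_lit 89141646360) (nat_lit 2) E) (nat_lit 89141653584) (nat_lit 2) (N (N E (nat_lit 89141872152) (nat_lit 2) E) (nat_lit 89142334488) (nat_lit 2) E))) (nat_lit 89142341712) (nat_lit 2) (N (N (N (N E (nat_lit 89171231363) (nat_lit 2) E) (nat_lit 89171231384) (nat_lit 2) E) (nat_lit 89171232266) (nat_lit 2) (N (N E (nat_lit 89171232280) (nat_lit 1) E) (nat_lit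 89171232336) (nat_lit 2) E)) (nat_lit 89171235864) (nat_lit 2) (N (N (N E (nat_lit 89171243088) (nat_lit 2) E) (nat_lit 89171694602) (nat_lit 2) E) (nat_lit 89171694616) (nat_lit 1) (N (N E (nat_lit 89171694672) (nat_lit 2) E) (nat_lit 89171701840) (nat_lit 1) E)))) (nat_lit 89171701955) (nat_lit 2) (N (N (N (N (N E (nat_lit 89171701976) (nat_lit 2) E) (nat_lit 89171703320) (nat_lit 2) (N E (nat_lit 89171730512) (nat_lit 2) E)) (nat_lit 89171789336) (nat_lit 2) (N (N E (nat_lit 89173529624) (nat_lit 2) E) (nat_lit 89173536848) (nat_lit 2) E)) (nat_lit 89177235536) (nat_lit 2) (N (N (N E (nat_lit 89177294360) (nat_lit 2) E) (nat_lit 89288672792) (nat_lit 2) E) (nat_lit 89289135128) (nat_lit 2) (N (N E (nat_lit 89289142352) (nat_lit 2) E) (nat_lit 89525851160) (nat_lit 2) E))) (nat_lit 89525858384) (nat_lit 2) (N (N (N (N E (nat_lit 89529557072) (nat_lit 2) E) (nat_lit 89529615896) (nat_lit 2) E) (nat_lit 207503234058) (nat_lit 1) (N (N E (nat_lit 207503234072) (nat_lit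 0) E) (nat_lit 207503234075) (nat_lit 2) E)) (nat_lit 207503234128) (nat_lit 1) (N (N (N E (nat_lit 207503234243) (nat_lit 2) E) (nat_lit 207503234264) (nat_lit 2) E) (nat_lit 207503241296) (nat_lit 0) (N (N E (nat_lit 207503241299) (nat_lit 2) E) (nat_lit 207503241411) (nat_lit 1) E)))))
 (nat_lit 207503241418) (nat_lit 2) (N (N (N (N (N (N E (nat_lit 207503241432) (nat_lit 1) E) (nat_lit 207503241859) (nat_lit 2) (N E (nat_lit 207503241880) (nat_lit 2) E)) (nat_lit 207503242762) (nat_lit 2) (N (N E (nat_lit 207503242776) (nat_lit 1) E) (nat_lit 207503242832) (nat_lit 2) E)) (nat_lit 207503269968) (nat_lit 1) (N (N (N E (nat_lit 207503270083) (nat_lit 2) E) (nat_lit 207503270104) (nat_lit 2) E) (nat_lit 207503271448) (nat_lit 2) (N (N E (nat_lit 207503327875) (nat_lit 2) E) (nat_lit 207503327896) (nat_lit 2) E))) (nat_lit 207503328778) (nat_lit 2) (N (N (N (N E (nat_lit 207503328792) (nat_lit 1) E) (nat_lit 207503328848) (nat_lit 2) E) (nat_lit 207503332376) (nat_lit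 2) (N (N E (nat_lit 207503339600) (nat_lit 2) E) (nat_lit 207506939984) (nat_lit 0) E)) (nat_lit 207506939987) (nat_lit 2) (N (N (N E (nat_lit 207506940099) (nat_lit 1) E) (nat_lit 207506940106) (nat_lit 2) E) (nat_lit 207506940120) (nat_lit 1) (N (N E (nat_lit 207506940547) (nat_lit 2) E) (nat_lit 207506940568) (nat_lit 2) E)))) (nat_lit 207506941450) (nat_lit 2) (N (N (N (N (N E (nat_lit 207506941464) (nat_lit 1) E) (nat_lit 207506941520) (nat_lit 2) E) (nat_lit 207506997891) (nat_lit 1) (N (N E (nat_lit 207506997898) (nat_lit 2) E) (nat_lit 207506997912) (nat_lit 1) E)) (nat_lit 207506998794) (nat_lit 1) (N (N (N E (nat_lit 207506998808) (nat_lit 0) E) (nat_lit 207506998811) (nat_lit 2) E) (nat_lit 207506998864) (nat_lit 1) (N (N E (nat_lit 207506998979) (nat_lit 2) E) (nat_lit 207506999000) (nat_lit 2) E))) (nat_lit 207507002378) (nat_lit 2) (N (N (N (N E (nat_lit 207507002392) (nat_lit 1) E) (nat_lit 207507002448) (nat_lit 2) E) (nat_lit 207507009616) (nat_lit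 1) (N (N E (nat_lit 207507009731) (nat_lit 2) E) (nat_lit 207507009752) (nat_lit 2) E)) (nat_lit 207507011096) (nat_lit 2) (N (N (N E (nat_lit 207507227267) (nat_lit 2) E) (nat_lit 207507227288) (nat_lit 2) E) (nat_lit 207507228170) (nat_lit 2) (N (N E (nat_lit 207507228184) (nat_lit 1) E) (nat_lit 207507228240) (nat_lit 2) E)))))
)
 (nat_lit 207507231768) (nat_lit 2) (N (N (N (N (N (N (N E (nat_lit 207507238992) (nat_lit 2) E) (nat_lit 207507690506) (nat_lit 2) (N E (nat_lit 207507690520) (nat_lit 1) E)) (nat_lit 207507690576) (nat_lit 2) (N (N E (nat_lit 207507697744) (nat_lit 1) E) (nat_lit 207507697859) (nat_lit 2) E)) (nat_lit 207507697880) (nat_lit 2) (N (N (N E (nat_lit 207507699224) (nat_lit 2) E) (nat_lit 207507726416) (nat_lit 2) E) (nat_lit 207507785240) (nat_lit 2) (N (N E (nat_lit 207521620048) (nat_lit 1) E) (nat_lit 207521620163) (nat_lit 2) E))) (nat_lit 207521620184) (nat_lit 2) (N (N (N (N E (nat_lit 207521621528) (nat_lit 2) E) (nat_lit 207521677955)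 (nat_lit 2) E) (nat_lit 207521677976) (nat_lit 2) (N (N E (nat_lit 207521678858) (nat_lit 2) E) (nat_lit 207521678872) (nat_lit 1) E)) (nat_lit 207521678928) (nat_lit 2) (N (N (N E (nat_lit 207521682456) (nat_lit 2) E) (nat_lit 207521689680) (nat_lit 2) E) (nat_lit 207521908248) (nat_lit 2) (N (N E (nat_lit 207522370584) (nat_lit 2) E) (nat_lit 207522377808) (nat_lit 2) E)))) (nat_lit 207551267459) (nat_lit 2) (N (N (N (N (N E (nat_lit 207551267480) (nat_lit 2) E) (nat_lit 207551268362) (nat_lit 2) (N E (nat_lit 207551268376) (nat_lit 1) E)) (nat_lit 207551268432) (nat_lit 2) (N (N E (nat_lit 207551271960) (nat_lit 2) E) (nat_lit 207551279184) (nat_lit 2) E)) (nat_lit 207551730698) (nat_lit 2) (N (N (N E (nat_lit 207551730712) (nat_lit 1) E) (nat_lit 207551730768) (nat_lit 2) E) (nat_lit 207551737936) (nat_lit 1) (N (N E (nat_lit 207551738051) (nat_lit 2) E) (nat_lit 207551738072) (nat_lit 2) E))) (nat_lit 207551739416) (nat_lit 2) (N (N (N (N E (nat_lit 207551766608)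 (nat_lit 2) E) (nat_lit 207551825432) (nat_lit 2) E) (nat_lit 207553565720) (nat_lit 2) (N (N E (nat_lit 207553572944) (nat_lit 2) E) (nat_lit 207557271632) (nat_lit 2) E)) (nat_lit 207557330456) (nat_lit 2) (N (N (N E (nat_lit 209400668240) (nat_lit 0) E) (nat_lit 209400668243) (nat_lit 2) E) (nat_lit 209400668355) (nat_lit 1) (N (N E (nat_lit 209400668362) (nat_lit 2) E) (nat_lit 209400668376) (nat_lit 1) E)))))
 (nat_lit 209400668803) (nat_lit 2) (N (N (N (N (N (N E (nat_lit 209400668824) (nat_lit 2) E) (nat_lit 209400669706) (nat_lit 2) (N E (nat_lit 209400669720) (nat_lit 1) E)) (nat_lit 209400669776) (nat_lit 2) (N (N E (nat_lit 209400726147) (nat_lit 1) E) (nat_lit 209400726154) (nat_lit 2) E)) (nat_lit 209400726168) (nat_lit 1) (N (N (N E (nat_lit 209400727050) (nat_lit 1) E) (nat_lit 209400727064) (nat_lit 0) E) (nat_lit 209400727067) (nat_lit 2) (N (N E (nat_lit 209400727120) (nat_lit 1) E) (nat_lit 209400727235) (nat_lit 2) E))) (nat_lit 209400727256) (nat_lit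 2) (N (N (N (N E (nat_lit 209400730634) (nat_lit 2) E) (nat_lit 209400730648) (nat_lit 1) E) (nat_lit 209400730704) (nat_lit 2) (N (N E (nat_lit 209400737872) (nat_lit 1) E) (nat_lit 209400737987) (nat_lit 2) E)) (nat_lit 209400738008) (nat_lit 2) (N (N (N E (nat_lit 209400739352) (nat_lit 2) E) (nat_lit 209400955523) (nat_lit 2) E) (nat_lit 209400955544) (nat_lit 2) (N (N E (nat_lit 209400956426) (nat_lit 2) E) (nat_lit 209400956440) (nat_lit 1) E)))) (nat_lit 209400956496) (nat_lit 2) (N (N (N (N (N E (nat_lit 209400960024) (nat_lit 2) E) (nat_lit 209400967248) (nat_lit 2) E) (nat_lit 209401418762) (nat_lit 2) (N (N E (nat_lit 209401418776) (nat_lit 1) E) (nat_lit 209401418832) (nat_lit 2) E)) (nat_lit 209401426000) (nat_lit 1) (N (N (N E (nat_lit 209401426115) (nat_lit 2) E) (nat_lit 209401426136) (nat_lit 2) E) (nat_lit 209401427480) (nat_lit 2) (N (N E (nat_lit 209401454672) (nat_lit 2) E) (nat_lit 209401513496) (nat_lit 2) E))) (nat_lit 209430315651) (nat_lit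 1) (N (N (N (N E (nat_lit 209430315658) (nat_lit 2) E) (nat_lit 209430315672) (nat_lit 1) E) (nat_lit 209430316554) (nat_lit 1) (N (N E (nat_lit 209430316568) (nat_lit 0) E) (nat_lit 209430316571) (nat_lit 2) E)) (nat_lit 209430316624) (nat_lit 1) (N (N (N E (nat_lit 209430316739) (nat_lit 2) E) (nat_lit 209430316760) (nat_lit 2) E) (nat_lit 209430320138) (nat_lit 2) (N (N E (nat_lit 209430320152) (nat_lit 1) E) (nat_lit 209430320208) (nat_lit 2) E)))))
)
)
)
 (nat_lit 209430327376) (nat_lit 1) (N (N (N (N (N (N (N (N (N E (nat_lit 209430327491) (nat_lit 2) E) (nat_lit 209430327512) (nat_lit 2) (N E (nat_lit 209430328856) (nat_lit 2) E)) (nat_lit 209430778890) (nat_lit 1) (N (N E (nat_lit 209430778904) (nat_lit 0) E) (nat_lit 209430778907) (nat_lit 2) E)) (nat_lit 209430778960) (nat_lit 1) (N (N (N E (nat_lit 209430779075) (nat_lit 2) E) (nat_lit 209430779096) (nat_lit 2) E) (nat_lit 209430786128) (nat_lit 0) (N (N E (nat_lit 209430786131) (nat_lit 2) E) (nat_lit 209430786243)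 (nat_lit 1) E))) (nat_lit 209430786250) (nat_lit 2) (N (N (N (N E (nat_lit 209430786264) (nat_lit 1) E) (nat_lit 209430786691) (nat_lit 2) E) (nat_lit 209430786712) (nat_lit 2) (N (N E (nat_lit 209430787594) (nat_lit 2) E) (nat_lit 209430787608) (nat_lit 1) E)) (nat_lit 209430787664) (nat_lit 2) (N (N (N E (nat_lit 209430814800) (nat_lit 1) E) (nat_lit 209430814915) (nat_lit 2) E) (nat_lit 209430814936) (nat_lit 2) (N (N E (nat_lit 209430816280) (nat_lit 2) E) (nat_lit 209430872707) (nat_lit 2) E)))) (nat_lit 209430872728) (nat_lit 2) (N (N (N (N (N E (nat_lit 209430873610) (nat_lit 2) E) (nat_lit 209430873624) (nat_lit 1) (N E (nat_lit 209430873680) (nat_lit 2) E)) (nat_lit 209430877208) (nat_lit 2) (N (N E (nat_lit 209430884432) (nat_lit 2) E) (nat_lit 209432613898) (nat_lit 2) E)) (nat_lit 209432613912) (nat_lit 1) (N (N (N E (nat_lit 209432613968) (nat_lit 2) E) (nat_lit 209432621136) (nat_lit 1) E) (nat_lit 209432621251) (nat_lit 2) (N (N E (nat_lit 209432621272)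 (nat_lit 2) E) (nat_lit 209432622616) (nat_lit 2) E))) (nat_lit 209432649808) (nat_lit 2) (N (N (N (N E (nat_lit 209432708632) (nat_lit 2) E) (nat_lit 209436319824) (nat_lit 1) E) (nat_lit 209436319939) (nat_lit 2) (N (N E (nat_lit 209436319960) (nat_lit 2) E) (nat_lit 209436321304) (nat_lit 2) E)) (nat_lit 209436377731) (nat_lit 2) (N (N (N E (nat_lit 209436377752) (nat_lit 2) E) (nat_lit 209436378634) (nat_lit 2) E) (nat_lit 209436378648) (nat_lit 1) (N (N E (nat_lit 209436378704) (nat_lit 2) E) (nat_lit 209436382232) (nat_lit 2) E)))))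
 (nat_lit 209436389456) (nat_lit 2) (N (N (N (N (N (N E (nat_lit 209436608024) (nat_lit 2) E) (nat_lit 209437070360) (nat_lit 2) (N E (nat_lit 209437077584) (nat_lit 2) E)) (nat_lit 209547756163) (nat_lit 2) (N (N E (nat_lit 209547756184) (nat_lit 2) E) (nat_lit 209547757066) (nat_lit 2) E)) (nat_lit 209547757080) (nat_lit 1) (N (N (N E (nat_lit 209547757136) (nat_lit 2) E) (nat_lit 209547760664) (nat_lit 2) E) (nat_lit 209547767888) (nat_lit 2) (N (N E (nat_lit 209548219402) (nat_lit 2) E) (nat_lit 209548219416) (nat_lit 1) E))) (nat_lit 209548219472) (nat_lit 2) (N (N (N (N E (nat_lit 209548226640) (nat_lit 1) E) (nat_lit 209548226755) (nat_lit 2) E) (nat_lit 209548226776) (nat_lit 2) (N (N E (nat_lit 209548228120) (nat_lit 2) E) (nat_lit 209548255312) (nat_lit 2) E)) (nat_lit 209548314136) (nat_lit 2) (N (N (N E (nat_lit 209550054424) (nat_lit 2) E) (nat_lit 209550061648) (nat_lit 2) E) (nat_lit 209553760336) (nat_lit 2) (N (N E (nat_lit 209553819160) (nat_lit 2)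 E) (nat_lit 209784935434) (nat_lit 2) E)))) (nat_lit 209784935448) (nat_lit 1) (N (N (N (N (N E (nat_lit 209784935504) (nat_lit 2) E) (nat_lit 209784942672) (nat_lit 1) E) (nat_lit 209784942787) (nat_lit 2) (N (N E (nat_lit 209784942808) (nat_lit 2) E) (nat_lit 209784944152) (nat_lit 2) E)) (nat_lit 209784971344) (nat_lit 2) (N (N (N E (nat_lit 209785030168) (nat_lit 2) E) (nat_lit 209788641360) (nat_lit 1) E) (nat_lit 209788641475) (nat_lit 2) (N (N E (nat_lit 209788641496) (nat_lit 2) E) (nat_lit 209788642840) (nat_lit 2) E))) (nat_lit 209788699267) (nat_lit 2) (N (N (N (N E (nat_lit 209788699288) (nat_lit 2) E) (nat_lit 209788700170) (nat_lit 2) E) (nat_lit 209788700184) (nat_lit 1) (N (N E (nat_lit 209788700240) (nat_lit 2) E) (nat_lit 209788703768) (nat_lit 2) E)) (nat_lit 209788710992) (nat_lit 2) (N (N (N E (nat_lit 209788929560) (nat_lit 2) E) (nat_lit 209789391896) (nat_lit 2) E) (nat_lit 209789399120) (nat_lit 2) (N (N E (nat_lit 209803321424) (nat_lit 2)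 E) (nat_lit 209803380248) (nat_lit 2) E)))))
)
 (nat_lit 209832969752) (nat_lit 2) (N (N (N (N (N (N (N E (nat_lit 209833432088) (nat_lit 2) E) (nat_lit 209833439312) (nat_lit 2) (N E (nat_lit 216916861008) (nat_lit 1) E)) (nat_lit 216916861123) (nat_lit 2) (N (N E (nat_lit 216916861144) (nat_lit 2) E) (nat_lit 216916862488) (nat_lit 2) E)) (nat_lit 216916918915) (nat_lit 2) (N (N (N E (nat_lit 216916918936) (nat_lit 2) E) (nat_lit 216916919818) (nat_lit 2) E) (nat_lit 216916919832) (nat_lit 1) (N (N E (nat_lit 216916919888) (nat_lit 2) E) (nat_lit 216916923416) (nat_lit 2) E))) (nat_lit 216916930640) (nat_lit 2) (N (N (N (N E (nat_lit 216917149208) (nat_lit 2) E) (nat_lit 216917611544) (nat_lit 2) E) (nat_lit 216917618768) (nat_lit 2) (N (N E (nat_lit 216946508419) (nat_lit 2) E) (nat_lit 216946508440) (nat_lit 2) E)) (nat_lit 216946509322) (nat_lit 2) (N (N (N E (nat_lit 216946509336) (nat_lit 1) E) (nat_lit 216946509392) (nat_lit 2) E) (nat_lit 216946512920) (nat_lit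 2) (N (N E (nat_lit 216946520144) (nat_lit 2) E) (nat_lit 216946971658) (nat_lit 2) E)))) (nat_lit 216946971672) (nat_lit 1) (N (N (N (N (N E (nat_lit 216946971728) (nat_lit 2) E) (nat_lit 216946978896) (nat_lit 1) (N E (nat_lit 216946979011) (nat_lit 2) E)) (nat_lit 216946979032) (nat_lit 2) (N (N E (nat_lit 216946980376) (nat_lit 2) E) (nat_lit 216947007568) (nat_lit 2) E)) (nat_lit 216947066392) (nat_lit 2) (N (N (N E (nat_lit 216948806680) (nat_lit 2) E) (nat_lit 216948813904) (nat_lit 2) E) (nat_lit 216952512592) (nat_lit 2) (N (N E (nat_lit 216952571416) (nat_lit 2) E) (nat_lit 217063949848) (nat_lit 2) E))) (nat_lit 217064412184) (nat_lit 2) (N (N (N (N E (nat_lit 217064419408) (nat_lit 2) E) (nat_lit 217301128216) (nat_lit 2) E) (nat_lit 217301135440) (nat_lit 2) (N (N E (nat_lit 217304834128) (nat_lit 2) E) (nat_lit 217304892952) (nat_lit 2) E)) (nat_lit 232096334467) (nat_lit 2) (N (N (N E (nat_lit 232096334488) (nat_lit 2) E) (nat_lit 232096335370) (nat_lit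 2) E) (nat_lit 232096335384) (nat_lit 1) (N (N E (nat_lit 232096335440) (nat_lit 2) E) (nat_lit 232096338968) (nat_lit 2) E)))))
 (nat_lit 232096346192) (nat_lit 2) (N (N (N (N (N (N E (nat_lit 232096797706) (nat_lit 2) E) (nat_lit 232096797720) (nat_lit 1) (N E (nat_lit 232096797776) (nat_lit 2) E)) (nat_lit 232096804944) (nat_lit 1) (N (N E (nat_lit 232096805059) (nat_lit 2) E) (nat_lit 232096805080) (nat_lit 2) E)) (nat_lit 232096806424) (nat_lit 2) (N (N (N E (nat_lit 232096833616) (nat_lit 2) E) (nat_lit 232096892440) (nat_lit 2) E) (nat_lit 232098632728) (nat_lit 2) (N (N E (nat_lit 232098639952) (nat_lit 2) E) (nat_lit 232102338640) (nat_lit 2) E))) (nat_lit 232102397464) (nat_lit 2) (N (N (N (N E (nat_lit 232333513738) (nat_lit 2) E) (nat_lit 232333513752) (nat_lit 1) E) (nat_lit 232333513808) (nat_lit 2) (N (N E (nat_lit 232333520976) (nat_lit 1) E) (nat_lit 232333521091) (nat_lit 2) E)) (nat_lit 232333521112) (nat_lit 2) (N (N (N E (nat_lit 232333522456)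 (nat_lit 2) E) (nat_lit 232333549648) (nat_lit 2) E) (nat_lit 232333608472) (nat_lit 2) (N (N E (nat_lit 232337219664) (nat_lit 1) E) (nat_lit 232337219779) (nat_lit 2) E)))) (nat_lit 232337219800) (nat_lit 2) (N (N (N (N (N E (nat_lit 232337221144) (nat_lit 2) E) (nat_lit 232337277571) (nat_lit 2) E) (nat_lit 232337277592) (nat_lit 2) (N (N E (nat_lit 232337278474) (nat_lit 2) E) (nat_lit 232337278488) (nat_lit 1) E)) (nat_lit 232337278544) (nat_lit 2) (N (N (N E (nat_lit 232337282072) (nat_lit 2) E) (nat_lit 232337289296) (nat_lit 2) E) (nat_lit 232337507864) (nat_lit 2) (N (N E (nat_lit 232337970200) (nat_lit 2) E) (nat_lit 232337977424) (nat_lit 2) E))) (nat_lit 232351899728) (nat_lit 2) (N (N (N (N E (nat_lit 232351958552) (nat_lit 2) E) (nat_lit 232381548056) (nat_lit 2) E) (nat_lit 232382010392) (nat_lit 2) (N (N E (nat_lit 232382017616) (nat_lit 2) E) (nat_lit 233273037848) (nat_lit 2) E)) (nat_lit 233273045072) (nat_lit 2) (N (N (N E (nat_lit 233276743760)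 (nat_lit 2) E) (nat_lit 233276802584) (nat_lit 2) E) (nat_lit 235170472016) (nat_lit 2) (N (N E (nat_lit 235170530840) (nat_lit 2) E) (nat_lit 235200120344) (nat_lit 2) E)))))
)
)
 (nat_lit 235200582680) (nat_lit 2) (N (N (N (N (N (N (N (N E (nat_lit 235200589904) (nat_lit 2) E) (nat_lit 688539571210) (nat_lit 2) (N E (nat_lit 688539571224) (nat_lit 1) E)) (nat_lit 688539571280) (nat_lit 2) (N (N E (nat_lit 688539578448) (nat_lit 1) E) (nat_lit 688539578563) (nat_lit 2) E)) (nat_lit 688539578584) (nat_lit 2) (N (N (N E (nat_lit 688539579928) (nat_lit 2) E) (nat_lit 688539607120) (nat_lit 2) E) (nat_lit 688539665944) (nat_lit 2) (N (N E (nat_lit 688543277136) (nat_lit 1) E) (nat_lit 688543277251) (nat_lit 2) E))) (nat_lit 688543277272) (nat_lit 2) (N (N (N (N E (nat_lit 688543278616) (nat_lit 2) E) (nat_lit 688543335043) (nat_lit 2) E) (nat_lit 688543335064) (nat_lit 2) (N (N E (nat_lit 688543335946) (nat_lit 2) E) (nat_lit 688543335960) (nat_lit 1) E)) (nat_lit 688543336016)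 (nat_lit 2) (N (N (N E (nat_lit 688543339544) (nat_lit 2) E) (nat_lit 688543346768) (nat_lit 2) E) (nat_lit 688543565336) (nat_lit 2) (N (N E (nat_lit 688544027672) (nat_lit 2) E) (nat_lit 688544034896) (nat_lit 2) E)))) (nat_lit 688557957200) (nat_lit 2) (N (N (N (N (N E (nat_lit 688558016024) (nat_lit 2) E) (nat_lit 688587605528) (nat_lit 2) (N E (nat_lit 688588067864) (nat_lit 2) E)) (nat_lit 688588075088) (nat_lit 2) (N (N E (nat_lit 690437005392) (nat_lit 1) E) (nat_lit 690437005507) (nat_lit 2) E)) (nat_lit 690437005528) (nat_lit 2) (N (N (N E (nat_lit 690437006872) (nat_lit 2) E) (nat_lit 690437063299) (nat_lit 2) E) (nat_lit 690437063320) (nat_lit 2) (N (N E (nat_lit 690437064202) (nat_lit 2) E) (nat_lit 690437064216) (nat_lit 1) E))) (nat_lit 690437064272) (nat_lit 2) (N (N (N (N E (nat_lit 690437067800) (nat_lit 2) E) (nat_lit 690437075024) (nat_lit 2) E) (nat_lit 690437293592) (nat_lit 2) (N (N E (nat_lit 690437755928) (nat_lit 2) E) (nat_lit 690437763152)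 (nat_lit 2) E)) (nat_lit 690466652803) (nat_lit 2) (N (N (N E (nat_lit 690466652824) (nat_lit 2) E) (nat_lit 690466653706) (nat_lit 2) E) (nat_lit 690466653720) (nat_lit 1) (N (N E (nat_lit 690466653776) (nat_lit 2) E) (nat_lit 690466657304) (nat_lit 2) E)))))
 (nat_lit 690466664528) (nat_lit 2) (N (N (N (N (N (N E (nat_lit 690467116042) (nat_lit 2) E) (nat_lit 690467116056) (nat_lit 1) (N E (nat_lit 690467116112) (nat_lit 2) E)) (nat_lit 690467123280) (nat_lit 1) (N (N E (nat_lit 690467123395) (nat_lit 2) E) (nat_lit 690467123416) (nat_lit 2) E)) (nat_lit 690467124760) (nat_lit 2) (N (N (N E (nat_lit 690467151952) (nat_lit 2) E) (nat_lit 690467210776) (nat_lit 2) E) (nat_lit 690468951064) (nat_lit 2) (N (N E (nat_lit 690468958288) (nat_lit 2) E) (nat_lit 690472656976) (nat_lit 2) E))) (nat_lit 690472715800) (nat_lit 2) (N (N (N (N E (nat_lit 690584094232) (nat_lit 2) E) (nat_lit 690584556568) (nat_lit 2) E) (nat_lit 690584563792) (nat_lit 2) (N (N E (nat_lit 690821272600)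 (nat_lit 2) E) (nat_lit 690821279824) (nat_lit 2) E)) (nat_lit 690824978512) (nat_lit 2) (N (N (N E (nat_lit 690825037336) (nat_lit 2) E) (nat_lit 697953198160) (nat_lit 2) E) (nat_lit 697953256984) (nat_lit 2) (N (N E (nat_lit 697982846488) (nat_lit 2) E) (nat_lit 697983308824) (nat_lit 2) E)))) (nat_lit 697983316048) (nat_lit 2) (N (N (N (N (N E (nat_lit 713132672536) (nat_lit 2) E) (nat_lit 713133134872) (nat_lit 2) E) (nat_lit 713133142096) (nat_lit 2) (N (N E (nat_lit 713369850904) (nat_lit 2) E) (nat_lit 713369858128) (nat_lit 2) E)) (nat_lit 713373556816) (nat_lit 2) (N (N (N E (nat_lit 713373615640) (nat_lit 2) E) (nat_lit 1660025872464) (nat_lit 1) E) (nat_lit 1660025872579) (nat_lit 2) (N (N E (nat_lit 1660025872600) (nat_lit 2) E) (nat_lit 1660025873944) (nat_lit 2) E))) (nat_lit 1660025930371) (nat_lit 2) (N (N (N (N E (nat_lit 1660025930392) (nat_lit 2) E) (nat_lit 1660025931274) (nat_lit 2) E) (nat_lit 1660025931288) (nat_lit 1) (N (N E (nat_lit 1660025931344)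 (nat_lit 2) E) (nat_lit 1660025934872) (nat_lit 2) E)) (nat_lit 1660025942096) (nat_lit 2) (N (N (N E (nat_lit 1660026160664) (nat_lit 2) E) (nat_lit 1660026623000) (nat_lit 2) E) (nat_lit 1660026630224) (nat_lit 2) (N (N E (nat_lit 1660055519875) (nat_lit 2) E) (nat_lit 1660055519896) (nat_lit 2) E)))))
)
 (nat_lit 1660055520778) (nat_lit 2) (N (N (N (N (N (N (N E (nat_lit 1660055520792) (nat_lit 1) E) (nat_lit 1660055520848) (nat_lit 2) (N E (nat_lit 1660055524376) (nat_lit 2) E)) (nat_lit 1660055531600) (nat_lit 2) (N (N E (nat_lit 1660055983114) (nat_lit 2) E) (nat_lit 1660055983128) (nat_lit 1) E)) (nat_lit 1660055983184) (nat_lit 2) (N (N (N E (nat_lit 1660055990352) (nat_lit 1) E) (nat_lit 1660055990467) (nat_lit 2) E) (nat_lit 1660055990488) (nat_lit 2) (N (N E (nat_lit 1660055991832) (nat_lit 2) E) (nat_lit 1660056019024) (nat_lit 2) E))) (nat_lit 1660056077848) (nat_lit 2) (N (N (N (N E (nat_lit 1660057818136) (nat_lit 2) E) (nat_lit 1660057825360) (nat_lit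 2) E) (nat_lit 1660061524048) (nat_lit 2) (N (N E (nat_lit 1660061582872) (nat_lit 2) E) (nat_lit 1660172961304) (nat_lit 2) E)) (nat_lit 1660173423640) (nat_lit 2) (N (N (N E (nat_lit 1660173430864) (nat_lit 2) E) (nat_lit 1660410139672) (nat_lit 2) E) (nat_lit 1660410146896) (nat_lit 2) (N (N E (nat_lit 1660413845584) (nat_lit 2) E) (nat_lit 1660413904408) (nat_lit 2) E)))) (nat_lit 1675205345923) (nat_lit 2) (N (N (N (N (N E (nat_lit 1675205345944) (nat_lit 2) E) (nat_lit 1675205346826) (nat_lit 2) E) (nat_lit 1675205346840) (nat_lit 1) (N (N E (nat_lit 1675205346896) (nat_lit 2) E) (nat_lit 1675205350424) (nat_lit 2) E)) (nat_lit 1675205357648) (nat_lit 2) (N (N (N E (nat_lit 1675205809162) (nat_lit 2) E) (nat_lit 1675205809176) (nat_lit 1) E) (nat_lit 1675205809232) (nat_lit 2) (N (N E (nat_lit 1675205816400) (nat_lit 1) E) (nat_lit 1675205816515) (nat_lit 2) E))) (nat_lit 1675205816536) (nat_lit 2) (N (N (N (N E (nat_lit 1675205817880) (nat_lit 2) E) (nat_lit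 1675205845072) (nat_lit 2) E) (nat_lit 1675205903896) (nat_lit 2) (N (N E (nat_lit 1675207644184) (nat_lit 2) E) (nat_lit 1675207651408) (nat_lit 2) E)) (nat_lit 1675211350096) (nat_lit 2) (N (N (N E (nat_lit 1675211408920) (nat_lit 2) E) (nat_lit 1675442525194) (nat_lit 2) E) (nat_lit 1675442525208) (nat_lit 1) (N (N E (nat_lit 1675442525264) (nat_lit 2) E) (nat_lit 1675442532432) (nat_lit 1) E)))))
 (nat_lit 1675442532547) (nat_lit 2) (N (N (N (N (N (N E (nat_lit 1675442532568) (nat_lit 2) E) (nat_lit 1675442533912) (nat_lit 2) (N E (nat_lit 1675442561104) (nat_lit 2) E)) (nat_lit 1675442619928) (nat_lit 2) (N (N E (nat_lit 1675446231120) (nat_lit 1) E) (nat_lit 1675446231235) (nat_lit 2) E)) (nat_lit 1675446231256) (nat_lit 2) (N (N (N E (nat_lit 1675446232600) (nat_lit 2) E) (nat_lit 1675446289027) (nat_lit 2) E) (nat_lit 1675446289048) (nat_lit 2) (N (N E (nat_lit 1675446289930) (nat_lit 2) E) (nat_lit 1675446289944) (nat_lit 1) E))) (nat_lit 1675446290000) (nat_lit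 2) (N (N (N (N E (nat_lit 1675446293528) (nat_lit 2) E) (nat_lit 1675446300752) (nat_lit 2) E) (nat_lit 1675446519320) (nat_lit 2) (N (N E (nat_lit 1675446981656) (nat_lit 2) E) (nat_lit 1675446988880) (nat_lit 2) E)) (nat_lit 1675460911184) (nat_lit 2) (N (N (N E (nat_lit 1675460970008) (nat_lit 2) E) (nat_lit 1675490559512) (nat_lit 2) E) (nat_lit 1675491021848) (nat_lit 2) (N (N E (nat_lit 1675491029072) (nat_lit 2) E) (nat_lit 1676382049304) (nat_lit 2) E)))) (nat_lit 1676382056528) (nat_lit 2) (N (N (N (N (N E (nat_lit 1676385755216) (nat_lit 2) E) (nat_lit 1676385814040) (nat_lit 2) E) (nat_lit 1678279483472) (nat_lit 2) (N (N E (nat_lit 1678279542296) (nat_lit 2) E) (nat_lit 1678309131800) (nat_lit 2) E)) (nat_lit 1678309594136) (nat_lit 2) (N (N (N E (nat_lit 1678309601360) (nat_lit 2) E) (nat_lit 1735334888984) (nat_lit 2) E) (nat_lit 1735335351320) (nat_lit 2) (N (N E (nat_lit 1735335358544) (nat_lit 2) E) (nat_lit 1735572067352) (nat_lit 2) E))) (nat_lit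 1735572074576) (nat_lit 2) (N (N (N (N E (nat_lit 1735575773264) (nat_lit 2) E) (nat_lit 1735575832088) (nat_lit 2) E) (nat_lit 1856770675736) (nat_lit 2) (N (N E (nat_lit 1856770682960) (nat_lit 2) E) (nat_lit 1856774381648) (nat_lit 2) E)) (nat_lit 1856774440472) (nat_lit 2) (N (N (N E (nat_lit 1858668109904) (nat_lit 2) E) (nat_lit 1858668168728) (nat_lit 2) E) (nat_lit 1858697758232) (nat_lit 2) (N (N E (nat_lit 1858698220568) (nat_lit 2) E) (nat_lit 1858698227792) (nat_lit 2) E)))))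
)
)
)
)


end Pool.Agent.L5helper11.GP
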