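import Mathlib
import Pool.Agent.L5helper11.GP.Def

/-!
Soundness of the searches.
-/

set_option autoImplicit false

namespace Pool.Agent.L5helper11.GP

/-! ## Search trees -/

theorem look_mono {t : Tr} {k v v' : ℕ} (h : t.look k v = true) (hv : v ≤ v') : t.look k v' = true := by
  induction t with
  | E => simp [Tr.look] at h
  | N l k' w r ihl ihr =>
    simp only [Tr.look] at h ⊢
    cases h1 : Nat.beq k k' with
    | true =>
      rw [h1] at h
      simp only [cond_true] at h ⊢
      rw [Nat.ble_eq] at h ⊢
      omega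
    | false =>
      rw [h1] at h
      simp only [cond_false] at h ⊢
      cases h2 : Nat.ble k k' with
      | true => rw [h2] at h; exact ihl h
      | false => rw [h2] at h; exact ihr h

theorem all_sound {f : ℕ → ℕ → Bool} {t : Tr} {k v : ℕ} (ha : t.all f = true) (h : t.look k v = true) :
    ∃ v', v' ≤ v ∧ f k v' = true := by
  induction t with
  | E => simp [Tr.look] at h
  | N l k' w r ihl ihr =>
    simp only [Tr.all] at ha
    simp only [Tr.look] at h
    have hf : f k' w = true ∧ l.all f = true ∧ r.all f = true := by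
      cases h1 : f k' w <;> cases h2 : l.all f <;> cases h3 : r.all f <;> simp_all
    cases h1 : Nat.beq k k' with
    | true =>
      rw [h1] at h
      have h2 := Nat.eq_of_beq_eq_true h1
      subst h2
      simp only [cond_true, Nat.ble_eq] at h
      exact ⟨w, h, hf.1⟩
    | false =>
      rw [h1] at h
      simp only [cond_false] at h
      cases h2 : Nat.ble k k' with
      | true => rw [h2] at h; exact ihl hf.2.1 h
      | false => rw [h2] at h; exact ihr hf.2.2 h

/-! ## Codes -/

/-- The code of a word. -/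
def code (nm : C → ℕ) (w : List C) : ℕ := w.foldl (fun a c => a * 8 + nm c) 0

theorem toC_num (c : C) : toC (num c) = c := by cases c <;> rfl

theorem num_lt (c : C) : num c < 8 := by cases c <;> decide

theorem wd_code (f : List C → Bool) (k : ℕ) : ∀ (w : List C) (i : ℕ) (a : List C), k / 8 ^ i = code num w →
    wd k f w.length i a = f (w ++ a) := by
  intro w
  induction w using List.reverseRecOn with
  | nil => intro i a _; rfl
  | append_singleton w c ih =>
    intro i a hk
    have h0 : code num (w ++ [c]) = code num w * 8 + num c := by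
      simp [code, List.foldl_append]
    have hc := num_lt c
    have h1 : k / 8 ^ i % 8 = num c := by rw [hk, h0]; omega
    have h2 : k / 8 ^ (i + 1) = code num w := by
      rw [pow_succ, ← Nat.div_div_eq_div_mul, hk, h0]; omega
    have h3 : wd k f (w ++ [c]).length i a = wd k f w.length (i + 1) (c :: a) := by
      rw [List.length_append, List.length_singleton]
      have h4 : wd k f (w.length + 1) i a = C.rec (motive := fun _ => Bool)
        (wd k f w.length (i + 1) (C.O :: a)) (wd k f w.length (i + 1) (C.L :: a))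
        (wd k f w.length (i + 1) (C.R :: a)) (wd k f w.length (i + 1) (C.T :: a))
        (wd k f w.length (i + 1) (C.B :: a)) (toC (k / 8 ^ i % 8)) := rfl
      rw [h4, h1, toC_num]
      cases c <;> rfl
    rw [h3, ih (i + 1) (c :: a) h2]
    simp

/-! ## The search -/

/-- An option occurs in a list. -/
def Op.has (c : C) (q : Q) (b : Bd) : Op → Bool
  | Op.nil => false
  | Op.cons c' q' b' r => (decide (c = c') && decide (q = q') && decide (b = b')) || Op.has c q b r

theorem run_has {nm : C → ℕ} {f : Q → Bd → ℕ → Bool} {acc : ℕ} {o : Op} (h : Op.run nm f acc o = true)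
    {c : C} {q : Q} {b : Bd} (hh : o.has c q b = true) : f q b (acc * 8 + nm c) = true := by
  induction o with
  | nil => simp [Op.has] at hh
  | cons c' q' b' r ih =>
    simp only [Op.run] at h
    simp only [Op.has, Bool.or_eq_true, Bool.and_eq_true, decide_eq_true_eq] at hh
    have h1 : f q' b' (acc * 8 + nm c') = true ∧ Op.run nm f acc r = true := by
      have h2 : Nat.add (Nat.mul acc 8) (nm c') = acc * 8 + nm c' := rfl
      have h3 : (nat_lit 8 : ℕ) = 8 := rfl
      rw [h3, h2] at h
      clear ih hh h2 h3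
      revert h
      generalize f q' b' (acc * 8 + nm c') = u
      generalize Op.run nm f acc r = w
      cases u <;> cases w <;> simp
    rcases hh with ⟨⟨rfl, rfl⟩, rfl⟩ | hh
    · exact h1.1
    · exact ih h1.2 hh

/-- The memory after a column with old letter `x` and new letter `y`. -/
def mem (x y : C) : Q :=
  match y with
  | C.L => match x with
    | C.O => Q.P
    | _ => Q.M
  | C.O => Q.H
  | _ => Q.N

/-- A table is complete for a rule `ok` and costs `c`. -/
def Complete (tb : Q → C → Bd → Op) (ok : Q → C → C → Prop) (c : Q → C → C → ℕ) : Prop :=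
  ∀ q x y b, ok q x y → c q x y ≤ b.val → ∃ b' : Bd, b'.val + c q x y = b.val ∧ (tb q x b).has y (mem x y) b' = true

theorem go_sound {tb : Q → C → Bd → Op} {ok : Q → C → C → Prop} {c : Q → C → C → ℕ} (hc : Complete tb ok c)
    (nm : C → ℕ) (leaf : Q → Bd → ℕ → Bool) (f g : ℕ → C) : ∀ (k j : ℕ) (b : Bd) (acc : ℕ),
    (∀ i, j ≤ i → i < j + k → ok (mem (f i) (g i)) (f (i + 1)) (g (i + 1))) →
    go tb nm leaf ((List.range' (j + 1) k).map f) (mem (f j) (g j)) b acc = true →
    ∑ i ∈ Finset.range k, c (mem (f (j + i)) (g (j + i))) (f (j + i + 1)) (g (j + i + 1)) ≤ b.val →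
    ∃ b' : Bd, b'.val + ∑ i ∈ Finset.range k, c (mem (f (j + i)) (g (j + i))) (f (j + i + 1)) (g (j + i + 1)) = b.val ∧
      leaf (mem (f (j + k)) (g (j + k))) b' (((List.range' (j + 1) k).map g).foldl (fun a c => a * 8 + nm c) acc)
        = true := by
  intro k
  induction k with
  | zero =>
    intro j b acc _ h _
    refine ⟨b, by simp, ?_⟩
    simpa [go] using h
  | succ k ih =>
    intro j b acc hok h hs
    have e1 : ∀ i, j + (i + 1) = j + 1 + i := by intro i; omega
    have e2 : ∑ i ∈ Finset.range (k + 1), c (mem (f (j + i)) (g (j + i))) (f (j + i + 1)) (g (j + i + 1)) =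
        ∑ i ∈ Finset.range k, c (mem (f (j + 1 + i)) (g (j + 1 + i))) (f (j + 1 + i + 1)) (g (j + 1 + i + 1)) +
          c (mem (f j) (g j)) (f (j + 1)) (g (j + 1)) := by
      rw [Finset.sum_range_succ']
      congr 1
      refine Finset.sum_congr rfl fun i _ => ?_
      rw [e1 i]
    rw [e2] at hs ⊢
    obtain ⟨b1, hb1, hb2⟩ := hc (mem (f j) (g j)) (f (j + 1)) (g (j + 1)) b (hok j le_rfl (by omega)) (by omega)
    have h1 : go tb nm leaf ((List.range' (j + 1) (k + 1)).map f) (mem (f j) (g j)) b acc =
        Op.run nm (go tb nm leaf ((List.range' (j + 1 + 1) k).map f)) acc (tb (mem (f j) (g j)) (f (j + 1)) b) := rfl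
    rw [h1] at h
    have h2 := run_has h hb2
    obtain ⟨b2, hb3, hb4⟩ := ih (j + 1) b1 (acc * 8 + nm (g (j + 1)))
      (fun i hi1 hi2 => hok i (by omega) (by omega)) h2 (by omega)
    refine ⟨b2, ?_, ?_⟩
    · omega
    · have h3 : j + (k + 1) = j + 1 + k := by omega
      rw [h3]
      exact hb4

/-! ## The three rules -/

instance : Fintype C := ⟨{C.O, C.L, C.R, C.T, C.B}, by intro c; cases c <;> decide⟩
instance : Fintype Q := ⟨{Q.N, Q.H, Q.P, Q.M}, by intro c; cases c <;> decide⟩
instance : Fintype Bd := ⟨{Bd.b0, Bd.b1, Bd.b2, Bd.b3, Bd.b4}, by intro c; cases c <;> decide⟩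

/-- Rule for two rows. -/
def okA (q : Q) (x y : C) : Prop :=
  (x = C.T ↔ y = C.B) ∧ ¬ (x = C.O ∧ y = C.O) ∧ ¬ (q = Q.H ∧ y = C.O) ∧ ((q = Q.P ∨ q = Q.M) ↔ y = C.R)

instance (q : Q) (x y : C) : Decidable (okA q x y) := by unfold okA; infer_instance

/-- Costs for two rows. -/
def cA (q : Q) (x y : C) : ℕ :=
  (if y = C.T ∧ x ≠ C.O then 1 else 0) + (if y = C.R ∧ q = Q.M ∧ x ≠ C.O then 1 else 0) +
    (if x = C.B ∧ y ≠ C.O then 1 else 0) + (if x = C.R ∧ y ≠ C.O ∧ q ≠ Q.H then 1 else 0)

/-- Rule for the last row. -/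
def okE (q : Q) (x y : C) : Prop := okA q x y ∧ y ≠ C.T

instance (q : Q) (x y : C) : Decidable (okE q x y) := by unfold okE; infer_instance

/-- Costs for the last row. -/
def cE (q : Q) (x y : C) : ℕ := cA q x y + (if (y = C.B ∨ y = C.L) ∧ q ≠ Q.H then 1 else 0)

/-- Rule for the first row. -/
def okF (q : Q) (x y : C) : Prop := x = C.O ∧ y ≠ C.B ∧ ¬ (q = Q.H ∧ y = C.O) ∧ ((q = Q.P ∨ q = Q.M) ↔ y = C.R)

instance (q : Q) (x y : C) : Decidable (okF q x y) := by unfold okF; infer_instance

/-- Costs for the first row. -/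
def cF (q : Q) (_ y : C) : ℕ := if (y = C.T ∨ y = C.L) ∧ q ≠ Q.H then 1 else 0

set_option maxRecDepth 10000 in
theorem complete_A : Complete tblA okA cA := by unfold Complete; decide +kernel

set_option maxRecDepth 10000 in
theorem complete_E : Complete tblE okE cE := by unfold Complete; decide +kernel

set_option maxRecDepth 10000 in
theorem complete_F : Complete tblF okF cF := by unfold Complete; decide +kernel

theorem bud2_val {v : ℕ} : (bud2 v).val = 2 - v := by
  rcases v with _ | _ | v <;> simp [bud2, Bd.val]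

theorem bud3_val {v : ℕ} : (bud3 v).val = 3 - v := by
  rcases v with _ | _ | _ | v <;> simp [bud3, Bd.val]

theorem bud4_val {v : ℕ} : (bud4 v).val = 4 - v := by
  rcases v with _ | _ | _ | _ | v <;> simp [bud4, Bd.val]

theorem force_eq (k : ℕ) (f : ℕ → Bool) : force k f = f k := by cases k <;> rfl

end Pool.Agent.L5helper11.GP
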